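import Mathlib

set_option autoImplicit false

namespace Pool.Agent.Helper344.CL

variable {α β σ γ : Type*} [Primcodable α] [Primcodable β] [Primcodable σ] [Primcodable γ]

theorem foldl_eq_rec {β σ : Type*} (h : σ → β → σ) (s : σ) (l : List β) (n : ℕ) :
    (Nat.rec (motive := fun _ => σ) s
      (fun n IH => Option.casesOn (motive := fun _ => σ) (l[n]?) IH (fun b => h IH b)) n : σ)
      = (l.take n).foldl h s := by
  induction n with
  | zero => simp
  | succ n ih =>
    simp only [ih]
    rw [List.take_add_one, List.foldl_append]
    cases hl : l[n]? with
    | none => simp
    | some b => simp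

theorem list_foldl {f : α → List β} {g : α → σ} {h : α → σ × β → σ} (hf : Computable f)
    (hg : Computable g) (hh : Computable₂ h) :
    Computable (fun a => (f a).foldl (fun s b => h a (s, b)) (g a)) := by
  have h1 : Computable₂ (fun (a : α) (p : ℕ × σ) =>
      (Option.casesOn (motive := fun _ => σ) ((f a)[p.1]?) p.2 (fun b => h a (p.2, b)) : σ)) := by
    refine Computable.option_casesOn (o := fun q : α × (ℕ × σ) => (f q.1)[q.2.1]?)
      (f := fun q => q.2.2) (g := fun q b => h q.1 (q.2.2, b)) ?_ ?_ ?_
    · exact Computable.list_getElem?.comp (hf.comp Computable.fst) (Computable.fst.comp Computable.snd)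
    · exact Computable.snd.comp Computable.snd
    · exact hh.comp (Computable.fst.comp Computable.fst)
        ((Computable.snd.comp (Computable.snd.comp Computable.fst)).pair Computable.snd)
  refine (Computable.nat_rec (Computable.list_length.comp hf) hg h1).of_eq fun a => ?_
  have := foldl_eq_rec (fun s b => h a (s, b)) (g a) (f a) (f a).length
  rw [List.take_length] at this
  exact this

theorem list_any {f : α → List β} {p : α → β → Bool} (hf : Computable f) (hp : Computable₂ p) :
    Computable (fun a => (f a).any (p a)) := by
  have hh : Computable₂ (fun (a : α) (q : Bool × β) => q.1 || p a q.2) :=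
    (Primrec.or.to_comp).comp (Computable.fst.comp Computable.snd)
      (hp.comp Computable.fst (Computable.snd.comp Computable.snd))
  refine (list_foldl hf (Computable.const false) hh).of_eq fun a => ?_
  have : ∀ (l : List β) (s : Bool), l.foldl (fun s b => s || p a b) s = (s || l.any (p a)) := by
    intro l
    induction l with
    | nil => intro s; simp
    | cons b l ih => intro s; simp [ih, Bool.or_assoc]
  simpa using this (f a) false

theorem list_all {f : α → List β} {p : α → β → Bool} (hf : Computable f) (hp : Computable₂ p) :
    Computable (fun a => (f a).all (p a)) := by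
  have hh : Computable₂ (fun (a : α) (q : Bool × β) => q.1 && p a q.2) :=
    (Primrec.and.to_comp).comp (Computable.fst.comp Computable.snd)
      (hp.comp Computable.fst (Computable.snd.comp Computable.snd))
  refine (list_foldl hf (Computable.const true) hh).of_eq fun a => ?_
  have : ∀ (l : List β) (s : Bool), l.foldl (fun s b => s && p a b) s = (s && l.all (p a)) := by
    intro l
    induction l with
    | nil => intro s; simp
    | cons b l ih => intro s; simp [ih, Bool.and_assoc]
  simpa using this (f a) true

theorem list_map {f : α → List β} {g : α → β → σ} (hf : Computable f) (hg : Computable₂ g) :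
    Computable (fun a => (f a).map (g a)) := by
  have hh : Computable₂ (fun (a : α) (q : List σ × β) => q.1 ++ [g a q.2]) :=
    Computable.list_concat.comp (Computable.fst.comp Computable.snd)
      (hg.comp Computable.fst (Computable.snd.comp Computable.snd))
  refine (list_foldl hf (Computable.const []) hh).of_eq fun a => ?_
  have : ∀ (l : List β) (s : List σ), l.foldl (fun s b => s ++ [g a b]) s = s ++ l.map (g a) := by
    intro l
    induction l with
    | nil => intro s; simp
    | cons b l ih => intro s; simp [ih]
  simpa using this (f a) []

theorem list_findSome? {f : α → List β} {g : α → β → Option σ} (hf : Computable f)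
    (hg : Computable₂ g) : Computable (fun a => (f a).findSome? (g a)) := by
  have hh : Computable₂ (fun (a : α) (q : Option σ × β) =>
      (Option.casesOn (motive := fun _ => Option σ) q.1 (g a q.2) (fun s => some s) : Option σ)) := by
    refine Computable.option_casesOn (o := fun q : α × (Option σ × β) => q.2.1)
      (f := fun q => g q.1 q.2.2) (g := fun q s => some s) ?_ ?_ ?_
    · exact Computable.fst.comp Computable.snd
    · exact hg.comp Computable.fst (Computable.snd.comp Computable.snd)
    · exact Computable.option_some.comp Computable.snd
  refine (list_foldl hf (Computable.const none) hh).of_eq fun a => ?_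
  have hs : ∀ (l : List β) (s : σ), l.foldl (fun (s : Option σ) b =>
      (Option.casesOn (motive := fun _ => Option σ) s (g a b) (fun s => some s) : Option σ))
      (some s) = some s := by
    intro l
    induction l with
    | nil => intro s; simp
    | cons b l ih => intro s; simpa using ih s
  have : ∀ (l : List β), l.foldl (fun (s : Option σ) b =>
      (Option.casesOn (motive := fun _ => Option σ) s (g a b) (fun s => some s) : Option σ)) none
      = l.findSome? (g a) := by
    intro l
    induction l with
    | nil => simp
    | cons b l ih =>
      rw [List.foldl_cons, List.findSome?_cons]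
      show List.foldl _ (g a b) l = _
      cases hb : g a b with
      | none => simpa using ih
      | some s => simpa using hs l s
  simpa using this (f a)

/-- Least `n` with a computable total test, as a computable function. -/
theorem find_comp {p : α → ℕ → Bool} (hp : Computable₂ p) (h : ∀ a, ∃ n, p a n = true) :
    Computable (fun a => Nat.find (h a)) := by
  have h1 : Partrec (fun a => Nat.rfind (fun n => Part.some (p a n))) :=
    Partrec.rfind hp.partrec₂
  refine Partrec.of_eq_tot h1 fun a => ?_
  refine Nat.mem_rfind.2 ⟨Part.mem_some_iff.2 (Nat.find_spec (h a)).symm, ?_⟩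
  intro m hm
  refine Part.mem_some_iff.2 ?_
  have := Nat.find_min (h a) hm
  simpa using this

theorem decide_lt' : Computable₂ (fun a b : ℕ => decide (a < b)) :=
  Primrec₂.to_comp (Primrec.nat_lt.decide)

theorem decide_le' : Computable₂ (fun a b : ℕ => decide (a ≤ b)) :=
  Primrec₂.to_comp (Primrec.nat_le.decide)

theorem decide_eq' {α : Type*} [Primcodable α] [DecidableEq α] : Computable₂ (fun a b : α => decide (a = b)) :=
  Primrec₂.to_comp (Primrec.eq.decide)

end Pool.Agent.Helper344.CL
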