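import Mathlib
import Pool.Agent.Helper344.CompList

set_option autoImplicit false

namespace Pool.Agent.Helper344.Blum

open Nat.Partrec (Code)

/-- The initial segment of length `n` of the oracle `X`, a finite string of bits. -/
def restr (X : ℕ → Bool) (n : ℕ) : List Bool := (List.range n).map X

/-- `F` is a partial recursive functional of an oracle `X` and a number `x` (one oracle program
for all oracles): its graph is given by an r.e. set `W` of axioms `(σ, x, y)`, where `σ` is a finite
initial segment of the oracle. -/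
def IsFunctional (F : (ℕ → Bool) → ℕ →. ℕ) : Prop :=
  ∃ W : List Bool × ℕ × ℕ → Prop, REPred W ∧
    ∀ (X : ℕ → Bool) (x y : ℕ), y ∈ F X x ↔ ∃ n : ℕ, W (restr X n, x, y)

/-- A relative Blum measure. Oracles are characteristic functions `X : ℕ → Bool`. -/
structure RelBlum where
  /-- the numbering `φ_i^X` -/
  φ : ℕ → (ℕ → Bool) → ℕ →. ℕ
  /-- the complexity functionals `Φ_i^X` -/
  Φ : ℕ → (ℕ → Bool) → ℕ →. ℕ
  /-- the numbering is uniformly partial recursive in the oracle -/
  universal : IsFunctional (fun X p => φ p.unpair.1 X p.unpair.2)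
  /-- the numbering is acceptable: every uniformly partial recursive sequence of functionals
  is computably translated into it (s-m-n) -/
  acceptable : ∀ F : (ℕ → Bool) → ℕ →. ℕ, IsFunctional F →
    ∃ s : ℕ → ℕ, Computable s ∧ ∀ (e : ℕ) (X : ℕ → Bool) (x : ℕ), φ (s e) X x = F X (Nat.pair e x)
  /-- the `Φ_i^X` are uniformly partial recursive in the oracle -/
  functional : IsFunctional (fun X p => Φ p.unpair.1 X p.unpair.2)
  /-- `φ_i^X(x)` is defined iff `Φ_i^X(x)` is -/
  dom : ∀ (i : ℕ) (X : ℕ → Bool) (x : ℕ), (φ i X x).Dom ↔ (Φ i X x).Dom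
  /-- `Φ_i^X(x) = y` is decidable relative to `X`, uniformly -/
  decidable : ∃ D : (ℕ → Bool) → ℕ → ℕ, IsFunctional (fun X p => Part.some (D X p)) ∧
    ∀ (i : ℕ) (X : ℕ → Bool) (x y : ℕ), D X (Nat.pair i (Nat.pair x y)) = 1 ↔ y ∈ Φ i X x

/-! ### Generalities -/

theorem restr_length (X : ℕ → Bool) (n : ℕ) : (restr X n).length = n := by simp [restr]

theorem restr_take (X : ℕ → Bool) {m n : ℕ} (h : m ≤ n) : (restr X n).take m = restr X m := by
  rw [restr, ← List.map_take, List.take_range, Nat.min_eq_left h, restr]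

theorem restr_prefix (X : ℕ → Bool) {m n : ℕ} (h : m ≤ n) : restr X m <+: restr X n := by
  rw [← restr_take X h]; exact List.take_prefix _ _

theorem restr_getElem? (X : ℕ → Bool) {m n : ℕ} (h : m < n) : (restr X n)[m]? = some (X m) := by
  simp [restr, h]

/-- extension of a string by `false` -/
def ext (τ : List Bool) : ℕ → Bool := fun n => (τ[n]?).getD false

theorem restr_ext (τ : List Bool) : restr (ext τ) τ.length = τ := by
  apply List.ext_getElem?
  intro i
  by_cases h : i < τ.length
  · rw [restr_getElem? _ h]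
    simp [ext, h]
  · rw [List.getElem?_eq_none (by rw [restr_length]; omega), List.getElem?_eq_none (by omega)]

theorem eq_restr_of_prefix {X : ℕ → Bool} {σ : List Bool} {n : ℕ} (h : σ <+: restr X n) :
    σ = restr X σ.length := by
  have h1 := List.prefix_iff_eq_take.1 h
  have h2 : σ.length ≤ n := by simpa [restr_length] using h.length_le
  rw [restr_take X h2] at h1
  exact h1

theorem re_of_exists {α : Type*} [Primcodable α] (c : α → ℕ → Bool) (hc : Computable₂ c) :
    REPred (fun a => ∃ k, c a k = true) := by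
  have h : Partrec (fun a => (Nat.rfind (fun k => Part.some (c a k))).map (fun _ => ())) :=
    (Partrec.rfind hc.partrec₂).map ((Computable.const ()).to₂)
  refine h.of_eq fun a => ?_
  have hdom : (Nat.rfind (fun k => (Part.some (c a k) : Part Bool))).Dom ↔ ∃ k, c a k = true := by
    refine Nat.rfind_dom.trans ?_
    constructor
    · rintro ⟨n, hn, _⟩
      exact ⟨n, (Part.mem_some_iff.1 hn).symm⟩
    · rintro ⟨n, hn⟩
      exact ⟨n, Part.mem_some_iff.2 hn.symm, fun _ => trivial⟩
  apply Part.ext'
  · constructor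
    · intro hd
      exact ⟨hdom.1 hd, trivial⟩
    · rintro ⟨hd, _⟩
      exact hdom.2 hd
  · intro _ _; rfl

theorem code_of_re {α : Type*} [Primcodable α] {p : α → Prop} (hp : REPred p) :
    ∃ c : Code, ∀ a, p a ↔ ∃ k, (Code.evaln k c (Encodable.encode a)).isSome = true := by
  obtain ⟨c, hc⟩ := Code.exists_code.1 hp
  refine ⟨c, fun a => ?_⟩
  have h1 : p a ↔ (Code.eval c (Encodable.encode a)).Dom := by
    rw [hc]
    simp [Part.assert]
  rw [h1, Part.dom_iff_mem]
  constructor
  · rintro ⟨y, hy⟩
    obtain ⟨k, hk⟩ := Code.evaln_complete.1 hy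
    exact ⟨k, by rw [Option.mem_def.1 hk]; rfl⟩
  · rintro ⟨k, hk⟩
    obtain ⟨y, hy⟩ := Option.isSome_iff_exists.1 hk
    exact ⟨y, Code.evaln_sound hy⟩

/-- stage approximation of an r.e. set of axioms -/
def acc (c : Code) (τ : List Bool) (x y : ℕ) : Bool :=
  (List.range (τ.length + 1)).any
    (fun n => (Code.evaln τ.length c (Encodable.encode (τ.take n, x, y))).isSome)

theorem acc_mono (c : Code) {σ τ : List Bool} (h : σ <+: τ) (x y : ℕ) (ha : acc c σ x y = true) :
    acc c τ x y = true := by
  simp only [acc, List.any_eq_true, List.mem_range] at ha ⊢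
  obtain ⟨n, hn, hs⟩ := ha
  have hl := h.length_le
  refine ⟨n, by omega, ?_⟩
  have ht : τ.take n = σ.take n := by
    rw [List.prefix_iff_eq_take.1 h, List.take_take, Nat.min_eq_left (by omega)]
  rw [ht]
  obtain ⟨y, hy⟩ := Option.isSome_iff_exists.1 hs
  have := Code.evaln_mono hl (Option.mem_def.2 hy)
  rw [Option.mem_def.1 this]; rfl

theorem acc_iff {c : Code} {W : List Bool × ℕ × ℕ → Prop}
    (hc : ∀ a, W a ↔ ∃ k, (Code.evaln k c (Encodable.encode a)).isSome = true)
    (X : ℕ → Bool) (x y : ℕ) : (∃ n, W (restr X n, x, y)) ↔ ∃ n, acc c (restr X n) x y = true := by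
  constructor
  · rintro ⟨n, hn⟩
    obtain ⟨k, hk⟩ := (hc _).1 hn
    refine ⟨max n k, ?_⟩
    simp only [acc, List.any_eq_true, List.mem_range, restr_length]
    refine ⟨n, by omega, ?_⟩
    rw [restr_take X (le_max_left _ _)]
    obtain ⟨y, hy⟩ := Option.isSome_iff_exists.1 hk
    have := Code.evaln_mono (le_max_right n k) (Option.mem_def.2 hy)
    rw [Option.mem_def.1 this]; rfl
  · rintro ⟨n, hn⟩
    simp only [acc, List.any_eq_true, List.mem_range, restr_length] at hn
    obtain ⟨m, hm, hs⟩ := hn
    rw [restr_take X (by omega)] at hs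
    exact ⟨m, (hc _).2 ⟨_, hs⟩⟩

theorem comp_acc (c : Code) : Computable (fun p : List Bool × ℕ × ℕ => acc c p.1 p.2.1 p.2.2) := by
  have he : Computable₂ (fun (p : List Bool × ℕ × ℕ) (n : ℕ) =>
      (Code.evaln p.1.length c (Encodable.encode (p.1.take n, p.2.1, p.2.2))).isSome) := by
    apply Primrec₂.to_comp
    have hτ : Primrec (fun q : (List Bool × ℕ × ℕ) × ℕ => q.1.1) := Primrec.fst.comp Primrec.fst
    have hl : Primrec (fun q : (List Bool × ℕ × ℕ) × ℕ => q.1.1.length) :=
      Primrec.list_length.comp hτ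
    have ht : Primrec (fun q : (List Bool × ℕ × ℕ) × ℕ => q.1.1.take q.2) :=
      Primrec.list_take.comp Primrec.snd hτ
    have hx : Primrec (fun q : (List Bool × ℕ × ℕ) × ℕ => q.1.2) := Primrec.snd.comp Primrec.fst
    exact Primrec.option_isSome.comp (Code.primrec_evaln.comp
      ((hl.pair (Primrec.const c)).pair (Primrec.encode.comp (ht.pair hx))))
  exact CL.list_any ((Primrec.list_range.comp (Primrec.succ.comp
    (Primrec.list_length.comp Primrec.fst))).to_comp) he

end Pool.Agent.Helper344.Blum
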