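import Mathlib
import Pool.Agent.Helper344.Blum1

set_option autoImplicit false

namespace Pool.Agent.Helper344.Blum

open Nat.Partrec (Code)

theorem compactness (P : List Bool → Prop) (hmono : ∀ σ τ : List Bool, σ <+: τ → P σ → P τ)
    (hX : ∀ X : ℕ → Bool, ∃ n, P (restr X n)) : ∃ N, ∀ τ : List Bool, N ≤ τ.length → P τ := by
  let V : ℕ → Set (ℕ → Bool) := fun n => {X | P (restr X n)}
  have hopen : ∀ n, IsOpen (V n) := by
    intro n
    rw [isOpen_iff_forall_mem_open]
    intro X hXn
    refine ⟨Set.pi (Finset.range n : Set ℕ) (fun i => {X i}), ?_, ?_, ?_⟩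
    · intro Y hY
      have : restr Y n = restr X n := by
        apply List.map_congr_left
        intro i hi
        have := hY i (by simpa using hi)
        simpa using this
      show P (restr Y n)
      rw [this]; exact hXn
    · exact isOpen_set_pi (Finset.finite_toSet _) (fun i _ => isOpen_discrete _)
    · intro i _; simp
  have hcov : (Set.univ : Set (ℕ → Bool)) ⊆ ⋃ n, V n := by
    intro X _
    obtain ⟨n, hn⟩ := hX X
    exact Set.mem_iUnion.2 ⟨n, hn⟩
  have hdir : Directed (· ⊆ ·) V := by
    apply directed_of_isDirected_le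
    intro m n hmn X hXm
    exact hmono _ _ (restr_prefix X hmn) hXm
  obtain ⟨N, hN⟩ := isCompact_univ.elim_directed_cover V hopen hcov hdir
  refine ⟨N, fun τ hτ => ?_⟩
  have h1 : P (restr (ext τ) N) := hN (Set.mem_univ (ext τ))
  have h2 := hmono _ _ (restr_prefix (ext τ) hτ) h1
  rwa [restr_ext] at h2

/-- all strings of length `n` -/
def allStr : ℕ → List (List Bool)
  | 0 => [[]]
  | n + 1 => (allStr n).map (fun l => true :: l) ++ (allStr n).map (fun l => false :: l)

theorem mem_allStr (n : ℕ) : ∀ τ : List Bool, τ ∈ allStr n ↔ τ.length = n := by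
  induction n with
  | zero => intro τ; simp [allStr]
  | succ n ih =>
    intro τ
    simp only [allStr, List.mem_append, List.mem_map, ih]
    constructor
    · rintro (⟨l, hl, rfl⟩ | ⟨l, hl, rfl⟩) <;> simp [hl]
    · intro h
      cases τ with
      | nil => simp at h
      | cons b l =>
        simp only [List.length_cons, Nat.add_right_cancel_iff] at h
        cases b
        · exact Or.inr ⟨l, h, rfl⟩
        · exact Or.inl ⟨l, h, rfl⟩

theorem comp_allStr : Computable allStr := by
  have hstep : Computable₂ (fun (_ : ℕ) (p : ℕ × List (List Bool)) =>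
      p.2.map (fun l => true :: l) ++ p.2.map (fun l => false :: l)) := by
    apply Primrec₂.to_comp
    have h2 : Primrec (fun q : ℕ × (ℕ × List (List Bool)) => q.2.2) :=
      Primrec.snd.comp Primrec.snd
    exact Primrec.list_append.comp
      (Primrec.list_map h2 (Primrec.list_cons.comp (Primrec.const true) Primrec.snd).to₂)
      (Primrec.list_map h2 (Primrec.list_cons.comp (Primrec.const false) Primrec.snd).to₂)
  refine (Computable.nat_rec Computable.id (Computable.const [[]]) hstep).of_eq fun n => ?_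
  induction n with
  | zero => rfl
  | succ n ih =>
    simp only [id] at ih ⊢
    rw [allStr, ← ih]

section
variable (cφ cD : Code)

def yesB (i x t : ℕ) (τ : List Bool) : Bool :=
  (List.range (t + 1)).any (fun y => acc cD τ (Nat.pair i (Nat.pair x y)) 1)

def valO (i x : ℕ) (τ : List Bool) : Option ℕ :=
  (List.range (τ.length + 1)).findSome? (fun v => bif acc cφ τ (Nat.pair i x) v then some v else none)

def noB (i x y : ℕ) (τ : List Bool) : Bool :=
  (List.range (τ.length + 1)).any (fun d => !decide (d = 1) && acc cD τ (Nat.pair i (Nat.pair x y)) d)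

def decB (i x t : ℕ) (τ : List Bool) : Bool :=
  (List.range (t + 1)).all (fun y => noB cD i x y τ ||
    (acc cD τ (Nat.pair i (Nat.pair x y)) 1 && (valO cφ i x τ).isSome))

def res0 (i x t : ℕ) (τ : List Bool) : Option ℕ :=
  bif yesB cD i x t τ then valO cφ i x τ else none

theorem comp_yesB : Computable (fun q : ((ℕ × ℕ) × ℕ) × List Bool => yesB cD q.1.1.1 q.1.1.2 q.1.2 q.2) := by
  refine CL.list_any (Primrec.to_comp (Primrec.list_range.comp (Primrec.succ.comp
    (Primrec.snd.comp Primrec.fst)))) ?_
  have hi : Computable (fun q : (((ℕ × ℕ) × ℕ) × List Bool) × ℕ => q.1.1.1.1) :=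
    Computable.fst.comp (Computable.fst.comp (Computable.fst.comp Computable.fst))
  have hx : Computable (fun q : (((ℕ × ℕ) × ℕ) × List Bool) × ℕ => q.1.1.1.2) :=
    Computable.snd.comp (Computable.fst.comp (Computable.fst.comp Computable.fst))
  have hτ : Computable (fun q : (((ℕ × ℕ) × ℕ) × List Bool) × ℕ => q.1.2) :=
    Computable.snd.comp Computable.fst
  have hp : Computable (fun q : (((ℕ × ℕ) × ℕ) × List Bool) × ℕ =>
      Nat.pair q.1.1.1.1 (Nat.pair q.1.1.1.2 q.2)) :=
    Primrec₂.natPair.to_comp.comp hi (Primrec₂.natPair.to_comp.comp hx Computable.snd)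
  have := (comp_acc cD).comp (hτ.pair (hp.pair (Computable.const 1)))
  exact this

theorem comp_valO : Computable (fun q : (ℕ × ℕ) × List Bool => valO cφ q.1.1 q.1.2 q.2) := by
  refine CL.list_findSome? (Primrec.to_comp (Primrec.list_range.comp (Primrec.succ.comp
    (Primrec.list_length.comp Primrec.snd)))) ?_
  have hi : Computable (fun q : ((ℕ × ℕ) × List Bool) × ℕ => q.1.1.1) :=
    Computable.fst.comp (Computable.fst.comp Computable.fst)
  have hx : Computable (fun q : ((ℕ × ℕ) × List Bool) × ℕ => q.1.1.2) :=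
    Computable.snd.comp (Computable.fst.comp Computable.fst)
  have hτ : Computable (fun q : ((ℕ × ℕ) × List Bool) × ℕ => q.1.2) :=
    Computable.snd.comp Computable.fst
  have h1 := (comp_acc cφ).comp (hτ.pair
    ((Primrec₂.natPair.to_comp.comp hi hx).pair Computable.snd))
  have h2 := Computable.cond h1 (Computable.option_some.comp Computable.snd)
    (Computable.const none)
  exact h2

theorem comp_noB : Computable (fun q : ((ℕ × ℕ) × ℕ) × List Bool => noB cD q.1.1.1 q.1.1.2 q.1.2 q.2) := by
  refine CL.list_any (Primrec.to_comp (Primrec.list_range.comp (Primrec.succ.comp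
    (Primrec.list_length.comp Primrec.snd)))) ?_
  have hi : Computable (fun q : (((ℕ × ℕ) × ℕ) × List Bool) × ℕ => q.1.1.1.1) :=
    Computable.fst.comp (Computable.fst.comp (Computable.fst.comp Computable.fst))
  have hx : Computable (fun q : (((ℕ × ℕ) × ℕ) × List Bool) × ℕ => q.1.1.1.2) :=
    Computable.snd.comp (Computable.fst.comp (Computable.fst.comp Computable.fst))
  have hy : Computable (fun q : (((ℕ × ℕ) × ℕ) × List Bool) × ℕ => q.1.1.2) :=
    Computable.snd.comp (Computable.fst.comp Computable.fst)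
  have hτ : Computable (fun q : (((ℕ × ℕ) × ℕ) × List Bool) × ℕ => q.1.2) :=
    Computable.snd.comp Computable.fst
  have hp : Computable (fun q : (((ℕ × ℕ) × ℕ) × List Bool) × ℕ =>
      Nat.pair q.1.1.1.1 (Nat.pair q.1.1.1.2 q.1.1.2)) :=
    Primrec₂.natPair.to_comp.comp hi (Primrec₂.natPair.to_comp.comp hx hy)
  have h1 := (comp_acc cD).comp (hτ.pair (hp.pair Computable.snd))
  have h2 := Primrec.and.to_comp.comp
    (Primrec.not.to_comp.comp (CL.decide_eq'.comp Computable.snd (Computable.const 1))) h1
  exact h2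

theorem comp_decB : Computable (fun q : ((ℕ × ℕ) × ℕ) × List Bool =>
    decB cφ cD q.1.1.1 q.1.1.2 q.1.2 q.2) := by
  refine CL.list_all (Primrec.to_comp (Primrec.list_range.comp (Primrec.succ.comp
    (Primrec.snd.comp Primrec.fst)))) ?_
  have hi : Computable (fun q : (((ℕ × ℕ) × ℕ) × List Bool) × ℕ => q.1.1.1.1) :=
    Computable.fst.comp (Computable.fst.comp (Computable.fst.comp Computable.fst))
  have hx : Computable (fun q : (((ℕ × ℕ) × ℕ) × List Bool) × ℕ => q.1.1.1.2) :=
    Computable.snd.comp (Computable.fst.comp (Computable.fst.comp Computable.fst))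
  have hτ : Computable (fun q : (((ℕ × ℕ) × ℕ) × List Bool) × ℕ => q.1.2) :=
    Computable.snd.comp Computable.fst
  have hp : Computable (fun q : (((ℕ × ℕ) × ℕ) × List Bool) × ℕ =>
      Nat.pair q.1.1.1.1 (Nat.pair q.1.1.1.2 q.2)) :=
    Primrec₂.natPair.to_comp.comp hi (Primrec₂.natPair.to_comp.comp hx Computable.snd)
  have h1 := (comp_noB cD).comp (((hi.pair hx).pair Computable.snd).pair hτ)
  have h2 := (comp_acc cD).comp (hτ.pair (hp.pair (Computable.const 1)))
  have h3 := Primrec.option_isSome.to_comp.comp ((comp_valO cφ).comp ((hi.pair hx).pair hτ))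
  have h4 := Primrec.or.to_comp.comp h1 (Primrec.and.to_comp.comp h2 h3)
  exact h4

theorem comp_res0 : Computable (fun q : ((ℕ × ℕ) × ℕ) × List Bool =>
    res0 cφ cD q.1.1.1 q.1.1.2 q.1.2 q.2) := by
  have h1 := (comp_valO cφ).comp (((Computable.fst.comp Computable.fst).pair Computable.snd) :
    Computable (fun q : ((ℕ × ℕ) × ℕ) × List Bool => (q.1.1, q.2)))
  have h2 := Computable.cond (comp_yesB cD) h1 (Computable.const none)
  exact h2

end

/-- The finite-use interface to a relative Blum measure. -/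
structure Iface (M : RelBlum) where
  res : ℕ → ℕ → ℕ → List Bool → Option ℕ
  U : ℕ → ℕ → ℕ → ℕ
  comp_res : Computable (fun q : ((ℕ × ℕ) × ℕ) × List Bool => res q.1.1.1 q.1.1.2 q.1.2 q.2)
  comp_U : Computable (fun q : (ℕ × ℕ) × ℕ => U q.1.1 q.1.2 q.2)
  spec : ∀ (i x t : ℕ) (X : ℕ → Bool) (n : ℕ), U i x t ≤ n →
    ∀ v, res i x t (restr X n) = some v ↔ (v ∈ M.φ i X x ∧ ∃ y ∈ M.Φ i X x, y ≤ t)

theorem exists_iface (M : RelBlum) : Nonempty (Iface M) := by
  obtain ⟨Wφ, hWφ, hφ⟩ := M.universal
  obtain ⟨D, ⟨WD, hWD, hD⟩, hDy⟩ := M.decidable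
  obtain ⟨cφ, hcφ⟩ := code_of_re hWφ
  obtain ⟨cD, hcD⟩ := code_of_re hWD
  -- soundness and completeness
  have aφ : ∀ X i x v, v ∈ M.φ i X x ↔ ∃ n, acc cφ (restr X n) (Nat.pair i x) v = true := by
    intro X i x v
    have := hφ X (Nat.pair i x) v
    simp only [Nat.unpair_pair] at this
    rw [this, acc_iff hcφ]
  have aD : ∀ X p v, v = D X p ↔ ∃ n, acc cD (restr X n) p v = true := by
    intro X p v
    have := hD X p v
    rw [Part.mem_some_iff] at this
    rw [this, acc_iff hcD]
  have mφ : ∀ X n i x v, acc cφ (restr X n) (Nat.pair i x) v = true → v ∈ M.φ i X x :=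
    fun X n i x v h => (aφ X i x v).2 ⟨n, h⟩
  have mD : ∀ X n p v, acc cD (restr X n) p v = true → D X p = v :=
    fun X n p v h => ((aD X p v).2 ⟨n, h⟩).symm
  have hval : ∀ X n i x v, valO cφ i x (restr X n) = some v → v ∈ M.φ i X x := by
    intro X n i x v h
    obtain ⟨w, _, hw⟩ := List.exists_of_findSome?_eq_some h
    cases ha : acc cφ (restr X n) (Nat.pair i x) w with
    | false => simp [ha] at hw
    | true =>
      simp only [ha, cond_true, Option.some.injEq] at hw
      subst hw; exact mφ X n i x w ha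
  have hvalmono : ∀ i x (σ τ : List Bool), σ <+: τ → (valO cφ i x σ).isSome = true →
      (valO cφ i x τ).isSome = true := by
    intro i x σ τ hst h
    rw [valO, List.findSome?_isSome_iff] at h ⊢
    obtain ⟨v, hv, hs⟩ := h
    refine ⟨v, ?_, ?_⟩
    · rw [List.mem_range] at hv ⊢
      have := hst.length_le
      omega
    · cases ha : acc cφ σ (Nat.pair i x) v with
      | false => simp [ha] at hs
      | true => simp [acc_mono cφ hst _ _ ha]
  have hdecmono : ∀ i x t (σ τ : List Bool), σ <+: τ → decB cφ cD i x t σ = true →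
      decB cφ cD i x t τ = true := by
    intro i x t σ τ hst h
    simp only [decB, List.all_eq_true, Bool.or_eq_true, Bool.and_eq_true] at h ⊢
    intro y hy
    rcases h y hy with h1 | ⟨h1, h2⟩
    · left
      simp only [noB, List.any_eq_true, Bool.and_eq_true] at h1 ⊢
      obtain ⟨d, hd, hd1, hd2⟩ := h1
      refine ⟨d, ?_, hd1, acc_mono cD hst _ _ hd2⟩
      rw [List.mem_range] at hd ⊢
      have := hst.length_le
      omega
    · exact Or.inr ⟨acc_mono cD hst _ _ h1, hvalmono i x σ τ hst h2⟩
  have hdecex : ∀ i x t (X : ℕ → Bool), ∃ n, decB cφ cD i x t (restr X n) = true := by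
    intro i x t X
    have h1 : ∀ y, ∃ n, (noB cD i x y (restr X n) ||
        (acc cD (restr X n) (Nat.pair i (Nat.pair x y)) 1 &&
          (valO cφ i x (restr X n)).isSome)) = true := by
      intro y
      by_cases hy : y ∈ M.Φ i X x
      · have h1 := (hDy i X x y).2 hy
        obtain ⟨n1, hn1⟩ := (aD X _ 1).1 h1.symm
        have hdom : (M.φ i X x).Dom := (M.dom i X x).2 (Part.dom_iff_mem.2 ⟨y, hy⟩)
        obtain ⟨v, hv⟩ := Part.dom_iff_mem.1 hdom
        obtain ⟨n2, hn2⟩ := (aφ X i x v).1 hv
        refine ⟨max n1 (max n2 v), ?_⟩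
        rw [Bool.or_eq_true]
        right
        rw [Bool.and_eq_true]
        refine ⟨acc_mono cD (restr_prefix X (by omega)) _ _ hn1, ?_⟩
        rw [valO, List.findSome?_isSome_iff]
        refine ⟨v, ?_, ?_⟩
        · rw [List.mem_range, restr_length]; omega
        · have := acc_mono cφ (restr_prefix X (show n2 ≤ max n1 (max n2 v) by omega)) _ _ hn2
          simp [this]
      · have h1 : D X (Nat.pair i (Nat.pair x y)) ≠ 1 := fun h => hy ((hDy i X x y).1 h)
        obtain ⟨n1, hn1⟩ := (aD X (Nat.pair i (Nat.pair x y)) _).1 rfl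
        refine ⟨max n1 (D X (Nat.pair i (Nat.pair x y))), ?_⟩
        rw [Bool.or_eq_true]
        left
        simp only [noB, List.any_eq_true, Bool.and_eq_true, List.mem_range, restr_length]
        refine ⟨D X (Nat.pair i (Nat.pair x y)), by omega, by simpa using h1, ?_⟩
        exact acc_mono cD (restr_prefix X (by omega)) _ _ hn1
    choose f hf using h1
    refine ⟨(Finset.range (t + 1)).sup f, ?_⟩
    simp only [decB, List.all_eq_true, List.mem_range]
    intro y hy
    have hle : f y ≤ (Finset.range (t + 1)).sup f := Finset.le_sup (by simpa using hy)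
    have hst := restr_prefix X hle
    have h := hf y
    rw [Bool.or_eq_true, Bool.and_eq_true] at h ⊢
    rcases h with h1 | ⟨h1, h2⟩
    · left
      simp only [noB, List.any_eq_true, Bool.and_eq_true] at h1 ⊢
      obtain ⟨d, hd, hd1, hd2⟩ := h1
      refine ⟨d, ?_, hd1, acc_mono cD hst _ _ hd2⟩
      rw [List.mem_range] at hd ⊢
      have := hst.length_le
      omega
    · exact Or.inr ⟨acc_mono cD hst _ _ h1, hvalmono i x _ _ hst h2⟩
  have hN : ∀ q : (ℕ × ℕ) × ℕ, ∃ N, ((allStr N).all (fun τ => decB cφ cD q.1.1 q.1.2 q.2 τ)) = true := by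
    intro q
    obtain ⟨N, hN⟩ := compactness (fun τ => decB cφ cD q.1.1 q.1.2 q.2 τ = true)
      (hdecmono _ _ _) (hdecex _ _ _)
    refine ⟨N, ?_⟩
    rw [List.all_eq_true]
    intro τ hτ
    exact hN τ (le_of_eq ((mem_allStr N τ).1 hτ).symm)
  have hcN : Computable (fun q : (ℕ × ℕ) × ℕ => Nat.find (hN q)) := by
    apply CL.find_comp
    refine CL.list_all (f := fun q : ((ℕ × ℕ) × ℕ) × ℕ => allStr q.2)
      (p := fun q τ => decB cφ cD q.1.1.1 q.1.1.2 q.1.2 τ) (comp_allStr.comp Computable.snd) ?_
    have := (comp_decB cφ cD).comp (((Computable.fst.comp Computable.fst).pair Computable.snd) :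
      Computable (fun q : (((ℕ × ℕ) × ℕ) × ℕ) × List Bool => (q.1.1, q.2)))
    exact this
  refine ⟨⟨res0 cφ cD, fun i x t => Nat.find (hN ((i, x), t)), comp_res0 cφ cD, hcN, ?_⟩⟩
  intro i x t X n hn v
  have hdec : decB cφ cD i x t (restr X n) = true := by
    have h1 := Nat.find_spec (hN ((i, x), t))
    rw [List.all_eq_true] at h1
    have h2 := h1 (restr X (Nat.find (hN ((i, x), t)))) ((mem_allStr _ _).2 (restr_length _ _))
    exact hdecmono _ _ _ _ _ (restr_prefix X hn) h2
  constructor
  · intro h
    rw [res0] at h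
    cases hy : yesB cD i x t (restr X n) with
    | false => simp [hy] at h
    | true =>
      rw [hy, cond_true] at h
      refine ⟨hval X n i x v h, ?_⟩
      simp only [yesB, List.any_eq_true, List.mem_range] at hy
      obtain ⟨y, hy1, hy2⟩ := hy
      exact ⟨y, (hDy i X x y).1 (mD _ _ _ _ hy2), by omega⟩
  · rintro ⟨hv, y, hy, hyt⟩
    simp only [decB, List.all_eq_true, List.mem_range] at hdec
    have h := hdec y (by omega)
    rw [Bool.or_eq_true, Bool.and_eq_true] at h
    rcases h with h1 | ⟨h1, h2⟩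
    · exfalso
      simp only [noB, List.any_eq_true, Bool.and_eq_true, List.mem_range] at h1
      obtain ⟨d, _, hd1, hd2⟩ := h1
      have h3 := mD _ _ _ _ hd2
      rw [(hDy i X x y).2 hy] at h3
      simp [← h3] at hd1
    · have hyes : yesB cD i x t (restr X n) = true := by
        simp only [yesB, List.any_eq_true, List.mem_range]
        exact ⟨y, by omega, h1⟩
      rw [res0, hyes, cond_true]
      obtain ⟨w, hw⟩ := Option.isSome_iff_exists.1 h2
      rw [hw, Part.mem_unique (hval X n i x w hw) hv]

end Pool.Agent.Helper344.Blum
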