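import Mathlib
import Pool.Agent.Helper344.Blum2

set_option autoImplicit false

namespace Pool.Agent.Helper344.Blum

open Nat.Partrec (Code)

/-- the empty oracle -/
def emp : ℕ → Bool := fun _ => false

theorem comp_restr {X : ℕ → Bool} (hX : Computable X) : Computable (restr X) := by
  have h2 : Computable₂ (fun (_ : ℕ) (m : ℕ) => X m) := hX.comp Computable.snd
  exact CL.list_map (f := fun n : ℕ => List.range n) Primrec.list_range.to_comp h2

section
variable {M : RelBlum} (I : Iface M)

def resX (X : ℕ → Bool) (i x t : ℕ) : Option ℕ := I.res i x t (restr X (I.U i x t))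

theorem resX_spec (X : ℕ → Bool) (i x t v : ℕ) :
    resX I X i x t = some v ↔ (v ∈ M.φ i X x ∧ ∃ y ∈ M.Φ i X x, y ≤ t) :=
  I.spec i x t X _ le_rfl v

theorem resX_none {X : ℕ → Bool} {i x t : ℕ} (h : resX I X i x t = none) :
    ∀ y ∈ M.Φ i X x, t < y := by
  intro y hy
  by_contra hlt
  have hdom : (M.φ i X x).Dom := (M.dom i X x).2 (Part.dom_iff_mem.2 ⟨y, hy⟩)
  obtain ⟨v, hv⟩ := Part.dom_iff_mem.1 hdom
  have := (resX_spec I X i x t v).2 ⟨hv, y, hy, by omega⟩
  rw [h] at this
  exact absurd this (by simp)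

theorem comp_resX {X : ℕ → Bool} (hX : Computable X) :
    Computable (fun q : (ℕ × ℕ) × ℕ => resX I X q.1.1 q.1.2 q.2) := by
  have h1 : Computable (fun q : (ℕ × ℕ) × ℕ => restr X (I.U q.1.1 q.1.2 q.2)) :=
    (comp_restr hX).comp I.comp_U
  have h2 := I.comp_res.comp (Computable.id.pair h1)
  exact h2

def costLe (e b T : ℕ) : Bool := (resX I emp e b T).isSome

theorem costLe_iff (e b T : ℕ) : costLe I e b T = true ↔ ∃ y ∈ M.Φ e emp b, y ≤ T := by
  rw [costLe, Option.isSome_iff_exists]
  constructor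
  · rintro ⟨v, hv⟩
    exact ((resX_spec I emp e b T v).1 hv).2
  · rintro ⟨y, hy, hT⟩
    have hdom : (M.φ e emp b).Dom := (M.dom e emp b).2 (Part.dom_iff_mem.2 ⟨y, hy⟩)
    obtain ⟨v, hv⟩ := Part.dom_iff_mem.1 hdom
    exact ⟨v, (resX_spec I emp e b T v).2 ⟨hv, y, hy, hT⟩⟩

theorem comp_costLe : Computable (fun q : (ℕ × ℕ) × ℕ => costLe I q.1.1 q.1.2 q.2) := by
  have h1 := comp_resX I (Computable.const false : Computable emp)
  exact Primrec.option_isSome.to_comp.comp h1

end

theorem smn (M : RelBlum) (ψ : ℕ →. ℕ) (hψ : Partrec ψ) :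
    ∃ s : ℕ → ℕ, Computable s ∧ ∀ (e : ℕ) (X : ℕ → Bool) (x : ℕ), M.φ (s e) X x = ψ (Nat.pair e x) := by
  refine M.acceptable (fun _ x => ψ x) ?_
  obtain ⟨c, hc⟩ := Code.exists_code.1 (Partrec.nat_iff.1 hψ)
  refine ⟨fun p => p.2.2 ∈ ψ p.2.1, ?_, ?_⟩
  · have h1 : Computable₂ (fun (p : List Bool × ℕ × ℕ) (k : ℕ) =>
        decide (Code.evaln k c p.2.1 = some p.2.2)) := by
      apply Primrec₂.to_comp
      have he : Primrec (fun q : (List Bool × ℕ × ℕ) × ℕ => Code.evaln q.2 c q.1.2.1) :=
        Code.primrec_evaln.comp ((Primrec.snd.pair (Primrec.const c)).pair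
          (Primrec.fst.comp (Primrec.snd.comp Primrec.fst)))
      exact (Primrec.eq.comp he (Primrec.option_some.comp
        (Primrec.snd.comp (Primrec.snd.comp Primrec.fst)))).decide
    refine (re_of_exists _ h1).of_eq fun p => ?_
    simp only [decide_eq_true_eq]
    rw [← hc]
    constructor
    · rintro ⟨k, hk⟩; exact Code.evaln_sound hk
    · intro h; exact Code.evaln_complete.1 h
  · intro X x y
    simp

/-! ### The stages of the construction -/

section
variable {M : RelBlum} (I : Iface M) (A : ℕ → Bool)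

/-- the length of the extensions inspected -/
def Lb (i t : ℕ) (β : List Bool) : ℕ :=
  (List.range (t + 1)).foldl (fun m x => max m (I.U i x t)) (β.length + 1)

theorem foldl_max_ge (f : ℕ → ℕ) (l : List ℕ) : ∀ m, m ≤ l.foldl (fun m x => max m (f x)) m := by
  induction l with
  | nil => intro m; exact le_rfl
  | cons a l ih => intro m; exact le_trans (le_max_left _ _) (ih _)

theorem foldl_max_mem (f : ℕ → ℕ) (l : List ℕ) : ∀ m, ∀ x ∈ l, f x ≤ l.foldl (fun m x => max m (f x)) m := by
  induction l with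
  | nil => intro m x hx; simp at hx
  | cons a l ih =>
    intro m x hx
    rw [List.foldl_cons]
    rcases List.mem_cons.1 hx with rfl | hx
    · exact le_trans (le_max_right _ _) (foldl_max_ge _ _ _)
    · exact ih _ x hx

theorem Lb_gt (i t : ℕ) (β : List Bool) : β.length < Lb I i t β :=
  foldl_max_ge (fun x => I.U i x t) (List.range (t + 1)) (β.length + 1)

theorem Lb_U (i t : ℕ) (β : List Bool) {x : ℕ} (hx : x ≤ t) : I.U i x t ≤ Lb I i t β :=
  foldl_max_mem (fun x => I.U i x t) (List.range (t + 1)) (β.length + 1) x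
    (List.mem_range.2 (by omega))

/-- all extensions of `β` of length `L` -/
def exts (β : List Bool) (L : ℕ) : List (List Bool) := (allStr (L - β.length)).map (fun l => β ++ l)

theorem mem_exts {β : List Bool} {L : ℕ} (h : β.length ≤ L) (τ : List Bool) :
    τ ∈ exts β L ↔ β <+: τ ∧ τ.length = L := by
  simp only [exts, List.mem_map, mem_allStr]
  constructor
  · rintro ⟨l, hl, rfl⟩
    exact ⟨List.prefix_append _ _, by rw [List.length_append, hl]; omega⟩
  · rintro ⟨⟨l, rfl⟩, hl⟩
    exact ⟨l, by rw [List.length_append] at hl; omega, rfl⟩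

/-- is there an argument `x ≤ t` with a wrong value under `τ` -/
def bad (i t : ℕ) (τ : List Bool) : Bool :=
  (List.range (t + 1)).any
    (fun x => (I.res i x t τ).isSome && !decide (I.res i x t τ = some (A x).toNat))

def nAct (i t : ℕ) (β : List Bool) : Option (List Bool) :=
  (exts β (Lb I i t β)).findSome? (fun τ => bif bad I A i t τ then some τ else none)

def orc (j : ℕ) : ℕ → Bool := fun x => bif decide (j = 1) then false else A x

def pAct (j k t : ℕ) (β τ : List Bool) : Option (List Bool) :=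
  (List.range τ.length).findSome? (fun b => bif decide (β.length ≤ b) then
    (resX I (orc A j) k b t).map (fun v => τ.take b ++ [decide (v = 0)]) else none)

def modify (r t : ℕ) (β τ : List Bool) : Option (List Bool) :=
  bif decide (r % 3 = 0) then nAct I A (r / 3) t β else pAct I A (r % 3) (r / 3) t β τ

/-- one stage: requirements `r = n, n - 1, …` are processed in turn -/
def stF (u n : ℕ) (h : ℕ → ℕ) (β : List Bool) (S : List ℕ) : ℕ → List Bool × Option ℕ
  | 0 => (β ++ [false], none)
  | j + 1 =>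
    bif decide (u ≤ n - j) && !decide (n - j ∈ S) then
      Option.casesOn (modify I A (n - j) (h (n - (n - j))) β (stF u n h β S j).1)
        (stF u n h β S j) (fun τ => (τ, some (n - j)))
    else stF u n h β S j

def stage (u n : ℕ) (h : ℕ → ℕ) (p : List Bool × List ℕ) : List Bool × List ℕ :=
  ((stF I A u n h p.1 p.2 (n + 1)).1,
    Option.casesOn (stF I A u n h p.1 p.2 (n + 1)).2 p.2 (fun r => r :: p.2))

def runF (u n0 : ℕ) (h : ℕ → ℕ) (p0 : List Bool × List ℕ) : ℕ → List Bool × List ℕ
  | 0 => p0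
  | n + 1 => bif decide (n0 ≤ n) then stage I A u n h (runF u n0 h p0 n) else runF u n0 h p0 n

/-! #### basic facts -/

theorem nAct_some {i t : ℕ} {β τ : List Bool} (h : nAct I A i t β = some τ) :
    β <+: τ ∧ τ.length = Lb I i t β ∧ ∃ x ≤ t, ∃ v, I.res i x t τ = some v ∧ v ≠ (A x).toNat := by
  obtain ⟨τ', hm, hs⟩ := List.exists_of_findSome?_eq_some h
  cases hb : bad I A i t τ' with
  | false => simp [hb] at hs
  | true =>
    simp only [hb, cond_true, Option.some.injEq] at hs
    subst hs
    obtain ⟨h1, h2⟩ := (mem_exts (le_of_lt (Lb_gt I i t β)) τ').1 hm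
    refine ⟨h1, h2, ?_⟩
    simp only [bad, List.any_eq_true, List.mem_range, Bool.and_eq_true, Bool.not_eq_true',
      decide_eq_false_iff_not] at hb
    obtain ⟨x, hx, h3, h4⟩ := hb
    obtain ⟨v, hv⟩ := Option.isSome_iff_exists.1 h3
    refine ⟨x, by omega, v, hv, ?_⟩
    intro hveq
    exact h4 (by rw [hv, hveq])

theorem nAct_none {i t : ℕ} {β : List Bool} (h : nAct I A i t β = none) (τ : List Bool)
    (hβ : β <+: τ) (hl : τ.length = Lb I i t β) (x : ℕ) (hx : x ≤ t) (v : ℕ)
    (hv : I.res i x t τ = some v) : v = (A x).toNat := by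
  rw [nAct, List.findSome?_eq_none_iff] at h
  have h1 := h τ ((mem_exts (le_of_lt (Lb_gt I i t β)) τ).2 ⟨hβ, hl⟩)
  cases hb : bad I A i t τ with
  | true => simp [hb] at h1
  | false =>
    simp only [bad, List.any_eq_false, List.mem_range, Bool.and_eq_true, Bool.not_eq_true',
      decide_eq_false_iff_not, not_and, not_not] at hb
    have h2 := hb x (by omega) (by rw [hv]; rfl)
    rw [hv] at h2
    exact Option.some.inj h2

theorem pAct_some {j k t : ℕ} {β τ τ' : List Bool} (h : pAct I A j k t β τ = some τ') :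
    ∃ b v, β.length ≤ b ∧ b < τ.length ∧ resX I (orc A j) k b t = some v ∧
      τ' = τ.take b ++ [decide (v = 0)] := by
  obtain ⟨b, hm, hs⟩ := List.exists_of_findSome?_eq_some h
  by_cases hb : β.length ≤ b
  · simp only [hb, decide_true, cond_true, Option.map_eq_some_iff] at hs
    obtain ⟨v, hv, rfl⟩ := hs
    exact ⟨b, v, hb, List.mem_range.1 hm, hv, rfl⟩
  · simp [hb] at hs

theorem pAct_none {j k t : ℕ} {β τ : List Bool} (h : pAct I A j k t β τ = none) (b : ℕ)
    (h1 : β.length ≤ b) (h2 : b < τ.length) : resX I (orc A j) k b t = none := by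
  rw [pAct, List.findSome?_eq_none_iff] at h
  have h3 := h b (List.mem_range.2 h2)
  simpa [h1] using h3

theorem modify_ext {r t : ℕ} {β τ τ' : List Bool} (h : modify I A r t β τ = some τ')
    (hβ : β <+: τ) : β <+: τ' ∧ β.length < τ'.length := by
  rw [modify] at h
  by_cases hr : r % 3 = 0
  · simp only [hr, decide_true, cond_true] at h
    obtain ⟨h1, h2, _⟩ := nAct_some I A h
    exact ⟨h1, by rw [h2]; exact Lb_gt I _ _ _⟩
  · simp only [hr, decide_false, cond_false] at h
    obtain ⟨b, v, h1, h2, _, rfl⟩ := pAct_some I A h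
    constructor
    · refine List.IsPrefix.trans ?_ (List.prefix_append _ _)
      exact List.prefix_take_iff.2 ⟨hβ, h1⟩
    · simp only [List.length_append, List.length_take, List.length_cons, List.length_nil]
      omega

end

end Pool.Agent.Helper344.Blum
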