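import Mathlib
import Pool.Agent.Helper344.Blum3

set_option autoImplicit false

namespace Pool.Agent.Helper344.Blum

section
variable {M : RelBlum} (I : Iface M) (A : ℕ → Bool)

theorem stF_step (u n : ℕ) (h : ℕ → ℕ) (β : List Bool) (S : List ℕ) (j : ℕ) :
    (stF I A u n h β S (j + 1) = stF I A u n h β S j ∧
      (u ≤ n - j → n - j ∉ S →
        modify I A (n - j) (h (n - (n - j))) β (stF I A u n h β S j).1 = none)) ∨
    (u ≤ n - j ∧ n - j ∉ S ∧ ∃ τ,
      modify I A (n - j) (h (n - (n - j))) β (stF I A u n h β S j).1 = some τ ∧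
      stF I A u n h β S (j + 1) = (τ, some (n - j))) := by
  have heq : stF I A u n h β S (j + 1) = bif decide (u ≤ n - j) && !decide (n - j ∈ S) then
      Option.casesOn (modify I A (n - j) (h (n - (n - j))) β (stF I A u n h β S j).1)
        (stF I A u n h β S j) (fun τ => (τ, some (n - j)))
      else stF I A u n h β S j := rfl
  by_cases h1 : u ≤ n - j
  · by_cases h2 : n - j ∈ S
    · left
      refine ⟨?_, fun _ h => absurd h2 h⟩
      rw [heq]; simp [h2]
    · cases hm : modify I A (n - j) (h (n - (n - j))) β (stF I A u n h β S j).1 with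
      | none =>
        left
        refine ⟨?_, fun _ _ => rfl⟩
        rw [heq, hm]; simp
      | some τ =>
        right
        refine ⟨h1, h2, τ, rfl, ?_⟩
        rw [heq, hm]; simp [h1, h2]
  · left
    refine ⟨?_, fun h => absurd h h1⟩
    rw [heq]; simp [h1]

theorem stF_ext (u n : ℕ) (h : ℕ → ℕ) (β : List Bool) (S : List ℕ) (j : ℕ) :
    β <+: (stF I A u n h β S j).1 ∧ β.length < (stF I A u n h β S j).1.length := by
  induction j with
  | zero => exact ⟨List.prefix_append _ _, by simp [stF]⟩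
  | succ j ih =>
    rcases stF_step I A u n h β S j with ⟨h1, _⟩ | ⟨_, _, τ, h2, h3⟩
    · rw [h1]; exact ih
    · rw [h3]; exact modify_ext I A h2 ih.1

theorem stF_act (u n : ℕ) (h : ℕ → ℕ) (β : List Bool) (S : List ℕ) (j : ℕ) (hj : j ≤ n + 1) :
    ∀ r0, (stF I A u n h β S j).2 = some r0 → n < r0 + j ∧ r0 ≤ n ∧ u ≤ r0 ∧ r0 ∉ S ∧
      ∃ τ, modify I A r0 (h (n - r0)) β τ = some (stF I A u n h β S j).1 := by
  induction j with
  | zero => intro r0 hr; simp [stF] at hr
  | succ j ih =>
    intro r0 hr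
    rcases stF_step I A u n h β S j with ⟨h1, _⟩ | ⟨h1, h4, τ, h2, h3⟩
    · rw [h1] at hr ⊢
      obtain ⟨a1, a2, a3, a4, a5⟩ := ih (by omega) r0 hr
      exact ⟨by omega, a2, a3, a4, a5⟩
    · rw [h3] at hr ⊢
      simp only [Option.some.injEq] at hr
      subst hr
      exact ⟨by omega, by omega, h1, h4, _, h2⟩

theorem stF_quiet (u n : ℕ) (h : ℕ → ℕ) (β : List Bool) (S : List ℕ) (j : ℕ) (hj : j ≤ n + 1) :
    ∀ r, u ≤ r → r ≤ n → n < r + j → r ∉ S →
      (∀ r0, (stF I A u n h β S j).2 = some r0 → r < r0) →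
      modify I A r (h (n - r)) β (stF I A u n h β S j).1 = none := by
  induction j with
  | zero => intro r _ h2 h3; omega
  | succ j ih =>
    intro r hu hrn hrj hrS hq
    rcases stF_step I A u n h β S j with ⟨h1, h5⟩ | ⟨h1, h4, τ, h2, h3⟩
    · rw [h1] at hq ⊢
      by_cases hc : n < r + j
      · exact ih (by omega) r hu hrn hc hrS hq
      · have hr : r = n - j := by omega
        subst hr
        exact h5 hu hrS
    · exfalso
      have := hq (n - j) (by rw [h3])
      omega

theorem stF_indep (u' n : ℕ) (h : ℕ → ℕ) (β : List Bool) (S : List ℕ) (j : ℕ) (hj : j ≤ n + 1)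
    (hact : ∀ r0, (stF I A 0 n h β S j).2 = some r0 → u' ≤ r0) :
    stF I A 0 n h β S j = stF I A u' n h β S j := by
  induction j with
  | zero => rfl
  | succ j ih =>
    rcases stF_step I A 0 n h β S j with ⟨h1, h5⟩ | ⟨h1, h4, τ, h2, h3⟩
    · rw [h1] at hact ⊢
      have ih' := ih (by omega) hact
      rcases stF_step I A u' n h β S j with ⟨g1, _⟩ | ⟨g1, g4, τ', g2, g3⟩
      · rw [g1]; exact ih'
      · exfalso
        rw [← ih', h5 (Nat.zero_le _) g4] at g2
        exact absurd g2 (by simp)
    · have hu : u' ≤ n - j := hact _ (by rw [h3])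
      have ih' := ih (by omega) (by
        intro r0 hr0
        have := (stF_act I A 0 n h β S j (by omega) r0 hr0).1
        omega)
      rcases stF_step I A u' n h β S j with ⟨g1, g5⟩ | ⟨g1, g4, τ', g2, g3⟩
      · exfalso
        have := g5 hu h4
        rw [← ih', h2] at this
        exact absurd this (by simp)
      · rw [h3, g3]
        rw [← ih', h2] at g2
        rw [Option.some.inj g2]

theorem stF_congr (u n : ℕ) (h h' : ℕ → ℕ) (β : List Bool) (S : List ℕ) (j : ℕ) (hj : j ≤ n + 1)
    (hh : ∀ m, m + u ≤ n → h m = h' m) :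
    stF I A u n h β S j = stF I A u n h' β S j := by
  induction j with
  | zero => rfl
  | succ j ih =>
    have ih' := ih (by omega)
    by_cases hu : u ≤ n - j
    · have h1 : h (n - (n - j)) = h' (n - (n - j)) := hh _ (by omega)
      show (bif _ then _ else _) = (bif _ then _ else _)
      rw [ih', h1]
    · show (bif _ then _ else _) = (bif _ then _ else _)
      rw [ih']
      simp [hu]

theorem stage_ext (u n : ℕ) (h : ℕ → ℕ) (p : List Bool × List ℕ) :
    p.1 <+: (stage I A u n h p).1 ∧ p.1.length < (stage I A u n h p).1.length :=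
  stF_ext I A u n h p.1 p.2 (n + 1)

theorem stage_congr (u n : ℕ) (h h' : ℕ → ℕ) (p : List Bool × List ℕ)
    (hh : ∀ m, m + u ≤ n → h m = h' m) : stage I A u n h p = stage I A u n h' p := by
  rw [stage, stage, stF_congr I A u n h h' p.1 p.2 (n + 1) le_rfl hh]

theorem runF_succ (u n0 : ℕ) (h : ℕ → ℕ) (p0 : List Bool × List ℕ) (n : ℕ) :
    runF I A u n0 h p0 (n + 1) =
      if n0 ≤ n then stage I A u n h (runF I A u n0 h p0 n) else runF I A u n0 h p0 n := by
  show (bif _ then _ else _) = _
  by_cases hn : n0 ≤ n <;> simp [hn]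

theorem runF_congr (u n0 : ℕ) (h h' : ℕ → ℕ) (p0 : List Bool × List ℕ) (N : ℕ)
    (hh : ∀ m, m + u < N → h m = h' m) : runF I A u n0 h p0 N = runF I A u n0 h' p0 N := by
  induction N with
  | zero => rfl
  | succ n ih =>
    rw [runF_succ, runF_succ, ih (fun m hm => hh m (by omega)),
      stage_congr I A u n h h' _ (fun m hm => hh m (by omega))]

theorem runF_ext (u n0 : ℕ) (h : ℕ → ℕ) (p0 : List Bool × List ℕ) {m n : ℕ} (hmn : m ≤ n) :
    (runF I A u n0 h p0 m).1 <+: (runF I A u n0 h p0 n).1 := by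
  induction n, hmn using Nat.le_induction with
  | base => exact List.prefix_rfl
  | succ n _ ih =>
    rw [runF_succ]
    split_ifs
    · exact ih.trans (stage_ext I A u n h _).1
    · exact ih

theorem runF_len (u n0 : ℕ) (h : ℕ → ℕ) (p0 : List Bool × List ℕ) (n : ℕ) :
    n ≤ (runF I A u n0 h p0 n).1.length + n0 := by
  induction n with
  | zero => omega
  | succ n ih =>
    rw [runF_succ]
    split_ifs with hn
    · have := (stage_ext I A u n h (runF I A u n0 h p0 n)).2
      omega
    · omega

/-! #### the true run -/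

/-- `β ≺ X` -/
def Pre (β : List Bool) (X : ℕ → Bool) : Prop := restr X β.length = β

theorem Pre.of_prefix {β τ : List Bool} {X : ℕ → Bool} (h : Pre τ X) (hp : β <+: τ) : Pre β X := by
  have h1 : β <+: restr X τ.length := by rw [h]; exact hp
  exact (eq_restr_of_prefix h1).symm

/-- requirement `r` is met by everything extending `β` -/
def Sat (r : ℕ) (β : List Bool) : Prop :=
  (r % 3 = 0 → ∃ x v, v ≠ (A x).toNat ∧ ∀ X : ℕ → Bool, Pre β X → v ∈ M.φ (r / 3) X x) ∧
  (r % 3 ≠ 0 → ∃ b v, v ∈ M.φ (r / 3) (orc A (r % 3)) b ∧ ∀ X : ℕ → Bool, Pre β X → (X b).toNat ≠ v)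

theorem Sat.mono {r : ℕ} {β τ : List Bool} (h : Sat (M := M) A r β) (hp : β <+: τ) :
    Sat (M := M) A r τ := by
  constructor
  · intro hr
    obtain ⟨x, v, hv, hX⟩ := h.1 hr
    exact ⟨x, v, hv, fun X hPX => hX X (hPX.of_prefix hp)⟩
  · intro hr
    obtain ⟨x, v, hv, hX⟩ := h.2 hr
    exact ⟨x, v, hv, fun X hPX => hX X (hPX.of_prefix hp)⟩

theorem modify_sat {r t : ℕ} {β τ τ' : List Bool} (h : modify I A r t β τ = some τ') :
    Sat (M := M) A r τ' := by
  rw [modify] at h
  by_cases hr : r % 3 = 0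
  · simp only [hr, decide_true, cond_true] at h
    obtain ⟨_, h2, x, hx, v, hv, hne⟩ := nAct_some I A h
    refine ⟨fun _ => ⟨x, v, hne, fun X hPX => ?_⟩, fun h0 => absurd hr h0⟩
    have hU : I.U (r / 3) x t ≤ τ'.length := by rw [h2]; exact Lb_U I _ _ _ hx
    rw [Pre] at hPX
    rw [← hPX] at hv
    exact ((I.spec _ _ _ X _ hU v).1 hv).1
  · simp only [hr, decide_false, cond_false] at h
    obtain ⟨b, v, h1, h2, h3, rfl⟩ := pAct_some I A h
    refine ⟨fun h0 => absurd h0 hr, fun _ => ⟨b, v, ((resX_spec I _ _ _ _ v).1 h3).1, ?_⟩⟩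
    intro X hPX
    have hlen : (τ.take b ++ [decide (v = 0)]).length = b + 1 := by
      simp only [List.length_append, List.length_take, List.length_cons, List.length_nil]
      omega
    rw [Pre, hlen] at hPX
    have h4 : (restr X (b + 1))[b]? = some (X b) := restr_getElem? X (Nat.lt_succ_self b)
    rw [hPX, List.getElem?_append_right (by rw [List.length_take]; omega), List.length_take,
      Nat.min_eq_left (le_of_lt h2), Nat.sub_self] at h4
    simp only [List.length_cons, List.length_nil, zero_add, Nat.lt_add_one, getElem?_pos,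
      List.getElem_cons_zero, Option.some.injEq] at h4
    rw [← h4]
    by_cases hv : v = 0
    · simp [hv]
    · simp only [hv, decide_false, Bool.toNat_false, ne_eq]
      exact fun h0 => hv h0.symm

variable (h : ℕ → ℕ)

def st (n : ℕ) : List Bool × List ℕ := runF I A 0 0 h ([], []) n

theorem st_succ (n : ℕ) : st I A h (n + 1) = stage I A 0 n h (st I A h n) := by
  rw [st, runF_succ]; simp [st]

/-- the requirement that acts at stage `n` -/
def actor (n : ℕ) : Option ℕ := (stF I A 0 n h (st I A h n).1 (st I A h n).2 (n + 1)).2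

theorem st_succ_fst (n : ℕ) :
    (st I A h (n + 1)).1 = (stF I A 0 n h (st I A h n).1 (st I A h n).2 (n + 1)).1 := by
  rw [st_succ]; rfl

theorem st_snd_of_none {n : ℕ} (ha : actor I A h n = none) :
    (st I A h (n + 1)).2 = (st I A h n).2 := by
  rw [actor] at ha
  rw [st_succ, stage, ha]

theorem st_snd_of_some {n r : ℕ} (ha : actor I A h n = some r) :
    (st I A h (n + 1)).2 = r :: (st I A h n).2 := by
  rw [actor] at ha
  rw [st_succ, stage, ha]

theorem st_snd_mono {m n : ℕ} (hmn : m ≤ n) {r : ℕ} (hr : r ∈ (st I A h m).2) :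
    r ∈ (st I A h n).2 := by
  induction n, hmn using Nat.le_induction with
  | base => exact hr
  | succ n _ ih =>
    cases ha : actor I A h n with
    | none => rw [st_snd_of_none I A h ha]; exact ih
    | some r' => rw [st_snd_of_some I A h ha]; exact List.mem_cons_of_mem _ ih

theorem st_fst_mono {m n : ℕ} (hmn : m ≤ n) : (st I A h m).1 <+: (st I A h n).1 :=
  runF_ext I A 0 0 h _ hmn

theorem st_fst_len (n : ℕ) : n ≤ (st I A h n).1.length := by
  have := runF_len I A 0 0 h ([], []) n
  rw [st]; omega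

theorem st_sat {n r : ℕ} (hr : r ∈ (st I A h n).2) : Sat (M := M) A r (st I A h n).1 := by
  induction n with
  | zero => simp [st, runF] at hr
  | succ n ih =>
    cases ha : actor I A h n with
    | none =>
      rw [st_snd_of_none I A h ha] at hr
      exact (ih hr).mono A (st_fst_mono I A h (Nat.le_succ n))
    | some r' =>
      rw [st_snd_of_some I A h ha] at hr
      rcases List.mem_cons.1 hr with rfl | hr
      · obtain ⟨_, _, _, _, τ, hτ⟩ := stF_act I A 0 n h _ _ (n + 1) le_rfl r ha
        rw [st_succ_fst]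
        exact modify_sat I A hτ
      · exact (ih hr).mono A (st_fst_mono I A h (Nat.le_succ n))

theorem actor_bound (u : ℕ) : ∃ N, ∀ n, N ≤ n → ∀ r, actor I A h n = some r → u ≤ r := by
  induction u with
  | zero => exact ⟨0, fun _ _ _ _ => Nat.zero_le _⟩
  | succ u ih =>
    obtain ⟨N, hN⟩ := ih
    by_cases hex : ∃ n, actor I A h n = some u
    · obtain ⟨n1, hn1⟩ := hex
      refine ⟨max N (n1 + 1), fun n hn r hr => ?_⟩
      have h1 := hN n (by omega) r hr
      have h2 : r ≠ u := by
        rintro rfl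
        have h3 : r ∈ (st I A h (n1 + 1)).2 := by
          rw [st_snd_of_some I A h hn1]; exact List.mem_cons_self
        have h4 := st_snd_mono I A h (show n1 + 1 ≤ n by omega) h3
        exact (stF_act I A 0 n h _ _ (n + 1) le_rfl r hr).2.2.2.1 h4
      omega
    · refine ⟨N, fun n hn r hr => ?_⟩
      have h1 := hN n hn r hr
      have h2 : r ≠ u := by
        rintro rfl; exact hex ⟨n, hr⟩
      omega

/-- the constructed set -/
def B (b : ℕ) : Bool := ((st I A h (b + 1)).1[b]?).getD false

theorem B_pre (n : ℕ) : Pre (st I A h n).1 (B I A h) := by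
  apply List.ext_getElem?
  intro i
  by_cases hi : i < (st I A h n).1.length
  · rw [restr_getElem? _ hi, B]
    have h1 : i < (st I A h (i + 1)).1.length := st_fst_len I A h (i + 1)
    rcases le_total n (i + 1) with hn | hn
    · obtain ⟨l, hl⟩ := st_fst_mono I A h hn
      rw [← hl, List.getElem?_append_left hi, List.getElem?_eq_getElem hi]
      rfl
    · obtain ⟨l, hl⟩ := st_fst_mono I A h hn
      rw [← hl, List.getElem?_append_left h1, List.getElem?_eq_getElem h1]
      rfl
  · rw [List.getElem?_eq_none (by rw [restr_length]; omega), List.getElem?_eq_none (by omega)]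

theorem run_eq {u N : ℕ} (hN : ∀ n, N ≤ n → ∀ r, actor I A h n = some r → u ≤ r) (n : ℕ) :
    runF I A u N h (st I A h N) n = st I A h (max n N) := by
  induction n with
  | zero => simp [runF]
  | succ n ih =>
    rw [runF_succ]
    by_cases hn : N ≤ n
    · rw [if_pos hn, ih, max_eq_left hn, max_eq_left (by omega), st_succ]
      have := stF_indep I A u n h (st I A h n).1 (st I A h n).2 (n + 1) le_rfl
        (fun r0 hr0 => hN n hn r0 hr0)
      rw [stage, stage, this]
    · rw [if_neg hn, ih, max_eq_right (by omega), max_eq_right (by omega)]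

/-- a requirement never satisfied is quiet from some stage on -/
theorem quiet {r N : ℕ} (hN : ∀ n, N ≤ n → ∀ r', actor I A h n = some r' → r + 1 ≤ r')
    (hr : ∀ n, r ∉ (st I A h n).2) (n : ℕ) (hn : N ≤ n) (hrn : r ≤ n) :
    modify I A r (h (n - r)) (st I A h n).1 (st I A h (n + 1)).1 = none := by
  rw [st_succ_fst]
  exact stF_quiet I A 0 n h _ _ (n + 1) le_rfl r (Nat.zero_le _) hrn (by omega) (hr n)
    (fun r0 hr0 => by have := hN n hn r0 hr0; omega)

/-- quiet lower bound requirement -/
theorem quiet_P {r N : ℕ} (hN : ∀ n, N ≤ n → ∀ r', actor I A h n = some r' → r + 1 ≤ r')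
    (hr : ∀ n, r ∉ (st I A h n).2) (h3 : r % 3 ≠ 0) (n : ℕ) (hn : N ≤ n) (hrn : r ≤ n) (b : ℕ)
    (hb1 : (st I A h n).1.length ≤ b) (hb2 : b < (st I A h (n + 1)).1.length) :
    ∀ y ∈ M.Φ (r / 3) (orc A (r % 3)) b, h (n - r) < y := by
  have h1 := quiet I A h hN hr n hn hrn
  rw [modify] at h1
  simp only [h3, decide_false, cond_false] at h1
  exact resX_none I (pAct_none I A h1 b hb1 hb2)

/-- quiet non-helping requirement -/
theorem quiet_N {r N : ℕ} (hN : ∀ n, N ≤ n → ∀ r', actor I A h n = some r' → r + 1 ≤ r')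
    (hr : ∀ n, r ∉ (st I A h n).2) (h3 : r % 3 = 0) (n : ℕ) (hn : N ≤ n) (hrn : r ≤ n)
    (X : ℕ → Bool) (hX : Pre (st I A h n).1 X) (x y v : ℕ) (hx : x ≤ h (n - r))
    (hy : y ≤ h (n - r)) (hyΦ : y ∈ M.Φ (r / 3) X x) (hv : v ∈ M.φ (r / 3) X x) :
    v = (A x).toNat := by
  have h1 := quiet I A h hN hr n hn hrn
  rw [modify] at h1
  simp only [h3, decide_true, cond_true] at h1
  have hU := Lb_U I (r / 3) (h (n - r)) (st I A h n).1 hx
  refine nAct_none I A h1 (restr X (Lb I (r / 3) (h (n - r)) (st I A h n).1)) ?_ (restr_length _ _) x hx v ?_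
  · have h4 := restr_prefix X (le_of_lt (Lb_gt I (r / 3) (h (n - r)) (st I A h n).1))
    rw [Pre] at hX
    rwa [hX] at h4
  · exact (I.spec _ _ _ X _ hU v).2 ⟨hv, y, hyΦ, hy⟩

end

end Pool.Agent.Helper344.Blum
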