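import Mathlib
import Pool.Agent.Helper344.Blum4

set_option autoImplicit false

namespace Pool.Agent.Helper344.Blum

section
variable {M : RelBlum} (I : Iface M) {A : ℕ → Bool} (hA : Computable A)
variable {γ : Type} [Primcodable γ]

theorem cRes {i x t : γ → ℕ} {τ : γ → List Bool} (hi : Computable i) (hx : Computable x)
    (ht : Computable t) (hτ : Computable τ) : Computable (fun g => I.res (i g) (x g) (t g) (τ g)) := by
  have := I.comp_res.comp (((hi.pair hx).pair ht).pair hτ)
  exact this

theorem cU {i x t : γ → ℕ} (hi : Computable i) (hx : Computable x)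
    (ht : Computable t) : Computable (fun g => I.U (i g) (x g) (t g)) := by
  have := I.comp_U.comp ((hi.pair hx).pair ht)
  exact this

theorem cRange {t : γ → ℕ} (ht : Computable t) : Computable (fun g => List.range (t g)) := by
  have := Primrec.list_range.to_comp.comp ht
  exact this

theorem cSucc {t : γ → ℕ} (ht : Computable t) : Computable (fun g => t g + 1) := by
  have := Computable.succ.comp ht
  exact this

theorem cLen {α : Type} [Primcodable α] {t : γ → List α} (ht : Computable t) :
    Computable (fun g => (t g).length) := by
  have := Computable.list_length.comp ht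
  exact this

theorem cSub {s t : γ → ℕ} (hs : Computable s) (ht : Computable t) :
    Computable (fun g => s g - t g) := by
  have := Primrec.nat_sub.to_comp.comp hs ht
  exact this

theorem cLb {i t : γ → ℕ} {β : γ → List Bool} (hi : Computable i) (ht : Computable t)
    (hβ : Computable β) : Computable (fun g => Lb I (i g) (t g) (β g)) := by
  have h1 : Computable (fun q : γ × (ℕ × ℕ) => I.U (i q.1) q.2.2 (t q.1)) :=
    cU I (hi.comp Computable.fst) (Computable.snd.comp Computable.snd) (ht.comp Computable.fst)
  have hh : Computable₂ (fun (g : γ) (p : ℕ × ℕ) => max p.1 (I.U (i g) p.2 (t g))) := by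
    have := Primrec.nat_max.to_comp.comp (Computable.fst.comp Computable.snd) h1
    exact this
  have := CL.list_foldl (cRange (cSucc ht)) (cSucc (cLen hβ)) hh
  exact this

theorem cExts {β : γ → List Bool} {L : γ → ℕ} (hβ : Computable β) (hL : Computable L) :
    Computable (fun g => exts (β g) (L g)) := by
  have h1 : Computable (fun g => allStr (L g - (β g).length)) := by
    have := comp_allStr.comp (cSub hL (cLen hβ))
    exact this
  have h2 : Computable₂ (fun (g : γ) (l : List Bool) => β g ++ l) := by
    have := Computable.list_append.comp (hβ.comp Computable.fst) (Computable.snd (α := γ) (β := List Bool))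
    exact this
  have := CL.list_map h1 h2
  exact this

include hA

theorem cBad {i t : γ → ℕ} {τ : γ → List Bool} (hi : Computable i) (ht : Computable t)
    (hτ : Computable τ) : Computable (fun g => bad I A (i g) (t g) (τ g)) := by
  have hx : Computable (Prod.snd : γ × ℕ → ℕ) := Computable.snd
  have h1 : Computable (fun q : γ × ℕ => I.res (i q.1) q.2 (t q.1) (τ q.1)) :=
    cRes I (hi.comp Computable.fst) hx (ht.comp Computable.fst) (hτ.comp Computable.fst)
  have hN : Computable Bool.toNat := (Primrec.dom_finite _).to_comp
  have h2 : Computable (fun q : γ × ℕ => some (A q.2).toNat) := by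
    have := Computable.option_some.comp (hN.comp (hA.comp hx))
    exact this
  have h3 : Computable (fun q : γ × ℕ =>
      decide (I.res (i q.1) q.2 (t q.1) (τ q.1) = some (A q.2).toNat)) := by
    have := (CL.decide_eq' (α := Option ℕ)).comp h1 h2
    exact this
  have hh : Computable₂ (fun (g : γ) (x : ℕ) => (I.res (i g) x (t g) (τ g)).isSome &&
      !decide (I.res (i g) x (t g) (τ g) = some (A x).toNat)) := by
    have := Primrec.and.to_comp.comp (Primrec.option_isSome.to_comp.comp h1)
      (Primrec.not.to_comp.comp h3)
    exact this
  have := CL.list_any (cRange (cSucc ht)) hh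
  exact this

theorem cNAct {i t : γ → ℕ} {β : γ → List Bool} (hi : Computable i) (ht : Computable t)
    (hβ : Computable β) : Computable (fun g => nAct I A (i g) (t g) (β g)) := by
  have h1 : Computable (fun g => exts (β g) (Lb I (i g) (t g) (β g))) := cExts hβ (cLb I hi ht hβ)
  have h2 : Computable₂ (fun (g : γ) (τ : List Bool) => bif bad I A (i g) (t g) τ then some τ else none) := by
    have hb : Computable (fun q : γ × List Bool => bad I A (i q.1) (t q.1) q.2) :=
      cBad I hA (hi.comp Computable.fst) (ht.comp Computable.fst) Computable.snd
    have := Computable.cond hb (Computable.option_some.comp Computable.snd) (Computable.const none)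
    exact this
  have := CL.list_findSome? h1 h2
  exact this

theorem cOrc {j x : γ → ℕ} (hj : Computable j) (hx : Computable x) :
    Computable (fun g => orc A (j g) (x g)) := by
  have h1 : Computable (fun g => decide (j g = 1)) := by
    have := (CL.decide_eq' (α := ℕ)).comp hj (Computable.const 1)
    exact this
  have := Computable.cond h1 (Computable.const false) (hA.comp hx)
  exact this

theorem cResX {j k b t : γ → ℕ} (hj : Computable j) (hk : Computable k) (hb : Computable b)
    (ht : Computable t) : Computable (fun g => resX I (orc A (j g)) (k g) (b g) (t g)) := by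
  have h1 : Computable₂ (fun (g : γ) (x : ℕ) => orc A (j g) x) := by
    have := cOrc hA (hj.comp (Computable.fst (α := γ) (β := ℕ))) (Computable.snd (α := γ) (β := ℕ))
    exact this
  have h2 : Computable (fun g => restr (orc A (j g)) (I.U (k g) (b g) (t g))) := by
    have := CL.list_map (cRange (cU I hk hb ht)) h1
    exact this
  exact cRes I hk hb ht h2

theorem cPAct {j k t : γ → ℕ} {β τ : γ → List Bool} (hj : Computable j) (hk : Computable k)
    (ht : Computable t) (hβ : Computable β) (hτ : Computable τ) :
    Computable (fun g => pAct I A (j g) (k g) (t g) (β g) (τ g)) := by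
  have hfst : Computable (Prod.fst : γ × ℕ → γ) := Computable.fst
  have hb : Computable (Prod.snd : γ × ℕ → ℕ) := Computable.snd
  have h1 : Computable (fun q : γ × ℕ => resX I (orc A (j q.1)) (k q.1) q.2 (t q.1)) :=
    cResX I hA (hj.comp hfst) (hk.comp hfst) hb (ht.comp hfst)
  have h2 : Computable₂ (fun (q : γ × ℕ) (v : ℕ) => (τ q.1).take q.2 ++ [decide (v = 0)]) := by
    have ha : Computable (fun r : (γ × ℕ) × ℕ => (τ r.1.1).take r.1.2) := by
      have := Primrec.list_take.to_comp.comp (Computable.snd.comp (Computable.fst (α := γ × ℕ) (β := ℕ)))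
        (hτ.comp (Computable.fst.comp (Computable.fst (α := γ × ℕ) (β := ℕ))))
      exact this
    have hd : Computable (fun r : (γ × ℕ) × ℕ => decide (r.2 = 0)) := by
      have := (CL.decide_eq' (α := ℕ)).comp (Computable.snd (α := γ × ℕ) (β := ℕ)) (Computable.const 0)
      exact this
    have := Computable.list_concat.comp ha hd
    exact this
  have h3 : Computable (fun q : γ × ℕ => (resX I (orc A (j q.1)) (k q.1) q.2 (t q.1)).map
      (fun v => (τ q.1).take q.2 ++ [decide (v = 0)])) := by
    have := Computable.option_map h1 h2
    exact this
  have h4 : Computable (fun q : γ × ℕ => decide ((β q.1).length ≤ q.2)) := by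
    have := CL.decide_le'.comp (cLen (hβ.comp hfst)) hb
    exact this
  have h5 : Computable₂ (fun (g : γ) (b : ℕ) => bif decide ((β g).length ≤ b) then
      (resX I (orc A (j g)) (k g) b (t g)).map (fun v => (τ g).take b ++ [decide (v = 0)]) else none) := by
    have := Computable.cond h4 h3 (Computable.const none)
    exact this
  have := CL.list_findSome? (cRange (cLen hτ)) h5
  exact this

theorem cModify {r t : γ → ℕ} {β τ : γ → List Bool} (hr : Computable r)
    (ht : Computable t) (hβ : Computable β) (hτ : Computable τ) :
    Computable (fun g => modify I A (r g) (t g) (β g) (τ g)) := by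
  have hm : Computable (fun g => r g % 3) := by
    have := Primrec.nat_mod.to_comp.comp hr (Computable.const 3)
    exact this
  have hd : Computable (fun g => r g / 3) := by
    have := Primrec.nat_div.to_comp.comp hr (Computable.const 3)
    exact this
  have h1 : Computable (fun g => decide (r g % 3 = 0)) := by
    have := (CL.decide_eq' (α := ℕ)).comp hm (Computable.const 0)
    exact this
  have := Computable.cond h1 (cNAct I hA hd ht hβ) (cPAct I hA hm hd ht hβ hτ)
  exact this

omit hA in
theorem cMem {r : γ → ℕ} {S : γ → List ℕ} (hr : Computable r) (hS : Computable S) :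
    Computable (fun g => decide (r g ∈ S g)) := by
  have h1 : Computable₂ (fun (g : γ) (s : ℕ) => decide (s = r g)) := by
    have := (CL.decide_eq' (α := ℕ)).comp (Computable.snd (α := γ) (β := ℕ)) (hr.comp Computable.fst)
    exact this
  have := CL.list_any hS h1
  refine this.of_eq fun g => ?_
  rw [Bool.eq_iff_iff, List.any_eq_true, decide_eq_true_iff]
  simp

/-- lookup function of a finite list of scales -/
def hf (hs : List ℕ) (m : ℕ) : ℕ := (hs[m]?).getD 0

omit hA in
theorem cHf {hs : γ → List ℕ} {m : γ → ℕ} (hhs : Computable hs) (hm : Computable m) :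
    Computable (fun g => hf (hs g) (m g)) := by
  have := Computable.option_getD (Computable.list_getElem?.comp hhs hm) (Computable.const 0)
  exact this

theorem cStF {u n j : γ → ℕ} {hs : γ → List ℕ} {β : γ → List Bool} {S : γ → List ℕ}
    (hu : Computable u) (hn : Computable n) (hj : Computable j) (hhs : Computable hs)
    (hβ : Computable β) (hS : Computable S) :
    Computable (fun g => stF I A (u g) (n g) (hf (hs g)) (β g) (S g) (j g)) := by
  have hinit : Computable (fun g => ((β g ++ [false], none) : List Bool × Option ℕ)) := by
    have h1 : Computable (fun g => β g ++ [false]) := by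
      have := Computable.list_concat.comp hβ (Computable.const false)
      exact this
    exact h1.pair (Computable.const none)
  have hstep : Computable₂ (fun (g : γ) (p : ℕ × (List Bool × Option ℕ)) =>
      bif decide (u g ≤ n g - p.1) && !decide (n g - p.1 ∈ S g) then
        (Option.casesOn (modify I A (n g - p.1) (hf (hs g) (n g - (n g - p.1))) (β g) p.2.1)
          p.2 (fun τ => (τ, some (n g - p.1))) : List Bool × Option ℕ)
      else p.2) := by
    have hg : Computable (Prod.fst : γ × (ℕ × (List Bool × Option ℕ)) → γ) := Computable.fst
    have hp : Computable (Prod.snd : γ × (ℕ × (List Bool × Option ℕ)) → _) := Computable.snd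
    have hr : Computable (fun q : γ × (ℕ × (List Bool × Option ℕ)) => n q.1 - q.2.1) :=
      cSub (hn.comp hg) (Computable.fst.comp hp)
    have h1 : Computable (fun q : γ × (ℕ × (List Bool × Option ℕ)) => decide (u q.1 ≤ n q.1 - q.2.1)) := by
      have := CL.decide_le'.comp (hu.comp hg) hr
      exact this
    have h2 : Computable (fun q : γ × (ℕ × (List Bool × Option ℕ)) => decide (n q.1 - q.2.1 ∈ S q.1)) :=
      cMem hr (hS.comp hg)
    have h3 : Computable (fun q : γ × (ℕ × (List Bool × Option ℕ)) =>
        decide (u q.1 ≤ n q.1 - q.2.1) && !decide (n q.1 - q.2.1 ∈ S q.1)) := by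
      have := Primrec.and.to_comp.comp h1 (Primrec.not.to_comp.comp h2)
      exact this
    have hp2 : Computable (fun q : γ × (ℕ × (List Bool × Option ℕ)) => q.2.2) := Computable.snd.comp hp
    have h4 : Computable (fun q : γ × (ℕ × (List Bool × Option ℕ)) =>
        modify I A (n q.1 - q.2.1) (hf (hs q.1) (n q.1 - (n q.1 - q.2.1))) (β q.1) q.2.2.1) :=
      cModify I hA hr (cHf (hhs.comp hg) (cSub (hn.comp hg) hr)) (hβ.comp hg)
        (Computable.fst.comp hp2)
    have h5 : Computable₂ (fun (q : γ × (ℕ × (List Bool × Option ℕ))) (τ : List Bool) =>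
        ((τ, some (n q.1 - q.2.1)) : List Bool × Option ℕ)) := by
      have := (Computable.snd (α := γ × (ℕ × (List Bool × Option ℕ))) (β := List Bool)).pair
        (Computable.option_some.comp (hr.comp Computable.fst))
      exact this
    have h6 := Computable.option_casesOn h4 hp2 h5
    have := Computable.cond h3 h6 hp2
    exact this
  refine (Computable.nat_rec hj hinit hstep).of_eq fun g => ?_
  induction j g with
  | zero => rfl
  | succ j ih =>
    show (bif _ then _ else _) = (bif _ then _ else _)
    simp only [ih]

theorem cStage {u n : γ → ℕ} {hs : γ → List ℕ} {p : γ → List Bool × List ℕ}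
    (hu : Computable u) (hn : Computable n) (hhs : Computable hs) (hp : Computable p) :
    Computable (fun g => stage I A (u g) (n g) (hf (hs g)) (p g)) := by
  have h1 : Computable (fun g => stF I A (u g) (n g) (hf (hs g)) (p g).1 (p g).2 (n g + 1)) :=
    cStF I hA hu hn (cSucc hn) hhs (Computable.fst.comp hp) (Computable.snd.comp hp)
  have h2 : Computable₂ (fun (g : γ) (r : ℕ) => r :: (p g).2) := by
    have := Computable.list_cons.comp (Computable.snd (α := γ) (β := ℕ))
      (Computable.snd.comp (hp.comp Computable.fst))
    exact this
  have h3 := Computable.option_casesOn (Computable.snd.comp h1) (Computable.snd.comp hp) h2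
  have := (Computable.fst.comp h1).pair h3
  exact this

theorem cRunF {u n0 N : γ → ℕ} {hs : γ → List ℕ} {p0 : γ → List Bool × List ℕ}
    (hu : Computable u) (hn0 : Computable n0) (hhs : Computable hs) (hp0 : Computable p0)
    (hN : Computable N) :
    Computable (fun g => runF I A (u g) (n0 g) (hf (hs g)) (p0 g) (N g)) := by
  have hstep : Computable₂ (fun (g : γ) (q : ℕ × (List Bool × List ℕ)) =>
      bif decide (n0 g ≤ q.1) then stage I A (u g) q.1 (hf (hs g)) q.2 else q.2) := by
    have hg : Computable (Prod.fst : γ × (ℕ × (List Bool × List ℕ)) → γ) := Computable.fst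
    have hq : Computable (Prod.snd : γ × (ℕ × (List Bool × List ℕ)) → _) := Computable.snd
    have h1 : Computable (fun q : γ × (ℕ × (List Bool × List ℕ)) => decide (n0 q.1 ≤ q.2.1)) := by
      have := CL.decide_le'.comp (hn0.comp hg) (Computable.fst.comp hq)
      exact this
    have h2 : Computable (fun q : γ × (ℕ × (List Bool × List ℕ)) =>
        stage I A (u q.1) q.2.1 (hf (hs q.1)) q.2.2) :=
      cStage I hA (hu.comp hg) (Computable.fst.comp hq) (hhs.comp hg) (Computable.snd.comp hq)
    have := Computable.cond h1 h2 (Computable.snd.comp hq)
    exact this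
  refine (Computable.nat_rec hN hp0 hstep).of_eq fun g => ?_
  induction N g with
  | zero => rfl
  | succ N ih =>
    show (bif _ then _ else _) = (bif _ then _ else _)
    simp only [ih]

omit hA in
/-- decoding of the parameters of a restarted run: `(u, n0, β0, S0)` -/
def dq (q : ℕ) : (ℕ × ℕ) × (List Bool × List ℕ) :=
  (Encodable.decode (α := (ℕ × ℕ) × (List Bool × List ℕ)) q).getD ((0, 0), ([], []))

omit hA in
theorem dq_encode (a : (ℕ × ℕ) × (List Bool × List ℕ)) : dq (Encodable.encode a) = a := by
  simp [dq]

omit hA in
theorem cDq {q : γ → ℕ} (hq : Computable q) : Computable (fun g => dq (q g)) := by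
  have h1 : Computable (fun g => Encodable.decode (α := (ℕ × ℕ) × (List Bool × List ℕ)) (q g)) := by
    have := (Computable.decode (α := (ℕ × ℕ) × (List Bool × List ℕ))).comp hq
    exact this
  have := Computable.option_getD h1 (Computable.const (((0, 0), ([], [])) : (ℕ × ℕ) × (List Bool × List ℕ)))
  exact this

/-- the string computed by the run with parameters `q` from the scales `hs` -/
def run (A : ℕ → Bool) (q : ℕ) (hs : List ℕ) : List Bool :=
  (runF I A (dq q).1.1 (dq q).1.2 (hf hs) (dq q).2 (hs.length + (dq q).1.1)).1

theorem cRun {q : γ → ℕ} {hs : γ → List ℕ} (hq : Computable q) (hhs : Computable hs) :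
    Computable (fun g => run I A (q g) (hs g)) := by
  have hd := cDq hq
  have hd1 := Computable.fst.comp hd
  have h1 : Computable (fun g => (hs g).length + (dq (q g)).1.1) := by
    have := Primrec.nat_add.to_comp.comp (cLen hhs) (Computable.fst.comp hd1)
    exact this
  have := Computable.fst.comp (cRunF I hA (Computable.fst.comp hd1) (Computable.snd.comp hd1) hhs
    (Computable.snd.comp hd) h1)
  exact this

end

end Pool.Agent.Helper344.Blum
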