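import Mathlib
import Pool.Agent.Helper344.Blum5

set_option autoImplicit false

namespace Pool.Agent.Helper344.Blum

open Nat.Partrec (Code)

/-! ### Scales computed by a code -/

def tst (c : Code) (m t : ℕ) : Bool :=
  ((Code.evaln t c m).map (fun w => decide (w.unpair.1 ≤ t))).getD false

theorem tst_iff {c : Code} {m t : ℕ} :
    tst c m t = true ↔ ∃ w, Code.evaln t c m = some w ∧ w.unpair.1 ≤ t := by
  rw [tst]
  cases he : Code.evaln t c m with
  | none => simp
  | some w => simp

theorem tst_mono {c : Code} {m t t' : ℕ} (h : t ≤ t') (ht : tst c m t = true) :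
    tst c m t' = true := by
  obtain ⟨w, hw, hle⟩ := tst_iff.1 ht
  exact tst_iff.2 ⟨w, Option.mem_def.1 (Code.evaln_mono h (Option.mem_def.2 hw)), by omega⟩

theorem tst_lt {c : Code} {m t : ℕ} (ht : tst c m t = true) : m < t := by
  obtain ⟨w, hw, _⟩ := tst_iff.1 ht
  exact Code.evaln_bound (Option.mem_def.2 hw)

/-- number of scales known at time `T` -/
def ln (c : Code) (T : ℕ) : ℕ → ℕ
  | 0 => 0
  | k + 1 => bif decide (ln c T k = k) && tst c k T then k + 1 else ln c T k

theorem ln_spec (c : Code) (T k : ℕ) : (∀ m < ln c T k, tst c m T = true) ∧ ln c T k ≤ k ∧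
    (ln c T k = k ∨ tst c (ln c T k) T = false) := by
  induction k with
  | zero => exact ⟨fun m hm => absurd hm (Nat.not_lt_zero _), le_rfl, Or.inl rfl⟩
  | succ k ih =>
    obtain ⟨h1, h2, h3⟩ := ih
    have heq : ln c T (k + 1) = bif decide (ln c T k = k) && tst c k T then k + 1 else ln c T k := rfl
    by_cases hk : ln c T k = k
    · cases ht : tst c k T with
      | true =>
        have he : ln c T (k + 1) = k + 1 := by rw [heq]; simp [hk, ht]
        rw [he]
        refine ⟨fun m hm => ?_, le_rfl, Or.inl rfl⟩
        rcases Nat.lt_succ_iff_lt_or_eq.1 hm with hm | rfl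
        · exact h1 m (by omega)
        · exact ht
      | false =>
        have he : ln c T (k + 1) = k := by rw [heq]; simp [hk, ht]
        rw [he]
        exact ⟨fun m hm => h1 m (by omega), by omega, Or.inr ht⟩
    · have he : ln c T (k + 1) = ln c T k := by rw [heq]; simp [hk]
      rw [he]
      exact ⟨h1, by omega, Or.inr (h3.resolve_left hk)⟩

theorem ln_top (c : Code) (T : ℕ) : (∀ m < ln c T T, tst c m T = true) ∧
    tst c (ln c T T) T = false := by
  obtain ⟨h1, h2, h3⟩ := ln_spec c T T
  refine ⟨h1, ?_⟩
  rcases h3 with h3 | h3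
  · rw [h3]
    cases ht : tst c T T with
    | false => rfl
    | true => exact absurd (tst_lt ht) (lt_irrefl _)
  · exact h3

/-- search for the scale `m` up to `T` -/
def sc (c : Code) (m : ℕ) : ℕ → ℕ
  | 0 => 0
  | T + 1 => bif tst c m (sc c m T) then sc c m T else sc c m T + 1

theorem sc_spec (c : Code) (m T : ℕ) : (∀ t < sc c m T, tst c m t = false) ∧ sc c m T ≤ T ∧
    (sc c m T = T ∨ tst c m (sc c m T) = true) := by
  induction T with
  | zero => exact ⟨fun m hm => absurd hm (Nat.not_lt_zero _), le_rfl, Or.inl rfl⟩
  | succ T ih =>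
    obtain ⟨h1, h2, h3⟩ := ih
    have heq : sc c m (T + 1) = bif tst c m (sc c m T) then sc c m T else sc c m T + 1 := rfl
    cases ht : tst c m (sc c m T) with
    | true =>
      have he : sc c m (T + 1) = sc c m T := by rw [heq, ht, cond_true]
      rw [he]
      exact ⟨h1, by omega, Or.inr ht⟩
    | false =>
      have he : sc c m (T + 1) = sc c m T + 1 := by rw [heq, ht, cond_false]
      rw [he]
      refine ⟨fun t htt => ?_, by omega, ?_⟩
      · rcases Nat.lt_succ_iff_lt_or_eq.1 htt with h | rfl
        · exact h1 t h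
        · exact ht
      · left
        rcases h3 with h3 | h3
        · omega
        · rw [ht] at h3; exact absurd h3 (by simp)

open Classical in
/-- the scale function of a code -/
noncomputable def H (c : Code) (m : ℕ) : ℕ :=
  if h : ∃ t, tst c m t = true then Nat.find h else 0

theorem H_le {c : Code} {m t : ℕ} (h : tst c m t = true) : H c m ≤ t := by
  classical
  have hex : ∃ t, tst c m t = true := ⟨t, h⟩
  rw [H, dif_pos hex]
  exact Nat.find_min' hex h

theorem tst_H {c : Code} {m : ℕ} (h : ∃ t, tst c m t = true) : tst c m (H c m) = true := by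
  classical
  rw [H, dif_pos h]
  exact Nat.find_spec h

theorem sc_eq {c : Code} {m T : ℕ} (h : tst c m T = true) : sc c m T = H c m := by
  obtain ⟨h1, h2, h3⟩ := sc_spec c m T
  have h4 : tst c m (sc c m T) = true := by
    rcases h3 with h3 | h3
    · rw [h3]; exact h
    · exact h3
  have h5 := H_le h4
  have h6 := tst_H ⟨_, h⟩
  by_contra hne
  have := h1 (H c m) (by omega)
  rw [h6] at this
  exact absurd this (by simp)

def hl (c : Code) (T : ℕ) : List ℕ := (List.range (ln c T T)).map (fun m => sc c m T)

theorem hl_length (c : Code) (T : ℕ) : (hl c T).length = ln c T T := by simp [hl]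

theorem hl_eq (c : Code) (T : ℕ) : hl c T = (List.range (ln c T T)).map (H c) := by
  apply List.map_congr_left
  intro m hm
  exact sc_eq ((ln_top c T).1 m (List.mem_range.1 hm))

theorem le_ln_iff {c : Code} {T n : ℕ} : n ≤ ln c T T ↔ ∀ m < n, tst c m T = true := by
  constructor
  · intro h m hm
    exact (ln_top c T).1 m (by omega)
  · intro h
    by_contra hlt
    have h1 := h (ln c T T) (by omega)
    rw [(ln_top c T).2] at h1
    exact absurd h1 (by simp)

theorem hl_take {c : Code} {T n : ℕ} (h : n ≤ ln c T T) :
    (hl c T).take n = (List.range n).map (H c) := by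
  rw [hl_eq, ← List.map_take, List.take_range, Nat.min_eq_left h]

section
variable {γ : Type} [Primcodable γ]

theorem cTst {c : γ → Code} {m t : γ → ℕ} (hc : Computable c) (hm : Computable m)
    (ht : Computable t) : Computable (fun g => tst (c g) (m g) (t g)) := by
  have h1 : Computable (fun g => Code.evaln (t g) (c g) (m g)) := by
    have := Code.primrec_evaln.to_comp.comp ((ht.pair hc).pair hm)
    exact this
  have h2 : Computable₂ (fun (g : γ) (w : ℕ) => decide (w.unpair.1 ≤ t g)) := by
    have := CL.decide_le'.comp (Computable.fst.comp (Computable.unpair.comp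
      (Computable.snd (α := γ) (β := ℕ)))) (ht.comp Computable.fst)
    exact this
  have := Computable.option_getD (Computable.option_map h1 h2) (Computable.const false)
  exact this

theorem cLn {c : γ → Code} {T k : γ → ℕ} (hc : Computable c) (hT : Computable T)
    (hk : Computable k) : Computable (fun g => ln (c g) (T g) (k g)) := by
  have hstep : Computable₂ (fun (g : γ) (p : ℕ × ℕ) =>
      bif decide (p.2 = p.1) && tst (c g) p.1 (T g) then p.1 + 1 else p.2) := by
    have hg : Computable (Prod.fst : γ × (ℕ × ℕ) → γ) := Computable.fst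
    have h1 : Computable (fun q : γ × (ℕ × ℕ) => q.2.1) := Computable.fst.comp Computable.snd
    have h2 : Computable (fun q : γ × (ℕ × ℕ) => q.2.2) := Computable.snd.comp Computable.snd
    have h3 : Computable (fun q : γ × (ℕ × ℕ) => decide (q.2.2 = q.2.1)) := by
      have := (CL.decide_eq' (α := ℕ)).comp h2 h1
      exact this
    have h4 := cTst (hc.comp hg) h1 (hT.comp hg)
    have h5 := Primrec.and.to_comp.comp h3 h4
    have := Computable.cond h5 (cSucc h1) h2
    exact this
  refine (Computable.nat_rec hk (Computable.const 0) hstep).of_eq fun g => ?_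
  induction k g with
  | zero => rfl
  | succ k ih =>
    show (bif _ then _ else _) = (bif _ then _ else _)
    simp only [ih]

theorem cSc {c : γ → Code} {m T : γ → ℕ} (hc : Computable c) (hm : Computable m)
    (hT : Computable T) : Computable (fun g => sc (c g) (m g) (T g)) := by
  have hstep : Computable₂ (fun (g : γ) (p : ℕ × ℕ) =>
      bif tst (c g) (m g) p.2 then p.2 else p.2 + 1) := by
    have hg : Computable (Prod.fst : γ × (ℕ × ℕ) → γ) := Computable.fst
    have h2 : Computable (fun q : γ × (ℕ × ℕ) => q.2.2) := Computable.snd.comp Computable.snd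
    have h4 := cTst (hc.comp hg) (hm.comp hg) h2
    have := Computable.cond h4 h2 (cSucc h2)
    exact this
  refine (Computable.nat_rec hT (Computable.const 0) hstep).of_eq fun g => ?_
  induction T g with
  | zero => rfl
  | succ k ih =>
    show (bif _ then _ else _) = (bif _ then _ else _)
    simp only [ih]

theorem cHl {c : γ → Code} {T : γ → ℕ} (hc : Computable c) (hT : Computable T) :
    Computable (fun g => hl (c g) (T g)) := by
  have h1 := cRange (cLn hc hT hT)
  have h2 : Computable₂ (fun (g : γ) (m : ℕ) => sc (c g) m (T g)) := by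
    have := cSc (hc.comp (Computable.fst (α := γ) (β := ℕ))) (Computable.snd (α := γ) (β := ℕ))
      (hT.comp Computable.fst)
    exact this
  have := CL.list_map h1 h2
  exact this

end

section
variable {M : RelBlum} (I : Iface M) (A : ℕ → Bool)

theorem hf_map {h : ℕ → ℕ} {n m : ℕ} (hm : m < n) : hf ((List.range n).map h) m = h m := by
  simp [hf, hm]

theorem run_range (q : ℕ) (h : ℕ → ℕ) (n : ℕ) : run I A q ((List.range n).map h) =
    (runF I A (dq q).1.1 (dq q).1.2 h (dq q).2 (n + (dq q).1.1)).1 := by
  rw [run, List.length_map, List.length_range]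
  rw [runF_congr I A _ _ (hf ((List.range n).map h)) h _ _ (fun m hm => hf_map (by omega))]

theorem run_mono (q : ℕ) (h : ℕ → ℕ) {n n' : ℕ} (hn : n ≤ n') :
    run I A q ((List.range n).map h) <+: run I A q ((List.range n').map h) := by
  rw [run_range, run_range]
  exact runF_ext I A _ _ h _ (by omega)

/-- the program computing the run with parameters `q`, as a partial function of `((c, q), b)` -/
def psi1 (w : ℕ) : Part ℕ :=
  (Nat.rfind (fun T => Part.some (decide
    (w.unpair.2 < (run I A w.unpair.1.unpair.2 (hl (Denumerable.ofNat Code w.unpair.1.unpair.1) T)).length)))).map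
    (fun T => (((run I A w.unpair.1.unpair.2
      (hl (Denumerable.ofNat Code w.unpair.1.unpair.1) T))[w.unpair.2]?).getD false).toNat)

theorem rfind_mem {p : ℕ → Bool} (h : ∃ n, p n = true) :
    Nat.find h ∈ Nat.rfind (fun n => Part.some (p n)) := by
  refine Nat.mem_rfind.2 ⟨Part.mem_some_iff.2 (Nat.find_spec h).symm, fun {m} hm => ?_⟩
  refine Part.mem_some_iff.2 ?_
  have := Nat.find_min h hm
  simpa using this

theorem psi1_dom (c : Code) (q b : ℕ) (h : ∃ T, b < (run I A q (hl c T)).length) :
    ∃ v, v ∈ psi1 I A (Nat.pair (Nat.pair (Encodable.encode c) q) b) := by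
  have h' : ∃ T, decide (b < (run I A q (hl c T)).length) = true := by
    obtain ⟨T, hT⟩ := h; exact ⟨T, decide_eq_true hT⟩
  rw [psi1]
  simp only [Nat.unpair_pair, Denumerable.ofNat_encode]
  exact ⟨_, (Part.mem_map_iff _).2 ⟨Nat.find h', rfind_mem h', rfl⟩⟩

theorem psi1_val (c : Code) (q b v : ℕ)
    (h : v ∈ psi1 I A (Nat.pair (Nat.pair (Encodable.encode c) q) b)) :
    ∃ T, b < (run I A q (hl c T)).length ∧ v = (((run I A q (hl c T))[b]?).getD false).toNat := by
  rw [psi1] at h
  simp only [Nat.unpair_pair, Denumerable.ofNat_encode] at h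
  obtain ⟨T, hT, hv⟩ := (Part.mem_map_iff _).1 h
  have h1 := Part.mem_some_iff.1 (Nat.rfind_spec hT)
  exact ⟨T, of_decide_eq_true h1.symm, hv.symm⟩

variable {A} (hA : Computable A)
include hA

theorem partrec_psi1 : Partrec (psi1 I A) := by
  have hw : Computable (Prod.fst : ℕ × ℕ → ℕ) := Computable.fst
  have hT : Computable (Prod.snd : ℕ × ℕ → ℕ) := Computable.snd
  have h1 : Computable (fun p : ℕ × ℕ => p.1.unpair.1) := Computable.fst.comp (Computable.unpair.comp hw)
  have hb : Computable (fun p : ℕ × ℕ => p.1.unpair.2) := Computable.snd.comp (Computable.unpair.comp hw)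
  have h11 : Computable (fun p : ℕ × ℕ => p.1.unpair.1.unpair.1) :=
    Computable.fst.comp (Computable.unpair.comp h1)
  have hq : Computable (fun p : ℕ × ℕ => p.1.unpair.1.unpair.2) :=
    Computable.snd.comp (Computable.unpair.comp h1)
  have hc : Computable (fun p : ℕ × ℕ => Denumerable.ofNat Code p.1.unpair.1.unpair.1) := by
    have := (Computable.ofNat Code).comp h11
    exact this
  have hr : Computable (fun p : ℕ × ℕ => run I A p.1.unpair.1.unpair.2
      (hl (Denumerable.ofNat Code p.1.unpair.1.unpair.1) p.2)) :=
    cRun I hA hq (cHl hc hT)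
  have ht : Computable₂ (fun (w T : ℕ) => decide (w.unpair.2 <
      (run I A w.unpair.1.unpair.2 (hl (Denumerable.ofNat Code w.unpair.1.unpair.1) T)).length)) := by
    have := CL.decide_lt'.comp hb (cLen hr)
    exact this
  have hN : Computable Bool.toNat := (Primrec.dom_finite _).to_comp
  have hv : Computable₂ (fun (w T : ℕ) => (((run I A w.unpair.1.unpair.2
      (hl (Denumerable.ofNat Code w.unpair.1.unpair.1) T))[w.unpair.2]?).getD false).toNat) := by
    have h5 : Computable (fun p : ℕ × ℕ => (run I A p.1.unpair.1.unpair.2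
      (hl (Denumerable.ofNat Code p.1.unpair.1.unpair.1) p.2))[p.1.unpair.2]?) := by
      have := Computable.list_getElem?.comp hr hb
      exact this
    have := hN.comp (Computable.option_getD h5 (Computable.const false))
    exact this
  exact (Partrec.rfind ht.partrec₂).map hv

end

end Pool.Agent.Helper344.Blum
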