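import Mathlib
import Pool.Agent.Helper344.Blum6

set_option autoImplicit false

namespace Pool.Agent.Helper344.Blum

open Nat.Partrec (Code)

section
variable {M : RelBlum} (I : Iface M) (A : ℕ → Bool) (s1 s : ℕ → ℕ)

/-- index of the program with parameters `q` -/
def pidx (c : Code) (q : ℕ) : ℕ := s1 (Nat.pair (Encodable.encode c) q)

def Test (c : Code) (n T : ℕ) : Bool :=
  decide (n ≤ (hl c T).length) &&
    (List.range (n + 1)).all (fun q => (List.range (run I A q ((hl c T).take n)).length).all
      (fun b => costLe I (pidx s1 c q) b T && decide (s b ≤ T)))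

def tab (c : Code) (n T : ℕ) : List (List Bool) :=
  (List.range (n + 1)).map (fun q => run I A q ((hl c T).take n))

def fF (c : Code) (n : ℕ) : Part ℕ :=
  (Nat.rfind (fun T => Part.some (Test I A s1 s c n T))).map
    (fun T => Nat.pair T (Encodable.encode (tab I A c n T)))

variable {A s1 s} (hA : Computable A) (hs1 : Computable s1) (hs : Computable s)

theorem Test_iff {c : Code} {n T : ℕ} : Test I A s1 s c n T = true ↔
    (n ≤ ln c T T ∧ ∀ q ≤ n, ∀ b < (run I A q ((List.range n).map (H c))).length,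
      (∃ y ∈ M.Φ (pidx s1 c q) emp b, y ≤ T) ∧ s b ≤ T) := by
  simp only [Test, Bool.and_eq_true, decide_eq_true_eq, List.all_eq_true, List.mem_range, hl_length,
    costLe_iff]
  constructor
  · rintro ⟨h1, h2⟩
    refine ⟨h1, fun q hq b hb => ?_⟩
    rw [← hl_take h1] at hb
    exact h2 q (by omega) b hb
  · rintro ⟨h1, h2⟩
    refine ⟨h1, fun q hq b hb => ?_⟩
    rw [hl_take h1] at hb
    exact h2 q (by omega) b hb

include hA hs1 hs

theorem partrec_fF : Partrec₂ (fF I A s1 s) := by
  -- everything on ((c, n), T)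
  have hc : Computable (fun p : (Code × ℕ) × ℕ => p.1.1) := Computable.fst.comp Computable.fst
  have hn : Computable (fun p : (Code × ℕ) × ℕ => p.1.2) := Computable.snd.comp Computable.fst
  have hT : Computable (fun p : (Code × ℕ) × ℕ => p.2) := Computable.snd
  have hh : Computable (fun p : (Code × ℕ) × ℕ => hl p.1.1 p.2) := cHl hc hT
  have ht : Computable (fun p : (Code × ℕ) × ℕ => (hl p.1.1 p.2).take p.1.2) := by
    have := Primrec.list_take.to_comp.comp hn hh
    exact this
  have ht2 : Computable (fun p : ((Code × ℕ) × ℕ) × ℕ => (hl p.1.1.1 p.1.2).take p.1.1.2) := by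
    have := ht.comp (Computable.fst (α := (Code × ℕ) × ℕ) (β := ℕ))
    exact this
  have hrun2 : Computable (fun p : ((Code × ℕ) × ℕ) × ℕ =>
      run I A p.2 ((hl p.1.1.1 p.1.2).take p.1.1.2)) := cRun I hA Computable.snd ht2
  have htab : Computable (fun p : (Code × ℕ) × ℕ => tab I A p.1.1 p.1.2 p.2) := by
    have := CL.list_map (f := fun p : (Code × ℕ) × ℕ => List.range (p.1.2 + 1))
      (g := fun p q => run I A q ((hl p.1.1 p.2).take p.1.2)) (cRange (cSucc hn)) hrun2
    exact this
  have hin : Computable (fun p : (((Code × ℕ) × ℕ) × ℕ) × ℕ =>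
      costLe I (pidx s1 p.1.1.1.1 p.1.2) p.2 p.1.1.2 && decide (s p.2 ≤ p.1.1.2)) := by
    have hb : Computable (fun p : (((Code × ℕ) × ℕ) × ℕ) × ℕ => p.2) := Computable.snd
    have hT' : Computable (fun p : (((Code × ℕ) × ℕ) × ℕ) × ℕ => p.1.1.2) :=
      Computable.snd.comp (Computable.fst.comp Computable.fst)
    have hq' : Computable (fun p : (((Code × ℕ) × ℕ) × ℕ) × ℕ => p.1.2) :=
      Computable.snd.comp Computable.fst
    have hc' : Computable (fun p : (((Code × ℕ) × ℕ) × ℕ) × ℕ => p.1.1.1.1) :=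
      Computable.fst.comp (Computable.fst.comp (Computable.fst.comp Computable.fst))
    have hp : Computable (fun p : (((Code × ℕ) × ℕ) × ℕ) × ℕ => pidx s1 p.1.1.1.1 p.1.2) := by
      have := hs1.comp (Primrec₂.natPair.to_comp.comp (Computable.encode.comp hc') hq')
      exact this
    have h1 : Computable (fun p : (((Code × ℕ) × ℕ) × ℕ) × ℕ =>
        costLe I (pidx s1 p.1.1.1.1 p.1.2) p.2 p.1.1.2) := by
      have := (comp_costLe I).comp ((hp.pair hb).pair hT')
      exact this
    have h2 : Computable (fun p : (((Code × ℕ) × ℕ) × ℕ) × ℕ => decide (s p.2 ≤ p.1.1.2)) := by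
      have := CL.decide_le'.comp (hs.comp hb) hT'
      exact this
    have := Primrec.and.to_comp.comp h1 h2
    exact this
  have hall : Computable (fun p : ((Code × ℕ) × ℕ) × ℕ =>
      (List.range (run I A p.2 ((hl p.1.1.1 p.1.2).take p.1.1.2)).length).all
        (fun b => costLe I (pidx s1 p.1.1.1 p.2) b p.1.2 && decide (s b ≤ p.1.2))) := by
    have := CL.list_all (p := fun (p : ((Code × ℕ) × ℕ) × ℕ) (b : ℕ) =>
      costLe I (pidx s1 p.1.1.1 p.2) b p.1.2 && decide (s b ≤ p.1.2)) (cRange (cLen hrun2)) hin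
    exact this
  have hall2 : Computable (fun p : (Code × ℕ) × ℕ => (List.range (p.1.2 + 1)).all
      (fun q => (List.range (run I A q ((hl p.1.1 p.2).take p.1.2)).length).all
      (fun b => costLe I (pidx s1 p.1.1 q) b p.2 && decide (s b ≤ p.2)))) := by
    have := CL.list_all (p := fun (p : (Code × ℕ) × ℕ) (q : ℕ) =>
      (List.range (run I A q ((hl p.1.1 p.2).take p.1.2)).length).all
      (fun b => costLe I (pidx s1 p.1.1 q) b p.2 && decide (s b ≤ p.2))) (cRange (cSucc hn)) hall
    exact this
  have htest : Computable₂ (fun (p : Code × ℕ) (T : ℕ) => Test I A s1 s p.1 p.2 T) := by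
    have h0 : Computable (fun p : (Code × ℕ) × ℕ => decide (p.1.2 ≤ (hl p.1.1 p.2).length)) := by
      have := CL.decide_le'.comp hn (cLen hh)
      exact this
    have := Primrec.and.to_comp.comp h0 hall2
    exact this
  have hout : Computable₂ (fun (p : Code × ℕ) (T : ℕ) =>
      Nat.pair T (Encodable.encode (tab I A p.1 p.2 T))) := by
    have := Primrec₂.natPair.to_comp.comp hT (Computable.encode.comp htab)
    exact this
  exact (Partrec.rfind htest.partrec₂).map hout

/-- The scales: package of everything obtained from the recursion theorem. -/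
theorem exists_scales
    (hpsi : ∀ (e : ℕ) (X : ℕ → Bool) (x : ℕ), M.φ (s1 e) X x = psi1 I A (Nat.pair e x)) :
    ∃ (c : Code) (T : ℕ → ℕ),
      (∀ n t, tst c n t = true ↔ H c n ≤ t) ∧
      (∀ n, T n ≤ H c n) ∧
      (∀ n t, H c n ≤ t → Code.evaln t c n = some (Nat.pair (T n)
        (Encodable.encode ((List.range (n + 1)).map
          (fun q => run I A q ((List.range n).map (H c))))))) ∧
      (∀ n, ∀ q ≤ n, ∀ b < (run I A q ((List.range n).map (H c))).length,
        (∃ y ∈ M.Φ (pidx s1 c q) emp b, y ≤ T n) ∧ s b ≤ T n) := by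
  obtain ⟨c, hc⟩ := Code.fixed_point₂ (partrec_fF I hA hs1 hs)
  have hc' : ∀ n, Code.eval c n = fF I A s1 s c n := fun n => by rw [hc]
  -- totality
  have htest : ∀ n, (∀ m < n, ∃ t, tst c m t = true) → ∃ T, Test I A s1 s c n T = true := by
    intro n hn
    have h1 : ∃ T0, ∀ m < n, tst c m T0 = true := by
      choose f hf using hn
      refine ⟨(Finset.range n).attach.sup (fun m => f m.1 (Finset.mem_range.1 m.2)), ?_⟩
      intro m hm
      refine tst_mono ?_ (hf m hm)
      exact Finset.le_sup (f := fun m : {x // x ∈ Finset.range n} => f m.1 (Finset.mem_range.1 m.2))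
        (Finset.mem_attach _ ⟨m, Finset.mem_range.2 hm⟩)
    obtain ⟨T0, hT0⟩ := h1
    have hT0' : n ≤ ln c T0 T0 := le_ln_iff.2 hT0
    -- costs are defined
    have h2 : ∀ q b, b < (run I A q ((List.range n).map (H c))).length →
        ∃ y, y ∈ M.Φ (pidx s1 c q) emp b := by
      intro q b hb
      rw [← Part.dom_iff_mem, ← M.dom, pidx, hpsi, Part.dom_iff_mem]
      refine psi1_dom I A c q b ⟨T0, ?_⟩
      refine lt_of_lt_of_le hb ?_
      rw [hl_eq]
      exact (run_mono I A q (H c) hT0').length_le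
    have h3 : ∀ p : ℕ × ℕ, ∃ T, p.2 < (run I A p.1 ((List.range n).map (H c))).length →
        (∃ y ∈ M.Φ (pidx s1 c p.1) emp p.2, y ≤ T) ∧ s p.2 ≤ T := by
      intro p
      by_cases hp : p.2 < (run I A p.1 ((List.range n).map (H c))).length
      · obtain ⟨y, hy⟩ := h2 p.1 p.2 hp
        exact ⟨max y (s p.2), fun _ => ⟨⟨y, hy, le_max_left _ _⟩, le_max_right _ _⟩⟩
      · exact ⟨0, fun h => absurd h hp⟩
    choose g hg using h3
    let L := (Finset.range (n + 1)).sup (fun q => (run I A q ((List.range n).map (H c))).length)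
    let T1 := (Finset.range (n + 1) ×ˢ Finset.range (L + 1)).sup g
    refine ⟨max T0 T1, ?_⟩
    rw [Test_iff]
    refine ⟨le_ln_iff.2 fun m hm => tst_mono (le_max_left _ _) (hT0 m hm), ?_⟩
    intro q hq b hb
    have hL : (run I A q ((List.range n).map (H c))).length ≤ L :=
      Finset.le_sup (f := fun q => (run I A q ((List.range n).map (H c))).length)
        (Finset.mem_range.2 (by omega))
    have h4 : g (q, b) ≤ T1 := Finset.le_sup (f := g)
      (Finset.mem_product.2 ⟨Finset.mem_range.2 (by omega), Finset.mem_range.2 (by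
        show b < L + 1
        omega)⟩)
    obtain ⟨⟨y, hy, hyT⟩, hsT⟩ := hg (q, b) hb
    refine ⟨⟨y, hy, ?_⟩, ?_⟩
    · exact le_trans (le_trans hyT h4) (le_max_right _ _)
    · exact le_trans (le_trans hsT h4) (le_max_right _ _)
  have hfind : ∀ n, (∃ T, Test I A s1 s c n T = true) → ∃ T, Test I A s1 s c n T = true ∧
      Nat.pair T (Encodable.encode (tab I A c n T)) ∈ Code.eval c n := by
    intro n hex
    have hx := Nat.find_spec hex
    refine ⟨Nat.find hex, hx, ?_⟩
    rw [hc', fF]
    exact (Part.mem_map_iff _).2 ⟨Nat.find hex, rfind_mem hex, rfl⟩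
  have htot : ∀ n, ∃ t, tst c n t = true := by
    intro n
    induction n using Nat.strong_induction_on with
    | _ n ih =>
      obtain ⟨T, _, hT⟩ := hfind n (htest n ih)
      obtain ⟨k, hk⟩ := Code.evaln_complete.1 hT
      refine ⟨max k T, tst_iff.2 ⟨_, Option.mem_def.1 (Code.evaln_mono (le_max_left _ _) hk), ?_⟩⟩
      rw [Nat.unpair_pair]
      exact le_max_right _ _
  choose T hT1 hT2 using fun n => hfind n (htest n (fun m _ => htot m))
  have hT3 : ∀ n, n ≤ ln c (T n) (T n) := fun n => ((Test_iff I).1 (hT1 n)).1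
  have htab : ∀ n, tab I A c n (T n) =
      (List.range (n + 1)).map (fun q => run I A q ((List.range n).map (H c))) := by
    intro n
    rw [tab, hl_take (hT3 n)]
  have hiff : ∀ n t, tst c n t = true ↔ H c n ≤ t :=
    fun n t => ⟨H_le, fun h => tst_mono h (tst_H (htot n))⟩
  have hev : ∀ n t, H c n ≤ t → Code.evaln t c n = some (Nat.pair (T n)
        (Encodable.encode ((List.range (n + 1)).map
          (fun q => run I A q ((List.range n).map (H c)))))) := by
    intro n t ht
    obtain ⟨w, hw, _⟩ := tst_iff.1 ((hiff n t).2 ht)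
    have h1 := Code.evaln_sound (Option.mem_def.2 hw)
    have h2 := Part.mem_unique h1 (hT2 n)
    rw [hw, h2, htab]
  refine ⟨c, T, hiff, ?_, hev, fun n q hq b hb => ((Test_iff I).1 (hT1 n)).2 q hq b hb⟩
  intro n
  obtain ⟨w, hw, hwle⟩ := tst_iff.1 ((hiff n (H c n)).2 le_rfl)
  rw [hev n (H c n) le_rfl] at hw
  rw [← Option.some.inj hw, Nat.unpair_pair] at hwle
  exact hwle

end

end Pool.Agent.Helper344.Blum
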