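import Mathlib
import Pool.Agent.Helper344.Blum7

set_option autoImplicit false

namespace Pool.Agent.Helper344.Blum

open Nat.Partrec (Code)

/-! ### The program that computes `A` without the oracle `B` -/

def dj (e : ℕ) : ((ℕ × ℕ) × ℕ) × List ℕ :=
  (Encodable.decode (α := ((ℕ × ℕ) × ℕ) × List ℕ) e).getD (((0, 0), 0), [])

theorem dj_encode (a : ((ℕ × ℕ) × ℕ) × List ℕ) : dj (Encodable.encode a) = a := by
  rw [dj, Encodable.encodek]; rfl

def tabOf (c : Code) (t q : ℕ) : List Bool :=
  ((Code.evaln t c (ln c t t - 1)).map (fun w =>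
    (((Encodable.decode (α := List (List Bool)) w.unpair.2).getD [])[q]?).getD [])).getD []

section
variable {M : RelBlum} (I : Iface M)

def Jt (e x y : ℕ) : Option ℕ :=
  bif decide (x < (dj e).2.length) then ((dj e).2)[x]? else
    (exts (tabOf (Denumerable.ofNat Code (dj e).1.1.1) (max x y) (dj e).1.1.2)
      (Lb I (dj e).1.2 (max x y) (tabOf (Denumerable.ofNat Code (dj e).1.1.1) (max x y) (dj e).1.1.2))).findSome?
      (fun τ => I.res (dj e).1.2 x (max x y) τ)

def psi2 (w : ℕ) : Part ℕ :=
  (Nat.rfind (fun y => Part.some (Jt I w.unpair.1 w.unpair.2 y).isSome)).map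
    (fun y => (Jt I w.unpair.1 w.unpair.2 y).getD 0)

section
variable {γ : Type} [Primcodable γ]

theorem cTabOf {c : γ → Code} {t q : γ → ℕ} (hc : Computable c) (ht : Computable t)
    (hq : Computable q) : Computable (fun g => tabOf (c g) (t g) (q g)) := by
  have h1 : Computable (fun g => ln (c g) (t g) (t g) - 1) := by
    have := Computable.pred.comp (cLn hc ht ht)
    exact this
  have h2 : Computable (fun g => Code.evaln (t g) (c g) (ln (c g) (t g) (t g) - 1)) := by
    have := Code.primrec_evaln.to_comp.comp ((ht.pair hc).pair h1)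
    exact this
  have h3 : Computable₂ (fun (g : γ) (w : ℕ) =>
      (((Encodable.decode (α := List (List Bool)) w.unpair.2).getD [])[q g]?).getD []) := by
    have ha : Computable (fun p : γ × ℕ => Encodable.decode (α := List (List Bool)) p.2.unpair.2) := by
      have := (Computable.decode (α := List (List Bool))).comp
        (Computable.snd.comp (Computable.unpair.comp (Computable.snd (α := γ) (β := ℕ))))
      exact this
    have hb : Computable (fun p : γ × ℕ =>
        (Encodable.decode (α := List (List Bool)) p.2.unpair.2).getD []) := by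
      have := Computable.option_getD ha (Computable.const ([] : List (List Bool)))
      exact this
    have hd : Computable (fun p : γ × ℕ =>
        ((Encodable.decode (α := List (List Bool)) p.2.unpair.2).getD [])[q p.1]?) := by
      have := Computable.list_getElem?.comp hb (hq.comp Computable.fst)
      exact this
    have := Computable.option_getD hd (Computable.const ([] : List Bool))
    exact this
  have := Computable.option_getD (Computable.option_map h2 h3) (Computable.const ([] : List Bool))
  exact this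

theorem cDj {e : γ → ℕ} (he : Computable e) : Computable (fun g => dj (e g)) := by
  have h1 : Computable (fun g => Encodable.decode (α := ((ℕ × ℕ) × ℕ) × List ℕ) (e g)) := by
    have := (Computable.decode (α := ((ℕ × ℕ) × ℕ) × List ℕ)).comp he
    exact this
  have := Computable.option_getD h1
    (Computable.const ((((0, 0), 0), []) : ((ℕ × ℕ) × ℕ) × List ℕ))
  exact this

theorem cJt {e x y : γ → ℕ} (he : Computable e) (hx : Computable x) (hy : Computable y) :
    Computable (fun g => Jt I (e g) (x g) (y g)) := by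
  have hd := cDj he
  have hd2 : Computable (fun g => (dj (e g)).2) := Computable.snd.comp hd
  have hi : Computable (fun g => (dj (e g)).1.2) := Computable.snd.comp (Computable.fst.comp hd)
  have hq : Computable (fun g => (dj (e g)).1.1.2) :=
    Computable.snd.comp (Computable.fst.comp (Computable.fst.comp hd))
  have hc0 : Computable (fun g => (dj (e g)).1.1.1) :=
    Computable.fst.comp (Computable.fst.comp (Computable.fst.comp hd))
  have hc : Computable (fun g => Denumerable.ofNat Code (dj (e g)).1.1.1) := by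
    have := (Computable.ofNat Code).comp hc0
    exact this
  have ht : Computable (fun g => max (x g) (y g)) := by
    have := Primrec.nat_max.to_comp.comp hx hy
    exact this
  have htab := cTabOf hc ht hq
  have hex := cExts htab (cLb I hi ht htab)
  have h1 : Computable (fun g => decide (x g < (dj (e g)).2.length)) := by
    have := CL.decide_lt'.comp hx (cLen hd2)
    exact this
  have h2 : Computable (fun g => ((dj (e g)).2)[x g]?) := by
    have := Computable.list_getElem?.comp hd2 hx
    exact this
  have h3 : Computable₂ (fun (g : γ) (τ : List Bool) =>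
      I.res (dj (e g)).1.2 (x g) (max (x g) (y g)) τ) := by
    have hfst : Computable (Prod.fst : γ × List Bool → γ) := Computable.fst
    have := cRes I (hi.comp hfst) (hx.comp hfst) (ht.comp hfst) Computable.snd
    exact this
  have h4 := CL.list_findSome? hex h3
  have := Computable.cond h1 h2 h4
  exact this

end

theorem partrec_psi2 : Partrec (psi2 I) := by
  have he : Computable (fun p : ℕ × ℕ => p.1.unpair.1) :=
    Computable.fst.comp (Computable.unpair.comp Computable.fst)
  have hx : Computable (fun p : ℕ × ℕ => p.1.unpair.2) :=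
    Computable.snd.comp (Computable.unpair.comp Computable.fst)
  have hJ : Computable (fun p : ℕ × ℕ => Jt I p.1.unpair.1 p.1.unpair.2 p.2) :=
    cJt I he hx Computable.snd
  have h1 : Computable₂ (fun (w y : ℕ) => (Jt I w.unpair.1 w.unpair.2 y).isSome) := by
    have := Primrec.option_isSome.to_comp.comp hJ
    exact this
  have h2 : Computable₂ (fun (w y : ℕ) => (Jt I w.unpair.1 w.unpair.2 y).getD 0) := by
    have := Computable.option_getD hJ (Computable.const 0)
    exact this
  exact (Partrec.rfind h1.partrec₂).map h2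

theorem psi2_of (e x v : ℕ) (hex : ∃ y, (Jt I e x y).isSome = true)
    (hall : ∀ y w, Jt I e x y = some w → w = v) : v ∈ psi2 I (Nat.pair e x) := by
  rw [psi2]
  simp only [Nat.unpair_pair]
  refine (Part.mem_map_iff _).2 ⟨Nat.find hex, rfind_mem hex, ?_⟩
  obtain ⟨w, hw⟩ := Option.isSome_iff_exists.1 (Nat.find_spec hex)
  rw [hw]
  exact hall _ w hw

theorem psi2_dom (e x : ℕ) (hex : ∃ y, (Jt I e x y).isSome = true) :
    ∃ v, v ∈ psi2 I (Nat.pair e x) := by
  rw [psi2]
  simp only [Nat.unpair_pair]
  exact ⟨_, (Part.mem_map_iff _).2 ⟨Nat.find hex, rfind_mem hex, rfl⟩⟩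

/-- the overhead function -/
theorem exists_g (s2 : ℕ → ℕ) (hs2 : Computable s2)
    (hpsi : ∀ (e : ℕ) (X : ℕ → Bool) (x : ℕ), M.φ (s2 e) X x = psi2 I (Nat.pair e x)) :
    ∃ g : ℕ → ℕ → ℕ, Computable₂ g ∧ ∀ x y, ∀ e ≤ x, ∀ y' ≤ y, (Jt I e x y').isSome = true →
      ∃ z ∈ M.Φ (s2 e) emp x, z ≤ g x y := by
  let gT : ℕ × ℕ → ℕ → Bool := fun p T => (List.range (p.1 + 1)).all (fun e =>
    (List.range (p.2 + 1)).all (fun y' => !(Jt I e p.1 y').isSome || costLe I (s2 e) p.1 T))
  have hgT : Computable₂ gT := by
    have hin : Computable (fun p : (((ℕ × ℕ) × ℕ) × ℕ) × ℕ =>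
        !(Jt I p.1.2 p.1.1.1.1 p.2).isSome || costLe I (s2 p.1.2) p.1.1.1.1 p.1.1.2) := by
      have he : Computable (fun p : (((ℕ × ℕ) × ℕ) × ℕ) × ℕ => p.1.2) :=
        Computable.snd.comp Computable.fst
      have hx : Computable (fun p : (((ℕ × ℕ) × ℕ) × ℕ) × ℕ => p.1.1.1.1) :=
        Computable.fst.comp (Computable.fst.comp (Computable.fst.comp Computable.fst))
      have hT : Computable (fun p : (((ℕ × ℕ) × ℕ) × ℕ) × ℕ => p.1.1.2) :=
        Computable.snd.comp (Computable.fst.comp Computable.fst)
      have h1 := cJt I he hx (Computable.snd (α := ((ℕ × ℕ) × ℕ) × ℕ) (β := ℕ))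
      have h2 : Computable (fun p : (((ℕ × ℕ) × ℕ) × ℕ) × ℕ =>
          costLe I (s2 p.1.2) p.1.1.1.1 p.1.1.2) := by
        have := (comp_costLe I).comp (((hs2.comp he).pair hx).pair hT)
        exact this
      have := Primrec.or.to_comp.comp
        (Primrec.not.to_comp.comp (Primrec.option_isSome.to_comp.comp h1)) h2
      exact this
    have hy : Computable (fun p : ((ℕ × ℕ) × ℕ) × ℕ => p.1.1.2) :=
      Computable.snd.comp (Computable.fst.comp Computable.fst)
    have h2 : Computable (fun p : ((ℕ × ℕ) × ℕ) × ℕ => (List.range (p.1.1.2 + 1)).all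
        (fun y' => !(Jt I p.2 p.1.1.1 y').isSome || costLe I (s2 p.2) p.1.1.1 p.1.2)) := by
      have := CL.list_all (p := fun (p : ((ℕ × ℕ) × ℕ) × ℕ) (y' : ℕ) =>
        !(Jt I p.2 p.1.1.1 y').isSome || costLe I (s2 p.2) p.1.1.1 p.1.2) (cRange (cSucc hy)) hin
      exact this
    have hx : Computable (fun p : (ℕ × ℕ) × ℕ => p.1.1) := Computable.fst.comp Computable.fst
    have := CL.list_all (p := fun (p : (ℕ × ℕ) × ℕ) (e : ℕ) => (List.range (p.1.2 + 1)).all
        (fun y' => !(Jt I e p.1.1 y').isSome || costLe I (s2 e) p.1.1 p.2)) (cRange (cSucc hx)) h2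
    exact this
  have hgT_iff : ∀ p T, gT p T = true ↔ ∀ e ≤ p.1, ∀ y' ≤ p.2, (Jt I e p.1 y').isSome = true →
      ∃ z ∈ M.Φ (s2 e) emp p.1, z ≤ T := by
    intro p T
    simp only [gT, List.all_eq_true, List.mem_range, Bool.or_eq_true, Bool.not_eq_true', costLe_iff]
    constructor
    · intro h e he y' hy' hJ
      rcases h e (by omega) y' (by omega) with h1 | h1
      · rw [hJ] at h1; exact absurd h1 (by simp)
      · exact h1
    · intro h e he y' hy'
      cases hJ : (Jt I e p.1 y').isSome with
      | false => exact Or.inl rfl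
      | true => exact Or.inr (h e (by omega) y' (by omega) hJ)
  have hex : ∀ p, ∃ T, gT p T = true := by
    intro p
    have h1 : ∀ e, ∃ T, (∃ y', (Jt I e p.1 y').isSome = true) → ∃ z ∈ M.Φ (s2 e) emp p.1, z ≤ T := by
      intro e
      by_cases hJ : ∃ y', (Jt I e p.1 y').isSome = true
      · obtain ⟨v, hv⟩ := psi2_dom I e p.1 hJ
        have h2 : (M.φ (s2 e) emp p.1).Dom := by
          rw [hpsi]; exact Part.dom_iff_mem.2 ⟨v, hv⟩
        obtain ⟨z, hz⟩ := Part.dom_iff_mem.1 ((M.dom _ _ _).1 h2)
        exact ⟨z, fun _ => ⟨z, hz, le_rfl⟩⟩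
      · exact ⟨0, fun h => absurd h hJ⟩
    choose f hf using h1
    refine ⟨(Finset.range (p.1 + 1)).sup f, ?_⟩
    rw [hgT_iff]
    intro e he y' _ hJ
    obtain ⟨z, hz, hzf⟩ := hf e ⟨y', hJ⟩
    exact ⟨z, hz, le_trans hzf (Finset.le_sup (Finset.mem_range.2 (by omega)))⟩
  refine ⟨fun x y => Nat.find (hex (x, y)), ?_, ?_⟩
  · have := CL.find_comp hgT hex
    exact this
  · intro x y
    exact (hgT_iff (x, y) _).1 (Nat.find_spec (hex (x, y)))

end

end Pool.Agent.Helper344.Blum
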