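import Mathlib
import Pool.Agent.Helper344.Blum8

set_option autoImplicit false

namespace Pool.Agent.Helper344.Blum

open Nat.Partrec (Code)

section
variable {M : RelBlum} (I : Iface M) (A : ℕ → Bool)

theorem Pre_getElem? {β : List Bool} {X : ℕ → Bool} (h : Pre β X) {b : ℕ} (hb : b < β.length) :
    β[b]? = some (X b) := by
  rw [Pre] at h
  rw [← h]
  exact restr_getElem? X hb

theorem orc_emp : orc A 1 = emp := by
  funext x; simp [orc, emp]

theorem orc_two : orc A 2 = A := by
  funext x; simp [orc]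

/-- a requirement contradicted by the constructed set is never met -/
theorem not_met_P (h : ℕ → ℕ) {k j : ℕ} (hj : j = 1 ∨ j = 2)
    (hc : ∀ x, (B I A h x).toNat ∈ M.φ k (orc A j) x) (n : ℕ) : 3 * k + j ∉ (st I A h n).2 := by
  intro hmem
  have hs := (st_sat I A h hmem).2 (by omega)
  obtain ⟨b, v, hv, hX⟩ := hs
  have h1 : (3 * k + j) % 3 = j := by omega
  have h2 : (3 * k + j) / 3 = k := by omega
  rw [h1, h2] at hv
  exact hX _ (B_pre I A h n) (Part.mem_unique (hc b) hv)

theorem not_met_N (h : ℕ → ℕ) {i : ℕ}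
    (hc : ∀ x, (A x).toNat ∈ M.φ i (B I A h) x) (n : ℕ) : 3 * i ∉ (st I A h n).2 := by
  intro hmem
  have hs := (st_sat I A h hmem).1 (by omega)
  obtain ⟨x, v, hv, hX⟩ := hs
  have h2 : 3 * i / 3 = i := by omega
  rw [h2] at hX
  exact hv (Part.mem_unique (hX _ (B_pre I A h n)) (hc x))

theorem run_true (h : ℕ → ℕ) {u N : ℕ}
    (hN : ∀ n, N ≤ n → ∀ r, actor I A h n = some r → u ≤ r) (n : ℕ) :
    run I A (Encodable.encode ((u, N), st I A h N)) ((List.range n).map h) =
      (st I A h (max (n + u) N)).1 := by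
  rw [run_range, dq_encode]
  exact congrArg Prod.fst (run_eq I A h hN (n + u))

end

section
variable {M : RelBlum} (I : Iface M) {A : ℕ → Bool} {s1 s : ℕ → ℕ}

/-- programs for the constructed set -/
theorem computes_B (c : Code) (hiff : ∀ n t, tst c n t = true ↔ H c n ≤ t) {u N : ℕ}
    (hN : ∀ n, N ≤ n → ∀ r, actor I A (H c) n = some r → u ≤ r) (b : ℕ) :
    (B I A (H c) b).toNat ∈ psi1 I A (Nat.pair (Nat.pair (Encodable.encode c)
      (Encodable.encode ((u, N), st I A (H c) N))) b) := by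
  have hrun : ∀ T, run I A (Encodable.encode ((u, N), st I A (H c) N)) (hl c T) =
      (st I A (H c) (max (ln c T T + u) N)).1 := by
    intro T; rw [hl_eq, run_true I A (H c) hN]
  obtain ⟨v, hv⟩ := psi1_dom I A c (Encodable.encode ((u, N), st I A (H c) N)) b (by
    refine ⟨(Finset.range (b + 1)).sup (H c), ?_⟩
    rw [hrun]
    have h1 : b + 1 ≤ ln c ((Finset.range (b + 1)).sup (H c)) ((Finset.range (b + 1)).sup (H c)) := by
      rw [le_ln_iff]
      intro m hm
      rw [hiff]
      exact Finset.le_sup (Finset.mem_range.2 hm)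
    have h2 := st_fst_len I A (H c) (max (ln c ((Finset.range (b + 1)).sup (H c))
      ((Finset.range (b + 1)).sup (H c)) + u) N)
    omega)
  obtain ⟨T, hT, hvT⟩ := psi1_val I A c _ b v hv
  rw [hrun] at hT hvT
  rw [Pre_getElem? (B_pre I A (H c) _) hT] at hvT
  rw [hvT] at hv
  exact hv

theorem B_computable (c : Code) (hA : Computable A)
    (hiff : ∀ n t, tst c n t = true ↔ H c n ≤ t) : Computable (B I A (H c)) := by
  have h1 : Partrec (fun b : ℕ => psi1 I A (Nat.pair (Nat.pair (Encodable.encode c)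
      (Encodable.encode ((0, 0), st I A (H c) 0))) b)) := by
    have := (partrec_psi1 I hA).comp (Primrec₂.natPair.to_comp.comp (Computable.const
      (Nat.pair (Encodable.encode c) (Encodable.encode ((0, 0), st I A (H c) 0)))) Computable.id)
    exact this
  have h2 : Computable (fun b => (B I A (H c) b).toNat) :=
    Partrec.of_eq_tot h1 (fun b => computes_B I c hiff (u := 0) (N := 0)
      (fun _ _ _ _ => Nat.zero_le _) b)
  have h3 : Computable (fun b => decide ((B I A (H c) b).toNat = 1)) := by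
    have := (CL.decide_eq' (α := ℕ)).comp h2 (Computable.const 1)
    exact this
  refine h3.of_eq fun b => ?_
  cases B I A (H c) b <;> simp

/-- speed-up: programs for `B` cheaper than any given program -/
theorem speedup (c : Code) (T : ℕ → ℕ)
    (hpsi : ∀ (e : ℕ) (X : ℕ → Bool) (x : ℕ), M.φ (s1 e) X x = psi1 I A (Nat.pair e x))
    (hiff : ∀ n t, tst c n t = true ↔ H c n ≤ t) (hT : ∀ n, T n ≤ H c n)
    (hcost : ∀ n, ∀ q ≤ n, ∀ b < (run I A q ((List.range n).map (H c))).length,
        (∃ y ∈ M.Φ (pidx s1 c q) emp b, y ≤ T n) ∧ s b ≤ T n)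
    {k j : ℕ} (hj : j = 1 ∨ j = 2) (hc : ∀ x, (B I A (H c) x).toNat ∈ M.φ k (orc A j) x) :
    ∃ j', (∀ x, (B I A (H c) x).toNat ∈ M.φ j' emp x) ∧
      ∃ x1, ∀ x, x1 ≤ x → ∀ y ∈ M.Φ k (orc A j) x, ∃ z, z < y ∧ s x ≤ z ∧
        ∃ y' ∈ M.Φ j' emp x, y' ≤ z := by
  have hr := not_met_P I A (H c) hj hc
  set r := 3 * k + j with hrdef
  obtain ⟨N, hN⟩ := actor_bound I A (H c) (r + 1)
  set q := Encodable.encode ((r + 1, N), st I A (H c) N) with hq
  refine ⟨pidx s1 c q, fun x => ?_, ?_⟩
  · rw [pidx, hpsi]; exact computes_B I c hiff hN x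
  · refine ⟨(st I A (H c) (N + r + q)).1.length, fun b hb y hy => ?_⟩
    -- the block of `b`
    have hex : ∃ n, b < (st I A (H c) (n + 1)).1.length :=
      ⟨b, st_fst_len I A (H c) (b + 1)⟩
    set n := Nat.find hex with hn
    have hn2 : b < (st I A (H c) (n + 1)).1.length := Nat.find_spec hex
    have hn0 : N + r + q ≤ n := by
      by_contra hlt
      have h1 := (st_fst_mono I A (H c) (show n + 1 ≤ N + r + q by omega)).length_le
      omega
    have hn1 : (st I A (H c) n).1.length ≤ b := by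
      rcases Nat.eq_zero_or_pos n with h0 | h0
      · rw [h0]; simp [st, runF]
      · have h1 := Nat.find_min hex (show n - 1 < n by omega)
        have h2 : n - 1 + 1 = n := by omega
        rw [h2] at h1
        omega
    have h3 : r % 3 ≠ 0 := by omega
    have h4 : r % 3 = j := by omega
    have h5 : r / 3 = k := by omega
    have hquiet := quiet_P I A (H c) hN hr h3 n (by omega) (by omega) b hn1 hn2
    rw [h4, h5] at hquiet
    have hb' : b < (run I A q ((List.range (n - r)).map (H c))).length := by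
      rw [hq, run_true I A (H c) hN]
      have : max (n - r + (r + 1)) N = n + 1 := by omega
      rw [this]; exact hn2
    obtain ⟨⟨y', hy', hyT⟩, hs⟩ := hcost (n - r) q (by omega) b hb'
    exact ⟨H c (n - r), hquiet y hy, le_trans hs (hT _), y', hy', le_trans hyT (hT _)⟩

/-- non-helping: a program for `A` not using `B` -/
theorem nonhelp (c : Code) (T : ℕ → ℕ) (s2 : ℕ → ℕ) (g : ℕ → ℕ → ℕ)
    (hpsi2 : ∀ (e : ℕ) (X : ℕ → Bool) (x : ℕ), M.φ (s2 e) X x = psi2 I (Nat.pair e x))
    (hg : ∀ x y, ∀ e ≤ x, ∀ y' ≤ y, (Jt I e x y').isSome = true →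
      ∃ z ∈ M.Φ (s2 e) emp x, z ≤ g x y)
    (hiff : ∀ n t, tst c n t = true ↔ H c n ≤ t)
    (hev : ∀ n t, H c n ≤ t → Code.evaln t c n = some (Nat.pair (T n)
        (Encodable.encode ((List.range (n + 1)).map
          (fun q => run I A q ((List.range n).map (H c)))))))
    {i : ℕ} (hc : ∀ x, (A x).toNat ∈ M.φ i (B I A (H c)) x) :
    ∃ j, (∀ x, (A x).toNat ∈ M.φ j emp x) ∧
      ∃ x1, ∀ x, x1 ≤ x → ∀ y ∈ M.Φ i (B I A (H c)) x, ∀ t, y ≤ t →
        ∃ z ∈ M.Φ j emp x, z ≤ g x t := by
  have hr := not_met_N I A (H c) hc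
  set r := 3 * i with hrdef
  have hr3 : r % 3 = 0 := by omega
  have hri : r / 3 = i := by omega
  obtain ⟨N, hN⟩ := actor_bound I A (H c) (r + 1)
  set q := Encodable.encode ((r + 1, N), st I A (H c) N) with hq
  set K := q + N + 1 with hK
  set x0 := (Finset.range K).sup (H c) with hx0
  set w := (List.range x0).map (fun x => (A x).toNat) with hw
  set e := Encodable.encode (((Encodable.encode c, q), i), w) with he
  -- the table lookup
  have hln : ∀ t, x0 ≤ t → K ≤ ln c t t := by
    intro t ht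
    rw [le_ln_iff]
    intro m hm
    rw [hiff]
    exact le_trans (Finset.le_sup (Finset.mem_range.2 hm)) ht
  have htab : ∀ t, x0 ≤ t → tabOf c t q = (st I A (H c) (ln c t t + r)).1 := by
    intro t ht
    have h1 := hln t ht
    have h2 : H c (ln c t t - 1) ≤ t := by
      rw [← hiff]
      exact (ln_top c t).1 _ (by omega)
    rw [tabOf, hev _ t h2]
    simp only [Option.map_some, Option.getD_some, Nat.unpair_pair, Encodable.encodek]
    have h3 : ((List.range (ln c t t - 1 + 1)).map (fun q => run I A q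
        ((List.range (ln c t t - 1)).map (H c))))[q]? = some (run I A q
        ((List.range (ln c t t - 1)).map (H c))) := by
      rw [List.getElem?_map, List.getElem?_range (by omega)]
      rfl
    rw [h3, Option.getD_some, hq, run_true I A (H c) hN]
    congr 2
    omega
  have hJ : ∀ x y, x0 ≤ x → Jt I e x y =
      (exts (st I A (H c) (ln c (max x y) (max x y) + r)).1 (Lb I i (max x y)
        (st I A (H c) (ln c (max x y) (max x y) + r)).1)).findSome?
        (fun τ => I.res i x (max x y) τ) := by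
    intro x y hx
    have hd : dj e = (((Encodable.encode c, q), i), w) := dj_encode _
    have hwl : w.length = x0 := by simp [hw]
    rw [Jt, hd]
    simp only [hwl, Denumerable.ofNat_encode]
    rw [htab (max x y) (by omega)]
    simp [Nat.not_lt.2 hx]
  have hJlow : ∀ x y, x < x0 → Jt I e x y = some (A x).toNat := by
    intro x y hx
    have hd : dj e = (((Encodable.encode c, q), i), w) := dj_encode _
    have hwl : w.length = x0 := by simp [hw]
    rw [Jt, hd]
    simp only [hwl, hx, decide_true, cond_true]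
    simp [hw, hx]
  -- correctness
  have hcorr : ∀ x y v, Jt I e x y = some v → v = (A x).toNat := by
    intro x y v hv
    by_cases hx : x < x0
    · rw [hJlow x y hx] at hv
      exact (Option.some.inj hv).symm
    · rw [hJ x y (by omega)] at hv
      set t := max x y with ht
      set n := ln c t t + r with hn
      have h1 := hln t (by omega)
      obtain ⟨τ, hτ, hres⟩ := List.exists_of_findSome?_eq_some hv
      obtain ⟨hpre, hlen⟩ := (mem_exts (le_of_lt (Lb_gt I i t _)) τ).1 hτ
      have hU : I.U i x t ≤ τ.length := by rw [hlen]; exact Lb_U I i t _ (by omega)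
      have h2 := (I.spec i x t (ext τ) τ.length hU v).1 (by rw [restr_ext]; exact hres)
      obtain ⟨hvφ, y', hy', hyt⟩ := h2
      have hlt : t < H c (n - r) := by
        have h3 : n - r = ln c t t := by omega
        rw [h3]
        by_contra hcon
        have h4 := (hiff (ln c t t) t).2 (by omega)
        rw [(ln_top c t).2] at h4
        exact absurd h4 (by simp)
      have hP : Pre (st I A (H c) n).1 (ext τ) := by
        refine Pre.of_prefix (τ := τ) ?_ hpre
        exact restr_ext τ
      refine quiet_N I A (H c) hN hr hr3 n (by omega) (by omega) (ext τ) hP x y' v (by omega)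
        (by omega) ?_ ?_
      · rw [hri]; exact hy'
      · rw [hri]; exact hvφ
  -- termination
  have hterm : ∀ x, x0 ≤ x → ∀ y ∈ M.Φ i (B I A (H c)) x, (Jt I e x y).isSome = true := by
    intro x hx y hy
    rw [hJ x y hx]
    set t := max x y with ht
    set n := ln c t t + r with hn
    rw [List.findSome?_isSome_iff]
    refine ⟨restr (B I A (H c)) (Lb I i t (st I A (H c) n).1), ?_, ?_⟩
    · rw [mem_exts (le_of_lt (Lb_gt I i t _))]
      refine ⟨?_, restr_length _ _⟩
      have h1 := restr_prefix (B I A (H c)) (le_of_lt (Lb_gt I i t (st I A (H c) n).1))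
      rwa [B_pre I A (H c) n] at h1
    · have h2 := (I.spec i x t (B I A (H c)) _ (Lb_U I i t (st I A (H c) n).1 (by omega))
        (A x).toNat).2 ⟨hc x, y, hy, by omega⟩
      rw [h2]; rfl
  have hcomp : ∀ x, (A x).toNat ∈ M.φ (s2 e) emp x := by
    intro x
    rw [hpsi2]
    refine psi2_of I e x _ ?_ (fun y v hv => hcorr x y v hv)
    by_cases hx : x < x0
    · exact ⟨0, by rw [hJlow x 0 hx]; rfl⟩
    · have h1 : (M.Φ i (B I A (H c)) x).Dom := (M.dom _ _ _).1 (Part.dom_iff_mem.2 ⟨_, hc x⟩)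
      obtain ⟨y, hy⟩ := Part.dom_iff_mem.1 h1
      exact ⟨y, hterm x (by omega) y hy⟩
  refine ⟨s2 e, hcomp, max x0 e, fun x hx y hy t ht => ?_⟩
  exact hg x t e (by omega) y ht (hterm x (by omega) y hy)

end

/-- The common core. -/
theorem core (M : RelBlum) : ∃ g : ℕ → ℕ → ℕ, Computable₂ g ∧
    ∀ A : ℕ → Bool, Computable A → ∀ s : ℕ → ℕ, Computable s →
    ∃ B : ℕ → Bool, Computable B ∧
      (∀ i, (∀ x, (A x).toNat ∈ M.φ i B x) → ∃ j, (∀ x, (A x).toNat ∈ M.φ j emp x) ∧
        ∃ x1, ∀ x, x1 ≤ x → ∀ y ∈ M.Φ i B x, ∀ t, y ≤ t → ∃ z ∈ M.Φ j emp x, z ≤ g x t) ∧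
      (∀ k, ∀ X : ℕ → Bool, X = emp ∨ X = A → (∀ x, (B x).toNat ∈ M.φ k X x) →
        ∃ j, (∀ x, (B x).toNat ∈ M.φ j emp x) ∧
        ∃ x1, ∀ x, x1 ≤ x → ∀ y ∈ M.Φ k X x, ∃ z, z < y ∧ s x ≤ z ∧
          ∃ y' ∈ M.Φ j emp x, y' ≤ z) := by
  obtain ⟨I⟩ := exists_iface M
  obtain ⟨s2, hs2, hpsi2⟩ := smn M (psi2 I) (partrec_psi2 I)
  obtain ⟨g, hg, hgspec⟩ := exists_g I s2 hs2 hpsi2
  refine ⟨g, hg, fun A hA s hs => ?_⟩
  obtain ⟨s1, hs1, hpsi1⟩ := smn M (psi1 I A) (partrec_psi1 I hA)
  obtain ⟨c, T, hiff, hT, hev, hcost⟩ := exists_scales I hA hs1 hs hpsi1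
  refine ⟨B I A (H c), B_computable I c hA hiff, ?_, ?_⟩
  · intro i hi
    exact nonhelp I c T s2 g hpsi2 hgspec hiff hev hi
  · intro k X hX hk
    rcases hX with rfl | rfl
    · have h := speedup I c T hpsi1 hiff hT hcost (k := k) (j := 1) (Or.inl rfl)
      rw [orc_emp] at h
      exact h hk
    · have h := speedup I c T hpsi1 hiff hT hcost (k := k) (j := 2) (Or.inr rfl)
      rw [orc_two] at h
      exact h hk

end Pool.Agent.Helper344.Blum
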