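import Mathlib
import Pool.Agent.Helper344.Blum6

set_option autoImplicit false

namespace Pool.Agent.Helper344.Blum

open Nat.Partrec (Code)

/-! ### An example: the standard numbering with search time as complexity -/

def tN (c : Code) (σ : List Bool) (x N : ℕ) : Bool :=
  (Code.evaln N.unpair.2.unpair.2 c
    (Encodable.encode (σ.take N.unpair.1, x, N.unpair.2.unpair.1))).isSome

/-- `N = σ.length` is the first success -/
def fs (c : Code) (σ : List Bool) (x : ℕ) : Bool :=
  tN c σ x σ.length && (List.range σ.length).all (fun N => !tN c (σ.take N) x N)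

theorem fs_iff (c : Code) (X : ℕ → Bool) (x N : ℕ) : fs c (restr X N) x = true ↔
    tN c (restr X N) x N = true ∧ ∀ m < N, tN c (restr X m) x m = false := by
  simp only [fs, restr_length, Bool.and_eq_true, List.all_eq_true, List.mem_range,
    Bool.not_eq_true']
  constructor
  · rintro ⟨h1, h2⟩
    exact ⟨h1, fun m hm => by have := h2 m hm; rwa [restr_take X (le_of_lt hm)] at this⟩
  · rintro ⟨h1, h2⟩
    exact ⟨h1, fun m hm => by rw [restr_take X (le_of_lt hm)]; exact h2 m hm⟩

def exΦ (e : ℕ) (X : ℕ → Bool) (x : ℕ) : Part ℕ :=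
  Nat.rfind (fun N => Part.some (tN (Denumerable.ofNat Code e) (restr X N) x N))

def exφ (e : ℕ) (X : ℕ → Bool) (x : ℕ) : Part ℕ := (exΦ e X x).map (fun N => N.unpair.2.unpair.1)

theorem mem_exΦ (e : ℕ) (X : ℕ → Bool) (x N : ℕ) :
    N ∈ exΦ e X x ↔ fs (Denumerable.ofNat Code e) (restr X N) x = true := by
  rw [fs_iff, exΦ]
  refine Nat.mem_rfind.trans ?_
  constructor
  · rintro ⟨h1, h2⟩
    exact ⟨(Part.mem_some_iff.1 h1).symm, fun m hm => (Part.mem_some_iff.1 (h2 hm)).symm⟩
  · rintro ⟨h1, h2⟩
    exact ⟨Part.mem_some_iff.2 h1.symm, fun {m} hm => Part.mem_some_iff.2 (h2 m hm).symm⟩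

section
variable {γ : Type} [Primcodable γ]

theorem cTN {c : γ → Code} {σ : γ → List Bool} {x N : γ → ℕ} (hc : Computable c)
    (hσ : Computable σ) (hx : Computable x) (hN : Computable N) :
    Computable (fun g => tN (c g) (σ g) (x g) (N g)) := by
  have h1 : Computable (fun g => (N g).unpair.1) := Computable.fst.comp (Computable.unpair.comp hN)
  have h2 : Computable (fun g => (N g).unpair.2) := Computable.snd.comp (Computable.unpair.comp hN)
  have h3 : Computable (fun g => (N g).unpair.2.unpair.1) :=
    Computable.fst.comp (Computable.unpair.comp h2)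
  have h4 : Computable (fun g => (N g).unpair.2.unpair.2) :=
    Computable.snd.comp (Computable.unpair.comp h2)
  have h5 : Computable (fun g => (σ g).take (N g).unpair.1) := by
    have := Primrec.list_take.to_comp.comp h1 hσ
    exact this
  have := Primrec.option_isSome.to_comp.comp (Code.primrec_evaln.to_comp.comp
    ((h4.pair hc).pair (Computable.encode.comp (h5.pair (hx.pair h3)))))
  exact this

theorem cFs {c : γ → Code} {σ : γ → List Bool} {x : γ → ℕ} (hc : Computable c)
    (hσ : Computable σ) (hx : Computable x) : Computable (fun g => fs (c g) (σ g) (x g)) := by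
  have h1 := cTN hc hσ hx (cLen hσ)
  have h2 : Computable₂ (fun (g : γ) (N : ℕ) => !tN (c g) ((σ g).take N) (x g) N) := by
    have hfst : Computable (Prod.fst : γ × ℕ → γ) := Computable.fst
    have ht : Computable (fun p : γ × ℕ => (σ p.1).take p.2) := by
      have := Primrec.list_take.to_comp.comp (Computable.snd (α := γ) (β := ℕ)) (hσ.comp hfst)
      exact this
    have := Primrec.not.to_comp.comp (cTN (hc.comp hfst) ht (hx.comp hfst) Computable.snd)
    exact this
  have := Primrec.and.to_comp.comp h1 (CL.list_all (cRange (cLen hσ)) h2)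
  exact this

end

theorem re_of_comp {α : Type} [Primcodable α] {f : α → Bool} (hf : Computable f) :
    REPred (fun a => f a = true) := by
  have h1 : Computable₂ (fun (a : α) (_ : ℕ) => f a) := by
    have := hf.comp (Computable.fst (α := α) (β := ℕ))
    exact this
  refine (re_of_exists _ h1).of_eq fun a => ?_
  simp

theorem cE : Computable (fun p : List Bool × ℕ × ℕ => Denumerable.ofNat Code p.2.1.unpair.1) := by
  have := (Computable.ofNat Code).comp (Computable.fst.comp (Computable.unpair.comp
    (Computable.fst.comp (Computable.snd (α := List Bool) (β := ℕ × ℕ)))))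
  exact this

theorem cX : Computable (fun p : List Bool × ℕ × ℕ => p.2.1.unpair.2) :=
  Computable.snd.comp (Computable.unpair.comp
    (Computable.fst.comp (Computable.snd (α := List Bool) (β := ℕ × ℕ))))

theorem exφ_functional : IsFunctional (fun X p => exφ p.unpair.1 X p.unpair.2) := by
  refine ⟨fun p => (fs (Denumerable.ofNat Code p.2.1.unpair.1) p.1 p.2.1.unpair.2 &&
    decide (p.1.length.unpair.2.unpair.1 = p.2.2)) = true, ?_, ?_⟩
  · apply re_of_comp
    have h1 := cFs cE (Computable.fst (α := List Bool) (β := ℕ × ℕ)) cX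
    have h2 : Computable (fun p : List Bool × ℕ × ℕ => p.1.length.unpair.2.unpair.1) :=
      Computable.fst.comp (Computable.unpair.comp (Computable.snd.comp (Computable.unpair.comp
        (cLen Computable.fst))))
    have h3 : Computable (fun p : List Bool × ℕ × ℕ => decide (p.1.length.unpair.2.unpair.1 = p.2.2)) := by
      have := (CL.decide_eq' (α := ℕ)).comp h2 (Computable.snd.comp Computable.snd)
      exact this
    have := Primrec.and.to_comp.comp h1 h3
    exact this
  · intro X p y
    simp only [Bool.and_eq_true, decide_eq_true_eq, restr_length]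
    rw [exφ, Part.mem_map_iff]
    constructor
    · rintro ⟨N, hN, hy⟩
      exact ⟨N, (mem_exΦ _ _ _ _).1 hN, hy⟩
    · rintro ⟨N, hN, hy⟩
      exact ⟨N, (mem_exΦ _ _ _ _).2 hN, hy⟩

theorem exΦ_functional : IsFunctional (fun X p => exΦ p.unpair.1 X p.unpair.2) := by
  refine ⟨fun p => (fs (Denumerable.ofNat Code p.2.1.unpair.1) p.1 p.2.1.unpair.2 &&
    decide (p.1.length = p.2.2)) = true, ?_, ?_⟩
  · apply re_of_comp
    have h1 := cFs cE (Computable.fst (α := List Bool) (β := ℕ × ℕ)) cX
    have h3 : Computable (fun p : List Bool × ℕ × ℕ => decide (p.1.length = p.2.2)) := by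
      have := (CL.decide_eq' (α := ℕ)).comp (cLen (Computable.fst (α := List Bool) (β := ℕ × ℕ)))
        (Computable.snd.comp Computable.snd)
      exact this
    have := Primrec.and.to_comp.comp h1 h3
    exact this
  · intro X p y
    simp only [Bool.and_eq_true, decide_eq_true_eq, restr_length]
    constructor
    · intro h
      exact ⟨y, (mem_exΦ _ _ _ _).1 h, rfl⟩
    · rintro ⟨N, hN, rfl⟩
      exact (mem_exΦ _ _ _ _).2 hN

def exD (X : ℕ → Bool) (p : ℕ) : ℕ :=
  (fs (Denumerable.ofNat Code p.unpair.1) (restr X p.unpair.2.unpair.2) p.unpair.2.unpair.1).toNat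

theorem exD_functional : IsFunctional (fun X p => Part.some (exD X p)) := by
  refine ⟨fun p => (decide (p.1.length = p.2.1.unpair.2.unpair.2) &&
    decide (p.2.2 = (fs (Denumerable.ofNat Code p.2.1.unpair.1) p.1 p.2.1.unpair.2.unpair.1).toNat))
    = true, ?_, ?_⟩
  · apply re_of_comp
    have hx : Computable (fun p : List Bool × ℕ × ℕ => p.2.1.unpair.2.unpair.1) :=
      Computable.fst.comp (Computable.unpair.comp cX)
    have hy : Computable (fun p : List Bool × ℕ × ℕ => p.2.1.unpair.2.unpair.2) :=
      Computable.snd.comp (Computable.unpair.comp cX)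
    have h1 := cFs cE (Computable.fst (α := List Bool) (β := ℕ × ℕ)) hx
    have hN : Computable Bool.toNat := (Primrec.dom_finite _).to_comp
    have h2 : Computable (fun p : List Bool × ℕ × ℕ => decide (p.1.length = p.2.1.unpair.2.unpair.2)) := by
      have := (CL.decide_eq' (α := ℕ)).comp (cLen (Computable.fst (α := List Bool) (β := ℕ × ℕ))) hy
      exact this
    have h3 : Computable (fun p : List Bool × ℕ × ℕ => decide (p.2.2 =
        (fs (Denumerable.ofNat Code p.2.1.unpair.1) p.1 p.2.1.unpair.2.unpair.1).toNat)) := by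
      have := (CL.decide_eq' (α := ℕ)).comp (Computable.snd.comp (Computable.snd
        (α := List Bool) (β := ℕ × ℕ))) (hN.comp h1)
      exact this
    have := Primrec.and.to_comp.comp h2 h3
    exact this
  · intro X p y
    simp only [Bool.and_eq_true, decide_eq_true_eq, restr_length, Part.mem_some_iff]
    constructor
    · intro h
      exact ⟨p.unpair.2.unpair.2, rfl, h⟩
    · rintro ⟨N, rfl, h⟩
      exact h

theorem exAcceptable (F : (ℕ → Bool) → ℕ →. ℕ) (hF : IsFunctional F) :
    ∃ s : ℕ → ℕ, Computable s ∧ ∀ (e : ℕ) (X : ℕ → Bool) (x : ℕ), exφ (s e) X x = F X (Nat.pair e x) := by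
  obtain ⟨W, hW, hWF⟩ := hF
  obtain ⟨cF, hcF⟩ := Code.exists_code.1 hW
  have hWdom : ∀ a, W a ↔ (Code.eval cF (Encodable.encode a)).Dom := by
    intro a
    rw [hcF]
    simp [Part.assert]
  -- transformation of axioms
  let tr : ℕ → ℕ := fun m =>
    ((Encodable.decode (α := List Bool × ℕ × ℕ) m.unpair.2).map
      (fun a => Encodable.encode ((a.1, Nat.pair m.unpair.1 a.2.1, a.2.2) : List Bool × ℕ × ℕ))).getD 0
  have htr : Computable tr := by
    have h1 : Computable (fun m : ℕ => Encodable.decode (α := List Bool × ℕ × ℕ) m.unpair.2) := by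
      have := (Computable.decode (α := List Bool × ℕ × ℕ)).comp
        (Computable.snd.comp Computable.unpair)
      exact this
    have h2 : Computable₂ (fun (m : ℕ) (a : List Bool × ℕ × ℕ) =>
        Encodable.encode ((a.1, Nat.pair m.unpair.1 a.2.1, a.2.2) : List Bool × ℕ × ℕ)) := by
      have ha : Computable (fun p : ℕ × (List Bool × ℕ × ℕ) => p.2.1) :=
        Computable.fst.comp Computable.snd
      have hb : Computable (fun p : ℕ × (List Bool × ℕ × ℕ) => Nat.pair p.1.unpair.1 p.2.2.1) := by
        have := Primrec₂.natPair.to_comp.comp (Computable.fst.comp (Computable.unpair.comp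
          (Computable.fst (α := ℕ) (β := List Bool × ℕ × ℕ))))
          (Computable.fst.comp (Computable.snd.comp Computable.snd))
        exact this
      have hd : Computable (fun p : ℕ × (List Bool × ℕ × ℕ) => p.2.2.2) :=
        Computable.snd.comp (Computable.snd.comp Computable.snd)
      have := Computable.encode.comp (ha.pair (hb.pair hd))
      exact this
    have := Computable.option_getD (Computable.option_map h1 h2) (Computable.const 0)
    exact this
  obtain ⟨ct, hct⟩ := Code.exists_code.1 (Partrec.nat_iff.1 htr.partrec)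
  have hct' : ∀ m, Code.eval ct m = Part.some (tr m) := fun m => by rw [hct]; rfl
  refine ⟨fun e => Encodable.encode (Code.comp cF (Code.curry ct e)), ?_, ?_⟩
  · have h1 : Primrec (fun e : ℕ => Code.curry ct e) :=
      Code.primrec₂_curry.comp (Primrec.const ct) Primrec.id
    have h2 : Primrec (fun e : ℕ => Code.comp cF (Code.curry ct e)) :=
      Code.primrec₂_comp.comp (Primrec.const cF) h1
    exact (Primrec.encode.comp h2).to_comp
  · intro e X x
    have hev : ∀ a : List Bool × ℕ × ℕ, Code.eval (Code.comp cF (Code.curry ct e)) (Encodable.encode a) =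
        Code.eval cF (Encodable.encode ((a.1, Nat.pair e a.2.1, a.2.2) : List Bool × ℕ × ℕ)) := by
      intro a
      show (Code.eval (Code.curry ct e) (Encodable.encode a) >>= Code.eval cF) = _
      rw [Code.eval_curry, hct']
      have : tr (Nat.pair e (Encodable.encode a)) =
          Encodable.encode ((a.1, Nat.pair e a.2.1, a.2.2) : List Bool × ℕ × ℕ) := by
        simp only [tr, Nat.unpair_pair, Encodable.encodek, Option.map_some, Option.getD_some]
      rw [this]
      exact Part.bind_some _ _
    set ce := Code.comp cF (Code.curry ct e) with hce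
    have hof : Denumerable.ofNat Code (Encodable.encode ce) = ce := Denumerable.ofNat_encode _
    -- success at `N` gives a value
    have hsound : ∀ N, tN ce (restr X N) x N = true → N.unpair.2.unpair.1 ∈ F X (Nat.pair e x) := by
      intro N hN
      rw [tN] at hN
      rw [restr_take X (Nat.unpair_left_le N)] at hN
      obtain ⟨v, hv⟩ := Option.isSome_iff_exists.1 hN
      have h1 := Code.evaln_sound (Option.mem_def.2 hv)
      rw [hev] at h1
      have h2 := (hWdom (restr X N.unpair.1, Nat.pair e x, N.unpair.2.unpair.1)).2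
        (Part.dom_iff_mem.2 ⟨v, h1⟩)
      exact (hWF X _ _).2 ⟨_, h2⟩
    apply Part.ext
    intro y
    rw [exφ, Part.mem_map_iff]
    constructor
    · rintro ⟨N, hN, rfl⟩
      rw [mem_exΦ, hof, fs_iff] at hN
      exact hsound N hN.1
    · intro hy
      obtain ⟨n, hn⟩ := (hWF X _ _).1 hy
      have h1 := (hWdom _).1 hn
      have h2 : (Code.eval ce (Encodable.encode ((restr X n, x, y) : List Bool × ℕ × ℕ))).Dom := by
        rw [hev]; exact h1
      obtain ⟨v, hv⟩ := Part.dom_iff_mem.1 h2
      obtain ⟨k, hk⟩ := Code.evaln_complete.1 hv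
      have hex : ∃ N, tN ce (restr X N) x N = true := by
        refine ⟨Nat.pair n (Nat.pair y k), ?_⟩
        have hle : n ≤ Nat.pair n (Nat.pair y k) := Nat.left_le_pair _ _
        rw [tN]
        simp only [Nat.unpair_pair]
        rw [restr_take X hle, Option.mem_def.1 hk]
        rfl
      have h3 := Nat.find_spec hex
      refine ⟨Nat.find hex, ?_, Part.mem_unique (hsound _ h3) hy⟩
      rw [mem_exΦ, hof, fs_iff]
      refine ⟨h3, fun m hm => ?_⟩
      have := Nat.find_min hex hm
      simpa using this

/-- Relative Blum measures exist. -/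
def stdBlum : RelBlum where
  φ := exφ
  Φ := exΦ
  universal := exφ_functional
  acceptable := exAcceptable
  functional := exΦ_functional
  dom := fun _ _ _ => Iff.rfl
  decidable := ⟨exD, exD_functional, fun i X x y => by
    rw [mem_exΦ, exD]
    simp only [Nat.unpair_pair]
    cases fs (Denumerable.ofNat Code i) (restr X y) x <;> simp⟩

end Pool.Agent.Helper344.Blum
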