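import Mathlib

set_option autoImplicit false

namespace Pool.Agent.Helper344.Coh1

/-! ### the online pairing process -/

/-- add a block in front of a list of blocks, pairing two adjacent single blocks -/
def ins (b : ℕ × ℕ) (acc : List (ℕ × ℕ)) : List (ℕ × ℕ) :=
  match acc with
  | [] => [b]
  | c :: cs => if b.1 = b.2 ∧ c.1 = c.2 then (b.1, c.1) :: cs else b :: c :: cs

/-- keep the living elements of a block, then add it -/
def addB (a : ℕ → Bool) (b : ℕ × ℕ) (acc : List (ℕ × ℕ)) : List (ℕ × ℕ) :=
  if a b.1 = true then (if a b.2 = true then ins b acc else ins (b.1, b.1) acc)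
  else (if a b.2 = true then ins (b.2, b.2) acc else acc)

/-- one step of the process -/
def step (a : ℕ → Bool) (s : ℕ) (B : List (ℕ × ℕ)) : List (ℕ × ℕ) :=
  B.foldr (fun b acc => addB a b acc) (if a s = true then [(s, s)] else [])

/-- the blocks after `s` steps; `al s x` says that `x` is alive at stage `s` -/
def run (al : ℕ → ℕ → Bool) : ℕ → List (ℕ × ℕ)
  | 0 => []
  | s + 1 => step (al (s + 1)) s (run al s)

/-- elements of blocks -/
def elts (B : List (ℕ × ℕ)) : Set ℕ := {x | ∃ b ∈ B, x = b.1 ∨ x = b.2}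

/-- blocks are ordered -/
def Srt (B : List (ℕ × ℕ)) : Prop :=
  B.Pairwise (fun b c => b.2 < c.1) ∧ ∀ b ∈ B, b.1 ≤ b.2

/-- no two adjacent single blocks -/
def NoAdj : List (ℕ × ℕ) → Prop
  | [] => True
  | [_] => True
  | b :: c :: cs => ¬ (b.1 = b.2 ∧ c.1 = c.2) ∧ NoAdj (c :: cs)

lemma elts_nil : elts [] = ∅ := by
  ext x; simp [elts]

lemma elts_cons (b : ℕ × ℕ) (B : List (ℕ × ℕ)) : elts (b :: B) = {b.1, b.2} ∪ elts B := by
  ext x; simp [elts]

lemma elts_ins (b : ℕ × ℕ) (acc : List (ℕ × ℕ)) : elts (ins b acc) = {b.1, b.2} ∪ elts acc := by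
  cases acc with
  | nil => simp [ins, elts_cons, elts_nil]
  | cons c cs =>
    by_cases h : b.1 = b.2 ∧ c.1 = c.2
    · simp only [ins, h, and_self, if_true, elts_cons]
      ext x
      simp only [Set.mem_union, Set.mem_insert_iff, Set.mem_singleton_iff]
      tauto
    · simp [ins, h, elts_cons]

lemma noAdj_ins (b : ℕ × ℕ) (hb : b.1 ≤ b.2) (acc : List (ℕ × ℕ)) (h : NoAdj acc)
    (hs : Srt acc) (hlt : ∀ c ∈ acc, b.2 < c.1) : NoAdj (ins b acc) ∧ Srt (ins b acc) := by
  cases acc with
  | nil =>
    refine ⟨trivial, ?_, ?_⟩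
    · simp [ins]
    · intro c hc
      simp only [ins, List.mem_singleton] at hc
      subst hc; exact hb
  | cons c cs =>
    have hc := hs.2 c (by simp)
    have hbc := hlt c (by simp)
    obtain ⟨hp, hle⟩ := hs
    rw [List.pairwise_cons] at hp
    by_cases h1 : b.1 = b.2 ∧ c.1 = c.2
    · simp only [ins, h1, and_self, if_true]
      refine ⟨?_, ?_, ?_⟩
      · cases cs with
        | nil => trivial
        | cons d ds =>
          refine ⟨?_, ?_⟩
          · simp only [not_and]
            intro h2
            exfalso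
            have := h1.2
            omega
          · exact h.2
      · rw [List.pairwise_cons]
        refine ⟨?_, hp.2⟩
        intro d hd
        have := hp.1 d hd
        simp only
        omega
      · intro d hd
        rcases List.mem_cons.1 hd with rfl | hd
        · simp only; omega
        · exact hle d (by simp [hd])
    · simp only [ins, h1, if_false]
      refine ⟨⟨h1, h⟩, ?_, ?_⟩
      · rw [List.pairwise_cons]
        refine ⟨hlt, ?_⟩
        rw [List.pairwise_cons]
        exact hp
      · intro d hd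
        rcases List.mem_cons.1 hd with rfl | hd
        · exact hb
        · exact hle d hd


lemma addB_spec (a : ℕ → Bool) (b : ℕ × ℕ) (hb : b.1 ≤ b.2) (acc : List (ℕ × ℕ)) (h : NoAdj acc)
    (hs : Srt acc) (hlt : ∀ x ∈ elts acc, b.2 < x) :
    NoAdj (addB a b acc) ∧ Srt (addB a b acc) ∧
      elts (addB a b acc) = {x | (x = b.1 ∨ x = b.2) ∧ a x = true} ∪ elts acc := by
  have hlt' : ∀ c ∈ acc, b.2 < c.1 := fun c hc => hlt _ ⟨c, hc, Or.inl rfl⟩
  unfold addB
  by_cases h1 : a b.1 = true
  · by_cases h2 : a b.2 = true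
    · simp only [h1, h2, if_true]
      have := noAdj_ins b hb acc h hs hlt'
      refine ⟨this.1, this.2, ?_⟩
      rw [elts_ins]
      ext x
      simp only [Set.mem_union, Set.mem_insert_iff, Set.mem_singleton_iff, Set.mem_ofPred_eq]
      constructor
      · rintro ((rfl | rfl) | hx)
        · exact Or.inl ⟨Or.inl rfl, h1⟩
        · exact Or.inl ⟨Or.inr rfl, h2⟩
        · exact Or.inr hx
      · rintro (⟨hx, -⟩ | hx)
        · exact Or.inl hx
        · exact Or.inr hx
    · simp only [h1, h2, if_true]
      have := noAdj_ins (b.1, b.1) le_rfl acc h hs (fun c hc => lt_of_le_of_lt hb (hlt' c hc))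
      refine ⟨this.1, this.2, ?_⟩
      rw [if_neg (by simp), elts_ins]
      ext x
      simp only [Set.mem_union, Set.mem_insert_iff, Set.mem_singleton_iff, Set.mem_ofPred_eq]
      constructor
      · rintro ((rfl | rfl) | hx)
        · exact Or.inl ⟨Or.inl rfl, h1⟩
        · exact Or.inl ⟨Or.inl rfl, h1⟩
        · exact Or.inr hx
      · rintro (⟨hx | hx, hax⟩ | hx)
        · exact Or.inl (Or.inl hx)
        · subst hx; exact absurd hax h2
        · exact Or.inr hx
  · by_cases h2 : a b.2 = true
    · simp only [h1, h2, if_true]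
      have := noAdj_ins (b.2, b.2) le_rfl acc h hs (fun c hc => (hlt' c hc))
      rw [if_neg (by simp)]
      refine ⟨this.1, this.2, ?_⟩
      rw [elts_ins]
      ext x
      simp only [Set.mem_union, Set.mem_insert_iff, Set.mem_singleton_iff, Set.mem_ofPred_eq]
      constructor
      · rintro ((rfl | rfl) | hx)
        · exact Or.inl ⟨Or.inr rfl, h2⟩
        · exact Or.inl ⟨Or.inr rfl, h2⟩
        · exact Or.inr hx
      · rintro (⟨hx | hx, hax⟩ | hx)
        · subst hx; exact absurd hax h1
        · exact Or.inl (Or.inl hx)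
        · exact Or.inr hx
    · simp only [h1, h2]
      rw [if_neg (by simp), if_neg (by simp)]
      refine ⟨h, hs, ?_⟩
      ext x
      simp only [Set.mem_union, Set.mem_ofPred_eq]
      constructor
      · exact Or.inr
      · rintro (⟨hx | hx, hax⟩ | hx)
        · subst hx; exact absurd hax h1
        · subst hx; exact absurd hax h2
        · exact hx

lemma foldr_spec (a : ℕ → Bool) (I : List (ℕ × ℕ)) (hI : NoAdj I) (hIs : Srt I) :
    ∀ (B : List (ℕ × ℕ)), Srt B → (∀ x ∈ elts B, ∀ y ∈ elts I, x < y) →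
      NoAdj (B.foldr (fun b acc => addB a b acc) I) ∧
      Srt (B.foldr (fun b acc => addB a b acc) I) ∧
      elts (B.foldr (fun b acc => addB a b acc) I) = {x | x ∈ elts B ∧ a x = true} ∪ elts I := by
  intro B
  induction B with
  | nil =>
    intro _ _
    refine ⟨hI, hIs, ?_⟩
    simp [elts_nil]
  | cons b B ih =>
    intro hB hlt
    have hB1 := hB.1
    rw [List.pairwise_cons] at hB1
    have hBs : Srt B := ⟨hB1.2, fun c hc => hB.2 c (by simp [hc])⟩
    have hlt2 : ∀ x ∈ elts B, ∀ y ∈ elts I, x < y := by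
      intro x hx y hy
      exact hlt x (by rw [elts_cons]; exact Or.inr hx) y hy
    obtain ⟨h1, h2, h3⟩ := ih hBs hlt2
    have hb := hB.2 b (by simp)
    have key := addB_spec a b hb (B.foldr (fun b acc => addB a b acc) I) h1 h2 (by
      intro x hx
      rw [h3] at hx
      rcases hx with ⟨hx, -⟩ | hx
      · obtain ⟨c, hc, hxc⟩ := hx
        have := hB1.1 c hc
        have h5 := hB.2 c (by simp [hc])
        rcases hxc with rfl | rfl
        · exact this
        · omega
      · exact hlt b.2 (by rw [elts_cons]; simp) x hx)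
    rw [List.foldr_cons]
    refine ⟨key.1, key.2.1, ?_⟩
    rw [key.2.2, h3, elts_cons]
    ext x
    simp only [Set.mem_union, Set.mem_insert_iff, Set.mem_singleton_iff, Set.mem_ofPred_eq]
    tauto

/-- assumptions on the alive predicate -/
structure Alive (al : ℕ → ℕ → Bool) : Prop where
  lt : ∀ s x, al s x = true → x < s
  mono : ∀ s x, al (s + 1) x = true → x < s → al s x = true

lemma run_spec (al : ℕ → ℕ → Bool) (h : Alive al) (s : ℕ) :
    NoAdj (run al s) ∧ Srt (run al s) ∧ elts (run al s) = {x | al s x = true} := by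
  induction s with
  | zero =>
    refine ⟨trivial, ⟨List.Pairwise.nil, by simp [run]⟩, ?_⟩
    ext x
    simp only [run, elts_nil, Set.mem_empty_iff_false, Set.mem_ofPred_eq, false_iff]
    intro hx
    have := h.lt _ _ hx
    omega
  | succ s ih =>
    obtain ⟨h1, h2, h3⟩ := ih
    by_cases hs : al (s + 1) s = true
    · have := foldr_spec (al (s + 1)) [(s, s)] trivial ⟨by simp, by simp⟩ (run al s) h2 (by
        intro x hx y hy
        rw [h3] at hx
        have := h.lt _ _ hx
        rw [elts_cons, elts_nil] at hy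
        simp at hy
        omega)
      simp only [run, step, hs, if_true]
      refine ⟨this.1, this.2.1, ?_⟩
      rw [this.2.2, h3, elts_cons, elts_nil]
      ext x
      simp only [Set.mem_union, Set.mem_insert_iff, Set.mem_singleton_iff, Set.mem_ofPred_eq,
        Set.mem_empty_iff_false, or_false, or_self]
      constructor
      · rintro (⟨-, hx⟩ | rfl)
        · exact hx
        · exact hs
      · intro hx
        have h4 := h.lt _ _ hx
        by_cases hxs : x = s
        · exact Or.inr hxs
        · exact Or.inl ⟨h.mono _ _ hx (by omega), hx⟩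
    · have := foldr_spec (al (s + 1)) [] trivial ⟨by simp, by simp⟩ (run al s) h2 (by
        intro x hx y hy
        rw [elts_nil] at hy
        exact absurd hy (Set.notMem_empty _))
      simp only [run, step, hs]
      rw [if_neg (by simp)]
      refine ⟨this.1, this.2.1, ?_⟩
      rw [this.2.2, h3, elts_nil]
      ext x
      simp only [Set.mem_union, Set.mem_ofPred_eq, Set.mem_empty_iff_false, or_false]
      constructor
      · rintro ⟨-, hx⟩
        exact hx
      · intro hx
        have h4 := h.lt _ _ hx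
        have hxs : x ≠ s := by
          rintro rfl
          exact hs hx
        exact ⟨h.mono _ _ hx (by omega), hx⟩


lemma srt_unique (B : List (ℕ × ℕ)) (h : Srt B) (b c : ℕ × ℕ) (hb : b ∈ B) (hc : c ∈ B) (x : ℕ)
    (hxb : x = b.1 ∨ x = b.2) (hxc : x = c.1 ∨ x = c.2) : b = c := by
  by_contra hne
  have : Std.Symm (fun b c : ℕ × ℕ => b.2 < c.1 ∨ c.2 < b.1) := ⟨fun _ _ h => h.symm⟩
  have hp : B.Pairwise (fun b c : ℕ × ℕ => b.2 < c.1 ∨ c.2 < b.1) := h.1.imp (fun h => Or.inl h)
  have h1 := hp.forall hb hc hne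
  have h2 := h.2 b hb
  have h3 := h.2 c hc
  omega

lemma srt_ne (B : List (ℕ × ℕ)) (h : Srt B) (b c : ℕ × ℕ) (hb : b ∈ B) (hc : c ∈ B)
    (hne : b ≠ c) : b.2 < c.1 ∨ c.2 < b.1 := by
  have : Std.Symm (fun b c : ℕ × ℕ => b.2 < c.1 ∨ c.2 < b.1) := ⟨fun _ _ h => h.symm⟩
  have hp : B.Pairwise (fun b c : ℕ × ℕ => b.2 < c.1 ∨ c.2 < b.1) := h.1.imp (fun h => Or.inl h)
  exact hp.forall hb hc hne

lemma mem_ins_self (b : ℕ × ℕ) (hb : b.1 ≠ b.2) (acc : List (ℕ × ℕ)) : b ∈ ins b acc := by
  cases acc with
  | nil => simp [ins]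
  | cons c cs => simp [ins, hb]

lemma mem_ins_of_mem (b c : ℕ × ℕ) (hc : c.1 ≠ c.2) (acc : List (ℕ × ℕ)) (h : c ∈ acc) :
    c ∈ ins b acc := by
  cases acc with
  | nil => simp at h
  | cons d ds =>
    by_cases h1 : b.1 = b.2 ∧ d.1 = d.2
    · simp only [ins, h1, and_self, if_true]
      rcases List.mem_cons.1 h with rfl | h
      · exact absurd h1.2 hc
      · exact List.mem_cons_of_mem _ h
    · simp only [ins, h1, if_false]
      exact List.mem_cons_of_mem _ h

lemma mem_addB_of_mem (a : ℕ → Bool) (b c : ℕ × ℕ) (hc : c.1 ≠ c.2) (acc : List (ℕ × ℕ))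
    (h : c ∈ acc) : c ∈ addB a b acc := by
  unfold addB
  split_ifs
  · exact mem_ins_of_mem _ _ hc _ h
  · exact mem_ins_of_mem _ _ hc _ h
  · exact mem_ins_of_mem _ _ hc _ h
  · exact h

lemma mem_foldr (a : ℕ → Bool) (I : List (ℕ × ℕ)) (c : ℕ × ℕ) (hc : c.1 ≠ c.2)
    (h1 : a c.1 = true) (h2 : a c.2 = true) :
    ∀ B : List (ℕ × ℕ), c ∈ B → c ∈ B.foldr (fun b acc => addB a b acc) I := by
  intro B
  induction B with
  | nil => intro h; simp at h
  | cons b B ih =>
    intro h
    rw [List.foldr_cons]
    rcases List.mem_cons.1 h with rfl | h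
    · unfold addB
      rw [if_pos h1, if_pos h2]
      exact mem_ins_self _ hc _
    · exact mem_addB_of_mem a b c hc _ (ih h)

lemma pair_persist (al : ℕ → ℕ → Bool) (s : ℕ) (c : ℕ × ℕ) (hc : c.1 ≠ c.2)
    (h : c ∈ run al s) (h1 : al (s + 1) c.1 = true) (h2 : al (s + 1) c.2 = true) :
    c ∈ run al (s + 1) :=
  mem_foldr _ _ c hc h1 h2 _ h

/-- the partner of `y` (or `y` itself) -/
def partner (B : List (ℕ × ℕ)) (y : ℕ) : ℕ :=
  B.foldr (fun b r => if b.1 = y then b.2 else if b.2 = y then b.1 else r) y

lemma partner_eq (u v : ℕ) : ∀ B : List (ℕ × ℕ), Srt B → (u, v) ∈ B →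
    partner B u = v ∧ partner B v = u := by
  intro B
  induction B with
  | nil => intro _ h; simp at h
  | cons b B ih =>
    intro hB h
    have hB1 := hB.1
    rw [List.pairwise_cons] at hB1
    have hBs : Srt B := ⟨hB1.2, fun c hc => hB.2 c (by simp [hc])⟩
    have huv : u ≤ v := hB.2 _ h
    rcases List.mem_cons.1 h with rfl | h
    · constructor
      · simp [partner]
      · by_cases huv : u = v
        · simp [partner, huv]
        · simp [partner, huv]
    · have h1 : b.2 < u := hB1.1 _ h
      have h2 : b.1 ≤ b.2 := hB.2 _ (by simp)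
      have h3 := ih hBs h
      constructor
      · rw [← h3.1]
        simp only [partner, List.foldr_cons]
        rw [if_neg (by omega), if_neg (by omega)]
      · rw [← h3.2]
        simp only [partner, List.foldr_cons]
        rw [if_neg (by omega), if_neg (by omega)]

lemma partner_notin (x : ℕ) : ∀ B : List (ℕ × ℕ), x ∉ elts B → partner B x = x := by
  intro B
  induction B with
  | nil => intro _; simp [partner]
  | cons b B ih =>
    intro h
    rw [elts_cons] at h
    simp only [Set.mem_union, Set.mem_insert_iff, Set.mem_singleton_iff, not_or] at h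
    have := ih h.2
    simp only [partner, List.foldr_cons] at this ⊢
    rw [if_neg (fun e => h.1.1 e.symm), if_neg (fun e => h.1.2 e.symm)]
    exact this

/-- the update of a pointer with parity -/
def upd (a : ℕ → Bool) (B : List (ℕ × ℕ)) (q : ℕ × Bool) : ℕ × Bool :=
  if a q.1 = true then q
  else if partner B q.1 ≠ q.1 ∧ (a (partner B q.1) = true ∨ q.1 < partner B q.1) then
    (partner B q.1, !q.2)
  else q

def track (al : ℕ → ℕ → Bool) (x : ℕ) : ℕ → ℕ × Bool
  | 0 => (x, false)
  | s + 1 => upd (al (s + 1)) (run al s) (track al x s)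

lemma track_early (al : ℕ → ℕ → Bool) (h : Alive al) (x : ℕ) :
    ∀ s, s ≤ x → track al x s = (x, false) := by
  intro s
  induction s with
  | zero => intro _; rfl
  | succ s ih =>
    intro hs
    have h1 := ih (by omega)
    have h2 : x ∉ elts (run al s) := by
      rw [(run_spec al h s).2.2]
      intro hx
      have := h.lt _ _ hx
      omega
    simp only [track, h1, upd]
    rw [if_neg (by
      intro hx
      have := h.lt _ _ hx
      omega), partner_notin x _ h2]
    simp

lemma track_alive (al : ℕ → ℕ → Bool) (h : Alive al) (x : ℕ) :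
    ∀ s, al s x = true → track al x s = (x, false) := by
  intro s
  induction s with
  | zero => intro _; rfl
  | succ s ih =>
    intro hs
    have hlt := h.lt _ _ hs
    have h1 : track al x s = (x, false) := by
      by_cases hxs : x < s
      · exact ih (h.mono _ _ hs hxs)
      · exact track_early al h x s (by omega)
    simp only [track, h1, upd]
    rw [if_pos hs]

def isSecond (B : List (ℕ × ℕ)) (y : ℕ) : Bool :=
  B.foldr (fun b r => (decide (b.2 = y) && !decide (b.1 = y)) || r) false

lemma isSecond_iff (y : ℕ) : ∀ B : List (ℕ × ℕ),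
    isSecond B y = true ↔ ∃ b ∈ B, b.2 = y ∧ b.1 ≠ y := by
  intro B
  induction B with
  | nil => simp [isSecond]
  | cons b B ih =>
    have : isSecond (b :: B) y = ((decide (b.2 = y) && !decide (b.1 = y)) || isSecond B y) := rfl
    rw [this, Bool.or_eq_true, ih]
    simp

/-- the colour of `x` at stage `T` -/
def col (al : ℕ → ℕ → Bool) (T x : ℕ) : Bool :=
  xor (track al x T).2 (isSecond (run al T) (track al x T).1)

lemma track_pair (al : ℕ → ℕ → Bool) (h : Alive al) (s u v : ℕ) (huv : u ≠ v)
    (hp : (u, v) ∈ run al s) : ∀ T, s ≤ T →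
    ((u, v) ∈ run al T ∧ track al u T = (u, false) ∧ track al v T = (v, false)) ∨
    ∃ y p, track al u T = (y, p) ∧ track al v T = (y, !p) := by
  intro T hT
  induction T, hT using Nat.le_induction with
  | base =>
    left
    have h1 := (run_spec al h s).2.2
    have hu : u ∈ elts (run al s) := ⟨_, hp, Or.inl rfl⟩
    have hv : v ∈ elts (run al s) := ⟨_, hp, Or.inr rfl⟩
    rw [h1] at hu hv
    exact ⟨hp, track_alive al h u s hu, track_alive al h v s hv⟩
  | succ T hT ih =>
    rcases ih with ⟨h1, h2, h3⟩ | ⟨y, p, h1, h2⟩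
    · obtain ⟨h4, h5⟩ := partner_eq u v _ (run_spec al h T).2.1 h1
      have huv' : u < v := lt_of_le_of_ne ((run_spec al h T).2.1.2 _ h1) huv
      by_cases hu : al (T + 1) u = true
      · by_cases hv : al (T + 1) v = true
        · left
          refine ⟨pair_persist al T (u, v) huv h1 hu hv, ?_, ?_⟩
          · exact track_alive al h u _ hu
          · exact track_alive al h v _ hv
        · right
          refine ⟨u, false, track_alive al h u _ hu, ?_⟩
          simp only [track, h3, upd, h5]
          rw [if_neg hv, if_pos ⟨huv, Or.inl hu⟩]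
      · by_cases hv : al (T + 1) v = true
        · right
          refine ⟨v, true, ?_, ?_⟩
          · simp only [track, h2, upd, h4]
            rw [if_neg hu, if_pos ⟨huv.symm, Or.inl hv⟩]
            rfl
          · exact track_alive al h v _ hv
        · right
          refine ⟨v, true, ?_, ?_⟩
          · simp only [track, h2, upd, h4]
            rw [if_neg hu, if_pos ⟨huv.symm, Or.inr huv'⟩]
            rfl
          · simp only [track, h3, upd, h5]
            rw [if_neg hv, if_neg (by
              rintro ⟨-, h6 | h6⟩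
              · exact hu h6
              · omega)]
            rfl
    · right
      simp only [track, h1, h2]
      unfold upd
      simp only
      split_ifs with h3 h4
      · exact ⟨y, p, rfl, rfl⟩
      · exact ⟨_, _, rfl, rfl⟩
      · exact ⟨y, p, rfl, rfl⟩

lemma col_ne (al : ℕ → ℕ → Bool) (h : Alive al) (s u v : ℕ) (huv : u ≠ v)
    (hp : (u, v) ∈ run al s) (T : ℕ) (hT : s ≤ T) : col al T u ≠ col al T v := by
  rcases track_pair al h s u v huv hp T hT with ⟨h1, h2, h3⟩ | ⟨y, p, h1, h2⟩
  · have hv : isSecond (run al T) v = true := by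
      rw [isSecond_iff]
      exact ⟨(u, v), h1, rfl, huv⟩
    have hu : isSecond (run al T) u = false := by
      rw [Bool.eq_false_iff]
      intro hu
      rw [isSecond_iff] at hu
      obtain ⟨b, hb, h4, h5⟩ := hu
      have := srt_unique _ (run_spec al h T).2.1 b (u, v) hb h1 u (Or.inr h4.symm) (Or.inl rfl)
      rw [this] at h5
      exact h5 rfl
    simp [col, h2, h3, hu, hv]
  · simp only [col, h1, h2]
    cases p <;> cases isSecond (run al T) y <;> simp


lemma noAdj_append (P L : List (ℕ × ℕ)) : NoAdj (P ++ L) → NoAdj L := by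
  induction P with
  | nil => exact id
  | cons p P ih =>
    intro h
    apply ih
    cases hPL : P ++ L with
    | nil => trivial
    | cons c cs =>
      rw [List.cons_append, hPL] at h
      exact h.2

lemma find_pair (B : List (ℕ × ℕ)) (hN : NoAdj B) (hS : Srt B) (a b c d : ℕ)
    (ha : a ∈ elts B) (hb : b ∈ elts B) (hc : c ∈ elts B) (hd : d ∈ elts B)
    (hab : a < b) (hbc : b < c) (hcd : c < d)
    (h1 : ∀ x ∈ elts B, a < x → b ≤ x) (h2 : ∀ x ∈ elts B, b < x → c ≤ x)
    (h3 : ∀ x ∈ elts B, c < x → d ≤ x) :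
    ∃ u v, (u, v) ∈ B ∧ u ≠ v ∧ (u = a ∨ u = b ∨ u = c ∨ u = d) ∧
      (v = a ∨ v = b ∨ v = c ∨ v = d) := by
  obtain ⟨β, hβ, hbβ⟩ := hb
  have hβle := hS.2 β hβ
  by_cases hsing : β.1 = β.2
  · -- single block
    obtain ⟨P, L, hPL⟩ := List.append_of_mem hβ
    have hN2 : NoAdj (β :: L) := noAdj_append P _ (hPL ▸ hN)
    have hS1 := hS.1
    rw [hPL, List.pairwise_append] at hS1
    obtain ⟨hP1, hP2, hP3⟩ := hS1
    rw [List.pairwise_cons] at hP2
    obtain ⟨γ, hγ, hcγ⟩ := hc
    have hγL : γ ∈ L := by
      rw [hPL] at hγ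
      rcases List.mem_append.1 hγ with h | h
      · have h5 := hP3 γ h β (by simp)
        have h6 := hS.2 γ (by rw [hPL]; simp [h])
        exfalso
        omega
      · rcases List.mem_cons.1 h with h | h
        · subst h
          exfalso
          omega
        · exact h
    cases L with
    | nil => simp at hγL
    | cons δ L' =>
      have hδB : δ ∈ B := by rw [hPL]; simp
      have hδle := hS.2 δ hδB
      have h4 : β.2 < δ.1 := hP2.1 δ (by simp)
      have h5 : c ≤ δ.1 := h2 δ.1 ⟨δ, hδB, Or.inl rfl⟩ (by omega)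
      have h6 : δ.1 ≤ c := by
        rcases List.mem_cons.1 hγL with h | h
        · subst h
          omega
        · have h7 := hP2.2
          rw [List.pairwise_cons] at h7
          have h8 := h7.1 γ h
          have h9 := hS.2 γ hγ
          omega
      have h7 : δ.1 ≠ δ.2 := by
        intro h
        exact hN2.1 ⟨hsing, h⟩
      have h8 : d ≤ δ.2 := h3 δ.2 ⟨δ, hδB, Or.inr rfl⟩ (by omega)
      obtain ⟨ε, hε, hdε⟩ := hd
      have h9 : d = δ.2 := by
        by_cases hεδ : ε = δ
        · subst hεδ
          omega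
        · have h10 := srt_ne B hS ε δ hε hδB hεδ
          have h11 := hS.2 ε hε
          omega
      exact ⟨δ.1, δ.2, hδB, h7, by omega, by omega⟩
  · rcases hbβ with hbβ | hbβ
    · have h4 : c ≤ β.2 := h2 β.2 ⟨β, hβ, Or.inr rfl⟩ (by omega)
      obtain ⟨γ, hγ, hcγ⟩ := hc
      have h5 : c = β.2 := by
        by_cases hγβ : γ = β
        · subst hγβ
          omega
        · have h10 := srt_ne B hS γ β hγ hβ hγβ
          have h11 := hS.2 γ hγ
          omega
      exact ⟨β.1, β.2, hβ, hsing, by omega, by omega⟩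
    · have h4 : β.1 ≤ a := by
        by_contra h
        have := h1 β.1 ⟨β, hβ, Or.inl rfl⟩ (by omega)
        omega
      obtain ⟨γ, hγ, haγ⟩ := ha
      have h5 : a = β.1 := by
        by_cases hγβ : γ = β
        · subst hγβ
          omega
        · have h10 := srt_ne B hS γ β hγ hβ hγβ
          have h11 := hS.2 γ hγ
          omega
      exact ⟨β.1, β.2, hβ, hsing, by omega, by omega⟩

lemma next_elt (A : Set ℕ) (hA : A.Infinite) (m : ℕ) :
    ∃ a ∈ A, m < a ∧ ∀ x ∈ A, m < x → a ≤ x := by
  classical
  have h : ∃ a, a ∈ A ∧ m < a := by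
    obtain ⟨a, ha, hm⟩ := hA.exists_gt m
    exact ⟨a, ha, hm⟩
  refine ⟨Nat.find h, (Nat.find_spec h).1, (Nat.find_spec h).2, ?_⟩
  intro x hx hmx
  exact Nat.find_min' h ⟨hx, hmx⟩

lemma dead_mono (al : ℕ → ℕ → Bool) (h : Alive al) (x s : ℕ) (hx : x < s)
    (hs : al s x = false) : ∀ t, s ≤ t → al t x = false := by
  intro t ht
  induction t, ht using Nat.le_induction with
  | base => exact hs
  | succ t ht ih =>
    rw [Bool.eq_false_iff]
    intro h1
    rw [h.mono t x h1 (by omega)] at ih
    exact absurd ih (by simp)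

lemma stage_exists (al : ℕ → ℕ → Bool) (h : Alive al) (A : Set ℕ)
    (hA : ∀ x, x ∈ A ↔ ∀ s, x < s → al s x = true) (d : ℕ) :
    ∃ s, d < s ∧ ∀ x, x ≤ d → ∀ t, s ≤ t → (al t x = true ↔ x ∈ A) := by
  induction d with
  | zero =>
    by_cases h0 : 0 ∈ A
    · refine ⟨1, by omega, ?_⟩
      intro x hx t ht
      obtain rfl : x = 0 := by omega
      exact ⟨fun _ => h0, fun _ => (hA 0).1 h0 t (by omega)⟩
    · have h1 := h0
      rw [hA] at h1
      push Not at h1
      obtain ⟨s, hs, hs2⟩ := h1
      refine ⟨s, hs, ?_⟩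
      intro x hx t ht
      obtain rfl : x = 0 := by omega
      have := dead_mono al h 0 s hs (by simpa using hs2) t ht
      simp [this, h0]
  | succ d ih =>
    obtain ⟨s, hs, hs2⟩ := ih
    by_cases h0 : d + 1 ∈ A
    · refine ⟨max s (d + 2), by omega, ?_⟩
      intro x hx t ht
      rcases Nat.lt_or_ge d x with hx1 | hx1
      · obtain rfl : x = d + 1 := by omega
        exact ⟨fun _ => h0, fun _ => (hA _).1 h0 t (by omega)⟩
      · exact hs2 x hx1 t (by omega)
    · have h1 := h0
      rw [hA] at h1
      push Not at h1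
      obtain ⟨s', hs', hs2'⟩ := h1
      refine ⟨max s s', by omega, ?_⟩
      intro x hx t ht
      rcases Nat.lt_or_ge d x with hx1 | hx1
      · obtain rfl : x = d + 1 := by omega
        have := dead_mono al h (d + 1) s' hs' (by simpa using hs2') t (by omega)
        simp [this, h0]
      · exact hs2 x hx1 t (by omega)

lemma exists_pair (al : ℕ → ℕ → Bool) (h : Alive al) (A : Set ℕ) (hinf : A.Infinite)
    (hA : ∀ x, x ∈ A ↔ ∀ s, x < s → al s x = true) (m : ℕ) :
    ∃ s u v, (u, v) ∈ run al s ∧ u ≠ v ∧ u ∈ A ∧ v ∈ A ∧ m < u ∧ m < v := by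
  obtain ⟨a, haA, hma, ha⟩ := next_elt A hinf m
  obtain ⟨b, hbA, hab, hb⟩ := next_elt A hinf a
  obtain ⟨c, hcA, hbc, hc⟩ := next_elt A hinf b
  obtain ⟨d, hdA, hcd, hd⟩ := next_elt A hinf c
  obtain ⟨s, hds, hs⟩ := stage_exists al h A hA d
  obtain ⟨hN, hS, hE⟩ := run_spec al h s
  have hmem : ∀ x, x ≤ d → (x ∈ elts (run al s) ↔ x ∈ A) := by
    intro x hx
    rw [hE]
    exact hs x hx s le_rfl
  have key := find_pair (run al s) hN hS a b c d ((hmem a (by omega)).2 haA)
    ((hmem b (by omega)).2 hbA) ((hmem c (by omega)).2 hcA) ((hmem d (by omega)).2 hdA)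
    hab hbc hcd
    (by
      intro x hx hax
      by_cases hxd : x ≤ d
      · exact hb x ((hmem x hxd).1 hx) hax
      · omega)
    (by
      intro x hx hax
      by_cases hxd : x ≤ d
      · exact hc x ((hmem x hxd).1 hx) hax
      · omega)
    (by
      intro x hx hax
      by_cases hxd : x ≤ d
      · exact hd x ((hmem x hxd).1 hx) hax
      · omega)
  obtain ⟨u, v, huv, hne, hu, hv⟩ := key
  refine ⟨s, u, v, huv, hne, ?_, ?_, by omega, by omega⟩
  · rcases hu with rfl | rfl | rfl | rfl <;> assumption
  · rcases hv with rfl | rfl | rfl | rfl <;> assumption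

/-- the process up to stage `s` depends only on the alive predicate up to stage `s` -/
lemma run_congr (al al' : ℕ → ℕ → Bool) (s : ℕ) (h : ∀ t, t ≤ s → ∀ x, al t x = al' t x) :
    run al s = run al' s := by
  induction s with
  | zero => rfl
  | succ s ih =>
    have h1 := ih (fun t ht x => h t (by omega) x)
    have h2 : al (s + 1) = al' (s + 1) := funext (h (s + 1) le_rfl)
    simp only [run, h1, h2]

end Pool.Agent.Helper344.Coh1
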