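import Mathlib
import Pool.Agent.Helper344.Coh1

set_option autoImplicit false

namespace Pool.Agent.Helper344.Coh2

open Pool.Agent.Helper344.Coh1

lemma track_congr (al al' : ℕ → ℕ → Bool) (s x : ℕ) (h : ∀ t, t ≤ s → ∀ x, al t x = al' t x) :
    track al x s = track al' x s := by
  induction s with
  | zero => rfl
  | succ s ih =>
    have h1 := ih (fun t ht x => h t (by omega) x)
    have h2 : al (s + 1) = al' (s + 1) := funext (h (s + 1) le_rfl)
    have h3 := run_congr al al' s (fun t ht x => h t (by omega) x)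
    simp only [track, h1, h2, h3]

lemma col_congr (al al' : ℕ → ℕ → Bool) (T x : ℕ) (h : ∀ t, t ≤ T → ∀ x, al t x = al' t x) :
    col al T x = col al' T x := by
  unfold col
  rw [track_congr al al' T x h, run_congr al al' T h]

/-- alive predicate read off a table -/
def tal (tbl : List Bool) (s x : ℕ) : Bool := tbl.getD (Nat.pair s x) false

open Primrec in
lemma prim_ins : Primrec₂ ins := by
  have : Primrec (fun p : (ℕ × ℕ) × List (ℕ × ℕ) =>
      (List.casesOn p.2 [p.1] (fun c cs => if p.1.1 = p.1.2 ∧ c.1 = c.2 then (p.1.1, c.1) :: cs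
        else p.1 :: c :: cs) : List (ℕ × ℕ))) := by
    refine Primrec.list_casesOn (f := fun p : (ℕ × ℕ) × List (ℕ × ℕ) => p.2)
      (h := fun p q => if p.1.1 = p.1.2 ∧ q.1.1 = q.1.2 then (p.1.1, q.1.1) :: q.2
        else p.1 :: q.1 :: q.2) snd ?_ ?_
    · exact list_cons.comp fst (const [])
    · refine Primrec.ite ?_ ?_ ?_
      · refine PrimrecPred.and ?_ ?_
        · exact Primrec.eq.comp (fst.comp (fst.comp fst)) (snd.comp (fst.comp fst))
        · exact Primrec.eq.comp (fst.comp (fst.comp snd)) (snd.comp (fst.comp snd))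
      · exact list_cons.comp (Primrec.pair (fst.comp (fst.comp fst)) (fst.comp (fst.comp snd)))
          (snd.comp snd)
      · exact list_cons.comp (fst.comp fst) (list_cons.comp (fst.comp snd) (snd.comp snd))
  refine this.of_eq ?_
  rintro ⟨b, acc⟩
  cases acc <;> rfl

open Primrec in
lemma prim_tal : Primrec (fun p : List Bool × ℕ × ℕ => tal p.1 p.2.1 p.2.2) := by
  unfold tal
  exact (Primrec.list_getD false).comp fst
    (Primrec₂.natPair.comp (fst.comp snd) (snd.comp snd))

/-- context: table, stage -/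
abbrev Ctx := List Bool × ℕ

open Primrec in
lemma prim_addB : Primrec (fun p : Ctx × (ℕ × ℕ) × List (ℕ × ℕ) =>
    addB (tal p.1.1 p.1.2) p.2.1 p.2.2) := by
  unfold addB
  have h1 : Primrec (fun p : Ctx × (ℕ × ℕ) × List (ℕ × ℕ) => tal p.1.1 p.1.2 p.2.1.1) :=
    prim_tal.comp (Primrec.pair (fst.comp fst) (Primrec.pair (snd.comp fst)
      (fst.comp (fst.comp snd))))
  have h2 : Primrec (fun p : Ctx × (ℕ × ℕ) × List (ℕ × ℕ) => tal p.1.1 p.1.2 p.2.1.2) :=
    prim_tal.comp (Primrec.pair (fst.comp fst) (Primrec.pair (snd.comp fst)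
      (snd.comp (fst.comp snd))))
  refine Primrec.ite (Primrec.eq.comp h1 (const true)) ?_ ?_
  · refine Primrec.ite (Primrec.eq.comp h2 (const true)) ?_ ?_
    · exact prim_ins.comp (fst.comp snd) (snd.comp snd)
    · exact prim_ins.comp (Primrec.pair (fst.comp (fst.comp snd)) (fst.comp (fst.comp snd)))
        (snd.comp snd)
  · refine Primrec.ite (Primrec.eq.comp h2 (const true)) ?_ ?_
    · exact prim_ins.comp (Primrec.pair (snd.comp (fst.comp snd)) (snd.comp (fst.comp snd)))
        (snd.comp snd)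
    · exact snd.comp snd

open Primrec in
lemma prim_step : Primrec (fun p : Ctx × List (ℕ × ℕ) =>
    step (tal p.1.1 (p.1.2 + 1)) p.1.2 p.2) := by
  unfold step
  have hc : Primrec (fun p : Ctx × List (ℕ × ℕ) => ((p.1.1, p.1.2 + 1) : Ctx)) :=
    Primrec.pair (fst.comp fst) (succ.comp (snd.comp fst))
  refine Primrec.list_foldr (f := fun p : Ctx × List (ℕ × ℕ) => p.2)
    (g := fun p : Ctx × List (ℕ × ℕ) =>
      if tal p.1.1 (p.1.2 + 1) p.1.2 = true then [(p.1.2, p.1.2)] else [])
    (h := fun p q => addB (tal p.1.1 (p.1.2 + 1)) q.1 q.2) snd ?_ ?_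
  · refine Primrec.ite (Primrec.eq.comp ?_ (const true)) ?_ (const [])
    · exact prim_tal.comp (Primrec.pair (fst.comp fst) (Primrec.pair (succ.comp (snd.comp fst))
        (snd.comp fst)))
    · exact list_cons.comp (Primrec.pair (snd.comp fst) (snd.comp fst)) (const [])
  · exact prim_addB.comp (Primrec.pair (hc.comp fst) snd)

open Primrec in
lemma prim_run : Primrec (fun p : Ctx => run (tal p.1) p.2) := by
  have : Primrec (fun p : Ctx => (Nat.rec [] (fun s B => step (tal p.1 (s + 1)) s B) p.2 :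
      List (ℕ × ℕ))) := by
    refine Primrec.nat_rec' (f := fun p : Ctx => p.2) (g := fun _ => [])
      (h := fun p q => step (tal p.1 (q.1 + 1)) q.1 q.2) snd (const []) ?_
    exact prim_step.comp (Primrec.pair (Primrec.pair (fst.comp fst) (fst.comp snd))
      (snd.comp snd))
  refine this.of_eq ?_
  rintro ⟨tbl, s⟩
  induction s with
  | zero => rfl
  | succ s ih =>
    simp only [run] at ih ⊢
    rw [← ih]

open Primrec in
lemma prim_partner : Primrec₂ partner := by
  unfold partner
  refine Primrec.list_foldr (f := fun p : List (ℕ × ℕ) × ℕ => p.1) (g := fun p => p.2)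
    (h := fun p q => if q.1.1 = p.2 then q.1.2 else if q.1.2 = p.2 then q.1.1 else q.2)
    fst snd ?_
  refine Primrec.ite (Primrec.eq.comp (fst.comp (fst.comp snd)) (snd.comp fst)) ?_ ?_
  · exact snd.comp (fst.comp snd)
  · refine Primrec.ite (Primrec.eq.comp (snd.comp (fst.comp snd)) (snd.comp fst)) ?_ ?_
    · exact fst.comp (fst.comp snd)
    · exact snd.comp snd

open Primrec in
lemma prim_isSecond : Primrec₂ isSecond := by
  unfold isSecond
  refine Primrec.list_foldr (f := fun p : List (ℕ × ℕ) × ℕ => p.1) (g := fun p => false)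
    (h := fun p q => (decide (q.1.2 = p.2) && !decide (q.1.1 = p.2)) || q.2)
    fst (const false) ?_
  refine Primrec.or.comp (Primrec.and.comp ?_ (Primrec.not.comp ?_)) (snd.comp snd)
  · exact (Primrec.eq.comp (snd.comp (fst.comp snd)) (snd.comp fst)).decide
  · exact (Primrec.eq.comp (fst.comp (fst.comp snd)) (snd.comp fst)).decide

open Primrec in
lemma prim_upd : Primrec (fun p : Ctx × List (ℕ × ℕ) × ℕ × Bool =>
    upd (tal p.1.1 p.1.2) p.2.1 p.2.2) := by
  unfold upd
  have hq1 : Primrec (fun p : Ctx × List (ℕ × ℕ) × ℕ × Bool => p.2.2.1) :=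
    fst.comp (snd.comp snd)
  have hq2 : Primrec (fun p : Ctx × List (ℕ × ℕ) × ℕ × Bool => p.2.2.2) :=
    snd.comp (snd.comp snd)
  have hpt : Primrec (fun p : Ctx × List (ℕ × ℕ) × ℕ × Bool => partner p.2.1 p.2.2.1) :=
    prim_partner.comp (fst.comp snd) hq1
  refine Primrec.ite (Primrec.eq.comp ?_ (const true)) (snd.comp snd) ?_
  · exact prim_tal.comp (Primrec.pair (fst.comp fst) (Primrec.pair (snd.comp fst) hq1))
  · refine Primrec.ite (PrimrecPred.and ?_ (PrimrecPred.or ?_ ?_)) ?_ (snd.comp snd)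
    · exact (Primrec.eq.comp hpt hq1).not
    · exact Primrec.eq.comp
        (prim_tal.comp (Primrec.pair (fst.comp fst) (Primrec.pair (snd.comp fst) hpt)))
        (const true)
    · exact Primrec.nat_lt.comp hq1 hpt
    · exact Primrec.pair hpt (Primrec.not.comp hq2)

open Primrec in
lemma prim_track : Primrec (fun p : List Bool × ℕ × ℕ => track (tal p.1) p.2.2 p.2.1) := by
  have : Primrec (fun p : List Bool × ℕ × ℕ =>
      (Nat.rec (p.2.2, false) (fun s q => upd (tal p.1 (s + 1)) (run (tal p.1) s) q) p.2.1 :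
      ℕ × Bool)) := by
    refine Primrec.nat_rec' (f := fun p : List Bool × ℕ × ℕ => p.2.1)
      (g := fun p => (p.2.2, false))
      (h := fun p q => upd (tal p.1 (q.1 + 1)) (run (tal p.1) q.1) q.2)
      (fst.comp snd) (Primrec.pair (snd.comp snd) (const false)) ?_
    exact prim_upd.comp (Primrec.pair (Primrec.pair (fst.comp fst) (succ.comp (fst.comp snd)))
      (Primrec.pair (prim_run.comp (Primrec.pair (fst.comp fst) (fst.comp snd)))
      (snd.comp snd)))
  refine this.of_eq ?_
  rintro ⟨tbl, s, x⟩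
  dsimp only
  induction s with
  | zero => rfl
  | succ s ih =>
    simp only [track] at ih ⊢
    rw [← ih]

open Primrec in
lemma prim_col : Primrec (fun p : List Bool × ℕ × ℕ => col (tal p.1) p.2.1 p.2.2) := by
  unfold col
  have h1 : Primrec (fun p : List Bool × ℕ × ℕ => isSecond (run (tal p.1) p.2.1)
      (track (tal p.1) p.2.2 p.2.1).1) :=
    prim_isSecond.comp (prim_run.comp (Primrec.pair fst (fst.comp snd))) (fst.comp prim_track)
  exact (Primrec.dom_bool₂ _).comp (snd.comp prim_track) h1

end Pool.Agent.Helper344.Coh2
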