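import Mathlib
import Pool.Agent.Helper344.Coh2

set_option autoImplicit false

namespace Pool.Agent.Helper344.Coh3

open Pool.Agent.Helper344.Coh1 Pool.Agent.Helper344.Coh2

/-! ### alive predicate from a table of truth values -/

def allBelow (f : ℕ → Bool) (s : ℕ) : Bool := Nat.rec true (fun k acc => acc && f k) s

lemma allBelow_iff (f : ℕ → Bool) (s : ℕ) : allBelow f s = true ↔ ∀ k < s, f k = true := by
  induction s with
  | zero => simp [allBelow]
  | succ s ih =>
    have : allBelow f (s + 1) = (allBelow f s && f s) := rfl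
    rw [this, Bool.and_eq_true, ih]
    constructor
    · rintro ⟨h1, h2⟩ k hk
      rcases Nat.lt_succ_iff_lt_or_eq.1 hk with h | rfl
      · exact h1 k h
      · exact h2
    · intro h
      exact ⟨fun k hk => h k (by omega), h s (by omega)⟩

def alOf (D : ℕ → ℕ → Bool) (s x : ℕ) : Bool := decide (x < s) && allBelow (D x) s

lemma alOf_iff (D : ℕ → ℕ → Bool) (s x : ℕ) :
    alOf D s x = true ↔ x < s ∧ ∀ k < s, D x k = true := by
  simp [alOf, allBelow_iff]

lemma alOf_alive (D : ℕ → ℕ → Bool) : Alive (alOf D) where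
  lt s x h := ((alOf_iff D s x).1 h).1
  mono s x h hx := by
    rw [alOf_iff] at h ⊢
    exact ⟨hx, fun k hk => h.2 k (by omega)⟩

lemma alOf_congr (D D' : ℕ → ℕ → Bool) (s : ℕ) (h : ∀ x < s, ∀ k < s, D x k = D' x k) :
    ∀ t, t ≤ s → ∀ x, alOf D t x = alOf D' t x := by
  intro t ht x
  rw [Bool.eq_iff_iff, alOf_iff, alOf_iff]
  constructor
  · rintro ⟨h1, h2⟩
    exact ⟨h1, fun k hk => by rw [← h x (by omega) k (by omega)]; exact h2 k hk⟩
  · rintro ⟨h1, h2⟩
    exact ⟨h1, fun k hk => by rw [h x (by omega) k (by omega)]; exact h2 k hk⟩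

def tblOf (f : ℕ → Bool) (N : ℕ) : List Bool := Nat.rec [] (fun i acc => acc ++ [f i]) N

lemma tblOf_length (f : ℕ → Bool) (N : ℕ) : (tblOf f N).length = N := by
  induction N with
  | zero => rfl
  | succ N ih =>
    have : tblOf f (N + 1) = tblOf f N ++ [f N] := rfl
    rw [this, List.length_append, ih]
    rfl

lemma tblOf_getD (f : ℕ → Bool) (N i : ℕ) (hi : i < N) : (tblOf f N).getD i false = f i := by
  induction N with
  | zero => omega
  | succ N ih =>
    have h1 : tblOf f (N + 1) = tblOf f N ++ [f N] := rfl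
    rw [h1]
    rcases Nat.lt_succ_iff_lt_or_eq.1 hi with h | rfl
    · rw [List.getD_append _ _ _ _ (by rw [tblOf_length]; exact h)]
      exact ih h
    · rw [List.getD_append_right _ _ _ _ (by rw [tblOf_length])]
      simp [tblOf_length]

lemma tblOf_getD' (f : ℕ → Bool) (N i : ℕ) (hi : N ≤ i) : (tblOf f N).getD i false = false := by
  apply List.getD_eq_default
  rw [tblOf_length]
  exact hi

def alU (D : ℕ → ℕ → Bool) (z : ℕ) : Bool := alOf D z.unpair.1 z.unpair.2

/-- the colour computed through a table -/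
def colT (D : ℕ → ℕ → Bool) (T x : ℕ) : Bool :=
  col (tal (tblOf (alU D) ((T + 1) * (T + 1)))) T x

lemma colT_eq (D : ℕ → ℕ → Bool) (T x : ℕ) : colT D T x = col (alOf D) T x := by
  apply col_congr
  intro t ht y
  unfold tal
  by_cases h : Nat.pair t y < (T + 1) * (T + 1)
  · rw [tblOf_getD _ _ _ h]
    simp [alU]
  · rw [tblOf_getD' _ _ _ (by omega)]
    symm
    rw [Bool.eq_false_iff]
    intro h2
    have h3 := ((alOf_iff D t y).1 h2).1
    have h4 := Nat.pair_lt_max_add_one_sq t y
    rw [max_eq_left h3.le] at h4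
    have h5 : (t + 1) ^ 2 ≤ (T + 1) * (T + 1) := by
      rw [sq]
      exact Nat.mul_le_mul (by omega) (by omega)
    omega

open Computable in
lemma comp_allBelow {α : Type} [Primcodable α] (f : α → ℕ → Bool) (hf : Computable₂ f)
    (s : α → ℕ) (hs : Computable s) : Computable (fun a => allBelow (f a) (s a)) := by
  unfold allBelow
  refine Computable.nat_rec (f := s) (g := fun _ => true)
    (h := fun a q => q.2 && f a q.1) hs (const true) ?_
  exact (Primrec.and.to_comp).comp (snd.comp snd) (hf.comp fst (fst.comp snd))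

open Computable in
lemma comp_alOf {α : Type} [Primcodable α] (D : α → ℕ → ℕ → Bool)
    (hD : Computable (fun p : α × ℕ × ℕ => D p.1 p.2.1 p.2.2)) :
    Computable (fun p : α × ℕ × ℕ => alOf (D p.1) p.2.1 p.2.2) := by
  have h1 : Computable (fun p : α × ℕ × ℕ => decide (p.2.2 < p.2.1)) :=
    (Primrec.nat_lt.decide.to_comp).comp (snd.comp snd) (fst.comp snd)
  have h2 : Computable₂ (fun (p : α × ℕ × ℕ) (k : ℕ) => D p.1 p.2.2 k) :=
    hD.comp (Computable.pair (fst.comp fst)
      (Computable.pair (snd.comp (snd.comp fst)) snd))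
  have h3 : Computable (fun p : α × ℕ × ℕ => allBelow (D p.1 p.2.2) p.2.1) :=
    comp_allBelow (fun p : α × ℕ × ℕ => D p.1 p.2.2) h2 (fun p => p.2.1) (fst.comp snd)
  exact (Primrec.and.to_comp).comp h1 h3

open Computable in
lemma comp_tblOf {α : Type} [Primcodable α] (f : α → ℕ → Bool) (hf : Computable₂ f)
    (N : α → ℕ) (hN : Computable N) : Computable (fun a => tblOf (f a) (N a)) := by
  unfold tblOf
  refine Computable.nat_rec (f := N) (g := fun _ => [])
    (h := fun a q => q.2 ++ [f a q.1]) hN (const []) ?_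
  exact Computable.list_concat.comp (snd.comp snd) (hf.comp fst (fst.comp snd))

open Computable in
lemma comp_sq {α : Type} [Primcodable α] (T : α → ℕ) (hT : Computable T) :
    Computable (fun a => (T a + 1) * (T a + 1)) :=
  (Primrec.nat_mul.to_comp).comp (Computable.succ.comp hT) (Computable.succ.comp hT)

open Computable in
lemma comp_alU {α : Type} [Primcodable α] (D : α → ℕ → ℕ → Bool)
    (hD : Computable (fun p : α × ℕ × ℕ => D p.1 p.2.1 p.2.2)) :
    Computable₂ (fun a z => alU (D a) z) := by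
  have h0 : Computable (fun p : α × ℕ => ((p.1, p.2.unpair) : α × ℕ × ℕ)) :=
    Computable.pair fst (Computable.unpair.comp snd)
  have h1 := comp_alOf D hD
  have h2 := h1.comp h0
  exact h2

open Computable in
lemma comp_colT {α : Type} [Primcodable α] (D : α → ℕ → ℕ → Bool)
    (hD : Computable (fun p : α × ℕ × ℕ => D p.1 p.2.1 p.2.2))
    (T : α → ℕ) (hT : Computable T) (x : α → ℕ) (hx : Computable x) :
    Computable (fun a => colT (D a) (T a) (x a)) := by
  have h1 : Computable (fun a => tblOf (alU (D a)) ((T a + 1) * (T a + 1))) :=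
    comp_tblOf (fun a z => alU (D a) z) (comp_alU D hD) _ (comp_sq T hT)
  have h4 : Computable (fun a => ((tblOf (alU (D a)) ((T a + 1) * (T a + 1)), T a, x a) :
      List Bool × ℕ × ℕ)) := Computable.pair h1 (Computable.pair hT hx)
  have h5 := prim_col.to_comp
  have h6 := h5.comp h4
  exact h6

/-! ### iterated limits -/

/-- `for all large y_1, for all large y_2, ..., for all large y_m : p [y_1, ..., y_m]` -/
def IterLim : ℕ → (List ℕ → Prop) → Prop
  | 0, p => p []
  | m + 1, p => ∃ b : ℕ, ∀ y, b ≤ y → IterLim m (fun l => p (y :: l))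

lemma IterLim.mono {m : ℕ} {p q : List ℕ → Prop} (h : ∀ l, p l → q l) (hp : IterLim m p) :
    IterLim m q := by
  induction m generalizing p q with
  | zero => exact h _ hp
  | succ m ih =>
    obtain ⟨b, hb⟩ := hp
    exact ⟨b, fun y hy => ih (fun l => h (y :: l)) (hb y hy)⟩

lemma IterLim.and {m : ℕ} {p q : List ℕ → Prop} (hp : IterLim m p) (hq : IterLim m q) :
    IterLim m (fun l => p l ∧ q l) := by
  induction m generalizing p q with
  | zero => exact ⟨hp, hq⟩
  | succ m ih =>
    obtain ⟨b, hb⟩ := hp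
    obtain ⟨c, hc⟩ := hq
    exact ⟨max b c, fun y hy => ih (hb y (by omega)) (hc y (by omega))⟩

lemma IterLim.of_forall {m : ℕ} {p : List ℕ → Prop} (h : ∀ l, p l) : IterLim m p := by
  induction m generalizing p with
  | zero => exact h _
  | succ m ih => exact ⟨0, fun y _ => ih (fun l => h (y :: l))⟩

lemma IterLim.forall_lt {m : ℕ} {p : ℕ → List ℕ → Prop} (N : ℕ) (h : ∀ i, IterLim m (p i)) :
    IterLim m (fun l => ∀ i < N, p i l) := by
  induction N with
  | zero => exact IterLim.of_forall (fun l i hi => absurd hi (by omega))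
  | succ N ih =>
    refine (ih.and (h N)).mono ?_
    rintro l ⟨h1, h2⟩ i hi
    rcases Nat.lt_succ_iff_lt_or_eq.1 hi with h | rfl
    · exact h1 i h
    · exact h2

lemma IterLim.exists_list {m : ℕ} {p : List ℕ → Prop} (hp : IterLim m p) (H : Set ℕ)
    (hH : H.Infinite) (b : ℕ) :
    ∃ l : List ℕ, l.length = m ∧ l.Pairwise (· < ·) ∧ (∀ y ∈ l, y ∈ H ∧ b < y) ∧ p l := by
  induction m generalizing p b with
  | zero => exact ⟨[], rfl, List.Pairwise.nil, by simp, hp⟩
  | succ m ih =>
    obtain ⟨c, hc⟩ := hp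
    obtain ⟨y, hyH, hy⟩ := hH.exists_gt (max b c)
    obtain ⟨l, h1, h2, h3, h4⟩ := ih (hc y (by omega)) y
    refine ⟨y :: l, by simp [h1], ?_, ?_, h4⟩
    · rw [List.pairwise_cons]
      exact ⟨fun z hz => (h3 z hz).2, h2⟩
    · intro z hz
      rcases List.mem_cons.1 hz with rfl | hz
      · exact ⟨hyH, by omega⟩
      · exact ⟨(h3 z hz).1, by have := (h3 z hz).2; omega⟩

end Pool.Agent.Helper344.Coh3
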