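import Mathlib
import Pool.Agent.Helper344.BlumEx

set_option autoImplicit false

namespace Pool.Agent.Helper344.SB

open Pool.Agent.Helper344.Blum (restr IsFunctional exφ emp)
open Nat.Partrec (Code)

/-! ### Relative computability -/

/-- The function `f` is computable from the oracle `X`. -/
def Reduces (f : ℕ → ℕ) (X : ℕ → Bool) : Prop :=
  ∃ F : (ℕ → Bool) → ℕ →. ℕ, IsFunctional F ∧ ∀ n, f n ∈ F X n

/-- Turing reducibility `A ≤_T X` of sets, given by their characteristic functions. -/
def TLe (A X : ℕ → Bool) : Prop := Reduces (fun n => (A n).toNat) X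

open Classical in
/-- The jump `X' = {e : φ_e^X(e) is defined}`; `exφ` is the standard acceptable numbering of the
oracle partial recursive functions. -/
noncomputable def jump (X : ℕ → Bool) : ℕ → Bool := fun e => decide (exφ e X e).Dom

/-- `X` is high: `X' ≥_T ∅''`. -/
def High (X : ℕ → Bool) : Prop := TLe (jump (jump emp)) (jump X)

/-! ### First-order logic -/

/-- First-order formulas with variables `x_0, x_1, …` and unnested atomic formulas:
`x_i = x_j`, `R_e(x_a…)`, `f_e(x_a…) = x_j`. -/
inductive Fm : Type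
  | eq (i j : ℕ) : Fm
  | rel (e : ℕ) (a : List ℕ) : Fm
  | fn (e : ℕ) (a : List ℕ) (j : ℕ) : Fm
  | neg (φ : Fm) : Fm
  | and (φ ψ : Fm) : Fm
  | ex (i : ℕ) (φ : Fm) : Fm
  deriving DecidableEq

/-- Gödel numbering, a bijection between formulas and natural numbers. -/
def code : Fm → ℕ
  | .eq i j => 6 * Nat.pair i j
  | .rel e a => 6 * Nat.pair e (Encodable.encode a) + 1
  | .fn e a j => 6 * Nat.pair e (Nat.pair (Encodable.encode a) j) + 2
  | .neg φ => 6 * code φ + 3
  | .and φ ψ => 6 * Nat.pair (code φ) (code ψ) + 4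
  | .ex i φ => 6 * Nat.pair i (code φ) + 5

/-- A computably presented countable language: `rel e = some k` means that `e` is a `k`-ary
relation symbol, `fn e = some k` that `e` is a `k`-ary function symbol. -/
structure Lang where
  rel : ℕ → Option ℕ
  fn : ℕ → Option ℕ
  comp_rel : Computable rel
  comp_fn : Computable fn

/-- `φ` is a formula of the language `L`. -/
def WF (L : Lang) : Fm → Prop
  | .eq _ _ => True
  | .rel e a => L.rel e = some a.length
  | .fn e a _ => L.fn e = some a.length
  | .neg φ => WF L φ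
  | .and φ ψ => WF L φ ∧ WF L ψ
  | .ex _ φ => WF L φ

/-- The set of free variables. -/
def free : Fm → Set ℕ
  | .eq i j => {i, j}
  | .rel _ a => {x | x ∈ a}
  | .fn _ a j => {x | x ∈ a ∨ x = j}
  | .neg φ => free φ
  | .and φ ψ => free φ ∪ free ψ
  | .ex i φ => free φ \ {i}

/-- Interpretations of the symbols on a set `M` (only the values at symbols of the language,
with lists of the right length, matter). -/
structure Str (M : Type) where
  rel : ℕ → List M → Prop
  fn : ℕ → List M → M

/-- Satisfaction. -/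
def Sat {M : Type} (S : Str M) : (ℕ → M) → Fm → Prop
  | v, .eq i j => v i = v j
  | v, .rel e a => S.rel e (a.map v)
  | v, .fn e a j => S.fn e (a.map v) = v j
  | v, .neg φ => ¬ Sat S v φ
  | v, .and φ ψ => Sat S v φ ∧ Sat S v ψ
  | v, .ex i φ => ∃ m, Sat S (Function.update v i m) φ

/-- The complete theory of a structure: all true sentences of the language. -/
def Th (L : Lang) {M : Type} (S : Str M) : Set Fm :=
  {φ | WF L φ ∧ free φ = ∅ ∧ ∀ v, Sat S v φ}

/-- `p` is a complete type in the variables `x_0, …, x_(n-1)` of the complete theory of `S`: it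
consists of formulas in these variables, contains each of them or its negation, and every finite
part of it is satisfiable in `S`. -/
def IsType (L : Lang) {M : Type} (S : Str M) (n : ℕ) (p : Set Fm) : Prop :=
  (∀ φ ∈ p, WF L φ ∧ free φ ⊆ {i | i < n}) ∧
  (∀ φ, WF L φ → free φ ⊆ {i | i < n} → φ ∈ p ∨ Fm.neg φ ∈ p) ∧
  (∀ l : List Fm, (∀ φ ∈ l, φ ∈ p) → ∃ v, ∀ φ ∈ l, Sat S v φ)

/-- `p` is a complete type over the parameters `a_0, …, a_(n-1)` (denoted by `x_0, …, x_(n-1)`)
in the variables `x_n, …, x_(n+m-1)`. -/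
def IsTypeOver (L : Lang) {M : Type} (S : Str M) (n : ℕ) (a : ℕ → M) (m : ℕ) (p : Set Fm) : Prop :=
  (∀ φ ∈ p, WF L φ ∧ free φ ⊆ {i | i < n + m}) ∧
  (∀ φ, WF L φ → free φ ⊆ {i | i < n + m} → φ ∈ p ∨ Fm.neg φ ∈ p) ∧
  (∀ l : List Fm, (∀ φ ∈ l, φ ∈ p) → ∃ v, (∀ i < n, v i = a i) ∧ ∀ φ ∈ l, Sat S v φ)

/-- Every complete type in finitely many variables over finitely many parameters is realized. -/
def Saturated (L : Lang) {M : Type} (S : Str M) : Prop :=
  ∀ (n : ℕ) (a : ℕ → M) (m : ℕ) (p : Set Fm), IsTypeOver L S n a m p →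
    ∃ v, (∀ i < n, v i = a i) ∧ ∀ φ ∈ p, Sat S v φ

/-- The set of formulas `p` is computable. -/
def CompSet (p : Set Fm) : Prop :=
  ∃ A : ℕ → Bool, Computable A ∧ ∀ φ, A (code φ) = true ↔ φ ∈ p

/-- The elementary diagram of the structure `S` with domain `ℕ` is computable from `X`
(the list `a` gives the values of the variables, by default `0`). -/
def DiagramDec (L : Lang) (S : Str ℕ) (X : ℕ → Bool) : Prop :=
  ∃ A : ℕ → Bool, TLe A X ∧ ∀ (φ : Fm) (a : List ℕ), WF L φ →
    (A (Nat.pair (code φ) (Encodable.encode a)) = true ↔ Sat S (fun i => a.getD i 0) φ)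

/-- `X` is saturated bounding: every complete decidable theory (the theory of an infinite
structure) all of whose types are computable has a saturated model with domain `ℕ` whose
elementary diagram is computable from `X`. -/
def SaturatedBounding (X : ℕ → Bool) : Prop :=
  ∀ (L : Lang) (M : Type) [Infinite M] (S : Str M), CompSet (Th L S) →
    (∀ (n : ℕ) (p : Set Fm), IsType L S n p → CompSet p) →
    ∃ N : Str ℕ, Th L N = Th L S ∧ Saturated L N ∧ DiagramDec L N X

/-! ### Peano arithmetic -/

/-- The language of arithmetic: function symbols `0` (zero), `1` (successor), `2` (addition),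
`3` (multiplication), of arities `0, 1, 2, 2`. -/
def LPA : Lang where
  rel := fun _ => none
  fn := fun e => if e = 0 then some 0 else if e = 1 then some 1 else if e = 2 then some 2
    else if e = 3 then some 2 else none
  comp_rel := Computable.const none
  comp_fn := by
    apply Primrec.to_comp
    exact Primrec.ite (Primrec.eq.comp Primrec.id (Primrec.const 0)) (Primrec.const _)
      (Primrec.ite (Primrec.eq.comp Primrec.id (Primrec.const 1)) (Primrec.const _)
        (Primrec.ite (Primrec.eq.comp Primrec.id (Primrec.const 2)) (Primrec.const _)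
          (Primrec.ite (Primrec.eq.comp Primrec.id (Primrec.const 3)) (Primrec.const _)
            (Primrec.const _))))

/-- `S` is a model of Peano arithmetic. -/
def IsPA {M : Type} (S : Str M) : Prop :=
  (∀ x, S.fn 1 [x] ≠ S.fn 0 []) ∧
  (∀ x y, S.fn 1 [x] = S.fn 1 [y] → x = y) ∧
  (∀ x, S.fn 2 [x, S.fn 0 []] = x) ∧
  (∀ x y, S.fn 2 [x, S.fn 1 [y]] = S.fn 1 [S.fn 2 [x, y]]) ∧
  (∀ x, S.fn 3 [x, S.fn 0 []] = S.fn 0 []) ∧
  (∀ x y, S.fn 3 [x, S.fn 1 [y]] = S.fn 2 [S.fn 3 [x, y], x]) ∧
  (∀ (φ : Fm) (i : ℕ) (v : ℕ → M), WF LPA φ → Sat S (Function.update v i (S.fn 0 [])) φ →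
    (∀ a, Sat S (Function.update v i a) φ → Sat S (Function.update v i (S.fn 1 [a])) φ) →
    ∀ a, Sat S (Function.update v i a) φ)

/-- `X` has PA degree: it computes a complete consistent extension of Peano arithmetic, that is,
the complete theory of a model of Peano arithmetic. -/
def PADegree (X : ℕ → Bool) : Prop :=
  ∃ (M : Type) (S : Str M), IsPA S ∧
    ∃ A : ℕ → Bool, TLe A X ∧ ∀ φ, A (code φ) = true ↔ φ ∈ Th LPA S

end Pool.Agent.Helper344.SB
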