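import Mathlib
import Pool.Agent.Helper344.SBDefs

set_option autoImplicit false

namespace Pool.Agent.Helper344.SB.HighA
open Pool.Agent.Helper344.Blum
open Nat.Partrec (Code)


/-! ### helper lemmas -/

section helpers

variable {γ : Type} [Primcodable γ]

/-- stage approximation of the jump -/
def Jt (τ : List Bool) (e : ℕ) : Bool :=
  (List.range (τ.length + 1)).any (fun N => fs (Denumerable.ofNat Code e) (τ.take N) e)

theorem cJt {τ : γ → List Bool} {e : γ → ℕ} (hτ : Computable τ) (he : Computable e) :
    Computable (fun g => Jt (τ g) (e g)) := by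
  have h1 : Computable₂ (fun (g : γ) (N : ℕ) =>
      fs (Denumerable.ofNat Code (e g)) ((τ g).take N) (e g)) := by
    have hfst : Computable (Prod.fst : γ × ℕ → γ) := Computable.fst
    have hc : Computable (fun p : γ × ℕ => Denumerable.ofNat Code (e p.1)) := by
      have := (Computable.ofNat Code).comp (he.comp hfst)
      exact this
    have ht : Computable (fun p : γ × ℕ => (τ p.1).take p.2) := by
      have := Primrec.list_take.to_comp.comp (Computable.snd (α := γ) (β := ℕ)) (hτ.comp hfst)
      exact this
    have := cFs hc ht (he.comp hfst)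
    exact this
  have := CL.list_any (cRange (Computable.succ.comp (cLen hτ))) h1
  exact this

theorem Jt_iff (X : ℕ → Bool) (t e : ℕ) : Jt (restr X t) e = true ↔
    ∃ N ≤ t, fs (Denumerable.ofNat Code e) (restr X N) e = true := by
  simp only [Jt, List.any_eq_true, List.mem_range, restr_length]
  constructor
  · rintro ⟨N, hN, h⟩
    rw [restr_take X (by omega)] at h
    exact ⟨N, by omega, h⟩
  · rintro ⟨N, hN, h⟩
    refine ⟨N, by omega, ?_⟩
    rw [restr_take X hN]
    exact h

theorem jump_dom (X : ℕ → Bool) (e : ℕ) : jump X e = true ↔ (exφ e X e).Dom := by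
  classical
  unfold jump
  exact decide_eq_true_iff

theorem jump_iff (X : ℕ → Bool) (e : ℕ) : jump X e = true ↔
    ∃ N, fs (Denumerable.ofNat Code e) (restr X N) e = true := by
  rw [jump_dom, exφ]
  show (exΦ e X e).Dom ↔ _
  rw [Part.dom_iff_mem]
  exact exists_congr fun N => mem_exΦ _ _ _ _

theorem Jt_lim (X : ℕ → Bool) (e : ℕ) : ∃ t0, ∀ t, t0 ≤ t → Jt (restr X t) e = jump X e := by
  by_cases h : jump X e = true
  · obtain ⟨N, hN⟩ := (jump_iff X e).1 h
    refine ⟨N, fun t ht => ?_⟩
    rw [h]
    exact (Jt_iff X t e).2 ⟨N, ht, hN⟩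
  · refine ⟨0, fun t _ => ?_⟩
    have h1 : jump X e = false := by simpa using h
    rw [h1]
    by_contra h2
    have h3 : Jt (restr X t) e = true := by simpa using h2
    obtain ⟨N, _, hN⟩ := (Jt_iff X t e).1 h3
    exact h ((jump_iff X e).2 ⟨N, hN⟩)

theorem Jt_lim_all (X : ℕ → Bool) (M : ℕ) :
    ∃ t0, ∀ t, t0 ≤ t → ∀ e < M, Jt (restr X t) e = jump X e := by
  induction M with
  | zero => exact ⟨0, fun _ _ e he => absurd he (Nat.not_lt_zero e)⟩
  | succ M ih =>
    obtain ⟨t0, h0⟩ := ih
    obtain ⟨t1, h1⟩ := Jt_lim X M
    refine ⟨max t0 t1, fun t ht e he => ?_⟩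
    rcases Nat.lt_succ_iff_lt_or_eq.1 he with h | h
    · exact h0 t (le_trans (le_max_left _ _) ht) e h
    · rw [h]; exact h1 t (le_trans (le_max_right _ _) ht)

theorem findSome_range {α : Type} (f : ℕ → Option α) (m : ℕ) (y : α) (hy : f m = some y)
    (h : ∀ j < m, f j = none) : ∀ t, m < t → (List.range t).findSome? f = some y := by
  intro t
  induction t with
  | zero => intro hm; omega
  | succ t ih =>
    intro hm
    rw [List.range_succ, List.findSome?_append]
    rcases Nat.lt_succ_iff_lt_or_eq.1 hm with h1 | h1
    · rw [ih h1]; rfl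
    · have h2 : (List.range t).findSome? f = none := by
        rw [List.findSome?_eq_none_iff]
        intro j hj
        exact h j (by rw [List.mem_range] at hj; omega)
      rw [h2, ← h1]
      simp [hy]

/-- approximation of a functional applied to the jump -/
def Hc (cF : Code) (τ : List Bool) (n : ℕ) : ℕ :=
  ((List.range (τ.length + 1)).findSome? (fun N =>
    bif tN cF ((List.range N).map (Jt τ)) n N then some N.unpair.2.unpair.1 else none)).getD 0

theorem cHc (cF : Code) {τ : γ → List Bool} {n : γ → ℕ} (hτ : Computable τ) (hn : Computable n) :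
    Computable (fun g => Hc cF (τ g) (n g)) := by
  have h1 : Computable₂ (fun (g : γ) (N : ℕ) =>
      (bif tN cF ((List.range N).map (Jt (τ g))) (n g) N then some N.unpair.2.unpair.1 else none :
        Option ℕ)) := by
    have hfst : Computable (Prod.fst : γ × ℕ → γ) := Computable.fst
    have hsnd : Computable (Prod.snd : γ × ℕ → ℕ) := Computable.snd
    have hJ : Computable₂ (fun (p : γ × ℕ) (e : ℕ) => Jt (τ p.1) e) := by
      have := cJt (γ := (γ × ℕ) × ℕ) (τ := fun q => τ q.1.1) (e := fun q => q.2)
        (hτ.comp (Computable.fst.comp Computable.fst)) Computable.snd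
      exact this
    have hm : Computable (fun p : γ × ℕ => (List.range p.2).map (Jt (τ p.1))) := by
      have := CL.list_map (cRange hsnd) hJ
      exact this
    have ht : Computable (fun p : γ × ℕ =>
        tN cF ((List.range p.2).map (Jt (τ p.1))) (n p.1) p.2) := by
      have := cTN (Computable.const cF) hm (hn.comp hfst) hsnd
      exact this
    have hv : Computable (fun p : γ × ℕ => (some p.2.unpair.2.unpair.1 : Option ℕ)) := by
      have := Computable.option_some.comp (Computable.fst.comp (Computable.unpair.comp
        (Computable.snd.comp (Computable.unpair.comp hsnd))))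
      exact this
    have := Computable.cond ht hv (Computable.const (none : Option ℕ))
    exact this
  have h2 := CL.list_findSome? (cRange (Computable.succ.comp (cLen hτ))) h1
  have := Computable.option_getD h2 (Computable.const 0)
  exact this

theorem Hc_lim (X : ℕ → Bool) (F : (ℕ → Bool) → ℕ →. ℕ) (W : List Bool × ℕ × ℕ → Prop) (cF : Code)
    (hcF : ∀ a, W a ↔ ∃ k, (Code.evaln k cF (Encodable.encode a)).isSome = true)
    (hW : ∀ (X : ℕ → Bool) (x y : ℕ), y ∈ F X x ↔ ∃ n : ℕ, W (restr X n, x, y))
    (n v : ℕ) (hv : v ∈ F (jump X) n) :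
    ∃ t0, ∀ t, t0 ≤ t → Hc cF (restr X t) n = v := by
  set Y := jump X with hY
  have hex : ∃ N, tN cF (restr Y N) n N = true := by
    obtain ⟨m, hm⟩ := (hW Y n v).1 hv
    obtain ⟨k, hk⟩ := (hcF _).1 hm
    refine ⟨Nat.pair m (Nat.pair v k), ?_⟩
    rw [tN]
    simp only [Nat.unpair_pair]
    rw [restr_take Y (Nat.left_le_pair _ _)]
    exact hk
  set N := Nat.find hex with hN
  have hNs : tN cF (restr Y N) n N = true := Nat.find_spec hex
  have hNm : ∀ m < N, tN cF (restr Y m) n m = false := fun m hm => by
    have := Nat.find_min hex hm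
    simpa using this
  have hval : N.unpair.2.unpair.1 = v := by
    have h1 := hNs
    rw [tN, restr_take Y (Nat.unpair_left_le N)] at h1
    have h2 : N.unpair.2.unpair.1 ∈ F Y n := (hW Y _ _).2 ⟨_, (hcF _).2 ⟨_, h1⟩⟩
    exact Part.mem_unique h2 hv
  obtain ⟨t0, ht0⟩ := Jt_lim_all X N
  refine ⟨max t0 N, fun t ht => ?_⟩
  have hag : ∀ m ≤ N, (List.range m).map (Jt (restr X t)) = restr Y m := by
    intro m hm
    rw [restr]
    refine List.map_congr_left fun e he => ?_
    rw [List.mem_range] at he
    exact ht0 t (le_trans (le_max_left _ _) ht) e (by omega)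
  rw [Hc, restr_length]
  have hfs := findSome_range (fun M =>
    bif tN cF ((List.range M).map (Jt (restr X t))) n M then some M.unpair.2.unpair.1 else none)
    N v (by
      show (bif tN cF ((List.range N).map (Jt (restr X t))) n N then
        some N.unpair.2.unpair.1 else none) = _
      rw [hag N le_rfl, hNs, cond_true, hval]) (by
      intro j hj
      show (bif tN cF ((List.range j).map (Jt (restr X t))) n j then
        some j.unpair.2.unpair.1 else none) = _
      rw [hag j hj.le, hNm j hj, cond_false]) (t + 1)
    (Nat.lt_succ_of_le (le_trans (le_max_right _ _) ht))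
  rw [hfs]
  rfl

/-- the totality question is computable from the double jump -/
theorem exists_s : ∃ s : ℕ → ℕ, Computable s ∧ ∀ c : ℕ,
    (∀ x, (Code.eval (Denumerable.ofNat Code c) x).Dom) ↔ jump (jump emp) (s c) = false := by
  -- first functional
  have hH : IsFunctional (fun _ p =>
      Code.eval (Denumerable.ofNat Code p.unpair.1.unpair.1) p.unpair.1.unpair.2) := by
    refine ⟨fun a => ∃ k, decide (Code.evaln k (Denumerable.ofNat Code a.2.1.unpair.1.unpair.1)
      a.2.1.unpair.1.unpair.2 = some a.2.2) = true, ?_, ?_⟩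
    · apply re_of_exists
      have h1 : Computable (fun q : (List Bool × ℕ × ℕ) × ℕ => q.1.2.1.unpair.1) := by
        have := Computable.fst.comp (Computable.unpair.comp (Computable.fst.comp
          (Computable.snd.comp (Computable.fst (α := List Bool × ℕ × ℕ) (β := ℕ)))))
        exact this
      have h2 : Computable (fun q : (List Bool × ℕ × ℕ) × ℕ =>
          Denumerable.ofNat Code q.1.2.1.unpair.1.unpair.1) := by
        have := (Computable.ofNat Code).comp (Computable.fst.comp (Computable.unpair.comp h1))
        exact this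
      have h3 : Computable (fun q : (List Bool × ℕ × ℕ) × ℕ => q.1.2.1.unpair.1.unpair.2) := by
        have := Computable.snd.comp (Computable.unpair.comp h1)
        exact this
      have h4 : Computable (fun q : (List Bool × ℕ × ℕ) × ℕ => (some q.1.2.2 : Option ℕ)) := by
        have := Computable.option_some.comp (Computable.snd.comp (Computable.snd.comp
          (Computable.fst (α := List Bool × ℕ × ℕ) (β := ℕ))))
        exact this
      have h5 := Code.primrec_evaln.to_comp.comp
        (((Computable.snd (α := List Bool × ℕ × ℕ) (β := ℕ)).pair h2).pair h3)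
      have := (CL.decide_eq' (α := Option ℕ)).comp h5 h4
      exact this
    · intro X x y
      simp only [decide_eq_true_eq, exists_const]
      rw [Code.evaln_complete]
      rfl
  obtain ⟨k, hk, hkφ⟩ := exAcceptable _ hH
  have hjk : ∀ e, jump emp (k e) = true ↔
      (Code.eval (Denumerable.ofNat Code e.unpair.1) e.unpair.2).Dom := by
    intro e
    rw [jump_dom, hkφ]
    simp only [Nat.unpair_pair]
  -- second functional
  have hG : IsFunctional (fun Y p =>
      (⟨∃ x, Y (k (Nat.pair p.unpair.1 x)) = false, fun _ => 0⟩ : Part ℕ)) := by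
    refine ⟨fun a => ∃ x, (decide (a.2.2 = 0) &&
      decide (a.1[k (Nat.pair a.2.1.unpair.1 x)]? = some false)) = true, ?_, ?_⟩
    · apply re_of_exists
      have h1 : Computable (fun q : (List Bool × ℕ × ℕ) × ℕ =>
          k (Nat.pair q.1.2.1.unpair.1 q.2)) := by
        have := hk.comp (Primrec₂.natPair.to_comp.comp (Computable.fst.comp (Computable.unpair.comp
          (Computable.fst.comp (Computable.snd.comp
            (Computable.fst (α := List Bool × ℕ × ℕ) (β := ℕ)))))) Computable.snd)
        exact this
      have h2 : Computable (fun q : (List Bool × ℕ × ℕ) × ℕ =>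
          q.1.1[k (Nat.pair q.1.2.1.unpair.1 q.2)]?) := by
        have := Computable.list_getElem?.comp (Computable.fst.comp
            (Computable.fst (α := List Bool × ℕ × ℕ) (β := ℕ))) h1
        exact this
      have h3 : Computable (fun q : (List Bool × ℕ × ℕ) × ℕ =>
          decide (q.1.1[k (Nat.pair q.1.2.1.unpair.1 q.2)]? = some false)) := by
        have := (CL.decide_eq' (α := Option Bool)).comp h2 (Computable.const (some false))
        exact this
      have h4 : Computable (fun q : (List Bool × ℕ × ℕ) × ℕ => decide (q.1.2.2 = 0)) := by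
        have := (CL.decide_eq' (α := ℕ)).comp (Computable.snd.comp (Computable.snd.comp
          (Computable.fst (α := List Bool × ℕ × ℕ) (β := ℕ)))) (Computable.const 0)
        exact this
      have := Primrec.and.to_comp.comp h4 h3
      exact this
    · intro Y p y
      simp only [Bool.and_eq_true, decide_eq_true_eq]
      constructor
      · rintro ⟨⟨x, hx⟩, h0⟩
        refine ⟨k (Nat.pair p.unpair.1 x) + 1, x, h0.symm, ?_⟩
        rw [restr_getElem? Y (Nat.lt_succ_self _), hx]
      · rintro ⟨n, x, h0, hx⟩
        refine ⟨⟨x, ?_⟩, h0.symm⟩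
        by_cases hlt : k (Nat.pair p.unpair.1 x) < n
        · rw [restr_getElem? Y hlt] at hx
          exact Option.some_injective _ hx
        · rw [List.getElem?_eq_none (by rw [restr_length]; omega)] at hx
          exact absurd hx (by simp)
  obtain ⟨s, hs, hsφ⟩ := exAcceptable _ hG
  refine ⟨s, hs, fun c => ?_⟩
  have h1 : jump (jump emp) (s c) = true ↔
      ∃ x, ¬ (Code.eval (Denumerable.ofNat Code c) x).Dom := by
    rw [jump_dom, hsφ]
    simp only [Nat.unpair_pair]
    refine exists_congr fun x => ?_
    have h2 := hjk (Nat.pair c x)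
    simp only [Nat.unpair_pair] at h2
    rw [← h2, Bool.not_eq_true]
  rw [← not_iff_not, Bool.not_eq_false, h1, not_forall]

/-- the test at stage `σ.length` -/
def tst (cF : Code) (s : ℕ → ℕ) (σ : List Bool) (x : ℕ) : Bool :=
  (List.range (x + 1)).all (fun c =>
    (List.range (σ.length + 1)).any (fun t => decide (x ≤ t) && decide (Hc cF (σ.take t) (s c) = 1))
    || (List.range (σ.length + 1)).any (fun v =>
      decide (Code.evaln σ.length (Denumerable.ofNat Code c) x = some v)))

theorem cTst (cF : Code) {s : ℕ → ℕ} (hs : Computable s) {σ : γ → List Bool} {x : γ → ℕ}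
    (hσ : Computable σ) (hx : Computable x) : Computable (fun g => tst cF s (σ g) (x g)) := by
  have hA : Computable₂ (fun (p : γ × ℕ) (t : ℕ) =>
      (decide (x p.1 ≤ t) && decide (Hc cF ((σ p.1).take t) (s p.2) = 1))) := by
    have hg : Computable (fun q : (γ × ℕ) × ℕ => q.1.1) := Computable.fst.comp Computable.fst
    have hc : Computable (fun q : (γ × ℕ) × ℕ => s q.1.2) :=
      hs.comp (Computable.snd.comp Computable.fst)
    have ht : Computable (fun q : (γ × ℕ) × ℕ => (σ q.1.1).take q.2) := by
      have := Primrec.list_take.to_comp.comp (Computable.snd (α := γ × ℕ) (β := ℕ)) (hσ.comp hg)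
      exact this
    have h1 : Computable (fun q : (γ × ℕ) × ℕ => decide (x q.1.1 ≤ q.2)) := by
      have := CL.decide_le'.comp (hx.comp hg) (Computable.snd (α := γ × ℕ) (β := ℕ))
      exact this
    have h2 : Computable (fun q : (γ × ℕ) × ℕ =>
        decide (Hc cF ((σ q.1.1).take q.2) (s q.1.2) = 1)) := by
      have := (CL.decide_eq' (α := ℕ)).comp (cHc cF ht hc) (Computable.const 1)
      exact this
    have := Primrec.and.to_comp.comp h1 h2
    exact this
  have hB : Computable₂ (fun (p : γ × ℕ) (v : ℕ) =>
      decide (Code.evaln (σ p.1).length (Denumerable.ofNat Code p.2) (x p.1) = some v)) := by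
    have hg : Computable (fun q : (γ × ℕ) × ℕ => q.1.1) := Computable.fst.comp Computable.fst
    have hl : Computable (fun q : (γ × ℕ) × ℕ => (σ q.1.1).length) := cLen (hσ.comp hg)
    have hc : Computable (fun q : (γ × ℕ) × ℕ => Denumerable.ofNat Code q.1.2) := by
      have := (Computable.ofNat Code).comp (Computable.snd.comp
        (Computable.fst (α := γ × ℕ) (β := ℕ)))
      exact this
    have h1 := Code.primrec_evaln.to_comp.comp ((hl.pair hc).pair (hx.comp hg))
    have h2 : Computable (fun q : (γ × ℕ) × ℕ => (some q.2 : Option ℕ)) :=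
      Computable.option_some.comp Computable.snd
    have := (CL.decide_eq' (α := Option ℕ)).comp h1 h2
    exact this
  have hl : Computable (fun p : γ × ℕ => List.range ((σ p.1).length + 1)) := by
    have := cRange (Computable.succ.comp (cLen (hσ.comp (Computable.fst (α := γ) (β := ℕ)))))
    exact this
  have h3 : Computable₂ (fun (g : γ) (c : ℕ) =>
      ((List.range ((σ g).length + 1)).any (fun t =>
        decide (x g ≤ t) && decide (Hc cF ((σ g).take t) (s c) = 1))
      || (List.range ((σ g).length + 1)).any (fun v =>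
        decide (Code.evaln (σ g).length (Denumerable.ofNat Code c) (x g) = some v)))) := by
    have := Primrec.or.to_comp.comp (CL.list_any hl hA) (CL.list_any hl hB)
    exact this
  have := CL.list_all (cRange (Computable.succ.comp hx)) h3
  exact this

theorem tst_iff (cF : Code) (s : ℕ → ℕ) (X : ℕ → Bool) (T x : ℕ) :
    tst cF s (restr X T) x = true ↔ ∀ c ≤ x,
      (∃ t, x ≤ t ∧ t ≤ T ∧ Hc cF (restr X t) (s c) = 1) ∨
      (∃ v, v ≤ T ∧ Code.evaln T (Denumerable.ofNat Code c) x = some v) := by
  simp only [tst, List.all_eq_true, List.any_eq_true, List.mem_range, restr_length,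
    Bool.or_eq_true, Bool.and_eq_true, decide_eq_true_eq]
  refine forall_congr' fun c => ?_
  refine imp_congr Nat.lt_succ_iff ?_
  refine or_congr ?_ ?_
  · constructor
    · rintro ⟨t, ht, h1, h2⟩
      rw [restr_take X (by omega)] at h2
      exact ⟨t, h1, by omega, h2⟩
    · rintro ⟨t, h1, ht, h2⟩
      refine ⟨t, by omega, h1, ?_⟩
      rw [restr_take X ht]
      exact h2
  · constructor
    · rintro ⟨v, hv, h⟩
      exact ⟨v, by omega, h⟩
    · rintro ⟨v, hv, h⟩
      exact ⟨v, by omega, h⟩

end helpers

/-- TARGET: computably dominated oracles are not high. -/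
theorem not_high_of_dominated (X : ℕ → Bool)
    (hdom : ∀ h : ℕ → ℕ, Reduces h X → ∃ g : ℕ → ℕ, Computable g ∧ ∀ n, h n ≤ g n) : ¬ High X := by
  rintro ⟨F, ⟨W, hWre, hW⟩, hF⟩
  obtain ⟨cF, hcF⟩ := code_of_re hWre
  obtain ⟨s, hs, htot⟩ := exists_s
  have hlim : ∀ n, ∃ t0, ∀ t, t0 ≤ t → Hc cF (restr X t) n = (jump (jump emp) n).toNat :=
    fun n => Hc_lim X F W cF hcF hW n _ (hF n)
  -- existence of a stage, for one code
  have hone : ∀ x c, ∃ T0, ∀ T, T0 ≤ T →
      ((∃ t, x ≤ t ∧ t ≤ T ∧ Hc cF (restr X t) (s c) = 1) ∨
      (∃ v, v ≤ T ∧ Code.evaln T (Denumerable.ofNat Code c) x = some v)) := by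
    intro x c
    by_cases h : ∀ x, (Code.eval (Denumerable.ofNat Code c) x).Dom
    · obtain ⟨v, hv⟩ := Part.dom_iff_mem.1 (h x)
      obtain ⟨k, hk⟩ := Code.evaln_complete.1 hv
      refine ⟨max k v, fun T hT => Or.inr ⟨v, le_trans (le_max_right _ _) hT, ?_⟩⟩
      exact Option.mem_def.1 (Code.evaln_mono (le_trans (le_max_left _ _) hT) hk)
    · have h1 : jump (jump emp) (s c) = true := by
        by_contra h2
        exact h ((htot c).2 (by simpa using h2))
      obtain ⟨t0, ht0⟩ := hlim (s c)
      refine ⟨max x t0, fun T hT => Or.inl ⟨max x t0, le_max_left _ _, hT, ?_⟩⟩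
      rw [ht0 _ (le_max_right _ _), h1]
      rfl
  have hall : ∀ x M, ∃ T0, ∀ T, T0 ≤ T → ∀ c < M,
      ((∃ t, x ≤ t ∧ t ≤ T ∧ Hc cF (restr X t) (s c) = 1) ∨
      (∃ v, v ≤ T ∧ Code.evaln T (Denumerable.ofNat Code c) x = some v)) := by
    intro x M
    induction M with
    | zero => exact ⟨0, fun _ _ c hc => absurd hc (Nat.not_lt_zero c)⟩
    | succ M ih =>
      obtain ⟨T0, h0⟩ := ih
      obtain ⟨T1, h1⟩ := hone x M
      refine ⟨max T0 T1, fun T hT c hc => ?_⟩
      rcases Nat.lt_succ_iff_lt_or_eq.1 hc with h | h
      · exact h0 T (le_trans (le_max_left _ _) hT) c h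
      · rw [h]; exact h1 T (le_trans (le_max_right _ _) hT)
  have hex : ∀ x, ∃ T, tst cF s (restr X T) x = true := by
    intro x
    obtain ⟨T0, h0⟩ := hall x (x + 1)
    exact ⟨T0, (tst_iff cF s X T0 x).2 fun c hc => h0 T0 le_rfl c (Nat.lt_succ_of_le hc)⟩
  -- the function `f`
  have hred : Reduces (fun x => Nat.find (hex x)) X := by
    refine ⟨fun Y x => Nat.rfind (fun T => Part.some (tst cF s (restr Y T) x)), ?_, ?_⟩
    · refine ⟨fun a => (decide (a.2.2 = a.1.length) && (tst cF s a.1 a.2.1 &&
        (List.range a.1.length).all (fun m => !tst cF s (a.1.take m) a.2.1))) = true, ?_, ?_⟩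
      · apply re_of_comp
        have hσ : Computable (fun a : List Bool × ℕ × ℕ => a.1) := Computable.fst
        have hx : Computable (fun a : List Bool × ℕ × ℕ => a.2.1) :=
          Computable.fst.comp Computable.snd
        have hy : Computable (fun a : List Bool × ℕ × ℕ => a.2.2) :=
          Computable.snd.comp Computable.snd
        have h1 : Computable (fun a : List Bool × ℕ × ℕ => decide (a.2.2 = a.1.length)) := by
          have := (CL.decide_eq' (α := ℕ)).comp hy (cLen hσ)
          exact this
        have h2 := cTst cF hs hσ hx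
        have h3 : Computable₂ (fun (a : List Bool × ℕ × ℕ) (m : ℕ) =>
            !tst cF s (a.1.take m) a.2.1) := by
          have hfst : Computable (Prod.fst : (List Bool × ℕ × ℕ) × ℕ → List Bool × ℕ × ℕ) :=
            Computable.fst
          have ht : Computable (fun q : (List Bool × ℕ × ℕ) × ℕ => q.1.1.take q.2) := by
            have := Primrec.list_take.to_comp.comp
              (Computable.snd (α := List Bool × ℕ × ℕ) (β := ℕ)) (hσ.comp hfst)
            exact this
          have := Primrec.not.to_comp.comp (cTst cF hs ht (hx.comp hfst))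
          exact this
        have h4 := CL.list_all (cRange (cLen hσ)) h3
        have := Primrec.and.to_comp.comp h1 (Primrec.and.to_comp.comp h2 h4)
        exact this
      · intro Y x y
        simp only [Bool.and_eq_true, decide_eq_true_eq, restr_length, List.all_eq_true,
          List.mem_range, Bool.not_eq_true']
        refine Nat.mem_rfind.trans ?_
        constructor
        · rintro ⟨h1, h2⟩
          refine ⟨y, rfl, (Part.mem_some_iff.1 h1).symm, fun m hm => ?_⟩
          rw [restr_take Y hm.le]
          exact (Part.mem_some_iff.1 (h2 hm)).symm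
        · rintro ⟨N, rfl, h1, h2⟩
          refine ⟨Part.mem_some_iff.2 h1.symm, fun {m} hm => Part.mem_some_iff.2 ?_⟩
          have := h2 m hm
          rw [restr_take Y hm.le] at this
          exact this.symm
    · intro x
      refine Nat.mem_rfind.2 ⟨Part.mem_some_iff.2 (Nat.find_spec (hex x)).symm, ?_⟩
      intro m hm
      refine Part.mem_some_iff.2 ?_
      have := Nat.find_min (hex x) hm
      simpa using this
  obtain ⟨g, hg, hfg⟩ := hdom _ hred
  -- a code for `g + 1`
  have hg1 : Computable (fun x => g x + 1) := Computable.succ.comp hg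
  obtain ⟨cg, hcg⟩ := Code.exists_code.1 (Partrec.nat_iff.1 hg1.partrec)
  have hcg' : ∀ x, Code.eval cg x = Part.some (g x + 1) := fun x => by rw [hcg]; rfl
  set c := Encodable.encode cg with hc
  have hofc : Denumerable.ofNat Code c = cg := Denumerable.ofNat_encode _
  have htc : jump (jump emp) (s c) = false := by
    rw [← htot c]
    intro x
    rw [hofc, hcg']
    trivial
  obtain ⟨t0, ht0⟩ := hlim (s c)
  set x := max c t0 with hx
  have hsp := (tst_iff cF s X _ x).1 (Nat.find_spec (hex x)) c (le_max_left _ _)
  rcases hsp with ⟨t, h1, h2, h3⟩ | ⟨v, h1, h2⟩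
  · rw [ht0 t (le_trans (le_max_right _ _) h1), htc] at h3
    simp at h3
  · rw [hofc] at h2
    have h4 := Code.evaln_sound (Option.mem_def.2 h2)
    rw [hcg', Part.mem_some_iff] at h4
    have h5 := hfg x
    omega

end Pool.Agent.Helper344.SB.HighA
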