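import Mathlib
import Pool.Agent.Helper344.SBDefs

set_option autoImplicit false

namespace Pool.Agent.Helper344.SB

open Pool.Agent.Helper344.Blum
open Nat.Partrec (Code)

/-- truth-table functionals -/
def TT {α σ : Type} [Primcodable α] [Primcodable σ] (G : (ℕ → Bool) → α → σ) : Prop :=
  ∃ (u : α → ℕ) (g : List Bool → α → σ), Computable u ∧ Computable₂ g ∧
    ∀ X a, G X a = g (restr X (u a)) a

section
variable {α β σ τ : Type} [Primcodable α] [Primcodable β] [Primcodable σ] [Primcodable τ]

theorem cTake {γ : Type} [Primcodable γ] {δ : Type} [Primcodable δ] {n : γ → ℕ} {l : γ → List δ}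
    (hn : Computable n) (hl : Computable l) : Computable (fun g => (l g).take (n g)) := by
  have := Primrec.list_take.to_comp.comp hn hl
  exact this

theorem cGetD {γ : Type} [Primcodable γ] {n : γ → ℕ} {l : γ → List Bool}
    (hn : Computable n) (hl : Computable l) : Computable (fun g => ((l g)[n g]?).getD false) := by
  have := Computable.option_getD (Computable.list_getElem?.comp hl hn) (Computable.const false)
  exact this

/-- the witnesses can be used with any longer initial segment -/
theorem TT.mono {G : (ℕ → Bool) → α → σ} {u : α → ℕ} {g : List Bool → α → σ}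
    (h : ∀ X a, G X a = g (restr X (u a)) a) (X : ℕ → Bool) (a : α) {n : ℕ} (hn : u a ≤ n) :
    G X a = g ((restr X n).take (u a)) a := by
  rw [restr_take X hn]; exact h X a

theorem TT.const {f : α → σ} (hf : Computable f) : TT (fun _ a => f a) := by
  refine ⟨fun _ => 0, fun _ a => f a, Computable.const 0, ?_, fun _ _ => rfl⟩
  have := hf.comp (Computable.snd (α := List Bool) (β := α))
  exact this

theorem TT.query {f : α → ℕ} (hf : Computable f) : TT (fun X a => X (f a)) := by
  refine ⟨fun a => f a + 1, fun s a => (s[f a]?).getD false, cSucc hf, ?_, ?_⟩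
  · have := cGetD (γ := List Bool × α) (hf.comp Computable.snd) Computable.fst
    exact this
  · intro X a
    show X (f a) = ((Blum.restr X (f a + 1))[f a]?).getD false
    rw [restr_getElem? X (Nat.lt_succ_self (f a))]
    rfl

theorem TT.map {G : (ℕ → Bool) → α → σ} (hG : TT G) {h : α → σ → τ} (hh : Computable₂ h) :
    TT (fun X a => h a (G X a)) := by
  obtain ⟨u, g, hu, hg, hug⟩ := hG
  refine ⟨u, fun s a => h a (g s a), hu, ?_, fun X a => by beta_reduce; rw [hug]⟩
  have := hh.comp (Computable.snd (α := List Bool) (β := α)) hg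
  exact this

theorem TT.comp_arg {G : (ℕ → Bool) → α → σ} (hG : TT G) {f : β → α} (hf : Computable f) :
    TT (fun X b => G X (f b)) := by
  obtain ⟨u, g, hu, hg, hug⟩ := hG
  refine ⟨fun b => u (f b), fun s b => g s (f b), hu.comp hf, ?_, fun X b => by beta_reduce; rw [hug]⟩
  have := hg.comp (Computable.fst (α := List Bool) (β := β)) (hf.comp Computable.snd)
  exact this

theorem cMax {γ : Type} [Primcodable γ] {m n : γ → ℕ}
    (hm : Computable m) (hn : Computable n) : Computable (fun g => max (m g) (n g)) := by
  have := Primrec.nat_max.to_comp.comp hm hn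
  exact this

theorem TT.pair {G : (ℕ → Bool) → α → σ} {H : (ℕ → Bool) → α → τ} (hG : TT G) (hH : TT H) :
    TT (fun X a => (G X a, H X a)) := by
  obtain ⟨u, g, hu, hg, hug⟩ := hG
  obtain ⟨v, h, hv, hh, hvh⟩ := hH
  refine ⟨fun a => max (u a) (v a), fun s a => (g (s.take (u a)) a, h (s.take (v a)) a),
    cMax hu hv, ?_, fun X a => ?_⟩
  · have hs : Computable (Prod.snd : List Bool × α → α) := Computable.snd
    have h1 : Computable (fun p : List Bool × α => g (p.1.take (u p.2)) p.2) := by
      have := hg.comp (cTake (hu.comp hs) Computable.fst) hs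
      exact this
    have h2 : Computable (fun p : List Bool × α => h (p.1.take (v p.2)) p.2) := by
      have := hh.comp (cTake (hv.comp hs) Computable.fst) hs
      exact this
    have := h1.pair h2
    exact this
  · beta_reduce
    rw [TT.mono hug X a (le_max_left _ (v a)), TT.mono hvh X a (le_max_right (u a) _)]

/-- maximum of a computable function below a bound -/
def maxB (u : α × ℕ → ℕ) (a : α) (n : ℕ) : ℕ :=
  Nat.rec (motive := fun _ => ℕ) 0 (fun i s => max s (u (a, i))) n

theorem le_maxB (u : α × ℕ → ℕ) (a : α) {i n : ℕ} (h : i < n) : u (a, i) ≤ maxB u a n := by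
  induction n with
  | zero => omega
  | succ n ih =>
    show _ ≤ max (maxB u a n) (u (a, n))
    rcases Nat.lt_succ_iff_lt_or_eq.1 h with h | h
    · exact le_trans (ih h) (le_max_left _ _)
    · rw [h]; exact le_max_right _ _

theorem cMaxB {u : α × ℕ → ℕ} (hu : Computable u) {n : α → ℕ} (hn : Computable n) :
    Computable (fun a => maxB u a (n a)) := by
  have h1 : Computable₂ (fun (a : α) (p : ℕ × ℕ) => max p.2 (u (a, p.1))) := by
    have h2 : Computable (fun q : α × (ℕ × ℕ) => u (q.1, q.2.1)) := by
      have := hu.comp ((Computable.fst (α := α) (β := ℕ × ℕ)).pair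
        (Computable.fst.comp Computable.snd))
      exact this
    have := cMax (Computable.snd.comp (Computable.snd (α := α) (β := ℕ × ℕ))) h2
    exact this
  have := Computable.nat_rec hn (Computable.const (0 : ℕ)) h1
  exact this

/-- composition of functionals -/
theorem TT.comp {G : (ℕ → Bool) → α → σ} (hG : TT G) {K : (ℕ → Bool) → ℕ → Bool} (hK : TT K) :
    TT (fun X a => G (K X) a) := by
  obtain ⟨u, g, hu, hg, hug⟩ := hG
  obtain ⟨v, k, hv, hk, hvk⟩ := hK
  have hv' : Computable (fun p : α × ℕ => v p.2) := hv.comp Computable.snd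
  refine ⟨fun a => maxB (fun p : α × ℕ => v p.2) a (u a),
    fun s a => g ((List.range (u a)).map (fun i => k (s.take (v i)) i)) a, cMaxB hv' hu, ?_, ?_⟩
  · have h1 : Computable₂ (fun (p : List Bool × α) (i : ℕ) => k (p.1.take (v i)) i) := by
      have := hk.comp (cTake (hv.comp (Computable.snd (α := List Bool × α) (β := ℕ)))
        (Computable.fst.comp Computable.fst)) Computable.snd
      exact this
    have h2 := CL.list_map (cRange (hu.comp (Computable.snd (α := List Bool) (β := α)))) h1
    have := hg.comp h2 Computable.snd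
    exact this
  · intro X a
    beta_reduce
    rw [hug]
    congr 1
    apply List.map_congr_left
    intro i hi
    exact TT.mono hvk X i (le_maxB (fun p : α × ℕ => v p.2) a (List.mem_range.1 hi))

/-- primitive recursion with oracle -/
theorem TT.nat_rec {f : α → ℕ} (hf : Computable f) {B : (ℕ → Bool) → α → σ} (hB : TT B)
    {K : (ℕ → Bool) → α × ℕ → τ} (hK : TT K) {s : α → ℕ × σ × τ → σ} (hs : Computable₂ s) :
    TT (fun X a => Nat.rec (motive := fun _ => σ) (B X a) (fun i ih => s a (i, ih, K X (a, i)))
      (f a)) := by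
  obtain ⟨u, g, hu, hg, hug⟩ := hB
  obtain ⟨v, k, hv, hk, hvk⟩ := hK
  refine ⟨fun a => max (u a) (maxB v a (f a)),
    fun l a => Nat.rec (motive := fun _ => σ) (g (l.take (u a)) a)
      (fun i ih => s a (i, ih, k (l.take (v (a, i))) (a, i))) (f a), cMax hu (cMaxB hv hf), ?_, ?_⟩
  · have hsnd : Computable (Prod.snd : List Bool × α → α) := Computable.snd
    have h0 : Computable (fun p : List Bool × α => g (p.1.take (u p.2)) p.2) := by
      have := hg.comp (cTake (hu.comp hsnd) Computable.fst) hsnd
      exact this
    have h1 : Computable₂ (fun (p : List Bool × α) (q : ℕ × σ) =>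
        s p.2 (q.1, q.2, k (p.1.take (v (p.2, q.1))) (p.2, q.1))) := by
      have ha : Computable (fun r : (List Bool × α) × (ℕ × σ) => r.1.2) :=
        Computable.snd.comp Computable.fst
      have hl : Computable (fun r : (List Bool × α) × (ℕ × σ) => r.1.1) :=
        Computable.fst.comp Computable.fst
      have hi : Computable (fun r : (List Bool × α) × (ℕ × σ) => r.2.1) :=
        Computable.fst.comp Computable.snd
      have hih : Computable (fun r : (List Bool × α) × (ℕ × σ) => r.2.2) :=
        Computable.snd.comp Computable.snd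
      have h2 : Computable (fun r : (List Bool × α) × (ℕ × σ) =>
          k (r.1.1.take (v (r.1.2, r.2.1))) (r.1.2, r.2.1)) := by
        have := hk.comp (cTake (hv.comp (ha.pair hi)) hl) (ha.pair hi)
        exact this
      have := hs.comp ha (hi.pair (hih.pair h2))
      exact this
    have := Computable.nat_rec (hf.comp hsnd) h0 h1
    exact this
  · intro X a
    have h1 : B X a = g ((restr X (max (u a) (maxB v a (f a)))).take (u a)) a :=
      TT.mono hug X a (le_max_left _ _)
    have h2 : ∀ i < f a, K X (a, i) =
        k ((restr X (max (u a) (maxB v a (f a)))).take (v (a, i))) (a, i) := fun i hi =>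
      TT.mono hvk X (a, i) (le_trans (le_maxB v a hi) (le_max_right _ _))
    generalize restr X (max (u a) (maxB v a (f a))) = l at h1 h2
    have h3 : ∀ n ≤ f a, Nat.rec (motive := fun _ => σ) (B X a)
        (fun i ih => s a (i, ih, K X (a, i))) n = Nat.rec (motive := fun _ => σ)
        (g (l.take (u a)) a) (fun i ih => s a (i, ih, k (l.take (v (a, i))) (a, i))) n := by
      intro n
      induction n with
      | zero => intro _; exact h1
      | succ n ih =>
        intro hn
        show s a (n, _, K X (a, n)) = s a (n, _, k (l.take (v (a, n))) (a, n))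
        rw [ih (by omega), h2 n (by omega)]
    exact h3 _ le_rfl

/-- tabulation: `X ↾ (f a)` -/
theorem TT.restr {f : α → ℕ} (hf : Computable f) : TT (fun X a => restr X (f a)) := by
  refine ⟨f, fun l _ => l, hf, ?_, fun X a => rfl⟩
  exact Computable.fst

/-- tabulation of a functional -/
theorem TT.tab {K : (ℕ → Bool) → α × ℕ → τ} (hK : TT K) {f : α → ℕ} (hf : Computable f) :
    TT (fun X a => (List.range (f a)).map (fun i => K X (a, i))) := by
  obtain ⟨v, k, hv, hk, hvk⟩ := hK
  refine ⟨fun a => maxB v a (f a),
    fun l a => (List.range (f a)).map (fun i => k (l.take (v (a, i))) (a, i)), cMaxB hv hf, ?_, ?_⟩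
  · have h1 : Computable₂ (fun (p : List Bool × α) (i : ℕ) =>
        k (p.1.take (v (p.2, i))) (p.2, i)) := by
      have ha : Computable (fun r : (List Bool × α) × ℕ => (r.1.2, r.2)) :=
        (Computable.snd.comp Computable.fst).pair Computable.snd
      have := hk.comp (cTake (hv.comp ha) (Computable.fst.comp Computable.fst)) ha
      exact this
    have := CL.list_map (cRange (hf.comp (Computable.snd (α := List Bool) (β := α)))) h1
    exact this
  · intro X a
    apply List.map_congr_left
    intro i hi
    exact TT.mono hvk X (a, i) (le_maxB v a (List.mem_range.1 hi))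

/-- a functional at a computable oracle is computable -/
theorem TT.computable {G : (ℕ → Bool) → α → σ} (hG : TT G) {X : ℕ → Bool} (hX : Computable X) :
    Computable (G X) := by
  obtain ⟨u, g, hu, hg, hug⟩ := hG
  have h1 : Computable (fun a => Blum.restr X (u a)) := by
    have h2 : Computable₂ (fun (_ : α) (i : ℕ) => X i) := hX.comp Computable.snd
    have := CL.list_map (cRange hu) h2
    exact this
  have := hg.comp h1 Computable.id
  refine this.of_eq fun a => (hug X a).symm

theorem TT.use {G : (ℕ → Bool) → α → σ} (hG : TT G) (a : α) :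
    ∃ n, ∀ X Y, Blum.restr X n = Blum.restr Y n → G X a = G Y a := by
  obtain ⟨u, g, hu, hg, hug⟩ := hG
  exact ⟨u a, fun X Y h => by rw [hug, hug, h]⟩

theorem TT.reduces {G : (ℕ → Bool) → ℕ → ℕ} (hG : TT G) (X : ℕ → Bool) :
    Reduces (G X) X := by
  obtain ⟨u, g, hu, hg, hug⟩ := hG
  refine ⟨fun X n => Part.some (G X n), ⟨fun p => (decide (p.1.length = u p.2.1) &&
    decide (g p.1 p.2.1 = p.2.2)) = true, ?_, ?_⟩, fun n => Part.mem_some _⟩
  · apply re_of_comp
    have hx : Computable (fun p : List Bool × ℕ × ℕ => p.2.1) :=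
      Computable.fst.comp Computable.snd
    have hy : Computable (fun p : List Bool × ℕ × ℕ => p.2.2) :=
      Computable.snd.comp Computable.snd
    have h1 : Computable (fun p : List Bool × ℕ × ℕ => decide (p.1.length = u p.2.1)) := by
      have := (CL.decide_eq' (α := ℕ)).comp (cLen (Computable.fst (α := List Bool) (β := ℕ × ℕ)))
        (hu.comp hx)
      exact this
    have h2 : Computable (fun p : List Bool × ℕ × ℕ => decide (g p.1 p.2.1 = p.2.2)) := by
      have := (CL.decide_eq' (α := ℕ)).comp (hg.comp Computable.fst hx) hy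
      exact this
    have := Primrec.and.to_comp.comp h1 h2
    exact this
  · intro X n y
    simp only [Part.mem_some_iff, Bool.and_eq_true, decide_eq_true_eq, restr_length]
    constructor
    · rintro rfl
      exact ⟨u n, rfl, (hug X n).symm⟩
    · rintro ⟨m, rfl, h⟩
      rw [hug, h]

end

/-- the composition of a functional with a truth-table functional -/
theorem functional_comp {F : (ℕ → Bool) → ℕ →. ℕ} (hF : IsFunctional F)
    {G : (ℕ → Bool) → ℕ → Bool} (hG : TT G) : IsFunctional (fun R m => F (G R) m) := by
  obtain ⟨W, hW, hWF⟩ := hF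
  obtain ⟨c, hc⟩ := code_of_re hW
  obtain ⟨u, g, hu, hg, hug⟩ := hG
  let o : List Bool → ℕ → List Bool := fun l n => (List.range n).map (fun i => g (l.take (u i)) i)
  let t : List Bool × ℕ × ℕ → ℕ → Bool := fun p n =>
    (List.range n).all (fun i => decide (u i ≤ p.1.length)) && acc c (o p.1 n) p.2.1 p.2.2
  refine ⟨fun p => ∃ n, t p n = true, re_of_exists t ?_, ?_⟩
  · have ha : Computable₂ (fun (p : (List Bool × ℕ × ℕ) × ℕ) (i : ℕ) =>
        decide (u i ≤ p.1.1.length)) := by
      have := CL.decide_le'.comp (hu.comp (Computable.snd (α := (List Bool × ℕ × ℕ) × ℕ) (β := ℕ)))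
        (cLen (Computable.fst.comp (Computable.fst.comp Computable.fst)))
      exact this
    have h1 := CL.list_all (cRange (Computable.snd (α := List Bool × ℕ × ℕ) (β := ℕ))) ha
    have hb : Computable₂ (fun (p : (List Bool × ℕ × ℕ) × ℕ) (i : ℕ) =>
        g (p.1.1.take (u i)) i) := by
      have := hg.comp (cTake (hu.comp (Computable.snd (α := (List Bool × ℕ × ℕ) × ℕ) (β := ℕ)))
        (Computable.fst.comp (Computable.fst.comp Computable.fst))) Computable.snd
      exact this
    have h2 := CL.list_map (cRange (Computable.snd (α := List Bool × ℕ × ℕ) (β := ℕ))) hb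
    have h3 : Computable (fun p : (List Bool × ℕ × ℕ) × ℕ => p.1.2) :=
      Computable.snd.comp Computable.fst
    have h4 := (comp_acc c).comp (h2.pair h3)
    have := Primrec.and.to_comp.comp h1 h4
    exact this
  · intro R m y
    rw [hWF, acc_iff hc]
    have ho : ∀ N n, (∀ i < n, u i ≤ N) → o (restr R N) n = restr (G R) n := by
      intro N n h
      apply List.map_congr_left
      intro i hi
      exact (TT.mono hug R i (h i (List.mem_range.1 hi))).symm
    constructor
    · rintro ⟨n, hn⟩
      refine ⟨maxB (fun p : ℕ × ℕ => u p.2) 0 n, n, ?_⟩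
      have h1 : ∀ i < n, u i ≤ maxB (fun p : ℕ × ℕ => u p.2) 0 n := fun i hi =>
        le_maxB (fun p : ℕ × ℕ => u p.2) 0 hi
      simp only [t, Bool.and_eq_true, List.all_eq_true, List.mem_range, decide_eq_true_eq,
        restr_length]
      exact ⟨h1, by rw [ho _ _ h1]; exact hn⟩
    · rintro ⟨N, n, h⟩
      simp only [t, Bool.and_eq_true, List.all_eq_true, List.mem_range, decide_eq_true_eq,
        restr_length] at h
      exact ⟨n, by rw [← ho _ _ h.1]; exact h.2⟩

/-- stage approximations of a functional -/
theorem exists_stage {F : (ℕ → Bool) → ℕ →. ℕ} (hF : IsFunctional F) :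
    ∃ Ψ : List Bool → ℕ → Option ℕ, Computable₂ Ψ ∧
      (∀ X x y, y ∈ F X x ↔ ∃ n, Ψ (restr X n) x = some y) ∧
      (∀ σ τ : List Bool, σ <+: τ → ∀ x y, Ψ σ x = some y → Ψ τ x = some y) := by
  obtain ⟨W, hW, hWF⟩ := hF
  obtain ⟨c, hc⟩ := code_of_re hW
  let Ψ : List Bool → ℕ → Option ℕ := fun τ x => (List.range (τ.length + 1)).findSome?
    (fun v => bif acc c τ x v then some v else none)
  have hsound : ∀ τ x y, Ψ τ x = some y → acc c τ x y = true := by
    intro τ x y h
    obtain ⟨v, hv, h2⟩ := List.exists_of_findSome?_eq_some h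
    cases h3 : acc c τ x v
    · simp [h3] at h2
    · simp only [h3, cond_true, Option.some.injEq] at h2
      rw [← h2]; exact h3
  have hmem : ∀ τ x y, acc c τ x y = true → y ∈ F (ext τ) x := by
    intro τ x y h
    rw [hWF, acc_iff hc]
    exact ⟨τ.length, by rw [restr_ext]; exact h⟩
  have huniq : ∀ τ x y y', acc c τ x y = true → acc c τ x y' = true → y = y' := by
    intro τ x y y' h h'
    exact Part.mem_unique (hmem _ _ _ h) (hmem _ _ _ h')
  have hcompl : ∀ τ x y, y ≤ τ.length → acc c τ x y = true → Ψ τ x = some y := by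
    intro τ x y hy h
    have : (Ψ τ x).isSome := by
      rw [List.findSome?_isSome_iff]
      exact ⟨y, List.mem_range.2 (by omega), by simp [h]⟩
    obtain ⟨v, hv⟩ := Option.isSome_iff_exists.1 this
    rw [hv, huniq τ x v y (hsound _ _ _ hv) h]
  have hle : ∀ τ x y, Ψ τ x = some y → y ≤ τ.length := by
    intro τ x y h
    obtain ⟨v, hv, h2⟩ := List.exists_of_findSome?_eq_some h
    cases h3 : acc c τ x v
    · simp [h3] at h2
    · simp only [h3, cond_true, Option.some.injEq] at h2
      rw [← h2]; have := List.mem_range.1 hv; omega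
  refine ⟨Ψ, ?_, ?_, ?_⟩
  · have h1 : Computable₂ (fun (p : List Bool × ℕ) (v : ℕ) =>
        bif acc c p.1 p.2 v then some v else none) := by
      have h2 := (comp_acc c).comp ((Computable.fst.comp (Computable.fst (α := List Bool × ℕ)
        (β := ℕ))).pair ((Computable.snd.comp Computable.fst).pair Computable.snd))
      have := Computable.cond h2 (Computable.option_some.comp Computable.snd)
        (Computable.const none)
      exact this
    have := CL.list_findSome? (cRange (cSucc (cLen (Computable.fst (α := List Bool) (β := ℕ))))) h1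
    exact this
  · intro X x y
    rw [hWF, acc_iff hc]
    constructor
    · rintro ⟨n, hn⟩
      refine ⟨max n y, hcompl _ _ _ ?_ (acc_mono c (restr_prefix X (le_max_left n y)) x y hn)⟩
      rw [restr_length]; exact le_max_right _ _
    · rintro ⟨n, hn⟩
      exact ⟨n, hsound _ _ _ hn⟩
  · intro σ τ h x y hy
    exact hcompl _ _ _ (le_trans (hle _ _ _ hy) h.length_le) (acc_mono c h x y (hsound _ _ _ hy))

end Pool.Agent.Helper344.SB
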