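import Mathlib
import Pool.Agent.Helper344.SBTT

set_option autoImplicit false

namespace Pool.Agent.Helper344.SB

open Pool.Agent.Helper344.Blum
open Nat.Partrec (Code)

/-- infinite paths of a tree -/
def Paths (tr : List Bool → Bool) : Set (ℕ → Bool) := {q | ∀ n, tr (restr q n) = true}

/-- computable pruned trees all of whose paths are computable -/
structure Good (tr : List Bool → Bool) : Prop where
  comp : Computable tr
  nil : tr [] = true
  pre : ∀ σ b, tr (σ ++ [b]) = true → tr σ = true
  prn : ∀ σ, tr σ = true → ∃ b, tr (σ ++ [b]) = true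
  mem : ∀ q ∈ Paths tr, Computable q

/-- sequences of paths, coded as one sequence -/
def PathsW (tr : List Bool → Bool) : Set (ℕ → Bool) :=
  {R | ∀ i, (fun l => R (Nat.pair i l)) ∈ Paths tr}

theorem restr_succ (X : ℕ → Bool) (n : ℕ) : restr X (n + 1) = restr X n ++ [X n] := by
  simp [restr, List.range_succ]

theorem restr_zero (X : ℕ → Bool) : restr X 0 = [] := rfl

theorem restr_congr {X Y : ℕ → Bool} {n : ℕ} (h : ∀ i < n, X i = Y i) : restr X n = restr Y n := by
  apply List.map_congr_left
  intro i hi
  exact h i (List.mem_range.1 hi)

theorem restr_apply {X Y : ℕ → Bool} {n : ℕ} (h : restr X n = restr Y n) {i : ℕ} (hi : i < n) :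
    X i = Y i := by
  have h1 := restr_getElem? X hi
  rw [h, restr_getElem? Y hi] at h1
  exact (Option.some.inj h1).symm

theorem restr_getD (X : ℕ → Bool) {i n : ℕ} (hi : i < n) : ((restr X n)[i]?).getD false = X i := by
  rw [restr_getElem? X hi]; rfl

theorem restr_injective {X Y : ℕ → Bool} (h : ∀ n, restr X n = restr Y n) : X = Y := by
  funext i
  exact restr_apply (h (i + 1)) (Nat.lt_succ_self i)

theorem Good.take {tr : List Bool → Bool} (h : Good tr) (q : ℕ → Bool) {m n : ℕ} (hmn : m ≤ n)
    (hn : tr (restr q n) = true) : tr (restr q m) = true := by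
  induction n with
  | zero =>
    have : m = 0 := by omega
    rw [this]; exact hn
  | succ n ih =>
    rcases Nat.lt_succ_iff_lt_or_eq.1 (Nat.lt_succ_of_le hmn) with h1 | h1
    · apply ih (by omega)
      rw [restr_succ] at hn
      exact h.pre _ _ hn
    · rw [h1]; exact hn

/-! ### Greedy completion of a string -/

section
variable (tr : List Bool → Bool)

/-- the first `l` bits of the greedy completion of the column `i` of the string `τ` -/
def lmS (τ : List Bool) (i : ℕ) (l : ℕ) : List Bool :=
  Nat.rec (motive := fun _ => List Bool) []
    (fun l ρ => ρ ++ [if Nat.pair i l < τ.length then (τ[Nat.pair i l]?).getD false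
      else !tr (ρ ++ [false])]) l

theorem lmS_succ (τ : List Bool) (i l : ℕ) : lmS tr τ i (l + 1) = lmS tr τ i l ++
    [if Nat.pair i l < τ.length then (τ[Nat.pair i l]?).getD false
      else !tr (lmS tr τ i l ++ [false])] := rfl

theorem lmS_length (τ : List Bool) (i l : ℕ) : (lmS tr τ i l).length = l := by
  induction l with
  | zero => rfl
  | succ l ih => rw [lmS_succ, List.length_append, ih]; rfl

/-- the greedy completion of the column `i` of the string `τ` -/
def lm (τ : List Bool) (i : ℕ) (l : ℕ) : Bool := ((lmS tr τ i (l + 1))[l]?).getD false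

theorem lm_eq (τ : List Bool) (i l : ℕ) : lm tr τ i l =
    if Nat.pair i l < τ.length then (τ[Nat.pair i l]?).getD false
      else !tr (lmS tr τ i l ++ [false]) := by
  rw [lm, lmS_succ, List.getElem?_append_right (by rw [lmS_length]), lmS_length]
  simp

theorem restr_lm (τ : List Bool) (i l : ℕ) : restr (lm tr τ i) l = lmS tr τ i l := by
  induction l with
  | zero => rfl
  | succ l ih => rw [restr_succ, ih, lm_eq, ← lmS_succ]

theorem lm_of_lt {τ : List Bool} {i l : ℕ} (h : Nat.pair i l < τ.length) :
    lm tr τ i l = (τ[Nat.pair i l]?).getD false := by rw [lm_eq, if_pos h]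

/-- a string is consistent if all its columns are in the tree -/
def cons (τ : List Bool) : Bool :=
  (List.range τ.length).all (fun n => tr ((List.range (n.unpair.2 + 1)).map
    (fun l => (τ[Nat.pair n.unpair.1 l]?).getD false)))

theorem cons_iff (X : ℕ → Bool) (N : ℕ) : cons tr (restr X N) = true ↔
    ∀ i l, Nat.pair i l < N → tr (restr (fun l => X (Nat.pair i l)) (l + 1)) = true := by
  simp only [cons, List.all_eq_true, List.mem_range, restr_length]
  have key : ∀ i l, Nat.pair i l < N → ((List.range (l + 1)).map
      (fun l => ((restr X N)[Nat.pair i l]?).getD false)) =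
      restr (fun l => X (Nat.pair i l)) (l + 1) := by
    intro i l h
    apply List.map_congr_left
    intro l' hl'
    have h1 : Nat.pair i l' ≤ Nat.pair i l := by
      rcases Nat.lt_succ_iff_lt_or_eq.1 (List.mem_range.1 hl') with h2 | h2
      · exact le_of_lt (Nat.pair_lt_pair_right i h2)
      · rw [h2]
    exact restr_getD X (lt_of_le_of_lt h1 h)
  constructor
  · intro h i l hil
    have := h _ hil
    simp only [Nat.unpair_pair] at this
    rwa [key i l hil] at this
  · intro h n hn
    have h1 : Nat.pair n.unpair.1 n.unpair.2 < N := by rw [Nat.pair_unpair]; exact hn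
    rw [key _ _ h1]
    exact h _ _ h1

theorem mem_PathsW_iff (hg : Good tr) (R : ℕ → Bool) :
    R ∈ PathsW tr ↔ ∀ N, cons tr (restr R N) = true := by
  constructor
  · intro h N
    rw [cons_iff]
    intro i l _
    exact h i _
  · intro h i n
    cases n with
    | zero => exact hg.nil
    | succ n => exact (cons_iff tr R _).1 (h (Nat.pair i n + 1)) i n (Nat.lt_succ_self _)

theorem cons_mono {X : ℕ → Bool} {m n : ℕ} (h : m ≤ n) (hn : cons tr (restr X n) = true) :
    cons tr (restr X m) = true := by
  rw [cons_iff] at hn ⊢
  exact fun i l hil => hn i l (by omega)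

/-- the greedy completion of a consistent string is a path in each column -/
theorem lm_mem (hg : Good tr) (X : ℕ → Bool) (N : ℕ) (hc : cons tr (restr X N) = true) (i : ℕ) :
    lm tr (restr X N) i ∈ Paths tr := by
  intro l
  induction l with
  | zero => exact hg.nil
  | succ l ih =>
    by_cases h : Nat.pair i l < N
    · have h1 : restr (lm tr (restr X N) i) (l + 1) = restr (fun l => X (Nat.pair i l)) (l + 1) := by
        apply restr_congr
        intro l' hl'
        have h1 : Nat.pair i l' ≤ Nat.pair i l := by
          rcases Nat.lt_succ_iff_lt_or_eq.1 hl' with h2 | h2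
          · exact le_of_lt (Nat.pair_lt_pair_right i h2)
          · rw [h2]
        rw [lm_of_lt tr (by rw [restr_length]; omega), restr_getD X (by omega)]
      rw [h1]
      exact (cons_iff tr X N).1 hc i l h
    · rw [restr_lm] at ih ⊢
      rw [lmS_succ, if_neg (by rw [restr_length]; exact h)]
      obtain ⟨b, hb⟩ := hg.prn _ ih
      cases hf : tr (lmS tr (restr X N) i l ++ [false])
      · cases b
        · rw [hf] at hb; exact absurd hb (by simp)
        · exact hb
      · exact hf

theorem Good.exists_path {tr : List Bool → Bool} (hg : Good tr) : ∃ q, q ∈ Paths tr := by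
  have h : cons tr (restr emp 0) = true := rfl
  exact ⟨_, lm_mem tr hg emp 0 h 0⟩

end

section
variable {γ : Type} [Primcodable γ]

theorem cPair {m n : γ → ℕ} (hm : Computable m) (hn : Computable n) :
    Computable (fun g => Nat.pair (m g) (n g)) := by
  have := Primrec₂.natPair.to_comp.comp hm hn
  exact this

theorem cUnp1 {m : γ → ℕ} (hm : Computable m) : Computable (fun g => (m g).unpair.1) := by
  have := Computable.fst.comp (Computable.unpair.comp hm)
  exact this

theorem cUnp2 {m : γ → ℕ} (hm : Computable m) : Computable (fun g => (m g).unpair.2) := by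
  have := Computable.snd.comp (Computable.unpair.comp hm)
  exact this

theorem cApp1 {l : γ → List Bool} {b : γ → Bool} (hl : Computable l) (hb : Computable b) :
    Computable (fun g => l g ++ [b g]) := by
  have := Computable.list_concat.comp hl hb
  exact this

theorem cNot {b : γ → Bool} (hb : Computable b) : Computable (fun g => !(b g)) := by
  have := Primrec.not.to_comp.comp hb
  exact this

theorem cAnd {a b : γ → Bool} (ha : Computable a) (hb : Computable b) :
    Computable (fun g => a g && b g) := by
  have := Primrec.and.to_comp.comp ha hb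
  exact this

theorem cOr {a b : γ → Bool} (ha : Computable a) (hb : Computable b) :
    Computable (fun g => a g || b g) := by
  have := Primrec.or.to_comp.comp ha hb
  exact this

theorem cLt {m n : γ → ℕ} (hm : Computable m) (hn : Computable n) :
    Computable (fun g => decide (m g < n g)) := by
  have := CL.decide_lt'.comp hm hn
  exact this

theorem cLe {m n : γ → ℕ} (hm : Computable m) (hn : Computable n) :
    Computable (fun g => decide (m g ≤ n g)) := by
  have := CL.decide_le'.comp hm hn
  exact this

theorem cEq {δ : Type} [Primcodable δ] [DecidableEq δ] {m n : γ → δ} (hm : Computable m)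
    (hn : Computable n) : Computable (fun g => decide (m g = n g)) := by
  have := (CL.decide_eq' (α := δ)).comp hm hn
  exact this

theorem cIte {δ : Type} [Primcodable δ] {P : γ → Prop} [DecidablePred P] {a b : γ → δ}
    (hP : Computable (fun g => decide (P g))) (ha : Computable a) (hb : Computable b) :
    Computable (fun g => if P g then a g else b g) := by
  have := Computable.cond hP ha hb
  refine this.of_eq fun g => ?_
  by_cases h : P g <;> simp [h]

theorem cLmS {tr : List Bool → Bool} (ht : Computable tr) {τ : γ → List Bool} {i l : γ → ℕ}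
    (hτ : Computable τ) (hi : Computable i) (hl : Computable l) :
    Computable (fun g => lmS tr (τ g) (i g) (l g)) := by
  have h1 : Computable₂ (fun (g : γ) (p : ℕ × List Bool) =>
      p.2 ++ [if Nat.pair (i g) p.1 < (τ g).length then ((τ g)[Nat.pair (i g) p.1]?).getD false
        else !tr (p.2 ++ [false])]) := by
    have a1 : Computable (fun q : γ × (ℕ × List Bool) => q.2.2) :=
      Computable.snd.comp Computable.snd
    have a2 : Computable (fun q : γ × (ℕ × List Bool) => Nat.pair (i q.1) q.2.1) :=
      cPair (hi.comp Computable.fst) (Computable.fst.comp Computable.snd)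
    have a3 : Computable (fun q : γ × (ℕ × List Bool) => τ q.1) := hτ.comp Computable.fst
    have a4 : Computable (fun q : γ × (ℕ × List Bool) => !tr (q.2.2 ++ [false])) :=
      cNot (ht.comp (cApp1 a1 (Computable.const false)))
    have := cApp1 a1 (cIte (cLt a2 (cLen a3)) (cGetD a2 a3) a4)
    exact this
  have := Computable.nat_rec hl (Computable.const ([] : List Bool)) h1
  exact this

theorem cLm {tr : List Bool → Bool} (ht : Computable tr) {τ : γ → List Bool} {i l : γ → ℕ}
    (hτ : Computable τ) (hi : Computable i) (hl : Computable l) :
    Computable (fun g => lm tr (τ g) (i g) (l g)) := by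
  have := cGetD hl (cLmS ht hτ hi (cSucc hl))
  exact this

theorem cCons {tr : List Bool → Bool} (ht : Computable tr) {τ : γ → List Bool}
    (hτ : Computable τ) : Computable (fun g => cons tr (τ g)) := by
  have h2 : Computable₂ (fun (q : γ × ℕ) (l : ℕ) =>
      ((τ q.1)[Nat.pair q.2.unpair.1 l]?).getD false) := by
    have := cGetD (cPair (cUnp1 (Computable.snd.comp (Computable.fst (α := γ × ℕ) (β := ℕ))))
      Computable.snd) (hτ.comp (Computable.fst.comp Computable.fst))
    exact this
  have h1 : Computable₂ (fun (g : γ) (n : ℕ) => tr ((List.range (n.unpair.2 + 1)).map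
      (fun l => ((τ g)[Nat.pair n.unpair.1 l]?).getD false))) := by
    have := ht.comp (CL.list_map (cRange (cSucc (cUnp2 (Computable.snd (α := γ) (β := ℕ))))) h2)
    exact this
  have := CL.list_all (cRange (cLen hτ)) h1
  exact this

end

end Pool.Agent.Helper344.SB
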