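import Mathlib
import Pool.Agent.Helper344.SBForce1

set_option autoImplicit false

namespace Pool.Agent.Helper344.SB

open Pool.Agent.Helper344.Blum
open Nat.Partrec (Code)

/-- forcing conditions -/
structure Cond where
  tr : List Bool → Bool
  good : Good tr
  two : ∃ a ∈ Paths tr, ∃ b ∈ Paths tr, ∃ l : ℕ, a l = false ∧ b l = true
  G : (ℕ → Bool) → ℕ → Bool
  tt : TT G
  pos : ℕ → ℕ → ℕ
  cpos : Computable₂ pos
  read : ∀ R ∈ PathsW tr, ∀ i l, G R (pos i l) = R (Nat.pair i l)

/-- the class of the oracles allowed by the condition -/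
def Cond.C (c : Cond) : Set (ℕ → Bool) := {X | ∃ R ∈ PathsW c.tr, c.G R = X}

/-- the `i`-th column read from the oracle -/
def Cond.rd (c : Cond) (X : ℕ → Bool) (i : ℕ) : ℕ → Bool := fun l => X (c.pos i l)

theorem Cond.rd_mem (c : Cond) {X : ℕ → Bool} (hX : X ∈ c.C) (i : ℕ) : c.rd X i ∈ Paths c.tr := by
  obtain ⟨R, hR, rfl⟩ := hX
  have : c.rd (c.G R) i = fun l => R (Nat.pair i l) := by
    funext l
    exact c.read R hR i l
  rw [this]
  exact hR i

theorem Cond.nonempty (c : Cond) : ∃ X, X ∈ c.C := by
  obtain ⟨q, hq⟩ := c.good.exists_path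
  refine ⟨_, fun n => q n.unpair.2, fun i => ?_, rfl⟩
  have : (fun l => q (Nat.pair i l).unpair.2) = q := by
    funext l; rw [Nat.unpair_pair]
  rw [this]
  exact hq

/-- refinement with data -/
structure RefD (c c' : Cond) (j ι : ℕ → ℕ) : Prop where
  sub : c'.C ⊆ c.C
  mono : StrictMono j
  col : ∀ X ∈ c'.C, ∀ i l, c.rd X (j i) l = c'.rd X i (ι l)
  lift : ∀ q ∈ Paths c.tr, ∃ q' ∈ Paths c'.tr, ∀ l, q' (ι l) = q l
  det : ∀ X ∈ c'.C, ∀ Y ∈ c'.C, ∀ i, (∀ i' < i, c'.rd X i' = c'.rd Y i') →
    ∀ i' < j i, c.rd X i' = c.rd Y i'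

def Ref (c c' : Cond) : Prop := ∃ j ι, RefD c c' j ι

theorem RefD.refl (c : Cond) : RefD c c id id where
  sub := subset_rfl
  mono := strictMono_id
  col := fun _ _ _ _ => rfl
  lift := fun q hq => ⟨q, hq, fun _ => rfl⟩
  det := fun _ _ _ _ _ h => h

theorem RefD.trans {c c' c'' : Cond} {j ι j' ι' : ℕ → ℕ} (h : RefD c c' j ι)
    (h' : RefD c' c'' j' ι') : RefD c c'' (j ∘ j') (ι' ∘ ι) where
  sub := h'.sub.trans h.sub
  mono := h.mono.comp h'.mono
  col := fun X hX i l => by
    rw [Function.comp_apply, h.col X (h'.sub hX), h'.col X hX]; rfl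
  lift := fun q hq => by
    obtain ⟨q', hq', e'⟩ := h.lift q hq
    obtain ⟨q'', hq'', e''⟩ := h'.lift q' hq'
    exact ⟨q'', hq'', fun l => by rw [Function.comp_apply, e'', e']⟩
  det := fun X hX Y hY i hi i' hi' =>
    h.det X (h'.sub hX) Y (h'.sub hY) (j' i) (h'.det X hX Y hY i hi) i' hi'

theorem Ref.refl (c : Cond) : Ref c c := ⟨_, _, RefD.refl c⟩

theorem Ref.trans {c c' c'' : Cond} (h : Ref c c') (h' : Ref c' c'') : Ref c c'' := by
  obtain ⟨j, ι, h⟩ := h
  obtain ⟨j', ι', h'⟩ := h'
  exact ⟨_, _, h.trans h'⟩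

theorem Ref.sub {c c' : Cond} (h : Ref c c') : c'.C ⊆ c.C := by
  obtain ⟨j, ι, h⟩ := h
  exact h.sub

/-! ### Locking finitely many columns -/

/-- `R₀` on the first `k` columns, followed by `R` -/
def lockR (R₀ : ℕ → Bool) (k : ℕ) (R : ℕ → Bool) (n : ℕ) : Bool :=
  if n.unpair.1 < k then R₀ n else R (Nat.pair (n.unpair.1 - k) n.unpair.2)

theorem lockR_lt (R₀ : ℕ → Bool) (k : ℕ) (R : ℕ → Bool) {i : ℕ} (l : ℕ) (h : i < k) :
    lockR R₀ k R (Nat.pair i l) = R₀ (Nat.pair i l) := by
  simp [lockR, h]

theorem lockR_ge (R₀ : ℕ → Bool) (k : ℕ) (R : ℕ → Bool) (i l : ℕ) :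
    lockR R₀ k R (Nat.pair (i + k) l) = R (Nat.pair i l) := by
  simp [lockR]

theorem comp_cols (R₀ : ℕ → Bool) (h : ∀ i, Computable (fun l => R₀ (Nat.pair i l))) (k : ℕ) :
    Computable (fun n : ℕ => if n.unpair.1 < k then R₀ n else false) := by
  induction k with
  | zero =>
    refine (Computable.const false).of_eq fun n => ?_
    simp
  | succ k ih =>
    have h1 : Computable (fun n : ℕ => R₀ (Nat.pair k n.unpair.2)) := by
      have := (h k).comp (cUnp2 Computable.id)
      exact this
    have h2 := cIte (cEq (cUnp1 (γ := ℕ) Computable.id) (Computable.const k)) h1 ih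
    refine h2.of_eq fun n => ?_
    by_cases e : n.unpair.1 = k
    · simp only [id, e, if_true]
      rw [if_pos (Nat.lt_succ_self k), ← e, Nat.pair_unpair]
    · simp only [id, if_neg e]
      by_cases e' : n.unpair.1 < k
      · rw [if_pos e', if_pos (by omega)]
      · rw [if_neg e', if_neg (by omega)]

theorem tt_lockR (R₀ : ℕ → Bool) (h : ∀ i, Computable (fun l => R₀ (Nat.pair i l))) (k : ℕ) :
    TT (lockR R₀ k) := by
  have h1 : Computable (fun n : ℕ => Nat.pair (n.unpair.1 - k) n.unpair.2) := by
    have := cPair (cSub (cUnp1 (γ := ℕ) Computable.id) (Computable.const k))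
      (cUnp2 Computable.id)
    exact this
  have h2 : Computable₂ (fun (n : ℕ) (b : Bool) => if n.unpair.1 < k then
      (if n.unpair.1 < k then R₀ n else false) else b) := by
    have h3 : Computable (fun p : ℕ × Bool => decide (p.1.unpair.1 < k)) :=
      cLt (cUnp1 Computable.fst) (Computable.const k)
    have h4 := (comp_cols R₀ h k).comp (Computable.fst (α := ℕ) (β := Bool))
    have := cIte h3 h4 Computable.snd
    exact this
  have h5 := (TT.query h1).map h2
  have h6 : lockR R₀ k = fun X n => if n.unpair.1 < k then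
      (if n.unpair.1 < k then R₀ n else false) else X (Nat.pair (n.unpair.1 - k) n.unpair.2) := by
    funext X n
    rw [lockR]
    by_cases e : n.unpair.1 < k
    · rw [if_pos e, if_pos e, if_pos e]
    · rw [if_neg e, if_neg e]
  rw [h6]
  exact h5

theorem lockR_mem {tr : List Bool → Bool} {R₀ R : ℕ → Bool} (h₀ : R₀ ∈ PathsW tr)
    (h : R ∈ PathsW tr) (k : ℕ) : lockR R₀ k R ∈ PathsW tr := by
  intro i
  by_cases e : i < k
  · have : (fun l => lockR R₀ k R (Nat.pair i l)) = fun l => R₀ (Nat.pair i l) := by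
      funext l; exact lockR_lt R₀ k R l e
    rw [this]; exact h₀ i
  · obtain ⟨i', rfl⟩ : ∃ i', i = i' + k := ⟨i - k, by omega⟩
    have : (fun l => lockR R₀ k R (Nat.pair (i' + k) l)) = fun l => R (Nat.pair i' l) := by
      funext l; exact lockR_ge R₀ k R i' l
    rw [this]; exact h i'

/-- lock the first `k` columns to the columns of `R₀` -/
def Cond.lock (c : Cond) (R₀ : ℕ → Bool) (h₀ : R₀ ∈ PathsW c.tr) (k : ℕ) : Cond where
  tr := c.tr
  good := c.good
  two := c.two
  G := fun R => c.G (lockR R₀ k R)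
  tt := c.tt.comp (tt_lockR R₀ (fun i => c.good.mem _ (h₀ i)) k)
  pos := fun i l => c.pos (i + k) l
  cpos := by
    have h1 : Computable (fun p : ℕ × ℕ => p.1 + k) := by
      have := Primrec.nat_add.to_comp.comp (Computable.fst (α := ℕ) (β := ℕ)) (Computable.const k)
      exact this
    have := c.cpos.comp h1 Computable.snd
    exact this
  read := fun R hR i l => by
    rw [c.read _ (lockR_mem h₀ hR k), lockR_ge]

theorem Cond.lock_C (c : Cond) (R₀ : ℕ → Bool) (h₀ : R₀ ∈ PathsW c.tr) (k : ℕ) {X : ℕ → Bool}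
    (hX : X ∈ (c.lock R₀ h₀ k).C) : ∃ R ∈ PathsW c.tr, c.G R = X ∧
      ∀ i < k, ∀ l, R (Nat.pair i l) = R₀ (Nat.pair i l) := by
  obtain ⟨R, hR, rfl⟩ := hX
  exact ⟨lockR R₀ k R, lockR_mem h₀ hR k, rfl, fun i hi l => lockR_lt R₀ k R l hi⟩

theorem Cond.lock_rd (c : Cond) (R₀ : ℕ → Bool) (h₀ : R₀ ∈ PathsW c.tr) (k : ℕ) {X : ℕ → Bool}
    (hX : X ∈ (c.lock R₀ h₀ k).C) {i : ℕ} (hi : i < k) (l : ℕ) :
    c.rd X i l = R₀ (Nat.pair i l) := by
  obtain ⟨R, hR, rfl, h⟩ := c.lock_C R₀ h₀ k hX
  rw [← h i hi l]
  exact c.read R hR i l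

theorem Cond.lock_ref (c : Cond) (R₀ : ℕ → Bool) (h₀ : R₀ ∈ PathsW c.tr) (k : ℕ) :
    RefD c (c.lock R₀ h₀ k) (fun i => i + k) id where
  sub := fun X hX => by
    obtain ⟨R, hR, e, _⟩ := c.lock_C R₀ h₀ k hX
    exact ⟨R, hR, e⟩
  mono := fun a b h => by simpa using h
  col := fun X _ i l => rfl
  lift := fun q hq => ⟨q, hq, fun _ => rfl⟩
  det := fun X hX Y hY i hi i' hi' => by
    funext l
    by_cases e : i' < k
    · rw [c.lock_rd R₀ h₀ k hX e, c.lock_rd R₀ h₀ k hY e]
    · obtain ⟨i'', rfl⟩ : ∃ i'', i' = i'' + k := ⟨i' - k, by omega⟩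
      exact congrFun (hi i'' (by omega)) l

/-! ### Activating a new class -/


/-- bits at even positions -/
def evenS (σ : List Bool) : List Bool :=
  (List.range ((σ.length + 1) / 2)).map (fun l => (σ[2 * l]?).getD false)

/-- bits at odd positions -/
def oddS (σ : List Bool) : List Bool :=
  (List.range (σ.length / 2)).map (fun l => (σ[2 * l + 1]?).getD false)

theorem evenS_restr (X : ℕ → Bool) (n : ℕ) :
    evenS (restr X n) = restr (fun l => X (2 * l)) ((n + 1) / 2) := by
  rw [evenS, restr_length]
  apply List.map_congr_left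
  intro l hl
  have := List.mem_range.1 hl
  exact restr_getD X (by omega)

theorem oddS_restr (X : ℕ → Bool) (n : ℕ) :
    oddS (restr X n) = restr (fun l => X (2 * l + 1)) (n / 2) := by
  rw [oddS, restr_length]
  apply List.map_congr_left
  intro l hl
  have := List.mem_range.1 hl
  exact restr_getD X (by omega)

/-- join of two trees -/
def joinT (t s : List Bool → Bool) (σ : List Bool) : Bool := t (evenS σ) && s (oddS σ)

theorem joinT_paths {t s : List Bool → Bool} (q : ℕ → Bool) :
    q ∈ Paths (joinT t s) ↔ (fun l => q (2 * l)) ∈ Paths t ∧ (fun l => q (2 * l + 1)) ∈ Paths s := by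
  constructor
  · intro h
    constructor
    · intro n
      have := h (2 * n)
      rw [joinT, Bool.and_eq_true, evenS_restr] at this
      have e : (2 * n + 1) / 2 = n := by omega
      rw [e] at this
      exact this.1
    · intro n
      have := h (2 * n)
      rw [joinT, Bool.and_eq_true, oddS_restr] at this
      have e : 2 * n / 2 = n := by omega
      rw [e] at this
      exact this.2
  · intro h n
    rw [joinT, Bool.and_eq_true, evenS_restr, oddS_restr]
    exact ⟨h.1 _, h.2 _⟩

/-- join of two sequences -/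
def joinX (p q : ℕ → Bool) (n : ℕ) : Bool := if n % 2 = 0 then p (n / 2) else q (n / 2)

theorem joinX_even (p q : ℕ → Bool) (l : ℕ) : joinX p q (2 * l) = p l := by
  rw [joinX, if_pos (by omega)]; congr 1; omega

theorem joinX_odd (p q : ℕ → Bool) (l : ℕ) : joinX p q (2 * l + 1) = q l := by
  rw [joinX, if_neg (by omega)]; congr 1; omega

theorem joinX_mem {t s : List Bool → Bool} {p q : ℕ → Bool} (hp : p ∈ Paths t) (hq : q ∈ Paths s) :
    joinX p q ∈ Paths (joinT t s) := by
  rw [joinT_paths]
  have h1 : (fun l => joinX p q (2 * l)) = p := by funext l; exact joinX_even p q l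
  have h2 : (fun l => joinX p q (2 * l + 1)) = q := by funext l; exact joinX_odd p q l
  rw [h1, h2]
  exact ⟨hp, hq⟩

theorem cDiv2 {γ : Type} [Primcodable γ] {m : γ → ℕ} (hm : Computable m) :
    Computable (fun g => m g / 2) := by
  have := Primrec.nat_div.to_comp.comp hm (Computable.const 2)
  exact this

theorem cMod2 {γ : Type} [Primcodable γ] {m : γ → ℕ} (hm : Computable m) :
    Computable (fun g => m g % 2) := by
  have := Primrec.nat_mod.to_comp.comp hm (Computable.const 2)
  exact this

theorem cMul2 {γ : Type} [Primcodable γ] {m : γ → ℕ} (hm : Computable m) :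
    Computable (fun g => 2 * m g) := by
  have := Primrec.nat_mul.to_comp.comp (Computable.const 2) hm
  exact this

theorem cEvenS {γ : Type} [Primcodable γ] {σ : γ → List Bool} (hσ : Computable σ) :
    Computable (fun g => evenS (σ g)) := by
  have h1 : Computable₂ (fun (g : γ) (l : ℕ) => ((σ g)[2 * l]?).getD false) := by
    have := cGetD (cMul2 (Computable.snd (α := γ) (β := ℕ))) (hσ.comp Computable.fst)
    exact this
  have := CL.list_map (cRange (cDiv2 (cSucc (cLen hσ)))) h1
  exact this

theorem cOddS {γ : Type} [Primcodable γ] {σ : γ → List Bool} (hσ : Computable σ) :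
    Computable (fun g => oddS (σ g)) := by
  have h1 : Computable₂ (fun (g : γ) (l : ℕ) => ((σ g)[2 * l + 1]?).getD false) := by
    have := cGetD (cSucc (cMul2 (Computable.snd (α := γ) (β := ℕ)))) (hσ.comp Computable.fst)
    exact this
  have := CL.list_map (cRange (cDiv2 (cLen hσ))) h1
  exact this

theorem exists_restr (σ : List Bool) : ∃ X, σ = restr X σ.length := ⟨ext σ, (restr_ext σ).symm⟩

theorem joinT_good {t s : List Bool → Bool} (ht : Good t) (hs : Good s) : Good (joinT t s) where
  comp := by
    have := cAnd (ht.comp.comp (cEvenS Computable.id)) (hs.comp.comp (cOddS Computable.id))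
    exact this
  nil := by
    rw [joinT, Bool.and_eq_true]
    exact ⟨ht.nil, hs.nil⟩
  pre := by
    intro σ b h
    have e : σ ++ [b] = restr (ext (σ ++ [b])) (σ.length + 1) := by
      have := restr_ext (σ ++ [b])
      rw [List.length_append] at this
      exact this.symm
    have e' : σ = restr (ext (σ ++ [b])) σ.length := by
      apply eq_restr_of_prefix (n := σ.length + 1)
      rw [← e]
      exact List.prefix_append _ _
    rw [e, joinT, Bool.and_eq_true, evenS_restr, oddS_restr] at h
    rw [e', joinT, Bool.and_eq_true, evenS_restr, oddS_restr]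
    exact ⟨ht.take _ (by omega) h.1, hs.take _ (by omega) h.2⟩
  prn := by
    intro σ h
    obtain ⟨X, hX⟩ := exists_restr σ
    rw [hX, joinT, Bool.and_eq_true, evenS_restr, oddS_restr] at h
    have key : ∀ b : Bool, σ ++ [b] = restr (fun n => if n = σ.length then b else X n)
        (σ.length + 1) := by
      intro b
      rw [restr_succ]
      congr 1
      · conv_lhs => rw [hX]
        apply restr_congr
        intro i hi
        rw [if_neg (by omega)]
      · simp
    rcases Nat.even_or_odd' σ.length with ⟨m, hm | hm⟩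
    · -- the new bit is even
      have e1 : (σ.length + 1) / 2 = m := by omega
      have e2 : σ.length / 2 = m := by omega
      rw [e1, e2] at h
      obtain ⟨b, hb⟩ := ht.prn _ h.1
      refine ⟨b, ?_⟩
      rw [key b, joinT, Bool.and_eq_true, evenS_restr, oddS_restr]
      have e3 : (σ.length + 1 + 1) / 2 = m + 1 := by omega
      rw [e3, e1]
      constructor
      · rw [restr_succ]
        have : restr (fun l => if 2 * l = σ.length then b else X (2 * l)) m =
            restr (fun l => X (2 * l)) m := by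
          apply restr_congr; intro i hi; rw [if_neg (by omega)]
        rw [this, if_pos hm.symm]
        exact hb
      · have : restr (fun l => if 2 * l + 1 = σ.length then b else X (2 * l + 1)) m =
            restr (fun l => X (2 * l + 1)) m := by
          apply restr_congr; intro i hi; rw [if_neg (by omega)]
        rw [this]
        exact h.2
    · have e1 : (σ.length + 1) / 2 = m + 1 := by omega
      have e2 : σ.length / 2 = m := by omega
      rw [e1, e2] at h
      obtain ⟨b, hb⟩ := hs.prn _ h.2
      refine ⟨b, ?_⟩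
      rw [key b, joinT, Bool.and_eq_true, evenS_restr, oddS_restr]
      have e3 : (σ.length + 1 + 1) / 2 = m + 1 := by omega
      rw [e3, e1]
      constructor
      · have : restr (fun l => if 2 * l = σ.length then b else X (2 * l)) (m + 1) =
            restr (fun l => X (2 * l)) (m + 1) := by
          apply restr_congr; intro i hi; rw [if_neg (by omega)]
        rw [this]
        exact h.1
      · rw [restr_succ]
        have : restr (fun l => if 2 * l + 1 = σ.length then b else X (2 * l + 1)) m =
            restr (fun l => X (2 * l + 1)) m := by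
          apply restr_congr; intro i hi; rw [if_neg (by omega)]
        rw [this, if_pos hm.symm]
        exact hb
  mem := by
    intro q hq
    rw [joinT_paths] at hq
    have h1 := ht.mem _ hq.1
    have h2 := hs.mem _ hq.2
    have h3 := cIte (cEq (cMod2 (γ := ℕ) Computable.id) (Computable.const 0))
      (h1.comp (cDiv2 Computable.id)) (h2.comp (cDiv2 Computable.id))
    refine h3.of_eq fun n => ?_
    simp only [id]
    split_ifs with h
    · congr 1; omega
    · congr 1; omega

/-- the reading for the activation: the columns of the old class -/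
def actR (a b : ℕ → Bool) (R : ℕ → Bool) (n : ℕ) : Bool :=
  if n.unpair.1 % 2 = 0 then R (Nat.pair (n.unpair.1 / 2) (2 * n.unpair.2))
  else if R (Nat.pair (n.unpair.1 / 2).unpair.1 (2 * (n.unpair.1 / 2).unpair.2 + 1)) = true
    then b n.unpair.2 else a n.unpair.2

theorem actR_even (a b R : ℕ → Bool) (i l : ℕ) :
    actR a b R (Nat.pair (2 * i) l) = R (Nat.pair i (2 * l)) := by
  rw [actR]
  simp only [Nat.unpair_pair]
  rw [if_pos (by omega)]
  congr 2
  omega

theorem actR_odd (a b R : ℕ → Bool) (i l l' : ℕ) :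
    actR a b R (Nat.pair (2 * Nat.pair i l' + 1) l) =
      if R (Nat.pair i (2 * l' + 1)) = true then b l else a l := by
  rw [actR]
  simp only [Nat.unpair_pair]
  rw [if_neg (by omega)]
  have : (2 * Nat.pair i l' + 1) / 2 = Nat.pair i l' := by omega
  rw [this, Nat.unpair_pair]

theorem tt_actR {a b : ℕ → Bool} (ha : Computable a) (hb : Computable b) : TT (actR a b) := by
  have u1 : Computable (fun n : ℕ => n.unpair.1) := cUnp1 Computable.id
  have u2 : Computable (fun n : ℕ => n.unpair.2) := cUnp2 Computable.id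
  have d : Computable (fun n : ℕ => n.unpair.1 / 2) := cDiv2 u1
  have q1 := TT.query (cPair d (cMul2 u2))
  have q2 := TT.query (cPair (cUnp1 d) (cSucc (cMul2 (cUnp2 d))))
  have h : Computable₂ (fun (n : ℕ) (p : Bool × Bool) =>
      if n.unpair.1 % 2 = 0 then p.1 else if p.2 = true then b n.unpair.2 else a n.unpair.2) := by
    have f : Computable (fun r : ℕ × (Bool × Bool) => r.1) := Computable.fst
    have h1 := cEq (cMod2 (cUnp1 f)) (Computable.const 0)
    have h2 : Computable (fun r : ℕ × (Bool × Bool) => r.2.1) := Computable.fst.comp Computable.snd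
    have h3 : Computable (fun r : ℕ × (Bool × Bool) => r.2.2) := Computable.snd.comp Computable.snd
    have h4 := cIte (cEq h3 (Computable.const true)) (hb.comp (cUnp2 f)) (ha.comp (cUnp2 f))
    have := cIte h1 h2 h4
    exact this
  have := (q1.pair q2).map h
  exact this

theorem actR_mem {t s : List Bool → Bool} {a b R : ℕ → Bool} (ha : a ∈ Paths t)
    (hb : b ∈ Paths t) (hR : R ∈ PathsW (joinT t s)) : actR a b R ∈ PathsW t := by
  intro i
  rcases Nat.even_or_odd' i with ⟨m, rfl | rfl⟩
  · have : (fun l => actR a b R (Nat.pair (2 * m) l)) = fun l => R (Nat.pair m (2 * l)) := by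
      funext l; exact actR_even a b R m l
    rw [this]
    exact ((joinT_paths _).1 (hR m)).1
  · have e : m = Nat.pair m.unpair.1 m.unpair.2 := (Nat.pair_unpair m).symm
    rw [e]
    cases hr : R (Nat.pair m.unpair.1 (2 * m.unpair.2 + 1))
    · have : (fun l => actR a b R (Nat.pair (2 * Nat.pair m.unpair.1 m.unpair.2 + 1) l)) = a := by
        funext l; rw [actR_odd, hr]; simp
      rw [this]; exact ha
    · have : (fun l => actR a b R (Nat.pair (2 * Nat.pair m.unpair.1 m.unpair.2 + 1) l)) = b := by
        funext l; rw [actR_odd, hr]; simp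
      rw [this]; exact hb

theorem exists_act (c : Cond) {P : List Bool → Bool} (hP : Good P) :
    ∃ c' : Cond, Ref c c' ∧ c'.tr = joinT c.tr P := by
  obtain ⟨a, ha, b, hb, l₀, hal, hbl⟩ := c.two
  obtain ⟨p₀, hp₀⟩ := hP.exists_path
  have cpos' : Computable₂ (fun i l : ℕ => if l % 2 = 0 then c.pos (2 * i) (l / 2)
      else c.pos (2 * Nat.pair i (l / 2) + 1) l₀) := by
    have hi : Computable (fun p : ℕ × ℕ => p.1) := Computable.fst
    have hl : Computable (fun p : ℕ × ℕ => p.2) := Computable.snd
    have h1 := c.cpos.comp (cMul2 hi) (cDiv2 hl)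
    have h2 := c.cpos.comp (cSucc (cMul2 (cPair hi (cDiv2 hl)))) (Computable.const l₀)
    have := cIte (cEq (cMod2 hl) (Computable.const 0)) h1 h2
    exact this
  let c' : Cond :=
    { tr := joinT c.tr P
      good := joinT_good c.good hP
      two := ⟨joinX a p₀, joinX_mem ha hp₀, joinX b p₀, joinX_mem hb hp₀, 2 * l₀,
        by rw [joinX_even]; exact hal, by rw [joinX_even]; exact hbl⟩
      G := fun R => c.G (actR a b R)
      tt := c.tt.comp (tt_actR (c.good.mem a ha) (c.good.mem b hb))
      pos := fun i l => if l % 2 = 0 then c.pos (2 * i) (l / 2)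
        else c.pos (2 * Nat.pair i (l / 2) + 1) l₀
      cpos := cpos'
      read := by
        intro R hR i l
        have hm := actR_mem ha hb hR
        rcases Nat.even_or_odd' l with ⟨m, rfl | rfl⟩
        · have e1 : 2 * m % 2 = 0 := by omega
          have e2 : 2 * m / 2 = m := by omega
          rw [if_pos e1, e2, c.read _ hm, actR_even]
        · have e1 : ¬ (2 * m + 1) % 2 = 0 := by omega
          have e2 : (2 * m + 1) / 2 = m := by omega
          rw [if_neg e1, e2, c.read _ hm, actR_odd]
          cases R (Nat.pair i (2 * m + 1))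
          · simpa using hal
          · simpa using hbl }
  have hsub : c'.C ⊆ c.C := by
    rintro X ⟨R, hR, rfl⟩
    exact ⟨actR a b R, actR_mem ha hb hR, rfl⟩
  have hrd : ∀ X ∈ c'.C, ∀ i l, c.rd X (2 * i) l = c'.rd X i (2 * l) := by
    intro X _ i l
    show X (c.pos (2 * i) l) = X (if 2 * l % 2 = 0 then c.pos (2 * i) (2 * l / 2) else _)
    have e1 : 2 * l % 2 = 0 := by omega
    have e2 : 2 * l / 2 = l := by omega
    rw [if_pos e1, e2]
  have hrd' : ∀ X ∈ c'.C, ∀ i l' l, c.rd X (2 * Nat.pair i l' + 1) l =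
      if c'.rd X i (2 * l' + 1) = true then b l else a l := by
    rintro X ⟨R, hR, rfl⟩ i l' l
    have h1 : c.rd (c'.G R) (2 * Nat.pair i l' + 1) l = actR a b R (Nat.pair (2 * Nat.pair i l' + 1) l) :=
      c.read _ (actR_mem ha hb hR) _ _
    have h2 : c'.rd (c'.G R) i (2 * l' + 1) = R (Nat.pair i (2 * l' + 1)) := c'.read R hR _ _
    rw [h1, h2, actR_odd]
  refine ⟨c', ⟨fun i => 2 * i, fun l => 2 * l, ⟨hsub, ?_, hrd, ?_, ?_⟩⟩, rfl⟩
  · intro x y h
    show 2 * x < 2 * y
    omega
  · intro q hq
    exact ⟨joinX q p₀, joinX_mem hq hp₀, fun l => joinX_even q p₀ l⟩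
  · intro X hX Y hY i hi i' hi'
    funext l
    rcases Nat.even_or_odd' i' with ⟨m, rfl | rfl⟩
    · rw [hrd X hX, hrd Y hY, hi m (by omega)]
    · have e : m = Nat.pair m.unpair.1 m.unpair.2 := (Nat.pair_unpair m).symm
      have h1 : m.unpair.1 < i := by
        have := Nat.unpair_left_le m
        omega
      rw [e, hrd' X hX, hrd' Y hY, hi _ h1]

end Pool.Agent.Helper344.SB
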