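import Mathlib
import Pool.Agent.Helper344.SBForce2
import Pool.Agent.Helper344.Blum2

set_option autoImplicit false

namespace Pool.Agent.Helper344.SB

open Pool.Agent.Helper344.Blum
open Nat.Partrec (Code)

/-- agreement on the columns `≤ k` -/
def agr (k : ℕ) (σ τ : List Bool) : Bool :=
  (List.range τ.length).all (fun n => decide (k < n.unpair.1) ||
    decide ((σ[n]?).getD false = (τ[n]?).getD false))

theorem agr_iff (k : ℕ) (X Y : ℕ → Bool) (N : ℕ) : agr k (restr X N) (restr Y N) = true ↔
    ∀ n < N, n.unpair.1 ≤ k → X n = Y n := by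
  simp only [agr, List.all_eq_true, List.mem_range, restr_length, Bool.or_eq_true,
    decide_eq_true_eq]
  constructor
  · intro h n hn hk
    rcases h n hn with h1 | h1
    · omega
    · rwa [restr_getD X hn, restr_getD Y hn] at h1
  · intro h n hn
    by_cases hk : n.unpair.1 ≤ k
    · right
      rw [restr_getD X hn, restr_getD Y hn]
      exact h n hn hk
    · left; omega

theorem cAgr {γ : Type} [Primcodable γ] {k : γ → ℕ} {σ τ : γ → List Bool} (hk : Computable k)
    (hσ : Computable σ) (hτ : Computable τ) : Computable (fun g => agr (k g) (σ g) (τ g)) := by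
  have h1 : Computable₂ (fun (g : γ) (n : ℕ) => decide (k g < n.unpair.1) ||
    decide (((σ g)[n]?).getD false = ((τ g)[n]?).getD false)) := by
    have s : Computable (fun p : γ × ℕ => p.2) := Computable.snd
    have f : Computable (fun p : γ × ℕ => p.1) := Computable.fst
    have := cOr (cLt (hk.comp f) (cUnp1 s)) (cEq (cGetD s (hσ.comp f)) (cGetD s (hτ.comp f)))
    exact this
  have := CL.list_all (cRange (cLen hτ)) h1
  exact this

section
variable (tr : List Bool → Bool) (Ψ : List Bool → ℕ → Option ℕ)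

/-- the length `N` is good for `m` and `k` -/
def gd (p : ℕ × ℕ) (N : ℕ) : Bool := decide (p.2 < N) && (allStr N).all (fun σ => !cons tr σ ||
  (allStr N).any (fun τ => cons tr τ && agr p.2 σ τ && (Ψ τ p.1).isSome))

theorem exists_gd (hg : Good tr)
    (hmono : ∀ σ τ : List Bool, σ <+: τ → ∀ x y, Ψ σ x = some y → Ψ τ x = some y)
    (hB : ∀ m k, ∀ R ∈ PathsW tr, ∃ R' ∈ PathsW tr,
      (∀ i ≤ k, ∀ l, R' (Nat.pair i l) = R (Nat.pair i l)) ∧ ∃ n y, Ψ (restr R' n) m = some y)
    (p : ℕ × ℕ) : ∃ N, gd tr Ψ p N = true := by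
  obtain ⟨m, k⟩ := p
  let P : List Bool → Prop := fun σ => cons tr σ = false ∨
    ∃ τ : List Bool, τ.length = σ.length ∧ cons tr τ = true ∧ agr k σ τ = true ∧ (Ψ τ m).isSome
  have h1 : ∀ σ τ : List Bool, σ <+: τ → P σ → P τ := by
    intro σ σ' hpre hP
    have hl := hpre.length_le
    have e' : σ' = restr (ext σ') σ'.length := (restr_ext σ').symm
    have e : σ = restr (ext σ') σ.length := by
      apply eq_restr_of_prefix (n := σ'.length)
      rw [← e']; exact hpre
    by_cases hc : cons tr σ' = true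
    swap
    · left; simpa using hc
    have hc' : cons tr (restr (ext σ') σ'.length) = true := by rw [← e']; exact hc
    have hcσ : cons tr σ = true := by rw [e]; exact cons_mono tr hl hc'
    rcases hP with hP | ⟨τ, hτl, hτc, hτa, hτΨ⟩
    · rw [hcσ] at hP; exact absurd hP (by simp)
    · right
      have eτ : τ = restr (ext τ) σ.length := by rw [← hτl]; exact (restr_ext τ).symm
      have hτc' : cons tr (restr (ext τ) σ.length) = true := by rw [← eτ]; exact hτc
      rw [e, eτ, agr_iff] at hτa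
      let Z : ℕ → Bool := fun n => if n.unpair.1 ≤ k then ext σ' n
        else lm tr τ n.unpair.1 n.unpair.2
      have hZ : ∀ n < σ.length, Z n = ext τ n := by
        intro n hn
        by_cases hk : n.unpair.1 ≤ k
        · simp only [Z, if_pos hk]
          exact hτa n hn hk
        · simp only [Z, if_neg hk]
          have h2 : Nat.pair n.unpair.1 n.unpair.2 < τ.length := by
            rw [Nat.pair_unpair, hτl]; exact hn
          rw [lm_of_lt tr h2, Nat.pair_unpair]
          rfl
      refine ⟨restr Z σ'.length, by rw [restr_length], ?_, ?_, ?_⟩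
      · rw [cons_iff]
        intro i l hil
        by_cases hk : i ≤ k
        · have : (fun l => Z (Nat.pair i l)) = fun l => ext σ' (Nat.pair i l) := by
            funext l; simp [Z, hk]
          rw [this]
          exact (cons_iff tr _ _).1 hc' i l hil
        · have : (fun l => Z (Nat.pair i l)) = lm tr τ i := by
            funext l; simp [Z, hk]
          rw [this, eτ]
          exact lm_mem tr hg (ext τ) σ.length hτc' i (l + 1)
      · have h4 : agr k (restr (ext σ') σ'.length) (restr Z σ'.length) = true := by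
          rw [agr_iff]
          intro n _ hk
          simp only [Z, if_pos hk]
        rw [← e'] at h4
        exact h4
      · obtain ⟨y, hy⟩ := Option.isSome_iff_exists.1 hτΨ
        have h3 : τ <+: restr Z σ'.length := by
          rw [eτ, ← restr_congr hZ]
          exact restr_prefix Z hl
        rw [hmono _ _ h3 m y hy]; rfl
  have h2 : ∀ X : ℕ → Bool, ∃ n, P (restr X n) := by
    intro X
    by_cases hX : X ∈ PathsW tr
    · obtain ⟨R', hR', ha, n, y, hy⟩ := hB m k X hX
      refine ⟨n, Or.inr ⟨restr R' n, by rw [restr_length, restr_length], ?_, ?_, ?_⟩⟩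
      · exact (mem_PathsW_iff tr hg R').1 hR' n
      · rw [agr_iff]
        intro n' _ hk
        have := ha n'.unpair.1 hk n'.unpair.2
        rw [Nat.pair_unpair] at this
        exact this.symm
      · rw [hy]; rfl
    · rw [mem_PathsW_iff tr hg] at hX
      push Not at hX
      obtain ⟨N, hN⟩ := hX
      exact ⟨N, Or.inl (by simpa using hN)⟩
  obtain ⟨N, hN⟩ := compactness P h1 h2
  refine ⟨max N (k + 1), ?_⟩
  simp only [gd, Bool.and_eq_true, decide_eq_true_eq, List.all_eq_true, mem_allStr,
    Bool.or_eq_true, Bool.not_eq_true', List.any_eq_true]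
  refine ⟨by omega, fun σ hσ => ?_⟩
  rcases hN σ (by omega) with h | ⟨τ, hl, hc, ha, hs⟩
  · exact Or.inl h
  · exact Or.inr ⟨τ, by omega, ⟨hc, ha⟩, hs⟩

variable (h : ∀ p : ℕ × ℕ, ∃ N, gd tr Ψ p N = true)

/-- the free columns -/
def KK (m : ℕ) : ℕ := Nat.rec (motive := fun _ => ℕ) 0 (fun m k => Nat.find (h (m, k))) m

theorem KK_succ (m : ℕ) : KK tr Ψ h (m + 1) = Nat.find (h (m, KK tr Ψ h m)) := rfl

theorem KK_spec (m : ℕ) : gd tr Ψ (m, KK tr Ψ h m) (KK tr Ψ h (m + 1)) = true := by
  rw [KK_succ]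
  exact Nat.find_spec (h (m, KK tr Ψ h m))

theorem KK_lt (m : ℕ) : KK tr Ψ h m < KK tr Ψ h (m + 1) := by
  have := KK_spec tr Ψ h m
  simp only [gd, Bool.and_eq_true, decide_eq_true_eq] at this
  exact this.1

theorem KK_mono : StrictMono (KK tr Ψ h) := strictMono_nat_of_lt_succ (KK_lt tr Ψ h)

theorem KK_ge (m : ℕ) : m ≤ KK tr Ψ h m := (KK_mono tr Ψ h).id_le m

/-- the chosen extension -/
def pick (m : ℕ) (σ : List Bool) : List Bool :=
  ((allStr σ.length).findSome? (fun τ => bif cons tr τ && agr (KK tr Ψ h m) σ τ && (Ψ τ m).isSome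
    then some τ else none)).getD σ

theorem pick_spec (m : ℕ) (σ : List Bool) (hl : σ.length = KK tr Ψ h (m + 1))
    (hc : cons tr σ = true) : (pick tr Ψ h m σ).length = KK tr Ψ h (m + 1) ∧
      cons tr (pick tr Ψ h m σ) = true ∧ agr (KK tr Ψ h m) σ (pick tr Ψ h m σ) = true ∧
      (Ψ (pick tr Ψ h m σ) m).isSome := by
  have h1 := KK_spec tr Ψ h m
  simp only [gd, Bool.and_eq_true, decide_eq_true_eq, List.all_eq_true, mem_allStr,
    Bool.or_eq_true, Bool.not_eq_true', List.any_eq_true] at h1
  rcases h1.2 σ hl with h2 | ⟨τ, hτl, hτ⟩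
  · rw [hc] at h2; exact absurd h2 (by simp)
  · have h3 : ((allStr σ.length).findSome? (fun τ => bif cons tr τ && agr (KK tr Ψ h m) σ τ &&
        (Ψ τ m).isSome then some τ else none)).isSome := by
      rw [List.findSome?_isSome_iff]
      refine ⟨τ, (mem_allStr _ _).2 (by omega), ?_⟩
      have : (cons tr τ && agr (KK tr Ψ h m) σ τ && (Ψ τ m).isSome) = true := by
        simp only [Bool.and_eq_true]
        exact hτ
      rw [this]; rfl
    obtain ⟨ρ, hρ⟩ := Option.isSome_iff_exists.1 h3
    have h4 : pick tr Ψ h m σ = ρ := by rw [pick, hρ]; rfl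
    rw [h4]
    obtain ⟨τ', hτ', h5⟩ := List.exists_of_findSome?_eq_some hρ
    cases h6 : (cons tr τ' && agr (KK tr Ψ h m) σ τ' && (Ψ τ' m).isSome)
    · rw [h6] at h5; simp at h5
    · rw [h6] at h5
      simp only [cond_true, Option.some.injEq] at h5
      rw [h5] at h6 hτ'
      simp only [Bool.and_eq_true] at h6
      exact ⟨by rw [(mem_allStr _ _).1 hτ']; exact hl, h6.1.1, h6.1.2, h6.2⟩

/-- the index of a free column -/
def kinv (m i : ℕ) : Option ℕ :=
  (List.range (m + 1)).findSome? (fun j => bif decide (KK tr Ψ h j = i) then some j else none)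

theorem kinv_some {m i j : ℕ} (hj : kinv tr Ψ h m i = some j) : j ≤ m ∧ KK tr Ψ h j = i := by
  obtain ⟨j', hj', h5⟩ := List.exists_of_findSome?_eq_some hj
  cases h6 : decide (KK tr Ψ h j' = i)
  · rw [h6] at h5; simp at h5
  · rw [h6] at h5
    simp only [cond_true, Option.some.injEq] at h5
    rw [h5] at h6 hj'
    have := List.mem_range.1 hj'
    exact ⟨by omega, by simpa using h6⟩

theorem kinv_KK {m j : ℕ} (hj : j ≤ m) : kinv tr Ψ h m (KK tr Ψ h j) = some j := by
  have h3 : (kinv tr Ψ h m (KK tr Ψ h j)).isSome := by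
    rw [kinv, List.findSome?_isSome_iff]
    exact ⟨j, List.mem_range.2 (by omega), by simp⟩
  obtain ⟨j', hj'⟩ := Option.isSome_iff_exists.1 h3
  have := kinv_some tr Ψ h hj'
  rw [hj', (KK_mono tr Ψ h).injective this.2]

/-- the prescribed value at position `n` at stage `m` -/
def entry (m : ℕ) (T ρ : List Bool) (n : ℕ) : Bool :=
  ((kinv tr Ψ h m n.unpair.1).map (fun j => (ρ[Nat.pair j n.unpair.2]?).getD false)).getD
    (lm tr T n.unpair.1 n.unpair.2)

def sX (m : ℕ) (T : List Bool) (R : ℕ → Bool) (n : ℕ) : Bool :=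
  ((kinv tr Ψ h m n.unpair.1).map (fun j => R (Nat.pair j n.unpair.2))).getD
    (lm tr T n.unpair.1 n.unpair.2)

def sg (m : ℕ) (T ρ : List Bool) : List Bool :=
  (List.range (KK tr Ψ h (m + 1))).map (entry tr Ψ h m T ρ)

theorem sg_eq (m : ℕ) (T : List Bool) (R : ℕ → Bool) :
    sg tr Ψ h m T (restr R (KK tr Ψ h (m + 1))) =
      restr (sX tr Ψ h m T R) (KK tr Ψ h (m + 1)) := by
  apply List.map_congr_left
  intro n hn
  rw [List.mem_range] at hn
  rw [entry, sX]
  cases hk : kinv tr Ψ h m n.unpair.1 with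
  | none => rfl
  | some j =>
    simp only [Option.map_some, Option.getD_some]
    apply restr_getD
    have h1 := kinv_some tr Ψ h hk
    have h2 : j ≤ n.unpair.1 := by rw [← h1.2]; exact KK_ge tr Ψ h j
    have h3 : Nat.pair j n.unpair.2 ≤ Nat.pair n.unpair.1 n.unpair.2 := by
      rcases Nat.lt_or_eq_of_le h2 with h4 | h4
      · exact le_of_lt (Nat.pair_lt_pair_left _ h4)
      · rw [h4]
    rw [Nat.pair_unpair] at h3
    omega

/-- the stages of the fusion -/
def TB (R : ℕ → Bool) (m : ℕ) : List Bool := Nat.rec (motive := fun _ => List Bool) []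
  (fun m T => pick tr Ψ h m (sg tr Ψ h m T (restr R (KK tr Ψ h (m + 1))))) m

theorem TB_succ (R : ℕ → Bool) (m : ℕ) : TB tr Ψ h R (m + 1) =
    pick tr Ψ h m (restr (sX tr Ψ h m (TB tr Ψ h R m) R) (KK tr Ψ h (m + 1))) := by
  rw [← sg_eq]; rfl

/-- the fusion functional -/
def fus (R : ℕ → Bool) (n : ℕ) : Bool := ((TB tr Ψ h R (n + 1))[n]?).getD false

section
variable (hg : Good tr) {R : ℕ → Bool} (hR : R ∈ PathsW tr)
include hg hR

theorem sX_mem (m : ℕ) (T : List Bool) (hT : cons tr T = true) :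
    sX tr Ψ h m T R ∈ PathsW tr := by
  intro i
  cases hk : kinv tr Ψ h m i with
  | none =>
    have : (fun l => sX tr Ψ h m T R (Nat.pair i l)) = lm tr T i := by
      funext l; simp [sX, hk]
    rw [this]
    obtain ⟨X, hX⟩ := exists_restr T
    rw [hX] at hT ⊢
    exact lm_mem tr hg X _ hT i
  | some j =>
    have : (fun l => sX tr Ψ h m T R (Nat.pair i l)) = fun l => R (Nat.pair j l) := by
      funext l; simp [sX, hk]
    rw [this]
    exact hR j

theorem TB_cons (m : ℕ) : cons tr (TB tr Ψ h R m) = true ∧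
    (TB tr Ψ h R m).length = KK tr Ψ h m := by
  induction m with
  | zero => exact ⟨rfl, rfl⟩
  | succ m ih =>
    rw [TB_succ]
    have h1 := (mem_PathsW_iff tr hg _).1 (sX_mem tr Ψ h hg hR m _ ih.1) (KK tr Ψ h (m + 1))
    have h2 := pick_spec tr Ψ h m _ (restr_length _ _) h1
    exact ⟨h2.2.1, h2.1⟩

theorem TB_spec (m : ℕ) : (∀ n < KK tr Ψ h (m + 1), n.unpair.1 ≤ KK tr Ψ h m →
      ((TB tr Ψ h R (m + 1))[n]?).getD false = sX tr Ψ h m (TB tr Ψ h R m) R n) ∧
    (Ψ (TB tr Ψ h R (m + 1)) m).isSome := by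
  have ih := TB_cons tr Ψ h hg hR m
  have h1 := (mem_PathsW_iff tr hg _).1 (sX_mem tr Ψ h hg hR m _ ih.1) (KK tr Ψ h (m + 1))
  have h2 := pick_spec tr Ψ h m _ (restr_length _ _) h1
  rw [TB_succ]
  refine ⟨?_, h2.2.2.2⟩
  generalize pick tr Ψ h m (restr (sX tr Ψ h m (TB tr Ψ h R m) R) (KK tr Ψ h (m + 1))) = τ at h2
  have e : τ = restr (ext τ) (KK tr Ψ h (m + 1)) := by rw [← h2.1]; exact (restr_ext τ).symm
  have h3 := h2.2.2.1
  rw [e, agr_iff] at h3
  intro n hn hk
  rw [h3 n hn hk]
  rfl

theorem TB_free (m : ℕ) : ∀ j l, Nat.pair (KK tr Ψ h j) l < KK tr Ψ h m →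
    ((TB tr Ψ h R m)[Nat.pair (KK tr Ψ h j) l]?).getD false = R (Nat.pair j l) := by
  intro j l hl
  cases m with
  | zero => exact absurd hl (Nat.not_lt_zero _)
  | succ m =>
    have h1 : KK tr Ψ h j < KK tr Ψ h (m + 1) := lt_of_le_of_lt (Nat.left_le_pair _ l) hl
    have h2 : j < m + 1 := (KK_mono tr Ψ h).lt_iff_lt.1 h1
    have h3 : KK tr Ψ h j ≤ KK tr Ψ h m := (KK_mono tr Ψ h).le_iff_le.2 (by omega)
    rw [(TB_spec tr Ψ h hg hR m).1 _ hl (by rw [Nat.unpair_pair]; exact h3), sX]
    simp only [Nat.unpair_pair]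
    rw [kinv_KK tr Ψ h (by omega : j ≤ m)]
    rfl

theorem TB_step (m : ℕ) : ∀ n < KK tr Ψ h m, ((TB tr Ψ h R (m + 1))[n]?).getD false =
    ((TB tr Ψ h R m)[n]?).getD false := by
  intro n hn
  have h1 : n.unpair.1 ≤ n := Nat.unpair_left_le n
  rw [(TB_spec tr Ψ h hg hR m).1 n (lt_trans hn (KK_lt tr Ψ h m)) (by omega), sX]
  cases hk : kinv tr Ψ h m n.unpair.1 with
  | none =>
    simp only [Option.map_none, Option.getD_none]
    have h2 : Nat.pair n.unpair.1 n.unpair.2 < (TB tr Ψ h R m).length := by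
      rw [(TB_cons tr Ψ h hg hR m).2, Nat.pair_unpair]; exact hn
    rw [lm_of_lt tr h2, Nat.pair_unpair]
  | some j =>
    simp only [Option.map_some, Option.getD_some]
    have h2 := kinv_some tr Ψ h hk
    have h3 := TB_free tr Ψ h hg hR m j n.unpair.2
    rw [h2.2, Nat.pair_unpair] at h3
    exact (h3 hn).symm

theorem TB_le {m m' : ℕ} (hm : m ≤ m') : ∀ n < KK tr Ψ h m,
    ((TB tr Ψ h R m')[n]?).getD false = ((TB tr Ψ h R m)[n]?).getD false := by
  induction m' with
  | zero =>
    intro n _
    have : m = 0 := by omega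
    rw [this]
  | succ m' ih =>
    intro n hn
    rcases Nat.lt_or_eq_of_le hm with h1 | h1
    · have h2 : n < KK tr Ψ h m' := lt_of_lt_of_le hn ((KK_mono tr Ψ h).le_iff_le.2 (by omega))
      rw [TB_step tr Ψ h hg hR m' n h2]
      exact ih (by omega) n hn
    · rw [h1]

theorem fus_eq (m : ℕ) : ∀ n < KK tr Ψ h m,
    fus tr Ψ h R n = ((TB tr Ψ h R m)[n]?).getD false := by
  intro n hn
  have h1 : n < KK tr Ψ h (n + 1) := lt_of_lt_of_le (Nat.lt_succ_self n) (KK_ge tr Ψ h (n + 1))
  rw [fus]
  rcases le_total m (n + 1) with h2 | h2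
  · exact TB_le tr Ψ h hg hR h2 n hn
  · exact (TB_le tr Ψ h hg hR h2 n h1).symm

theorem restr_fus (m : ℕ) : restr (fus tr Ψ h R) (KK tr Ψ h m) = TB tr Ψ h R m := by
  have e : TB tr Ψ h R m = restr (ext (TB tr Ψ h R m)) (KK tr Ψ h m) := by
    rw [← (TB_cons tr Ψ h hg hR m).2]; exact (restr_ext _).symm
  rw [e]
  apply restr_congr
  intro n hn
  rw [fus_eq tr Ψ h hg hR m n hn]
  rfl

theorem fus_mem : fus tr Ψ h R ∈ PathsW tr := by
  rw [mem_PathsW_iff tr hg]
  intro N
  apply cons_mono tr (KK_ge tr Ψ h N)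
  rw [restr_fus tr Ψ h hg hR]
  exact (TB_cons tr Ψ h hg hR N).1

theorem fus_free (j l : ℕ) : fus tr Ψ h R (Nat.pair (KK tr Ψ h j) l) = R (Nat.pair j l) := by
  have h1 : Nat.pair (KK tr Ψ h j) l < KK tr Ψ h (Nat.pair (KK tr Ψ h j) l + 1) :=
    lt_of_lt_of_le (Nat.lt_succ_self _) (KK_ge tr Ψ h _)
  rw [fus_eq tr Ψ h hg hR _ _ h1]
  exact TB_free tr Ψ h hg hR _ j l h1

theorem fus_tot (m : ℕ) : ∃ y, Ψ (restr (fus tr Ψ h R) (KK tr Ψ h (m + 1))) m = some y := by
  rw [restr_fus tr Ψ h hg hR]
  exact Option.isSome_iff_exists.1 (TB_spec tr Ψ h hg hR m).2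

end

theorem lm_congr {T T' : List Bool} (hl : T.length = T'.length) (i : ℕ)
    (hT : ∀ l, (T[Nat.pair i l]?).getD false = (T'[Nat.pair i l]?).getD false) :
    lm tr T i = lm tr T' i := by
  have h1 : ∀ l, lmS tr T i l = lmS tr T' i l := by
    intro l
    induction l with
    | zero => rfl
    | succ l ih => rw [lmS_succ, lmS_succ, ih, hl, hT]
  funext l
  rw [lm, lm, h1]

theorem fus_det (hg : Good tr) {R R' : ℕ → Bool} (hR : R ∈ PathsW tr) (hR' : R' ∈ PathsW tr)
    (i : ℕ) (hi : ∀ i' < i, ∀ l, R (Nat.pair i' l) = R' (Nat.pair i' l)) :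
    ∀ n : ℕ, n.unpair.1 < KK tr Ψ h i → fus tr Ψ h R n = fus tr Ψ h R' n := by
  -- the stages up to `i` coincide
  have h1 : ∀ m ≤ i, TB tr Ψ h R m = TB tr Ψ h R' m := by
    intro m
    induction m with
    | zero => intro _; rfl
    | succ m ih =>
      intro hm
      rw [TB_succ, TB_succ, ih (by omega)]
      congr 1
      apply restr_congr
      intro n _
      rw [sX, sX]
      cases hk : kinv tr Ψ h m n.unpair.1 with
      | none => rfl
      | some j =>
        have := kinv_some tr Ψ h hk
        simp only [Option.map_some, Option.getD_some]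
        exact hi j (by omega) _
  have h2 : ∀ m, ∀ n : ℕ, n.unpair.1 < KK tr Ψ h i →
      ((TB tr Ψ h R (i + m))[n]?).getD false = ((TB tr Ψ h R' (i + m))[n]?).getD false := by
    intro m
    induction m with
    | zero => intro n _; rw [Nat.add_zero, h1 i le_rfl]
    | succ m ih =>
      intro n hn
      by_cases hlt : n < KK tr Ψ h (i + m + 1)
      · have h3 : n.unpair.1 ≤ KK tr Ψ h (i + m) :=
          le_trans (le_of_lt hn) ((KK_mono tr Ψ h).le_iff_le.2 (by omega))
        show ((TB tr Ψ h R (i + m + 1))[n]?).getD false = ((TB tr Ψ h R' (i + m + 1))[n]?).getD false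
        rw [(TB_spec tr Ψ h hg hR (i + m)).1 n hlt h3, (TB_spec tr Ψ h hg hR' (i + m)).1 n hlt h3,
          sX, sX]
        cases hk : kinv tr Ψ h (i + m) n.unpair.1 with
        | none =>
          simp only [Option.map_none, Option.getD_none]
          have hl : (TB tr Ψ h R (i + m)).length = (TB tr Ψ h R' (i + m)).length := by
            rw [(TB_cons tr Ψ h hg hR _).2, (TB_cons tr Ψ h hg hR' _).2]
          rw [lm_congr tr hl n.unpair.1 (fun l => ih _ (by rw [Nat.unpair_pair]; exact hn))]
        | some j =>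
          simp only [Option.map_some, Option.getD_some]
          have h4 := kinv_some tr Ψ h hk
          apply hi
          rw [← h4.2] at hn
          exact (KK_mono tr Ψ h).lt_iff_lt.1 hn
      · have h3 : (TB tr Ψ h R (i + (m + 1))).length ≤ n := by
          rw [(TB_cons tr Ψ h hg hR _).2]; exact Nat.le_of_not_lt hlt
        have h4 : (TB tr Ψ h R' (i + (m + 1))).length ≤ n := by
          rw [(TB_cons tr Ψ h hg hR' _).2]; exact Nat.le_of_not_lt hlt
        rw [List.getElem?_eq_none h3, List.getElem?_eq_none h4]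
  intro n hn
  have h3 : n < KK tr Ψ h (i + (n + 1)) := lt_of_lt_of_le (by omega) (KK_ge tr Ψ h _)
  rw [fus_eq tr Ψ h hg hR _ n h3, fus_eq tr Ψ h hg hR' _ n h3]
  exact h2 (n + 1) n hn

/-! ### Computability of the fusion -/

section
variable {γ : Type} [Primcodable γ] (ht : Computable tr) (hΨ : Computable₂ Ψ)
include ht hΨ

theorem comp_gd : Computable₂ (gd tr Ψ) := by
  have hN : Computable (fun q : (ℕ × ℕ) × ℕ => allStr q.2) := by
    have := comp_allStr.comp (Computable.snd (α := ℕ × ℕ) (β := ℕ))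
    exact this
  have h2 : Computable₂ (fun (q : ((ℕ × ℕ) × ℕ) × List Bool) (τ : List Bool) =>
      cons tr τ && agr q.1.1.2 q.2 τ && (Ψ τ q.1.1.1).isSome) := by
    have a1 : Computable (fun r : (((ℕ × ℕ) × ℕ) × List Bool) × List Bool => r.2) := Computable.snd
    have a2 : Computable (fun r : (((ℕ × ℕ) × ℕ) × List Bool) × List Bool => r.1.2) :=
      Computable.snd.comp Computable.fst
    have a3 : Computable (fun r : (((ℕ × ℕ) × ℕ) × List Bool) × List Bool => r.1.1.1.2) :=
      Computable.snd.comp (Computable.fst.comp (Computable.fst.comp Computable.fst))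
    have a4 : Computable (fun r : (((ℕ × ℕ) × ℕ) × List Bool) × List Bool => r.1.1.1.1) :=
      Computable.fst.comp (Computable.fst.comp (Computable.fst.comp Computable.fst))
    have := cAnd (cAnd (cCons ht a1) (cAgr a3 a2 a1))
      (Primrec.option_isSome.to_comp.comp (hΨ.comp a1 a4))
    exact this
  have h1 : Computable₂ (fun (q : (ℕ × ℕ) × ℕ) (σ : List Bool) => !cons tr σ ||
      (allStr q.2).any (fun τ => cons tr τ && agr q.1.2 σ τ && (Ψ τ q.1.1).isSome)) := by
    have a1 : Computable (fun r : ((ℕ × ℕ) × ℕ) × List Bool => allStr r.1.2) :=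
      hN.comp Computable.fst
    have := cOr (cNot (cCons ht (Computable.snd (α := (ℕ × ℕ) × ℕ) (β := List Bool))))
      (CL.list_any a1 h2)
    exact this
  have h3 : Computable (fun q : (ℕ × ℕ) × ℕ => decide (q.1.2 < q.2)) :=
    cLt (Computable.snd.comp Computable.fst) Computable.snd
  have := cAnd h3 (CL.list_all hN h1)
  exact this

theorem comp_KK : Computable (KK tr Ψ h) := by
  have h1 : Computable (fun p : ℕ × ℕ => Nat.find (h p)) :=
    CL.find_comp (comp_gd tr Ψ ht hΨ) h
  have h2 : Computable₂ (fun (_ : ℕ) (p : ℕ × ℕ) => Nat.find (h p)) := by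
    have := h1.comp (Computable.snd (α := ℕ) (β := ℕ × ℕ))
    exact this
  have := Computable.nat_rec (Computable.id (α := ℕ)) (Computable.const (0 : ℕ)) h2
  exact this

theorem cPick {m : γ → ℕ} {σ : γ → List Bool} (hm : Computable m) (hσ : Computable σ) :
    Computable (fun g => pick tr Ψ h (m g) (σ g)) := by
  have h1 : Computable₂ (fun (g : γ) (τ : List Bool) =>
      bif cons tr τ && agr (KK tr Ψ h (m g)) (σ g) τ && (Ψ τ (m g)).isSome
      then some τ else none) := by
    have a1 : Computable (fun r : γ × List Bool => r.2) := Computable.snd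
    have a2 : Computable (fun r : γ × List Bool => σ r.1) := hσ.comp Computable.fst
    have a3 : Computable (fun r : γ × List Bool => m r.1) := hm.comp Computable.fst
    have a4 : Computable (fun r : γ × List Bool => KK tr Ψ h (m r.1)) :=
      (comp_KK tr Ψ h ht hΨ).comp a3
    have a5 := cAnd (cAnd (cCons ht a1) (cAgr a4 a2 a1))
      (Primrec.option_isSome.to_comp.comp (hΨ.comp a1 a3))
    have := Computable.cond a5 (Computable.option_some.comp a1) (Computable.const none)
    exact this
  have h2 : Computable (fun g => allStr (σ g).length) := comp_allStr.comp (cLen hσ)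
  have := Computable.option_getD (CL.list_findSome? h2 h1) hσ
  exact this

theorem cKinv {m i : γ → ℕ} (hm : Computable m) (hi : Computable i) :
    Computable (fun g => kinv tr Ψ h (m g) (i g)) := by
  have h1 : Computable₂ (fun (g : γ) (j : ℕ) =>
      bif decide (KK tr Ψ h j = i g) then some j else none) := by
    have a1 : Computable (fun r : γ × ℕ => KK tr Ψ h r.2) :=
      (comp_KK tr Ψ h ht hΨ).comp Computable.snd
    have := Computable.cond (cEq a1 (hi.comp Computable.fst))
      (Computable.option_some.comp Computable.snd) (Computable.const none)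
    exact this
  have := CL.list_findSome? (cRange (cSucc hm)) h1
  exact this

theorem cSg {m : γ → ℕ} {T ρ : γ → List Bool} (hm : Computable m) (hT : Computable T)
    (hρ : Computable ρ) : Computable (fun g => sg tr Ψ h (m g) (T g) (ρ g)) := by
  have h1 : Computable₂ (fun (g : γ) (n : ℕ) => entry tr Ψ h (m g) (T g) (ρ g) n) := by
    have a0 : Computable (fun r : γ × ℕ => r.2) := Computable.snd
    have a1 : Computable (fun r : γ × ℕ => kinv tr Ψ h (m r.1) r.2.unpair.1) :=
      cKinv tr Ψ h ht hΨ (hm.comp Computable.fst) (cUnp1 a0)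
    have a2 : Computable₂ (fun (r : γ × ℕ) (j : ℕ) =>
        ((ρ r.1)[Nat.pair j r.2.unpair.2]?).getD false) := by
      have := cGetD (cPair (Computable.snd (α := γ × ℕ) (β := ℕ)) (cUnp2 (a0.comp Computable.fst)))
        (hρ.comp (Computable.fst.comp Computable.fst))
      exact this
    have a3 : Computable (fun r : γ × ℕ => lm tr (T r.1) r.2.unpair.1 r.2.unpair.2) :=
      cLm ht (hT.comp Computable.fst) (cUnp1 a0) (cUnp2 a0)
    have := Computable.option_getD (Computable.option_map a1 a2) a3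
    exact this
  have a5 : Computable (fun g => KK tr Ψ h (m g + 1)) := (comp_KK tr Ψ h ht hΨ).comp (cSucc hm)
  have := CL.list_map (cRange a5) h1
  exact this

theorem tt_TB : TT (TB tr Ψ h) := by
  have a1 : Computable (fun p : ℕ × ℕ => KK tr Ψ h (p.2 + 1)) :=
    (comp_KK tr Ψ h ht hΨ).comp (cSucc Computable.snd)
  have a2 : Computable₂ (fun (_ : ℕ) (q : ℕ × List Bool × List Bool) =>
      pick tr Ψ h q.1 (sg tr Ψ h q.1 q.2.1 q.2.2)) := by
    have b1 : Computable (fun r : ℕ × (ℕ × List Bool × List Bool) => r.2.1) :=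
      Computable.fst.comp Computable.snd
    have b2 : Computable (fun r : ℕ × (ℕ × List Bool × List Bool) => r.2.2.1) :=
      Computable.fst.comp (Computable.snd.comp Computable.snd)
    have b3 : Computable (fun r : ℕ × (ℕ × List Bool × List Bool) => r.2.2.2) :=
      Computable.snd.comp (Computable.snd.comp Computable.snd)
    have := cPick tr Ψ h ht hΨ b1 (cSg tr Ψ h ht hΨ b1 b2 b3)
    exact this
  have := TT.nat_rec (Computable.id (α := ℕ)) (TT.const (Computable.const (α := ℕ) ([] : List Bool)))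
    (TT.restr a1) a2
  exact this

theorem tt_fus : TT (fus tr Ψ h) := by
  have h1 := (tt_TB tr Ψ h ht hΨ).comp_arg (β := ℕ) (cSucc Computable.id)
  have h2 : Computable₂ (fun (n : ℕ) (T : List Bool) => (T[n]?).getD false) := by
    have := cGetD (Computable.fst (α := ℕ) (β := List Bool)) Computable.snd
    exact this
  have := h1.map h2
  exact this

end

end

end Pool.Agent.Helper344.SB
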