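import Mathlib
import Pool.Agent.Helper344.SBForce3

set_option autoImplicit false

namespace Pool.Agent.Helper344.SB

open Pool.Agent.Helper344.Blum
open Nat.Partrec (Code)

theorem le_foldl_max {α : Type} (f : α → ℕ) (l : List α) (s : ℕ) :
    s ≤ l.foldl (fun s a => max s (f a)) s ∧ ∀ a ∈ l, f a ≤ l.foldl (fun s a => max s (f a)) s := by
  induction l generalizing s with
  | nil => simp
  | cons b l ih =>
    have h := ih (max s (f b))
    simp only [List.foldl_cons, List.mem_cons, forall_eq_or_imp]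
    exact ⟨le_trans (le_max_left _ _) h.1, le_trans (le_max_right _ _) h.1, h.2⟩

/-- domination: a functional is forced to be partial or to be bounded by a computable function -/
theorem exists_dom (c : Cond) {F : (ℕ → Bool) → ℕ →. ℕ} (hF : IsFunctional F) :
    ∃ c' : Cond, Ref c c' ∧ ((∃ m, ∀ X ∈ c'.C, ¬ (F X m).Dom) ∨
      (∃ g : ℕ → ℕ, Computable g ∧ ∀ X ∈ c'.C, ∀ m, ∃ y ∈ F X m, y ≤ g m)) := by
  obtain ⟨Ψ, hΨc, hΨ, hmono⟩ := exists_stage (functional_comp hF c.tt)
  by_cases hB : ∀ m k, ∀ R ∈ PathsW c.tr, ∃ R' ∈ PathsW c.tr,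
      (∀ i ≤ k, ∀ l, R' (Nat.pair i l) = R (Nat.pair i l)) ∧ ∃ n y, Ψ (restr R' n) m = some y
  swap
  · push Not at hB
    obtain ⟨m, k, R, hR, h⟩ := hB
    refine ⟨c.lock R hR (k + 1), ⟨_, _, c.lock_ref R hR (k + 1)⟩, Or.inl ⟨m, ?_⟩⟩
    intro X hX hd
    obtain ⟨R', hR', rfl, hag⟩ := c.lock_C R hR (k + 1) hX
    obtain ⟨y, hy⟩ := Part.dom_iff_mem.1 hd
    obtain ⟨n, hn⟩ := (hΨ R' m y).1 hy
    exact h R' hR' (fun i hi l => hag i (by omega) l) n y hn
  · have h := exists_gd c.tr Ψ c.good hmono hB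
    let c' : Cond :=
      { tr := c.tr
        good := c.good
        two := c.two
        G := fun R => c.G (fus c.tr Ψ h R)
        tt := c.tt.comp (tt_fus c.tr Ψ h c.good.comp hΨc)
        pos := fun i l => c.pos (KK c.tr Ψ h i) l
        cpos := by
          have := c.cpos.comp ((comp_KK c.tr Ψ h c.good.comp hΨc).comp
            (Computable.fst (α := ℕ) (β := ℕ))) Computable.snd
          exact this
        read := fun R hR i l => by
          rw [c.read _ (fus_mem c.tr Ψ h c.good hR), fus_free c.tr Ψ h c.good hR] }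
    refine ⟨c', ⟨KK c.tr Ψ h, id, ⟨?_, KK_mono c.tr Ψ h, fun _ _ _ _ => rfl,
      fun q hq => ⟨q, hq, fun _ => rfl⟩, ?_⟩⟩, Or.inr
      ⟨fun m => (allStr (KK c.tr Ψ h (m + 1))).foldl (fun s τ => max s ((Ψ τ m).getD 0)) 0, ?_, ?_⟩⟩
    · rintro X ⟨R, hR, rfl⟩
      exact ⟨_, fus_mem c.tr Ψ h c.good hR, rfl⟩
    · rintro X ⟨R, hR, rfl⟩ Y ⟨R', hR', rfl⟩ i hi i' hi'
      have h1 : ∀ i' < i, ∀ l, R (Nat.pair i' l) = R' (Nat.pair i' l) := by
        intro i' hi' l
        have := congrFun (hi i' hi') l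
        rw [← c'.read R hR i' l, ← c'.read R' hR' i' l]
        exact this
      have h2 := fus_det c.tr Ψ h c.good hR hR' i h1
      funext l
      have e1 : c.rd (c'.G R) i' l = fus c.tr Ψ h R (Nat.pair i' l) :=
        c.read _ (fus_mem c.tr Ψ h c.good hR) i' l
      have e2 : c.rd (c'.G R') i' l = fus c.tr Ψ h R' (Nat.pair i' l) :=
        c.read _ (fus_mem c.tr Ψ h c.good hR') i' l
      rw [e1, e2]
      exact h2 _ (by rw [Nat.unpair_pair]; exact hi')
    · have hall : Computable (fun m => allStr (KK c.tr Ψ h (m + 1))) :=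
        comp_allStr.comp ((comp_KK c.tr Ψ h c.good.comp hΨc).comp (cSucc Computable.id))
      have hf : Computable₂ (fun (m : ℕ) (p : ℕ × List Bool) => max p.1 ((Ψ p.2 m).getD 0)) := by
        have a1 : Computable (fun r : ℕ × (ℕ × List Bool) => Ψ r.2.2 r.1) :=
          hΨc.comp (Computable.snd.comp Computable.snd) Computable.fst
        have := cMax (Computable.fst.comp (Computable.snd (α := ℕ) (β := ℕ × List Bool)))
          (Computable.option_getD a1 (Computable.const 0))
        exact this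
      have := CL.list_foldl hall (Computable.const 0) hf
      exact this
    · rintro X ⟨R, hR, rfl⟩ m
      obtain ⟨y, hy⟩ := fus_tot c.tr Ψ h c.good hR m
      refine ⟨y, (hΨ (fus c.tr Ψ h R) m y).2 ⟨_, hy⟩, ?_⟩
      have h1 := (le_foldl_max (fun τ => (Ψ τ m).getD 0) (allStr (KK c.tr Ψ h (m + 1))) 0).2
        (restr (fus c.tr Ψ h R) (KK c.tr Ψ h (m + 1))) ((mem_allStr _ _).2 (restr_length _ _))
      rw [hy] at h1
      exact h1

/-- `h` separates the two standard inseparable sets -/
def Sep (h : ℕ → ℕ) : Prop :=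
  ∀ e, (0 ∈ Code.eval (Denumerable.ofNat Code e) e → h e = 1) ∧
    (1 ∈ Code.eval (Denumerable.ofNat Code e) e → h e = 0)

theorem not_sep_of_computable {h : ℕ → ℕ} (hh : Computable h) :
    ∃ e, ¬ ((0 ∈ Code.eval (Denumerable.ofNat Code e) e → h e = 1) ∧
      (1 ∈ Code.eval (Denumerable.ofNat Code e) e → h e = 0)) := by
  have h1 : Computable (fun x => if h x = 1 then 1 else 0) := by
    have := cIte (cEq hh (Computable.const 1)) (Computable.const (1 : ℕ)) (Computable.const 0)
    exact this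
  obtain ⟨c, hc⟩ := Code.exists_code.1 (Partrec.nat_iff.1 h1.partrec)
  refine ⟨Encodable.encode c, ?_⟩
  rw [Denumerable.ofNat_encode, hc]
  rintro ⟨h2, h3⟩
  by_cases e : h (Encodable.encode c) = 1
  · have := h3 (by simp [e])
    omega
  · exact e (h2 (by simp [e]))

theorem TT.use_restr {G : (ℕ → Bool) → ℕ → Bool} (hG : TT G) (n : ℕ) :
    ∃ N, ∀ X Y, Blum.restr X N = Blum.restr Y N → Blum.restr (G X) n = Blum.restr (G Y) n := by
  induction n with
  | zero => exact ⟨0, fun _ _ _ => rfl⟩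
  | succ n ih =>
    obtain ⟨N, hN⟩ := ih
    obtain ⟨M, hM⟩ := hG.use n
    refine ⟨max N M, fun X Y h => ?_⟩
    have h1 : Blum.restr X N = Blum.restr Y N := by
      rw [← restr_take X (le_max_left N M), h, restr_take Y (le_max_left N M)]
    have h2 : Blum.restr X M = Blum.restr Y M := by
      rw [← restr_take X (le_max_right N M), h, restr_take Y (le_max_right N M)]
    rw [restr_succ, restr_succ, hN X Y h1, hM X Y h2]

/-- a functional is forced not to compute a separation -/
theorem exists_pa (c : Cond) {F : (ℕ → Bool) → ℕ →. ℕ} (hF : IsFunctional F) :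
    ∃ c' : Cond, Ref c c' ∧ ((∃ m, ∀ X ∈ c'.C, ¬ (F X m).Dom) ∨
      (∃ g : ℕ → ℕ, Computable g ∧ ∀ X ∈ c'.C, ∀ m, ∃ y ∈ F X m, y ≤ g m)) ∧
      ∀ X ∈ c'.C, ∀ h : ℕ → ℕ, (∀ n, h n ∈ F X n) → ¬ Sep h := by
  obtain ⟨c₁, h₁, hd⟩ := exists_dom c hF
  rcases hd with ⟨m, hm⟩ | ⟨g, hgc, hg⟩
  · exact ⟨c₁, h₁, Or.inl ⟨m, hm⟩, fun X hX h hh _ => hm X hX (Part.dom_iff_mem.2 ⟨_, hh m⟩)⟩
  · obtain ⟨Ψ, hΨc, hΨ, hmono⟩ := exists_stage hF
    obtain ⟨a, ha⟩ := c₁.good.exists_path
    have hac := c₁.good.mem a ha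
    let Rs : ℕ → Bool := fun n => a n.unpair.2
    have hRc : Computable Rs := hac.comp (cUnp2 Computable.id)
    have hRm : Rs ∈ PathsW c₁.tr := by
      intro i
      have : (fun l => Rs (Nat.pair i l)) = a := by
        funext l
        show a (Nat.pair i l).unpair.2 = a l
        rw [Nat.unpair_pair]
      rw [this]; exact ha
    have hXc : Computable (c₁.G Rs) := c₁.tt.computable hRc
    have hXm : c₁.G Rs ∈ c₁.C := ⟨Rs, hRm, rfl⟩
    have hex : ∀ m, ∃ n, (Ψ (restr (c₁.G Rs) n) m).isSome = true := by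
      intro m
      obtain ⟨y, hy, _⟩ := hg _ hXm m
      obtain ⟨n, hn⟩ := (hΨ _ _ _).1 hy
      exact ⟨n, by rw [hn]; rfl⟩
    let hs : ℕ → ℕ := fun m => (Ψ (restr (c₁.G Rs) (Nat.find (hex m))) m).getD 0
    have hrc : Computable₂ (fun m n : ℕ => restr (c₁.G Rs) n) := by
      have a1 : Computable₂ (fun (_ : ℕ × ℕ) (i : ℕ) => c₁.G Rs i) := hXc.comp Computable.snd
      have := CL.list_map (cRange (Computable.snd (α := ℕ) (β := ℕ))) a1
      exact this
    have hfc : Computable (fun m => Nat.find (hex m)) := by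
      apply CL.find_comp
      have := Primrec.option_isSome.to_comp.comp (hΨc.comp hrc (Computable.fst (α := ℕ) (β := ℕ)))
      exact this
    have hsc : Computable hs := by
      have := Computable.option_getD (hΨc.comp (hrc.comp Computable.id hfc) Computable.id)
        (Computable.const 0)
      exact this
    obtain ⟨e, he⟩ := not_sep_of_computable hsc
    have hval : Ψ (restr (c₁.G Rs) (Nat.find (hex e))) e = some (hs e) := by
      obtain ⟨y, hy⟩ := Option.isSome_iff_exists.1 (Nat.find_spec (hex e))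
      show _ = some ((Ψ (restr (c₁.G Rs) (Nat.find (hex e))) e).getD 0)
      rw [hy]; rfl
    obtain ⟨U, hU⟩ := c₁.tt.use_restr (Nat.find (hex e))
    have hsub := (c₁.lock_ref Rs hRm U).sub
    refine ⟨c₁.lock Rs hRm U, h₁.trans ⟨_, _, c₁.lock_ref Rs hRm U⟩,
      Or.inr ⟨g, hgc, fun X hX => hg X (hsub hX)⟩, ?_⟩
    intro X hX h hh hsep
    obtain ⟨R, hR, rfl, hag⟩ := c₁.lock_C Rs hRm U hX
    have h1 : restr R U = restr Rs U := by
      apply restr_congr
      intro n hn
      have := hag n.unpair.1 (lt_of_le_of_lt (Nat.unpair_left_le n) hn) n.unpair.2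
      rwa [Nat.pair_unpair] at this
    have h2 := hU R Rs h1
    have h3 : hs e ∈ F (c₁.G R) e := (hΨ _ _ _).2 ⟨Nat.find (hex e), by rw [h2]; exact hval⟩
    have h4 : h e = hs e := Part.mem_unique (hh e) h3
    apply he
    rw [← h4]
    exact hsep e

/-! ### Strategies -/

/-- the `i`-th reading of the activated class -/
def Cond.odd (a : Cond) (X : ℕ → Bool) (i : ℕ) : ℕ → Bool := fun l => a.rd X i (2 * l + 1)

theorem exists_grow (a c : Cond) (h : Ref a c) (N : ℕ) :
    ∃ c', Ref c c' ∧ ∃ j ι, RefD a c' j ι ∧ N ≤ j 0 := by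
  induction N with
  | zero =>
    obtain ⟨j, ι, h⟩ := h
    exact ⟨c, Ref.refl c, j, ι, h, Nat.zero_le _⟩
  | succ N ih =>
    obtain ⟨c₁, h₁, j, ι, hj, hN⟩ := ih
    obtain ⟨q, hq⟩ := c₁.good.exists_path
    have hRm : (fun n : ℕ => q n.unpair.2) ∈ PathsW c₁.tr := by
      intro i
      have : (fun l => q (Nat.pair i l).unpair.2) = q := by
        funext l; rw [Nat.unpair_pair]
      show (fun l => q (Nat.pair i l).unpair.2) ∈ _
      rw [this]; exact hq
    have h2 := c₁.lock_ref _ hRm 1
    refine ⟨_, h₁.trans ⟨_, _, h2⟩, _, _, hj.trans h2, ?_⟩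
    show N + 1 ≤ j (0 + 1)
    have := hj.mono (Nat.lt_succ_self 0)
    have e : j (0 + 1) = j (Nat.succ 0) := rfl
    omega

theorem exists_strat (a c : Cond) (hac : Ref a c) {t P : List Bool → Bool}
    (ha : a.tr = joinT t P) (ht : ∃ q, q ∈ Paths t) (F : List (ℕ → Bool) → (ℕ → Bool))
    (hF : ∀ s, F s ∈ Paths P) (N : ℕ) :
    ∃ c', Ref c c' ∧ ∃ m, N ≤ m ∧ ∀ X ∈ c'.C, a.odd X m = F ((List.range m).map (a.odd X)) := by
  obtain ⟨c₁, h₁, j, ι, hj, hN⟩ := exists_grow a c hac N
  obtain ⟨X₀, hX₀⟩ := c₁.nonempty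
  obtain ⟨q₀, hq₀⟩ := ht
  have hf := hF ((List.range (j 0)).map (a.odd X₀))
  have hq : joinX q₀ (F ((List.range (j 0)).map (a.odd X₀))) ∈ Paths a.tr := by
    rw [ha]; exact joinX_mem hq₀ hf
  obtain ⟨q', hq', hl⟩ := hj.lift _ hq
  have hRm : (fun n : ℕ => q' n.unpair.2) ∈ PathsW c₁.tr := by
    intro i
    have : (fun l => q' (Nat.pair i l).unpair.2) = q' := by
      funext l; rw [Nat.unpair_pair]
    show (fun l => q' (Nat.pair i l).unpair.2) ∈ _
    rw [this]; exact hq'
  have h2 := c₁.lock_ref _ hRm 1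
  refine ⟨_, h₁.trans ⟨_, _, h2⟩, j 0, hN, ?_⟩
  intro X hX
  have hX1 : X ∈ c₁.C := h2.sub hX
  have h3 : (List.range (j 0)).map (a.odd X) = (List.range (j 0)).map (a.odd X₀) := by
    apply List.map_congr_left
    intro i hi
    funext l
    exact congrFun (hj.det X hX1 X₀ hX₀ 0 (fun i' hi' => absurd hi' (Nat.not_lt_zero _)) i
      (List.mem_range.1 hi)) _
  rw [h3]
  funext l
  show a.rd X (j 0) (2 * l + 1) = _
  rw [hj.col X hX1 0, c₁.lock_rd _ hRm 1 hX Nat.zero_lt_one]
  show q' (Nat.pair 0 (ι (2 * l + 1))).unpair.2 = _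
  rw [Nat.unpair_pair]
  show q' (ι (2 * l + 1)) = _
  rw [hl, joinX_odd]

/-! ### The generic sequence -/

theorem chain {C : Type} (R : C → C → Prop) (c₀ : C) (Q : ℕ → (ℕ → C) → C → Prop)
    (hQ : ∀ n (h h' : ℕ → C), (∀ i ≤ n, h i = h' i) → ∀ c, Q n h c → Q n h' c)
    (hstep : ∀ n (h : ℕ → C), (∀ i < n, R (h i) (h (i + 1)) ∧ Q i h (h (i + 1))) →
      ∃ c', R (h n) c' ∧ Q n h c') :
    ∃ h : ℕ → C, ∀ n, R (h n) (h (n + 1)) ∧ Q n h (h (n + 1)) := by
  let S : ℕ → Type := fun n => {h : ℕ → C // ∀ i < n, R (h i) (h (i + 1)) ∧ Q i h (h (i + 1))}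
  let nx : (n : ℕ) → S n → S (n + 1) := fun n h =>
    ⟨Function.update h.1 (n + 1) (hstep n h.1 h.2).choose, by
      have hc := (hstep n h.1 h.2).choose_spec
      generalize (hstep n h.1 h.2).choose = c' at hc
      have e : ∀ i ≤ n, h.1 i = Function.update h.1 (n + 1) c' i := by
        intro i hi
        rw [Function.update_of_ne (by omega)]
      intro i hi
      rcases Nat.lt_succ_iff_lt_or_eq.1 hi with h1 | h1
      · rw [← e i (by omega), ← e (i + 1) (by omega)]
        exact ⟨(h.2 i h1).1, hQ i h.1 _ (fun i' hi' => e i' (by omega)) _ (h.2 i h1).2⟩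
      · subst h1
        rw [← e i le_rfl, Function.update_self]
        exact ⟨hc.1, hQ i h.1 _ e _ hc.2⟩⟩
  let H : (n : ℕ) → S n := fun n => Nat.rec (motive := S) ⟨fun _ => c₀, fun i hi =>
    absurd hi (Nat.not_lt_zero _)⟩ nx n
  have hH : ∀ n i, i ≤ n → (H (n + 1)).1 i = (H n).1 i := by
    intro n i hi
    show Function.update (H n).1 (n + 1) _ i = _
    rw [Function.update_of_ne (by omega)]
  have hH2 : ∀ n i, i ≤ n → (H n).1 i = (H i).1 i := by
    intro n
    induction n with
    | zero => intro i hi; have : i = 0 := by omega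
              rw [this]
    | succ n ih =>
      intro i hi
      rcases Nat.lt_or_eq_of_le hi with h1 | h1
      · rw [hH n i (by omega), ih i (by omega)]
      · rw [h1]
  refine ⟨fun n => (H n).1 n, fun n => ?_⟩
  have h1 := (H (n + 1)).2 n (Nat.lt_succ_self n)
  have e : ∀ i ≤ n, (H (n + 1)).1 i = (H i).1 i := fun i hi => hH2 (n + 1) i (by omega)
  constructor
  · show R ((H n).1 n) ((H (n + 1)).1 (n + 1))
    rw [← e n le_rfl]; exact h1.1
  · exact hQ n _ _ e _ h1.2

theorem isOpen_of_use {S : Set (ℕ → Bool)} (n : ℕ)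
    (h : ∀ X Y, restr X n = restr Y n → X ∈ S → Y ∈ S) : IsOpen S := by
  rw [isOpen_iff_forall_mem_open]
  intro X hX
  refine ⟨Set.pi (Finset.range n : Set ℕ) (fun i => {X i}), ?_, ?_, ?_⟩
  · intro Y hY
    refine h X Y ?_ hX
    apply restr_congr
    intro i hi
    have := hY i (by simpa using hi)
    simpa using this.symm
  · exact isOpen_set_pi (Finset.finite_toSet _) (fun i _ => isOpen_discrete _)
  · intro i _; simp

theorem TT.continuous {G : (ℕ → Bool) → ℕ → Bool} (hG : TT G) : Continuous G := by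
  apply continuous_pi
  intro i
  obtain ⟨n, hn⟩ := hG.use i
  rw [continuous_discrete_rng]
  intro b
  apply isOpen_of_use n
  intro X Y hXY hX
  show G Y i = b
  rw [← hn X Y hXY]
  exact hX

theorem isClosed_PathsW (tr : List Bool → Bool) : IsClosed (PathsW tr) := by
  have h : PathsW tr = ⋂ i, ⋂ n, {R : ℕ → Bool | tr (restr (fun l => R (Nat.pair i l)) n) = true} := by
    ext R
    simp only [Set.mem_iInter]
    rfl
  rw [h]
  apply isClosed_iInter
  intro i
  apply isClosed_iInter
  intro n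
  rw [← isOpen_compl_iff]
  apply isOpen_of_use (Nat.pair i n)
  intro X Y hXY hX
  show ¬ (tr (restr (fun l => Y (Nat.pair i l)) n) = true)
  have : restr (fun l => Y (Nat.pair i l)) n = restr (fun l => X (Nat.pair i l)) n := by
    apply restr_congr
    intro l hl
    exact (restr_apply hXY (Nat.pair_lt_pair_right i hl)).symm
  rw [this]
  exact hX

theorem Cond.isCompact_C (c : Cond) : IsCompact c.C := by
  have h : c.C = c.G '' PathsW c.tr := rfl
  rw [h]
  exact (isClosed_PathsW c.tr).isCompact.image c.tt.continuous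

theorem cond_inter (c : ℕ → Cond) (h : ∀ n, Ref (c n) (c (n + 1))) : ∃ X, ∀ n, X ∈ (c n).C := by
  have h1 := IsCompact.nonempty_iInter_of_sequence_nonempty_isCompact_isClosed
    (fun n => (c n).C) (fun n => (h n).sub) (fun n => (c n).nonempty) (c 0).isCompact_C
    (fun n => (c n).isCompact_C.isClosed)
  obtain ⟨X, hX⟩ := h1
  exact ⟨X, fun n => Set.mem_iInter.1 hX n⟩

/-! ### The base condition -/

def constT (σ : List Bool) : Bool := decide (σ = List.replicate σ.length true) ||
  decide (σ = List.replicate σ.length false)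

theorem constT_paths (q : ℕ → Bool) : q ∈ Paths constT ↔ ∃ b, q = fun _ => b := by
  constructor
  · intro h
    refine ⟨q 0, ?_⟩
    funext n
    have := h (n + 1)
    simp only [constT, Bool.or_eq_true, decide_eq_true_eq, restr_length] at this
    have h0 := restr_getD q (Nat.succ_pos n)
    have hn := restr_getD q (Nat.lt_succ_self n)
    rcases this with h1 | h1
    · rw [h1] at h0 hn
      simp only [List.getElem?_replicate] at h0 hn
      simp at h0 hn
      rw [h0, hn]
    · rw [h1] at h0 hn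
      simp only [List.getElem?_replicate] at h0 hn
      simp at h0 hn
      rw [h0, hn]
  · rintro ⟨b, rfl⟩ n
    simp only [constT, Bool.or_eq_true, decide_eq_true_eq, restr_length]
    have : restr (fun _ => b) n = List.replicate n b := by
      simp [restr]
    rw [this]
    cases b
    · right; rfl
    · left; rfl

theorem replicate_restr (b : Bool) (n : ℕ) : List.replicate n b = restr (fun _ => b) n := by
  simp [restr]

theorem constT_iff (σ : List Bool) : constT σ = true ↔ ∃ b, σ = restr (fun _ => b) σ.length := by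
  simp only [constT, Bool.or_eq_true, decide_eq_true_eq, replicate_restr]
  constructor
  · rintro (h | h)
    · exact ⟨true, h⟩
    · exact ⟨false, h⟩
  · rintro ⟨b, h⟩
    cases b
    · exact Or.inr h
    · exact Or.inl h

theorem constT_good : Good constT where
  comp := by
    have h1 : ∀ b : Bool, Computable (fun σ : List Bool => List.replicate σ.length b) := by
      intro b
      have h2 : Computable₂ (fun (_ : List Bool) (_ : ℕ) => b) := Computable.const b
      have := CL.list_map (cRange (cLen (Computable.id (α := List Bool)))) h2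
      refine this.of_eq fun σ => ?_
      simp
    have := cOr (cEq Computable.id (h1 true)) (cEq Computable.id (h1 false))
    exact this
  nil := rfl
  pre := by
    intro σ b h
    rw [constT_iff] at h ⊢
    obtain ⟨b', h'⟩ := h
    refine ⟨b', eq_restr_of_prefix (n := (σ ++ [b]).length) ?_⟩
    rw [← h']
    exact List.prefix_append _ _
  prn := by
    intro σ h
    rw [constT_iff] at h
    obtain ⟨b, hb⟩ := h
    refine ⟨b, ?_⟩
    rw [constT_iff]
    refine ⟨b, ?_⟩
    rw [List.length_append]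
    show _ = restr (fun _ => b) (σ.length + 1)
    rw [restr_succ, ← hb]
  mem := by
    intro q hq
    obtain ⟨b, rfl⟩ := (constT_paths q).1 hq
    exact Computable.const b

def baseCond : Cond where
  tr := constT
  good := constT_good
  two := ⟨fun _ => false, (constT_paths _).2 ⟨false, rfl⟩, fun _ => true,
    (constT_paths _).2 ⟨true, rfl⟩, 0, rfl, rfl⟩
  G := fun R n => R (Nat.pair n 0)
  tt := TT.query (cPair Computable.id (Computable.const 0))
  pos := fun i _ => i
  cpos := Computable.fst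
  read := by
    intro R hR i l
    obtain ⟨b, hb⟩ := (constT_paths _).1 (hR i)
    show R (Nat.pair i 0) = R (Nat.pair i l)
    have h0 : R (Nat.pair i 0) = b := congrFun hb 0
    have hl : R (Nat.pair i l) = b := congrFun hb l
    rw [h0, hl]

end Pool.Agent.Helper344.SB
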