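import Mathlib
import Pool.Agent.Helper344.SBForce4

set_option autoImplicit false

namespace Pool.Agent.Helper344.SB

open Pool.Agent.Helper344.Blum
open Nat.Partrec (Code)

theorem IsFunctional.comp_arg {F : (ℕ → Bool) → ℕ →. ℕ} (hF : IsFunctional F) {f : ℕ → ℕ}
    (hf : Computable f) : IsFunctional (fun X x => F X (f x)) := by
  obtain ⟨W, hW, hWF⟩ := hF
  refine ⟨fun p => W (p.1, f p.2.1, p.2.2), ?_, fun X x y => hWF X (f x) y⟩
  have h1 : Computable (fun p : List Bool × ℕ × ℕ => (p.1, f p.2.1, p.2.2)) := by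
    have := (Computable.fst (α := List Bool) (β := ℕ × ℕ)).pair
      ((hf.comp (Computable.fst.comp Computable.snd)).pair (Computable.snd.comp Computable.snd))
    exact this
  have := Partrec.comp hW h1
  exact this

theorem functional_index {F : (ℕ → Bool) → ℕ →. ℕ} (hF : IsFunctional F) :
    ∃ e, ∀ X x, exφ e X x = F X x := by
  obtain ⟨s, _, hs⟩ := exAcceptable _ (IsFunctional.comp_arg hF (cUnp2 (γ := ℕ) Computable.id))
  refine ⟨s 0, fun X x => ?_⟩
  have := hs 0 X x
  simpa using this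

theorem functional_of_index (e : ℕ) : IsFunctional (exφ e) := by
  have := IsFunctional.comp_arg exφ_functional (cPair (γ := ℕ) (Computable.const e) Computable.id)
  simpa using this

theorem forcing {Θ : Type} [Countable Θ] (tr : Θ → List Bool → Bool) (hg : ∀ s, Good (tr s))
    (F : Θ → ℕ → List (ℕ → Bool) → (ℕ → Bool)) (hF : ∀ s k l, F s k l ∈ Paths (tr s)) :
    ∃ X : ℕ → Bool,
      (∀ s, ∃ pos : ℕ → ℕ → ℕ, Computable₂ pos ∧ (∀ i, (fun l => X (pos i l)) ∈ Paths (tr s)) ∧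
        ∀ k N, ∃ m, N ≤ m ∧
          (fun l => X (pos m l)) = F s k ((List.range m).map (fun i l => X (pos i l)))) ∧
      (∀ h, Reduces h X → ∃ g : ℕ → ℕ, Computable g ∧ ∀ n, h n ≤ g n) ∧
      (∀ h, Reduces h X → ¬ Sep h) := by
  obtain ⟨f, hf⟩ := exists_surjective_nat (Option Θ)
  let Q : ℕ → (ℕ → Cond) → Cond → Prop := fun n h c' =>
    (∀ s, f n.unpair.1 = some s → n.unpair.2 = 0 →
      ∃ t, (∃ q, q ∈ Paths t) ∧ c'.tr = joinT t (tr s)) ∧
    (∀ s r, f n.unpair.1 = some s → n.unpair.2 = r + 1 →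
      ∃ m, r.unpair.2 ≤ m ∧ ∀ X ∈ c'.C, (h (Nat.pair n.unpair.1 0 + 1)).odd X m =
        F s r.unpair.1 ((List.range m).map ((h (Nat.pair n.unpair.1 0 + 1)).odd X))) ∧
    ((∃ m, ∀ X ∈ c'.C, ¬ (exφ n X m).Dom) ∨
      (∃ g : ℕ → ℕ, Computable g ∧ ∀ X ∈ c'.C, ∀ m, ∃ y ∈ exφ n X m, y ≤ g m)) ∧
    (∀ X ∈ c'.C, ∀ h : ℕ → ℕ, (∀ k, h k ∈ exφ n X k) → ¬ Sep h)
  have hidx : ∀ n : ℕ, ∀ r, n.unpair.2 = r + 1 → Nat.pair n.unpair.1 0 + 1 ≤ n := by
    intro n r hr
    have h1 : Nat.pair n.unpair.1 0 < Nat.pair n.unpair.1 n.unpair.2 :=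
      Nat.pair_lt_pair_right _ (by omega)
    rw [Nat.pair_unpair] at h1
    exact h1
  have hA : ∀ n (h h' : ℕ → Cond), (∀ i ≤ n, h i = h' i) → ∀ c, Q n h c → Q n h' c := by
    intro n h h' hag c hc
    refine ⟨hc.1, ?_, hc.2.2⟩
    intro s r hs hr
    obtain ⟨m, hm, hm'⟩ := hc.2.1 s r hs hr
    refine ⟨m, hm, ?_⟩
    rw [← hag _ (hidx n r hr)]
    exact hm'
  have hB : ∀ n (h : ℕ → Cond), (∀ i < n, Ref (h i) (h (i + 1)) ∧ Q i h (h (i + 1))) →
      ∃ c', Ref (h n) c' ∧ Q n h c' := by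
    intro n h hch
    obtain ⟨c₁, h₁, hd, hp⟩ := exists_pa (h n) (functional_of_index n)
    have hpers : ∀ c', Ref c₁ c' → ((∃ m, ∀ X ∈ c'.C, ¬ (exφ n X m).Dom) ∨
        (∃ g : ℕ → ℕ, Computable g ∧ ∀ X ∈ c'.C, ∀ m, ∃ y ∈ exφ n X m, y ≤ g m)) ∧
        (∀ X ∈ c'.C, ∀ h : ℕ → ℕ, (∀ k, h k ∈ exφ n X k) → ¬ Sep h) := by
      intro c' hc'
      have hs := hc'.sub
      refine ⟨?_, fun X hX => hp X (hs hX)⟩
      rcases hd with ⟨m, hm⟩ | ⟨g, hg, hg'⟩
      · exact Or.inl ⟨m, fun X hX => hm X (hs hX)⟩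
      · exact Or.inr ⟨g, hg, fun X hX => hg' X (hs hX)⟩
    cases hfn : f n.unpair.1 with
    | none =>
      refine ⟨c₁, h₁, ?_, ?_, hpers c₁ (Ref.refl _)⟩
      · intro s hs; rw [hfn] at hs; exact absurd hs (by simp)
      · intro s r hs; rw [hfn] at hs; exact absurd hs (by simp)
    | some s =>
      cases hr : n.unpair.2 with
      | zero =>
        obtain ⟨c₂, h₂, htr⟩ := exists_act c₁ (hg s)
        refine ⟨c₂, h₁.trans h₂, ?_, ?_, hpers c₂ h₂⟩
        · intro s' hs' _
          rw [hfn] at hs'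
          cases hs'
          exact ⟨c₁.tr, c₁.good.exists_path, htr⟩
        · intro s' r hs' hr'
          rw [hr] at hr'; exact absurd hr' (by omega)
      | succ r =>
        have hle := hidx n r hr
        have hchain : ∀ m i, i ≤ m → m ≤ n → Ref (h i) (h m) := by
          intro m
          induction m with
          | zero => intro i hi _; have : i = 0 := by omega
                    rw [this]; exact Ref.refl _
          | succ m ih =>
            intro i hi hm
            rcases Nat.lt_or_eq_of_le hi with h3 | h3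
            · exact (ih i (by omega) (by omega)).trans (hch m (by omega)).1
            · rw [h3]; exact Ref.refl _
        have ha := hchain n _ hle le_rfl
        have hq := (hch (Nat.pair n.unpair.1 0) (by omega)).2.1 s
          (by rw [Nat.unpair_pair]; exact hfn) (by rw [Nat.unpair_pair])
        obtain ⟨t, ht, htr⟩ := hq
        obtain ⟨c₂, h₂, m, hm, hm'⟩ := exists_strat (h (Nat.pair n.unpair.1 0 + 1)) c₁
          (ha.trans h₁) htr ht (F s r.unpair.1) (hF s r.unpair.1) r.unpair.2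
        refine ⟨c₂, h₁.trans h₂, ?_, ?_, hpers c₂ h₂⟩
        · intro s' _ h0
          rw [hr] at h0; exact absurd h0 (by omega)
        · intro s' r' hs' hr'
          rw [hfn] at hs'
          cases hs'
          rw [hr] at hr'
          have : r' = r := by omega
          rw [this]
          exact ⟨m, hm, hm'⟩
  obtain ⟨h, hh⟩ := chain Ref baseCond Q hA hB
  · obtain ⟨X, hX⟩ := cond_inter h (fun n => (hh n).1)
    refine ⟨X, ?_, ?_, ?_⟩
    · intro s
      obtain ⟨i, hi⟩ := hf (some s)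
      have h1 := (hh (Nat.pair i 0)).2.1 s (by rw [Nat.unpair_pair]; exact hi)
        (by rw [Nat.unpair_pair])
      obtain ⟨t, ht, htr⟩ := h1
      refine ⟨fun i' l => (h (Nat.pair i 0 + 1)).pos i' (2 * l + 1), ?_, ?_, ?_⟩
      · have := (h (Nat.pair i 0 + 1)).cpos.comp (Computable.fst (α := ℕ) (β := ℕ))
          (cSucc (cMul2 Computable.snd))
        exact this
      · intro i'
        have h2 := (h (Nat.pair i 0 + 1)).rd_mem (hX _) i'
        rw [htr, joinT_paths] at h2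
        exact h2.2
      · intro k N
        have h2 := (hh (Nat.pair i (Nat.pair k N + 1))).2.2.1 s (Nat.pair k N)
          (by rw [Nat.unpair_pair]; exact hi) (by rw [Nat.unpair_pair])
        obtain ⟨m, hm, hm'⟩ := h2
        rw [Nat.unpair_pair] at hm hm'
        refine ⟨m, hm, ?_⟩
        have h3 := hm' X (hX _)
        simp only [Nat.unpair_pair] at h3
        exact h3
    · rintro g ⟨G, hG, hgG⟩
      obtain ⟨e, he⟩ := functional_index hG
      rcases (hh e).2.2.2.1 with ⟨m, hm⟩ | ⟨b, hb, hb'⟩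
      · exact absurd (Part.dom_iff_mem.2 ⟨_, by rw [he]; exact hgG m⟩) (hm X (hX _))
      · refine ⟨b, hb, fun n => ?_⟩
        obtain ⟨y, hy, hyb⟩ := hb' X (hX _) n
        rw [he] at hy
        rw [Part.mem_unique (hgG n) hy]
        exact hyb
    · rintro g ⟨G, hG, hgG⟩
      obtain ⟨e, he⟩ := functional_index hG
      exact (hh e).2.2.2.2 X (hX _) g (fun k => by rw [he]; exact hgG k)

end Pool.Agent.Helper344.SB
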