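import Mathlib
import Pool.Agent.Helper344.SBForce5

set_option autoImplicit false

namespace Pool.Agent.Helper344.SB

open Pool.Agent.Helper344.Blum
open Nat.Partrec (Code)

/-! ### Codes of formulas -/

theorem code_injective : ∀ φ ψ : Fm, code φ = code ψ → φ = ψ := by
  intro φ
  induction φ with
  | eq i j =>
    intro ψ h
    cases ψ <;> simp only [code] at h <;> try omega
    rename_i i' j'
    have h1 : Nat.pair i j = Nat.pair i' j' := by omega
    rw [Nat.pair_eq_pair] at h1
    rw [h1.1, h1.2]
  | rel e a =>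
    intro ψ h
    cases ψ <;> simp only [code] at h <;> try omega
    rename_i e' a'
    have h1 : Nat.pair e (Encodable.encode a) = Nat.pair e' (Encodable.encode a') := by omega
    rw [Nat.pair_eq_pair] at h1
    rw [h1.1, Encodable.encode_injective h1.2]
  | fn e a j =>
    intro ψ h
    cases ψ <;> simp only [code] at h <;> try omega
    rename_i e' a' j'
    have h1 : Nat.pair e (Nat.pair (Encodable.encode a) j) =
      Nat.pair e' (Nat.pair (Encodable.encode a') j') := by omega
    rw [Nat.pair_eq_pair, Nat.pair_eq_pair] at h1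
    rw [h1.1, Encodable.encode_injective h1.2.1, h1.2.2]
  | neg φ ih =>
    intro ψ h
    cases ψ <;> simp only [code] at h <;> try omega
    rename_i ψ
    rw [ih ψ (by omega)]
  | and φ φ' ih ih' =>
    intro ψ h
    cases ψ <;> simp only [code] at h <;> try omega
    rename_i ψ ψ'
    have h1 : Nat.pair (code φ) (code φ') = Nat.pair (code ψ) (code ψ') := by omega
    rw [Nat.pair_eq_pair] at h1
    rw [ih ψ h1.1, ih' ψ' h1.2]
  | ex i φ ih =>
    intro ψ h
    cases ψ <;> simp only [code] at h <;> try omega
    rename_i i' ψ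
    have h1 : Nat.pair i (code φ) = Nat.pair i' (code ψ) := by omega
    rw [Nat.pair_eq_pair] at h1
    rw [h1.1, ih ψ h1.2]

theorem code_surjective (n : ℕ) : ∃ φ, code φ = n := by
  induction n using Nat.strong_induction_on with
  | _ n ih =>
    have hn : n = 6 * (n / 6) + n % 6 := (Nat.div_add_mod n 6).symm
    have hlt : n % 6 < 6 := Nat.mod_lt _ (by norm_num)
    have h1 := Nat.unpair_left_le (n / 6)
    have h2 := Nat.unpair_right_le (n / 6)
    have hp : Nat.pair (n / 6).unpair.1 (n / 6).unpair.2 = n / 6 := Nat.pair_unpair _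
    generalize n / 6 = m at hn h1 h2 hp
    generalize n % 6 = r at hn hlt
    interval_cases r
    · exact ⟨.eq m.unpair.1 m.unpair.2, by rw [code, hp]; omega⟩
    · refine ⟨.rel m.unpair.1 (Denumerable.ofNat (List ℕ) m.unpair.2), ?_⟩
      rw [code, Denumerable.encode_ofNat, hp]; omega
    · have hp2 : Nat.pair m.unpair.2.unpair.1 m.unpair.2.unpair.2 = m.unpair.2 := Nat.pair_unpair _
      refine ⟨.fn m.unpair.1 (Denumerable.ofNat (List ℕ) m.unpair.2.unpair.1)
        m.unpair.2.unpair.2, ?_⟩
      rw [code, Denumerable.encode_ofNat, hp2, hp]; omega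
    · obtain ⟨φ, hφ⟩ := ih m (by omega)
      exact ⟨.neg φ, by rw [code, hφ]; omega⟩
    · obtain ⟨φ, hφ⟩ := ih m.unpair.1 (by omega)
      obtain ⟨ψ, hψ⟩ := ih m.unpair.2 (by omega)
      exact ⟨.and φ ψ, by rw [code, hφ, hψ, hp]; omega⟩
    · obtain ⟨φ, hφ⟩ := ih m.unpair.2 (by omega)
      exact ⟨.ex m.unpair.1 φ, by rw [code, hφ, hp]; omega⟩

/-- the formula with a given code -/
noncomputable def dec (n : ℕ) : Fm := (code_surjective n).choose

theorem code_dec (n : ℕ) : code (dec n) = n := (code_surjective n).choose_spec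

theorem dec_code (φ : Fm) : dec (code φ) = φ := code_injective _ _ (code_dec _)

theorem sat_congr {M : Type} (S : Str M) (φ : Fm) : ∀ v w : ℕ → M, (∀ i ∈ free φ, v i = w i) →
    (Sat S v φ ↔ Sat S w φ) := by
  induction φ with
  | eq i j =>
    intro v w h
    simp only [Sat, h i (by simp [free]), h j (by simp [free])]
  | rel e a =>
    intro v w h
    have : a.map v = a.map w := List.map_congr_left fun x hx => h x hx
    simp only [Sat, this]
  | fn e a j =>
    intro v w h
    have h1 : a.map v = a.map w := List.map_congr_left fun x hx => h x (Or.inl hx)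
    simp only [Sat, h1, h j (Or.inr rfl)]
  | neg φ ih =>
    intro v w h
    simp only [Sat, ih v w h]
  | and φ ψ ih ih' =>
    intro v w h
    simp only [Sat, ih v w (fun i hi => h i (Or.inl hi)), ih' v w (fun i hi => h i (Or.inr hi))]
  | ex i φ ih =>
    intro v w h
    simp only [Sat]
    apply exists_congr
    intro m
    apply ih
    intro j hj
    by_cases e : j = i
    · rw [e, Function.update_self, Function.update_self]
    · rw [Function.update_of_ne e, Function.update_of_ne e]
      exact h j ⟨hj, e⟩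

theorem le_encode_list (a : List ℕ) : ∀ x ∈ a, x ≤ Encodable.encode a := by
  induction a with
  | nil => intro x hx; exact absurd hx (by simp)
  | cons b l ih =>
    intro x hx
    rw [Encodable.encode_list_cons]
    rcases List.mem_cons.1 hx with h | h
    · rw [h]
      have h1 : b ≤ Nat.pair b (Encodable.encode l) := Nat.left_le_pair _ _
      exact le_trans h1 (Nat.le_succ _)
    · have h1 : Encodable.encode l ≤ Nat.pair (Encodable.encode b) (Encodable.encode l) :=
        Nat.right_le_pair _ _
      exact le_trans (ih x h) (le_trans h1 (Nat.le_succ _))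

theorem free_le_code (φ : Fm) : ∀ i ∈ free φ, i ≤ code φ := by
  induction φ with
  | eq i j =>
    intro x hx
    have h1 := Nat.left_le_pair i j
    have h2 := Nat.right_le_pair i j
    simp only [free, Set.mem_insert_iff, Set.mem_singleton_iff] at hx
    rcases hx with h | h <;> rw [code] <;> omega
  | rel e a =>
    intro x hx
    have h1 := le_encode_list a x hx
    have h2 := Nat.right_le_pair e (Encodable.encode a)
    rw [code]; omega
  | fn e a j =>
    intro x hx
    have h2 := Nat.right_le_pair e (Nat.pair (Encodable.encode a) j)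
    have h3 := Nat.right_le_pair (Encodable.encode a) j
    have h4 := Nat.left_le_pair (Encodable.encode a) j
    rw [code]
    rcases hx with h | h
    · have h1 := le_encode_list a x h
      omega
    · omega
  | neg φ ih => intro x hx; have := ih x hx; rw [code]; omega
  | and φ ψ ih ih' =>
    intro x hx
    have h1 := Nat.left_le_pair (code φ) (code ψ)
    have h2 := Nat.right_le_pair (code φ) (code ψ)
    rw [code]
    rcases hx with h | h
    · have := ih x h; omega
    · have := ih' x h; omega
  | ex i φ ih =>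
    intro x hx
    have h2 := Nat.right_le_pair i (code φ)
    have := ih x hx.1
    rw [code]; omega

/-! ### Auxiliary formulas -/

def top : Fm := .ex 0 (.eq 0 0)

theorem sat_top {M : Type} (S : Str M) (v : ℕ → M) : Sat S v top := ⟨v 0, rfl⟩

theorem wf_top (L : Lang) : WF L top := trivial

theorem free_top : free top = ∅ := by
  simp [top, free]

def andN (k : ℕ) (f : ℕ → Fm) : Fm :=
  Nat.rec (motive := fun _ => Fm) top (fun i φ => .and φ (f i)) k

theorem andN_succ (k : ℕ) (f : ℕ → Fm) : andN (k + 1) f = .and (andN k f) (f k) := rfl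

theorem sat_andN {M : Type} (S : Str M) (v : ℕ → M) (k : ℕ) (f : ℕ → Fm) :
    Sat S v (andN k f) ↔ ∀ i < k, Sat S v (f i) := by
  induction k with
  | zero => simp only [Nat.not_lt_zero, false_imp_iff, implies_true, iff_true]; exact sat_top S v
  | succ k ih =>
    rw [andN_succ, Sat, ih]
    constructor
    · rintro ⟨h1, h2⟩ i hi
      rcases Nat.lt_succ_iff_lt_or_eq.1 hi with h | h
      · exact h1 i h
      · rw [h]; exact h2
    · intro h
      exact ⟨fun i hi => h i (by omega), h k (by omega)⟩

theorem wf_andN (L : Lang) (k : ℕ) (f : ℕ → Fm) : WF L (andN k f) ↔ ∀ i < k, WF L (f i) := by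
  induction k with
  | zero => simp only [Nat.not_lt_zero, false_imp_iff, implies_true, iff_true]; exact wf_top L
  | succ k ih =>
    rw [andN_succ, WF, ih]
    constructor
    · rintro ⟨h1, h2⟩ i hi
      rcases Nat.lt_succ_iff_lt_or_eq.1 hi with h | h
      · exact h1 i h
      · rw [h]; exact h2
    · intro h
      exact ⟨fun i hi => h i (by omega), h k (by omega)⟩

theorem free_andN (k : ℕ) (f : ℕ → Fm) (A : Set ℕ) (h : ∀ i < k, free (f i) ⊆ A) :
    free (andN k f) ⊆ A := by
  induction k with
  | zero => 
    show free top ⊆ A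
    rw [free_top]; exact Set.empty_subset _
  | succ k ih =>
    rw [andN_succ, free]
    exact Set.union_subset (ih fun i hi => h i (by omega)) (h k (by omega))

/-- quantification over the variables `B, …, B + k - 1` -/
def exR (B k : ℕ) (ψ : Fm) : Fm := Nat.rec (motive := fun _ => Fm) ψ (fun i φ => .ex (B + i) φ) k

theorem exR_succ (B k : ℕ) (ψ : Fm) : exR B (k + 1) ψ = .ex (B + k) (exR B k ψ) := rfl

theorem sat_exR {M : Type} (S : Str M) (B k : ℕ) (ψ : Fm) : ∀ w : ℕ → M, Sat S w (exR B k ψ) ↔
    ∃ w' : ℕ → M, (∀ i, ¬ (B ≤ i ∧ i < B + k) → w' i = w i) ∧ Sat S w' ψ := by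
  induction k with
  | zero =>
    intro w
    constructor
    · intro h; exact ⟨w, fun _ _ => rfl, h⟩
    · rintro ⟨w', h1, h2⟩
      have : w' = w := by funext i; exact h1 i (by omega)
      rw [← this]; exact h2
  | succ k ih =>
    intro w
    rw [exR_succ, Sat]
    constructor
    · rintro ⟨a, ha⟩
      obtain ⟨w', h1, h2⟩ := (ih _).1 ha
      refine ⟨w', fun i hi => ?_, h2⟩
      rw [h1 i (by omega), Function.update_of_ne (by omega)]
    · rintro ⟨w', h1, h2⟩
      refine ⟨w' (B + k), (ih _).2 ⟨w', fun i hi => ?_, h2⟩⟩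
      by_cases e : i = B + k
      · rw [e, Function.update_self]
      · rw [Function.update_of_ne e]
        exact h1 i (by omega)

theorem wf_exR (L : Lang) (B k : ℕ) (ψ : Fm) : WF L (exR B k ψ) ↔ WF L ψ := by
  induction k with
  | zero => rfl
  | succ k ih => rw [exR_succ, WF, ih]

theorem free_exR (B k : ℕ) (ψ : Fm) : free (exR B k ψ) = {i | i ∈ free ψ ∧ ¬ (B ≤ i ∧ i < B + k)} := by
  induction k with
  | zero =>
    ext i
    show i ∈ free ψ ↔ i ∈ free ψ ∧ _
    constructor
    · intro h; exact ⟨h, by omega⟩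
    · intro h; exact h.1
  | succ k ih =>
    rw [exR_succ, free, ih]
    ext i
    simp only [Set.mem_sdiff, Set.mem_ofPred_eq, Set.mem_singleton_iff]
    constructor
    · rintro ⟨⟨h1, h2⟩, h3⟩
      exact ⟨h1, by omega⟩
    · rintro ⟨h1, h2⟩
      exact ⟨⟨h1, by omega⟩, by omega⟩

/-! ### Renaming of variables -/

/-- `φ` with the variables renamed by `v`; `k` bounds the free variables of `φ` and `B` bounds
`k` and the values of `v` below `k` -/
def ren (B k : ℕ) (v : ℕ → ℕ) (φ : Fm) : Fm :=
  exR B k (.and (andN k (fun i => .eq (B + i) (v i)))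
    (exR 0 k (.and (andN k (fun i => .eq i (B + i))) φ)))

theorem sat_ren {M : Type} (S : Str M) {B k : ℕ} {v : ℕ → ℕ} {φ : Fm}
    (hk : ∀ i ∈ free φ, i < k) (hkB : k ≤ B) (hv : ∀ i < k, v i < B) (w : ℕ → M) :
    Sat S w (ren B k v φ) ↔ Sat S (fun i => w (v i)) φ := by
  rw [ren, sat_exR]
  simp only [Sat, sat_andN, sat_exR]
  constructor
  · rintro ⟨w', h1, h2, w'', h3, h4, h5⟩
    refine (sat_congr S φ _ _ fun i hi => ?_).1 h5
    have hik := hk i hi
    have hvi := hv i hik
    rw [h4 i hik, h3 (B + i) (by omega), h2 i hik, h1 (v i) (by omega)]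
  · intro h
    let w' : ℕ → M := fun i => if B ≤ i ∧ i < B + k then w (v (i - B)) else w i
    let w'' : ℕ → M := fun i => if i < k then w (v i) else w' i
    refine ⟨w', fun i hi => by simp only [w', if_neg hi], ?_, w'', ?_, ?_, ?_⟩
    · intro i hi
      have hvi := hv i hi
      have e : B + i - B = i := by omega
      simp only [w']
      rw [if_pos (by omega), if_neg (by omega), e]
    · intro i hi
      simp only [w'']
      rw [if_neg (by omega)]
    · intro i hi
      have e : B + i - B = i := by omega
      simp only [w'', w']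
      rw [if_pos hi, if_neg (by omega), if_pos (by omega), e]
    · refine (sat_congr S φ _ _ fun i hi => ?_).1 h
      simp only [w'']
      rw [if_pos (hk i hi)]

theorem wf_ren {L : Lang} {φ : Fm} (h : WF L φ) (B k : ℕ) (v : ℕ → ℕ) : WF L (ren B k v φ) := by
  rw [ren, wf_exR]
  refine ⟨?_, ?_⟩
  · rw [wf_andN]; intro i _; exact trivial
  · rw [wf_exR]
    refine ⟨?_, h⟩
    rw [wf_andN]; intro i _; exact trivial

theorem free_ren {B k : ℕ} {v : ℕ → ℕ} {φ : Fm} (hk : ∀ i ∈ free φ, i < k) (hkB : k ≤ B) :
    ∀ i ∈ free (ren B k v φ), ∃ j < k, i = v j := by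
  intro i hi
  rw [ren, free_exR] at hi
  obtain ⟨h1, h2⟩ := hi
  rcases h1 with h1 | h1
  · have h3 : free (andN k (fun i => .eq (B + i) (v i))) ⊆
        {i | (B ≤ i ∧ i < B + k) ∨ ∃ j < k, i = v j} := by
      apply free_andN
      intro j hj x hx
      simp only [free, Set.mem_insert_iff, Set.mem_singleton_iff] at hx
      rcases hx with hx | hx
      · exact Or.inl (by omega)
      · exact Or.inr ⟨j, hj, hx⟩
    rcases h3 h1 with h4 | h4
    · exact absurd h4 h2
    · exact h4
  · rw [free_exR] at h1
    obtain ⟨h1, h3⟩ := h1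
    rcases h1 with h1 | h1
    · have h4 : free (andN k (fun i => .eq i (B + i))) ⊆
          {i | (B ≤ i ∧ i < B + k) ∨ i < k} := by
        apply free_andN
        intro j hj x hx
        simp only [free, Set.mem_insert_iff, Set.mem_singleton_iff] at hx
        rcases hx with hx | hx
        · exact Or.inr (by omega)
        · exact Or.inl (by omega)
      rcases h4 h1 with h5 | h5
      · exact absurd h5 h2
      · exact absurd (by omega : 0 ≤ i ∧ i < 0 + k) h3
    · have := hk i h1
      exact absurd (by omega : 0 ≤ i ∧ i < 0 + k) h3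

/-- existence of renamed formulas -/
theorem exists_ren (φ : Fm) (v : ℕ → ℕ) : ∃ φ' : Fm, (∀ L, WF L φ → WF L φ') ∧
    (∀ i ∈ free φ', ∃ j ≤ code φ, i = v j) ∧
    ∀ (M : Type) (S : Str M) (w : ℕ → M), Sat S w φ' ↔ Sat S (fun i => w (v i)) φ := by
  have hk : ∀ i ∈ free φ, i < code φ + 1 := fun i hi => Nat.lt_succ_of_le (free_le_code φ i hi)
  obtain ⟨B, hB⟩ : ∃ B, code φ + 1 ≤ B ∧ ∀ i < code φ + 1, v i < B := by
    refine ⟨(code φ + 1) + (Finset.range (code φ + 1)).sum v + 1, by omega, fun i hi => ?_⟩
    have : v i ≤ (Finset.range (code φ + 1)).sum v :=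
      Finset.single_le_sum (f := v) (fun j _ => Nat.zero_le _) (Finset.mem_range.2 hi)
    omega
  refine ⟨ren B (code φ + 1) v φ, fun L h => wf_ren h _ _ _, ?_, fun M S w =>
    sat_ren S hk hB.1 hB.2 w⟩
  intro i hi
  obtain ⟨j, hj, h⟩ := free_ren hk hB.1 i hi
  exact ⟨j, by omega, h⟩

end Pool.Agent.Helper344.SB
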