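import Mathlib
import Pool.Agent.Helper344.SBModel1

set_option autoImplicit false

namespace Pool.Agent.Helper344.SB

open Pool.Agent.Helper344.Blum
open Nat.Partrec (Code)
open Filter

/-- formulas in the variables `x_0, …, x_(n-1)` -/
def Ok (L : Lang) (n : ℕ) (φ : Fm) : Prop := WF L φ ∧ ∀ i ∈ free φ, i < n

theorem Ok.mono {L : Lang} {m n : ℕ} {φ : Fm} (h : Ok L m φ) (hmn : m ≤ n) : Ok L n φ :=
  ⟨h.1, fun i hi => lt_of_lt_of_le (h.2 i hi) hmn⟩

section
variable (L : Lang) {M : Type} (S : Str M)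

open Classical in
/-- the literal of the `t`-th formula with bit `b` -/
noncomputable def lit (n t : ℕ) (b : Bool) : Fm :=
  if Ok L n (dec t) then (if b = true then dec t else .neg (dec t))
  else (if b = true then .neg top else top)

theorem sat_lit (n t : ℕ) (b : Bool) (v : ℕ → M) : Sat S v (lit L n t b) ↔
    (b = true ↔ Ok L n (dec t) ∧ Sat S v (dec t)) := by
  rw [lit]
  by_cases h : Ok L n (dec t)
  · rw [if_pos h]
    cases b <;> simp [h, Sat]
  · rw [if_neg h]
    have := sat_top S v
    cases b <;> simp [h, Sat, this]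

theorem ok_lit (n t : ℕ) (b : Bool) : Ok L n (lit L n t b) := by
  have ht : Ok L n top := ⟨wf_top L, fun i hi => by rw [free_top] at hi; exact absurd hi (by simp)⟩
  have hn : ∀ φ, Ok L n φ → Ok L n (.neg φ) := fun φ h => ⟨h.1, h.2⟩
  rw [lit]
  by_cases h : Ok L n (dec t)
  · rw [if_pos h]
    by_cases hb : b = true
    · rw [if_pos hb]; exact h
    · rw [if_neg hb]; exact hn _ h
  · rw [if_neg h]
    by_cases hb : b = true
    · rw [if_pos hb]; exact hn _ ht
    · rw [if_neg hb]; exact ht

noncomputable def dl (n : ℕ) (ρ : List Bool) : Fm :=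
  andN ρ.length (fun t => lit L n t ((ρ[t]?).getD false))

theorem sat_dl (n : ℕ) (ρ : List Bool) (v : ℕ → M) : Sat S v (dl L n ρ) ↔
    ∀ t < ρ.length, ((ρ[t]?).getD false = true ↔ Ok L n (dec t) ∧ Sat S v (dec t)) := by
  rw [dl, sat_andN]
  simp only [sat_lit]

theorem sat_dl_restr (n : ℕ) (X : ℕ → Bool) (N : ℕ) (v : ℕ → M) :
    Sat S v (dl L n (restr X N)) ↔
    ∀ t < N, (X t = true ↔ Ok L n (dec t) ∧ Sat S v (dec t)) := by
  rw [sat_dl, restr_length]
  refine forall_congr' fun t => ?_
  refine forall_congr' fun ht => ?_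
  rw [restr_getD X ht]

theorem ok_dl (n : ℕ) (ρ : List Bool) : Ok L n (dl L n ρ) := by
  constructor
  · rw [dl, wf_andN]
    intro i _
    exact (ok_lit L n i _).1
  · have : free (dl L n ρ) ⊆ {i | i < n} := by
      apply free_andN
      intro i _
      exact (ok_lit L n i _).2
    exact this

def dsF (m n : ℕ) : Fm := andN n (fun i => .neg (.eq m i))

theorem sat_dsF (m n : ℕ) (v : ℕ → M) : Sat S v (dsF m n) ↔ ∀ i < n, v m ≠ v i := by
  rw [dsF, sat_andN]
  rfl

theorem ok_dsF (m n k : ℕ) (hm : m < k) (hn : n ≤ k) : Ok L k (dsF m n) := by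
  constructor
  · rw [dsF, wf_andN]
    intro i _
    exact trivial
  · have : free (dsF m n) ⊆ {i | i < k} := by
      apply free_andN
      intro i hi x hx
      simp only [free, Set.mem_insert_iff, Set.mem_singleton_iff] at hx
      show x < k
      omega
    exact this

/-- there is a new element `x_m` satisfying the literals `ρ` -/
noncomputable def chk (m : ℕ) (ρ : List Bool) : Fm := .ex m (.and (dsF m m) (dl L (m + 1) ρ))

theorem sat_chk (m : ℕ) (ρ : List Bool) (v : ℕ → M) : Sat S v (chk L m ρ) ↔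
    ∃ a, (∀ i < m, a ≠ v i) ∧ ∀ t < ρ.length, ((ρ[t]?).getD false = true ↔
      Ok L (m + 1) (dec t) ∧ Sat S (Function.update v m a) (dec t)) := by
  rw [chk, Sat]
  apply exists_congr
  intro a
  rw [Sat, sat_dsF, sat_dl]
  apply and_congr_left'
  refine forall_congr' fun i => ?_
  refine forall_congr' fun hi => ?_
  rw [Function.update_self, Function.update_of_ne (by omega)]

theorem ok_chk (m : ℕ) (ρ : List Bool) : Ok L m (chk L m ρ) := by
  have h1 := ok_dsF L m m (m + 1) (by omega) (by omega)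
  have h2 := ok_dl L (m + 1) ρ
  refine ⟨⟨h1.1, h2.1⟩, ?_⟩
  intro i hi
  obtain ⟨h3, h4⟩ := hi
  have h5 : i < m + 1 := by
    rcases h3 with h3 | h3
    · exact h1.2 i h3
    · exact h2.2 i h3
  have h6 : i ≠ m := h4
  omega

/-- `D` is (the characteristic function of) a complete `m`-type with distinct variables -/
def Ty (m : ℕ) (D : ℕ → Bool) : Prop := ∀ N, ∃ v : ℕ → M, (∀ i < m, ∀ j < i, v i ≠ v j) ∧
  ∀ t < N, (D t = true ↔ Ok L m (dec t) ∧ Sat S v (dec t))

variable {L S}

theorem Ty.ok {m : ℕ} {D : ℕ → Bool} (h : Ty L S m D) {φ : Fm} (hφ : D (code φ) = true) :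
    Ok L m φ := by
  obtain ⟨v, _, hv⟩ := h (code φ + 1)
  have := ((hv (code φ) (Nat.lt_succ_self _)).1 hφ).1
  rwa [dec_code] at this

/-- a realization of a type up to finitely many formulas -/
theorem Ty.real {m : ℕ} {D : ℕ → Bool} (h : Ty L S m D) (N : ℕ) : ∃ v : ℕ → M,
    (∀ i < m, ∀ j < i, v i ≠ v j) ∧ (∀ t < N, (D t = true ↔ Ok L m (dec t) ∧ Sat S v (dec t))) ∧
    (∀ φ, code φ < N → Ok L m φ → (D (code φ) = true ↔ Sat S v φ)) := by
  obtain ⟨v, h1, h2⟩ := h N
  refine ⟨v, h1, h2, fun φ hφ hok => ?_⟩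
  have := h2 (code φ) hφ
  rw [dec_code] at this
  rw [this]
  exact ⟨fun h => h.2, fun h => ⟨hok, h⟩⟩

end

/-! ### The next type -/

section
variable (L : Lang) {M : Type} (S : Str M)

noncomputable def gr (m : ℕ) (D E : ℕ → Bool) (n : ℕ) : List Bool :=
  Nat.rec (motive := fun _ => List Bool) [] (fun t ρ => ρ ++
    [if D (code (chk L m (ρ ++ [E (m + 2 + t)]))) = true then E (m + 2 + t)
      else !E (m + 2 + t)]) n

theorem gr_succ (m : ℕ) (D E : ℕ → Bool) (t : ℕ) : gr L m D E (t + 1) = gr L m D E t ++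
    [if D (code (chk L m (gr L m D E t ++ [E (m + 2 + t)]))) = true then E (m + 2 + t)
      else !E (m + 2 + t)] := rfl

theorem gr_length (m : ℕ) (D E : ℕ → Bool) (n : ℕ) : (gr L m D E n).length = n := by
  induction n with
  | zero => rfl
  | succ n ih => rw [gr_succ, List.length_append, ih]; rfl

noncomputable def nextD (m : ℕ) (D E : ℕ → Bool) (t : ℕ) : Bool :=
  ((gr L m D E (t + 1))[t]?).getD false

theorem restr_nextD (m : ℕ) (D E : ℕ → Bool) (n : ℕ) :
    restr (nextD L m D E) n = gr L m D E n := by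
  induction n with
  | zero => rfl
  | succ n ih =>
    rw [restr_succ, ih, nextD, gr_succ, List.getElem?_append_right (by rw [gr_length]), gr_length]
    simp

variable {L S}

theorem gr_chk [Infinite M] {m : ℕ} {D : ℕ → Bool} (hD : Ty L S m D) (E : ℕ → Bool) (n : ℕ) :
    D (code (chk L m (gr L m D E n))) = true := by
  classical
  induction n with
  | zero =>
    obtain ⟨v, h1, _, h3⟩ := hD.real (code (chk L m (gr L m D E 0)) + 1)
    rw [h3 _ (Nat.lt_succ_self _) (ok_chk L m _), sat_chk]
    obtain ⟨a, ha⟩ := Infinite.exists_notMem_finset ((Finset.range m).image v)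
    refine ⟨a, fun i hi e => ha ?_, fun t ht => absurd ht (Nat.not_lt_zero _)⟩
    rw [e]
    exact Finset.mem_image_of_mem v (Finset.mem_range.2 hi)
  | succ n ih =>
    rw [gr_succ]
    generalize gr L m D E n = ρ at ih
    by_cases hb : D (code (chk L m (ρ ++ [E (m + 2 + n)]))) = true
    · rw [if_pos hb]; exact hb
    · rw [if_neg hb]
      have key : ∀ b : Bool, b = false ∨ b = true := by intro b; cases b <;> simp
      obtain ⟨v, h1, _, h3⟩ := hD.real (code (chk L m ρ) + code (chk L m (ρ ++ [true])) +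
        code (chk L m (ρ ++ [false])) + 1)
      rw [h3 _ (by omega) (ok_chk L m _), sat_chk] at ih
      obtain ⟨a, ha, ha'⟩ := ih
      -- the right bit
      have hbit : ∃ c : Bool, D (code (chk L m (ρ ++ [c]))) = true := by
        refine ⟨decide (Ok L (m + 1) (dec ρ.length) ∧
          Sat S (Function.update v m a) (dec ρ.length)), ?_⟩
        generalize hc : decide (Ok L (m + 1) (dec ρ.length) ∧
          Sat S (Function.update v m a) (dec ρ.length)) = c
        have hlt : code (chk L m (ρ ++ [c])) < code (chk L m ρ) + code (chk L m (ρ ++ [true])) +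
            code (chk L m (ρ ++ [false])) + 1 := by
          rcases key c with h | h
          · subst h; omega
          · subst h; omega
        rw [h3 _ hlt (ok_chk L m _), sat_chk]
        refine ⟨a, ha, fun t ht => ?_⟩
        rw [List.length_append] at ht
        have ht' : t < ρ.length + 1 := ht
        rcases Nat.lt_succ_iff_lt_or_eq.1 ht' with h | h
        · rw [List.getElem?_append_left h]
          exact ha' t h
        · subst h
          rw [List.getElem?_append_right le_rfl]
          simp only [Nat.sub_self, List.getElem?_cons_zero, Option.getD_some]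
          rw [← hc]
          simp
      obtain ⟨c, hc⟩ := hbit
      have h4 : c = !E (m + 2 + n) := by
        rcases key c with h | h <;> rcases key (E (m + 2 + n)) with h' | h'
        · have e : c = E (m + 2 + n) := by rw [h, h']
          rw [e] at hc; exact absurd hc hb
        · rw [h, h']; rfl
        · rw [h, h']; rfl
        · have e : c = E (m + 2 + n) := by rw [h, h']
          rw [e] at hc; exact absurd hc hb
      rw [← h4]
      exact hc

theorem sat_update_of_ok {k : ℕ} {φ : Fm} (h : Ok L k φ) (v : ℕ → M) {m : ℕ} (hm : k ≤ m) (a : M) :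
    Sat S (Function.update v m a) φ ↔ Sat S v φ := by
  apply sat_congr
  intro i hi
  have := h.2 i hi
  rw [Function.update_of_ne (by omega)]

theorem nextD_ty [Infinite M] {m : ℕ} {D : ℕ → Bool} (hD : Ty L S m D) (E : ℕ → Bool) :
    Ty L S (m + 1) (nextD L m D E) ∧
      ∀ φ, Ok L m φ → (nextD L m D E (code φ) = true ↔ D (code φ) = true) := by
  have key : ∀ N N', ∃ v : ℕ → M, ∃ a, (∀ i < m, ∀ j < i, v i ≠ v j) ∧ (∀ i < m, a ≠ v i) ∧
      (∀ t < N, (nextD L m D E t = true ↔ Ok L (m + 1) (dec t) ∧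
        Sat S (Function.update v m a) (dec t))) ∧
      (∀ φ, code φ < N' → Ok L m φ → (D (code φ) = true ↔ Sat S v φ)) := by
    intro N N'
    obtain ⟨v, h1, _, h3⟩ := hD.real (code (chk L m (gr L m D E N)) + N' + 1)
    have h4 := gr_chk hD E N
    rw [h3 _ (by omega) (ok_chk L m _), ← restr_nextD, sat_chk, restr_length] at h4
    obtain ⟨a, ha, ha'⟩ := h4
    refine ⟨v, a, h1, ha, fun t ht => ?_, fun φ hφ hok => h3 φ (by omega) hok⟩
    rw [← ha' t ht, restr_getD _ ht]
  constructor
  · intro N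
    obtain ⟨v, a, h1, h2, h3, _⟩ := key N 0
    refine ⟨Function.update v m a, ?_, h3⟩
    intro i hi j hj
    rw [Function.update_of_ne (by omega : j ≠ m)]
    rcases Nat.lt_succ_iff_lt_or_eq.1 hi with h | h
    · rw [Function.update_of_ne (by omega)]
      exact h1 i h j hj
    · rw [h, Function.update_self]
      exact h2 j (by omega)
  · intro φ hφ
    obtain ⟨v, a, h1, h2, h3, h4⟩ := key (code φ + 1) (code φ + 1)
    rw [h3 _ (Nat.lt_succ_self _), h4 φ (Nat.lt_succ_self _) hφ, dec_code,
      sat_update_of_ok hφ v le_rfl a]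
    exact ⟨fun h => h.2, fun h => ⟨hφ.mono (Nat.le_succ m), h⟩⟩

theorem nextD_eq {m : ℕ} {D q E : ℕ → Bool} (hq : Ty L S (m + 1) q)
    (hex : ∀ φ, Ok L m φ → (q (code φ) = true ↔ D (code φ) = true))
    (hE : ∀ t, E (m + 2 + t) = q t) : nextD L m D E = q := by
  apply restr_injective
  intro n
  rw [restr_nextD]
  induction n with
  | zero => rfl
  | succ n ih =>
    rw [gr_succ, ih, hE, ← restr_succ]
    have h1 : D (code (chk L m (restr q (n + 1)))) = true := by
      rw [← hex _ (ok_chk L m _)]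
      obtain ⟨v, h1, h2, h3⟩ := hq.real (code (chk L m (restr q (n + 1))) + n + 2)
      rw [h3 _ (by omega) ((ok_chk L m _).mono (Nat.le_succ m)), sat_chk, restr_length]
      refine ⟨v m, fun i hi => h1 m (by omega) i hi, fun t ht => ?_⟩
      rw [restr_getD q ht, Function.update_eq_self]
      exact h2 t (by omega)
    rw [if_pos h1, ← restr_succ]

/-- the sequence of types -/
noncomputable def DD (L : Lang) (T : ℕ → Bool) (E : ℕ → ℕ → Bool) (m : ℕ) : ℕ → Bool :=
  Nat.rec (motive := fun _ => ℕ → Bool) T (fun m D => nextD L m D (E m)) m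

theorem DD_succ (T : ℕ → Bool) (E : ℕ → ℕ → Bool) (m : ℕ) :
    DD L T E (m + 1) = nextD L m (DD L T E m) (E m) := rfl

theorem DD_congr (T : ℕ → Bool) {E E' : ℕ → ℕ → Bool} (m : ℕ) (h : ∀ i < m, E i = E' i) :
    DD L T E m = DD L T E' m := by
  induction m with
  | zero => rfl
  | succ m ih => rw [DD_succ, DD_succ, ih (fun i hi => h i (by omega)), h m (by omega)]

section
variable [Infinite M] {T : ℕ → Bool} (hT : Ty L S 0 T) (E : ℕ → ℕ → Bool)
include hT

theorem DD_ty (m : ℕ) : Ty L S m (DD L T E m) := by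
  induction m with
  | zero => exact hT
  | succ m ih => exact (nextD_ty ih (E m)).1

theorem DD_ext {m n : ℕ} (h : m ≤ n) (φ : Fm) (hφ : Ok L m φ) :
    DD L T E n (code φ) = true ↔ DD L T E m (code φ) = true := by
  induction n with
  | zero => have : m = 0 := by omega
            rw [this]
  | succ n ih =>
    rcases Nat.lt_or_eq_of_le h with h1 | h1
    · rw [DD_succ, (nextD_ty (DD_ty hT E n) (E n)).2 φ (hφ.mono (by omega))]
      exact ih (by omega)
    · rw [h1]

end

/-! ### Limit types -/

theorem lim_ty (u : ℕ → ℕ → M) (k : ℕ)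
    (hu : ∀ i < k, ∀ j < i, ∀ᶠ m in (hyperfilter ℕ : Filter ℕ), u m i ≠ u m j) :
    ∃ q : ℕ → Bool, Ty L S k q ∧
      ∀ φ, Ok L k φ → (q (code φ) = true ↔ ∀ᶠ m in (hyperfilter ℕ : Filter ℕ), Sat S (u m) φ) := by
  classical
  refine ⟨fun t => decide (Ok L k (dec t) ∧
    ∀ᶠ m in (hyperfilter ℕ : Filter ℕ), Sat S (u m) (dec t)), ?_, ?_⟩
  · intro N
    have h1 : ∀ᶠ m in (hyperfilter ℕ : Filter ℕ), ∀ i < k, ∀ j < i, u m i ≠ u m j := by
      have : ∀ᶠ m in (hyperfilter ℕ : Filter ℕ), ∀ i ∈ Finset.range k, ∀ j ∈ Finset.range i,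
          u m i ≠ u m j := by
        rw [Filter.eventually_all_finset]
        intro i hi
        rw [Filter.eventually_all_finset]
        intro j hj
        exact hu i (Finset.mem_range.1 hi) j (Finset.mem_range.1 hj)
      filter_upwards [this] with m hm i hi j hj
      exact hm i (Finset.mem_range.2 hi) j (Finset.mem_range.2 hj)
    have h2 : ∀ᶠ m in (hyperfilter ℕ : Filter ℕ), ∀ t ∈ Finset.range N,
        ((decide (Ok L k (dec t) ∧ ∀ᶠ m in (hyperfilter ℕ : Filter ℕ),
          Sat S (u m) (dec t)) = true) ↔ Ok L k (dec t) ∧ Sat S (u m) (dec t)) := by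
      rw [Filter.eventually_all_finset]
      intro t _
      by_cases ho : Ok L k (dec t)
      · by_cases hs : ∀ᶠ m in (hyperfilter ℕ : Filter ℕ), Sat S (u m) (dec t)
        · filter_upwards [hs] with m hm
          simp [ho, hs, hm]
        · have hs' := Ultrafilter.eventually_not.2 hs
          filter_upwards [hs'] with m hm
          simp [ho, hs, hm]
      · exact Filter.Eventually.of_forall fun m => by simp [ho]
    obtain ⟨m, hm1, hm2⟩ := (h1.and h2).exists
    exact ⟨u m, hm1, fun t ht => hm2 t (Finset.mem_range.2 ht)⟩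
  · intro φ hφ
    simp only [dec_code, decide_eq_true_eq]
    exact ⟨fun h => h.2, fun h => ⟨hφ, h⟩⟩

end

end Pool.Agent.Helper344.SB
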