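import Mathlib
import Pool.Agent.Helper344.SBModel2

set_option autoImplicit false

namespace Pool.Agent.Helper344.SB

open Pool.Agent.Helper344.Blum
open Nat.Partrec (Code)
open Filter

/-! ### Renaming one variable -/

noncomputable def rn (v : ℕ → ℕ) (φ : Fm) : Fm := (exists_ren φ v).choose

theorem wf_rn {L : Lang} {φ : Fm} (h : WF L φ) (v : ℕ → ℕ) : WF L (rn v φ) :=
  (exists_ren φ v).choose_spec.1 L h

theorem free_rn (v : ℕ → ℕ) (φ : Fm) : ∀ i ∈ free (rn v φ), ∃ j ≤ code φ, i = v j :=
  (exists_ren φ v).choose_spec.2.1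

theorem sat_rn {M : Type} (S : Str M) (v : ℕ → ℕ) (φ : Fm) (w : ℕ → M) :
    Sat S w (rn v φ) ↔ Sat S (fun i => w (v i)) φ :=
  (exists_ren φ v).choose_spec.2.2 M S w

/-- rename `x_n` to `x_c` in a formula in the variables `x_0, …, x_n` -/
noncomputable def rr (n c : ℕ) (φ : Fm) : Fm := rn (fun j => if j < n then j else c) φ

theorem sat_rr {L : Lang} {M : Type} (S : Str M) {n c : ℕ} {φ : Fm} (h : Ok L (n + 1) φ)
    (w : ℕ → M) : Sat S w (rr n c φ) ↔ Sat S (Function.update w n (w c)) φ := by
  rw [rr, sat_rn]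
  apply sat_congr
  intro i hi
  have hi' := h.2 i hi
  rcases Nat.lt_succ_iff_lt_or_eq.1 hi' with e | e
  · rw [if_pos e, Function.update_of_ne (by omega)]
  · rw [e, if_neg (by omega), Function.update_self]

theorem ok_rr {L : Lang} {n c K : ℕ} {φ : Fm} (h : WF L φ) (hn : n ≤ K) (hc : c < K) :
    Ok L K (rr n c φ) := by
  refine ⟨wf_rn h _, fun i hi => ?_⟩
  obtain ⟨j, _, hj⟩ := free_rn _ φ i hi
  rw [hj]
  split_ifs with e
  · omega
  · exact hc

/-- code of a type of arity `n` -/
def encP (n : ℕ) (q : ℕ → Bool) (t : ℕ) : Bool :=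
  if t < n then false else if t = n then true else q (t - n - 1)

theorem encP_add (m : ℕ) (q : ℕ → Bool) (t : ℕ) : encP (m + 1) q (m + 2 + t) = q t := by
  rw [encP, if_neg (by omega), if_neg (by omega)]
  congr 1
  omega

section
variable {L : Lang} {M : Type} {S : Str M} [Infinite M] {T : ℕ → Bool} (hT : Ty L S 0 T)

/-- amalgamation of types -/
theorem amalgam (E : ℕ → ℕ → Bool) {n m : ℕ} (hnm : n ≤ m) {q : ℕ → Bool} (hq : Ty L S (n + 1) q)
    (hT : Ty L S 0 T)
    (hex : ∀ φ, Ok L n φ → (q (code φ) = true ↔ DD L T E n (code φ) = true))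
    (hno : ∀ c < m, ∃ χ, Ok L (n + 1) χ ∧ q (code χ) = true ∧
      ¬ DD L T E m (code (rr n c χ)) = true) :
    ∃ q' : ℕ → Bool, Ty L S (m + 1) q' ∧
      (∀ φ, Ok L m φ → (q' (code φ) = true ↔ DD L T E m (code φ) = true)) ∧
      (∀ χ, Ok L (n + 1) χ → q (code χ) = true → q' (code (rr n m χ)) = true) := by
  have hD := DD_ty hT E m
  have hno' : ∃ χ : ℕ → Fm, ∀ c, Ok L (n + 1) (χ c) ∧ q (code (χ c)) = true ∧
      (c < m → ¬ DD L T E m (code (rr n c (χ c))) = true) := by
    have htop : Ok L (n + 1) top :=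
      ⟨wf_top L, fun i hi => by rw [free_top] at hi; exact absurd hi (by simp)⟩
    have hqt : q (code top) = true := by
      obtain ⟨v, _, _, h3⟩ := hq.real (code top + 1)
      exact (h3 _ (Nat.lt_succ_self _) htop).2 (sat_top S v)
    have : ∀ c, ∃ χ, Ok L (n + 1) χ ∧ q (code χ) = true ∧
        (c < m → ¬ DD L T E m (code (rr n c χ)) = true) := by
      intro c
      by_cases hc : c < m
      · obtain ⟨χ, h1, h2, h3⟩ := hno c hc
        exact ⟨χ, h1, h2, fun _ => h3⟩
      · exact ⟨top, htop, hqt, fun h => absurd h hc⟩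
    choose χ hχ using this
    exact ⟨χ, hχ⟩
  obtain ⟨χ, hχ⟩ := hno'
  have key : ∀ N, ∃ v : ℕ → M, ∃ b : M, (∀ i < m, ∀ j < i, v i ≠ v j) ∧ (∀ c < m, b ≠ v c) ∧
      (∀ φ, code φ < N → Ok L m φ → (DD L T E m (code φ) = true ↔ Sat S v φ)) ∧
      (∀ t < N, (q t = true ↔ Ok L (n + 1) (dec t) ∧
        Sat S (Function.update v n b) (dec t))) := by
    intro N
    let Θ : Fm := .ex n (.and (dl L (n + 1) (restr q N)) (andN m χ))
    have hΘ : Ok L n Θ := by
      have h1 := ok_dl L (n + 1) (restr q N)
      refine ⟨⟨h1.1, (wf_andN L m χ).2 fun c _ => (hχ c).1.1⟩, ?_⟩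
      intro i hi
      obtain ⟨h3, h4⟩ := hi
      have h6 : i ≠ n := h4
      have h5 : i < n + 1 := by
        rcases h3 with h3 | h3
        · exact h1.2 i h3
        · have : free (andN m χ) ⊆ {i | i < n + 1} :=
            free_andN m χ _ fun c _ => (hχ c).1.2
          exact this h3
      omega
    have hqΘ : q (code Θ) = true := by
      obtain ⟨v, _, h2, h3⟩ := hq.real (code Θ + N +
        (Finset.range m).sum (fun c => code (χ c)) + 1)
      rw [h3 _ (by omega) (hΘ.mono (Nat.le_succ n))]
      refine ⟨v n, ?_⟩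
      rw [Function.update_eq_self, Sat, sat_dl_restr, sat_andN]
      refine ⟨fun t ht => h2 t (by omega), fun c hc => ?_⟩
      have hle : code (χ c) ≤ (Finset.range m).sum (fun c => code (χ c)) :=
        Finset.single_le_sum (f := fun c => code (χ c)) (fun j _ => Nat.zero_le _)
          (Finset.mem_range.2 hc)
      exact (h3 (χ c) (by omega) (hχ c).1).1 (hχ c).2.1
    have hDΘ : DD L T E m (code Θ) = true := by
      rw [DD_ext hT E hnm Θ hΘ, ← hex Θ hΘ]; exact hqΘ
    obtain ⟨v, h1, _, h3⟩ := hD.real (code Θ + N +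
      (Finset.range m).sum (fun c => code (rr n c (χ c))) + 1)
    rw [h3 Θ (by omega) (hΘ.mono hnm)] at hDΘ
    obtain ⟨b, hb⟩ := hDΘ
    rw [Sat, sat_dl_restr, sat_andN] at hb
    refine ⟨v, b, h1, ?_, fun φ hφ hok => h3 φ (by omega) hok, hb.1⟩
    intro c hc e
    have hle : code (rr n c (χ c)) ≤ (Finset.range m).sum (fun c => code (rr n c (χ c))) :=
      Finset.single_le_sum (f := fun c => code (rr n c (χ c))) (fun j _ => Nat.zero_le _)
        (Finset.mem_range.2 hc)
    apply (hχ c).2.2 hc
    rw [h3 _ (by omega) (ok_rr (hχ c).1.1 hnm hc), sat_rr S (hχ c).1, ← e]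
    exact hb.2 c hc
  choose v b hv hb hvD hvq using key
  obtain ⟨q', hq', hlim⟩ := lim_ty (L := L) (S := S) (fun N => Function.update (v N) m (b N))
    (m + 1) (by
      intro i hi j hj
      refine Filter.Eventually.of_forall fun N => ?_
      show Function.update (v N) m (b N) i ≠ Function.update (v N) m (b N) j
      rw [Function.update_of_ne (by omega : j ≠ m)]
      rcases Nat.lt_succ_iff_lt_or_eq.1 hi with h | h
      · rw [Function.update_of_ne (by omega)]
        exact hv N i h j hj
      · rw [h, Function.update_self]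
        exact hb N j (by omega))
  have hev : ∀ k : ℕ, ∀ᶠ N in (hyperfilter ℕ : Filter ℕ), k < N := fun k =>
    Nat.hyperfilter_le_atTop (Filter.eventually_gt_atTop k)
  refine ⟨q', hq', ?_, ?_⟩
  · intro φ hφ
    rw [hlim φ (hφ.mono (Nat.le_succ m))]
    constructor
    · intro h
      obtain ⟨N, h1, h2⟩ := (h.and (hev (code φ))).exists
      rw [hvD N φ h2 hφ, ← sat_update_of_ok hφ (v N) le_rfl (b N)]
      exact h1
    · intro h
      filter_upwards [hev (code φ)] with N hN
      rw [sat_update_of_ok hφ (v N) le_rfl (b N), ← hvD N φ hN hφ]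
      exact h
  · intro χ' hχ' hqχ'
    rw [hlim _ (ok_rr hχ'.1 (by omega) (Nat.lt_succ_self m))]
    filter_upwards [hev (code χ')] with N hN
    rw [sat_rr S hχ', Function.update_self]
    have h1 := (hvq N (code χ') hN).1 hqχ'
    rw [dec_code] at h1
    refine (sat_congr S χ' _ _ fun i hi => ?_).1 h1.2
    have hi' := hχ'.2 i hi
    by_cases e : i = n
    · rw [e, Function.update_self, Function.update_self]
    · rw [Function.update_of_ne e, Function.update_of_ne e, Function.update_of_ne (by omega)]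

open Classical in
/-- the strategy for the type `q` over `x_0, …, x_(n-1)` -/
noncomputable def stratF (L : Lang) {M : Type} (S : Str M) (T : ℕ → Bool) (n : ℕ) (q : ℕ → Bool)
    (s : List (ℕ → Bool)) : ℕ → Bool :=
  if h : ∃ q' : ℕ → Bool, Ty L S (s.length + 1) q' ∧
      (∀ φ, Ok L s.length φ → (q' (code φ) = true ↔
        DD L T (fun i => (s[i]?).getD (fun _ => false)) s.length (code φ) = true)) ∧
      (∀ χ, Ok L (n + 1) χ → q (code χ) = true → q' (code (rr n s.length χ)) = true)
  then encP (s.length + 1) h.choose else fun _ => false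

/-- the key saturation property of the sequence of types -/
theorem sat_star (hT : Ty L S 0 T) (E : ℕ → ℕ → Bool)
    (hE : ∀ n q, Ty L S (n + 1) q → ∃ m, n ≤ m ∧
      E m = stratF L S T n q ((List.range m).map E))
    (n : ℕ) (q : ℕ → Bool) (hq : Ty L S (n + 1) q)
    (hex : ∀ φ, Ok L n φ → (q (code φ) = true ↔ DD L T E n (code φ) = true)) :
    ∃ c, ∀ χ, Ok L (n + 1) χ → q (code χ) = true → ∃ K, Ok L K (rr n c χ) ∧
      DD L T E K (code (rr n c χ)) = true := by
  obtain ⟨m, hnm, hm⟩ := hE n q hq
  by_cases hr : ∃ c < m, ∀ χ, Ok L (n + 1) χ → q (code χ) = true →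
      DD L T E m (code (rr n c χ)) = true
  · obtain ⟨c, hc, h⟩ := hr
    exact ⟨c, fun χ hχ hqχ => ⟨m, ok_rr hχ.1 hnm hc, h χ hχ hqχ⟩⟩
  · push Not at hr
    have hno : ∀ c < m, ∃ χ, Ok L (n + 1) χ ∧ q (code χ) = true ∧
        ¬ DD L T E m (code (rr n c χ)) = true := by
      intro c hc
      obtain ⟨χ, h1, h2, h3⟩ := hr c hc
      exact ⟨χ, h1, h2, by simpa using h3⟩
    have hlen : ((List.range m).map E).length = m := by simp
    have hDD : DD L T (fun i => (((List.range m).map E)[i]?).getD (fun _ => false)) m =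
        DD L T E m := by
      apply DD_congr
      intro i hi
      simp [hi]
    have hA := amalgam E hnm hq hT hex hno
    rw [stratF, hlen, hDD, dif_pos hA] at hm
    have hs := hA.choose_spec
    generalize hA.choose = q' at hm hs
    refine ⟨m, fun χ hχ hqχ => ⟨m + 1, ok_rr hχ.1 (by omega) (Nat.lt_succ_self m), ?_⟩⟩
    have h1 : DD L T E (m + 1) = q' := by
      rw [DD_succ]
      apply nextD_eq hs.1 hs.2.1
      intro t
      rw [hm, encP_add]
    rw [h1]
    exact hs.2.2 χ hχ hqχ

end

/-! ### The limit of the types and the realizing sequence -/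

/-- the data of the construction: the realizing sequence `w` of the types -/
structure Dat (L : Lang) {M : Type} (S : Str M) (D : ℕ → Bool) (w : ℕ → ℕ → M) : Prop where
  real : ∀ φ, WF L φ → ∀ m, code φ < m → (Sat S (w m) φ ↔ D (code φ) = true)
  dist : ∀ i j : ℕ, i ≠ j → ∀ m, i < m → j < m → w m i ≠ w m j
  sat : ∀ (n : ℕ) (q : ℕ → Bool), Ty L S (n + 1) q →
    (∀ φ, Ok L n φ → (q (code φ) = true ↔ D (code φ) = true)) →
    ∃ c, ∀ χ, Ok L (n + 1) χ → q (code χ) = true → D (code (rr n c χ)) = true

/-- the limit of the types -/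
noncomputable def Dinf (L : Lang) (T : ℕ → Bool) (E : ℕ → ℕ → Bool) (t : ℕ) : Bool :=
  DD L T E (t + 1) t

theorem exists_dat {L : Lang} {M : Type} {S : Str M} [Infinite M] {T : ℕ → Bool}
    (hT : Ty L S 0 T) (E : ℕ → ℕ → Bool)
    (hE : ∀ n q, Ty L S (n + 1) q → ∃ m, n ≤ m ∧
      E m = stratF L S T n q ((List.range m).map E)) :
    ∃ w, Dat L S (Dinf L T E) w := by
  have hok : ∀ φ, WF L φ → Ok L (code φ + 1) φ := fun φ h =>
    ⟨h, fun i hi => Nat.lt_succ_of_le (free_le_code φ i hi)⟩
  have hD : ∀ φ k, Ok L k φ → (DD L T E k (code φ) = true ↔ Dinf L T E (code φ) = true) := by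
    intro φ k hk
    rcases le_total k (code φ + 1) with h | h
    · exact (DD_ext hT E h φ hk).symm
    · exact DD_ext hT E h φ (hok φ hk.1)
  have h1 : ∀ m, ∃ v : ℕ → M, (∀ i < m, ∀ j < i, v i ≠ v j) ∧
      (∀ t < m, (DD L T E m t = true ↔ Ok L m (dec t) ∧ Sat S v (dec t))) ∧
      (∀ φ, code φ < m → Ok L m φ → (DD L T E m (code φ) = true ↔ Sat S v φ)) :=
    fun m => (DD_ty hT E m).real m
  choose w hw1 hw2 hw3 using h1
  refine ⟨w, ?_, ?_, ?_⟩
  · intro φ hφ m hm
    have h2 := (hok φ hφ).mono (by omega : code φ + 1 ≤ m)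
    rw [← hw3 m φ hm h2]
    exact hD φ m h2
  · intro i j hij m hi hj
    rcases Nat.lt_or_gt_of_ne hij with h | h
    · exact (hw1 m j hj i h).symm
    · exact hw1 m i hi j h
  · intro n q hq hex
    obtain ⟨c, hc⟩ := sat_star hT E hE n q hq (fun φ hφ => (hex φ hφ).trans (hD φ n hφ).symm)
    refine ⟨c, fun χ hχ hqχ => ?_⟩
    obtain ⟨K, hK, hK'⟩ := hc χ hχ hqχ
    exact (hD _ K hK).1 hK'

section
variable {L : Lang} {M : Type} {S : Str M} {D : ℕ → Bool} {w : ℕ → ℕ → M}

theorem Dat.ev (h : Dat L S D w) {φ : Fm} (hφ : WF L φ) :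
    ∀ᶠ m in atTop, (Sat S (w m) φ ↔ D (code φ) = true) := by
  filter_upwards [Filter.eventually_gt_atTop (code φ)] with m hm
  exact h.real φ hφ m hm

theorem Dat.ev_iff (h : Dat L S D w) {φ : Fm} (hφ : WF L φ) :
    (∀ᶠ m in atTop, Sat S (w m) φ) ↔ D (code φ) = true := by
  constructor
  · intro h1
    obtain ⟨m, h2, h3⟩ := (h1.and (h.ev hφ)).exists
    exact h3.1 h2
  · intro h1
    filter_upwards [h.ev hφ] with m hm
    exact hm.2 h1

theorem Dat.decd (h : Dat L S D w) {φ : Fm} (hφ : WF L φ) (v : ℕ → ℕ) :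
    (∀ᶠ m in atTop, Sat S (fun i => w m (v i)) φ) ∨
    (∀ᶠ m in atTop, ¬ Sat S (fun i => w m (v i)) φ) := by
  have h1 := h.ev (wf_rn hφ v)
  by_cases h2 : D (code (rn v φ)) = true
  · left
    filter_upwards [h1] with m hm
    rw [← sat_rn]
    exact hm.2 h2
  · right
    filter_upwards [h1] with m hm
    rw [← sat_rn]
    exact fun h3 => h2 (hm.1 h3)

/-- realizing the limit of types of new elements -/
theorem Dat.gen (h : Dat L S D w) (K : ℕ) (r : ℕ → ℕ) (hr : ∀ N, N ≤ r N) (b : ℕ → M)
    (hb : ∀ i < K, ∀ᶠ N in atTop, b N ≠ w (r N) i) :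
    ∃ c, ∀ χ, Ok L (K + 1) χ →
      (∀ᶠ N in atTop, Sat S (Function.update (w (r N)) K (b N)) χ) →
      ∀ᶠ m in atTop, Sat S (Function.update (w m) K (w m c)) χ := by
  have hle := Nat.hyperfilter_le_atTop
  obtain ⟨q, hq, hlim⟩ := lim_ty (L := L) (S := S)
    (fun N => Function.update (w (r N)) K (b N)) (K + 1) (by
      intro i hi j hj
      rcases Nat.lt_succ_iff_lt_or_eq.1 hi with h1 | h1
      · filter_upwards [hle (Filter.eventually_gt_atTop i)] with N hN
        rw [Function.update_of_ne (by omega), Function.update_of_ne (by omega)]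
        have := hr N
        exact h.dist i j (by omega) (r N) (by omega) (by omega)
      · filter_upwards [hle (hb j (by omega))] with N hN
        rw [h1, Function.update_self, Function.update_of_ne (by omega)]
        exact hN)
  have hev : ∀ φ, Ok L K φ → ∀ᶠ N in (hyperfilter ℕ : Filter ℕ),
      (Sat S (Function.update (w (r N)) K (b N)) φ ↔ D (code φ) = true) := by
    intro φ hφ
    filter_upwards [hle (Filter.eventually_gt_atTop (code φ))] with N hN
    have := hr N
    rw [sat_update_of_ok hφ _ le_rfl, h.real φ hφ.1 (r N) (by omega)]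
  obtain ⟨c, hc⟩ := h.sat K q hq (by
    intro φ hφ
    rw [hlim φ (hφ.mono (Nat.le_succ K))]
    constructor
    · intro h1
      obtain ⟨N, h2, h3⟩ := (h1.and (hev φ hφ)).exists
      exact h3.1 h2
    · intro h1
      filter_upwards [hev φ hφ] with N hN
      exact hN.2 h1)
  refine ⟨c, fun χ hχ hN => ?_⟩
  have h1 := hc χ hχ ((hlim χ hχ).2 (hle hN))
  have h2 := (h.ev_iff (φ := rr K c χ) (wf_rn hχ.1 _)).2 h1
  filter_upwards [h2] with m hm
  rw [← sat_rr S hχ]
  exact hm

/-- the Henkin property -/
theorem Dat.henkin (h : Dat L S D w) {φ : Fm} (hφ : WF L φ) (v : ℕ → ℕ) (i : ℕ)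
    (hex : ∀ᶠ m in atTop, ∃ a, Sat S (Function.update (fun j => w m (v j)) i a) φ) :
    ∃ c, ∀ᶠ m in atTop, Sat S (Function.update (fun j => w m (v j)) i (w m c)) φ := by
  obtain ⟨K, hK⟩ : ∃ K, ∀ j ≤ code φ, v j < K := by
    refine ⟨(Finset.range (code φ + 1)).sum v + 1, fun j hj => ?_⟩
    have : v j ≤ (Finset.range (code φ + 1)).sum v :=
      Finset.single_le_sum (f := v) (fun j _ => Nat.zero_le _) (Finset.mem_range.2 (by omega))
    omega
  by_cases hc : ∃ c < K, ∀ᶠ m in atTop, Sat S (Function.update (fun j => w m (v j)) i (w m c)) φ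
  · obtain ⟨c, _, hc⟩ := hc
    exact ⟨c, hc⟩
  have hcn : ∀ c < K, ¬ ∀ᶠ m in atTop,
      Sat S (Function.update (fun j => w m (v j)) i (w m c)) φ := fun c h1 h2 => hc ⟨c, h1, h2⟩
  have hne : ∀ c < K, ∀ᶠ m in atTop, ¬ Sat S (Function.update (fun j => w m (v j)) i (w m c)) φ := by
    intro c hcK
    have e : ∀ m, (fun j => w m (Function.update v i c j)) =
        Function.update (fun j => w m (v j)) i (w m c) := by
      intro m
      funext j
      by_cases e : j = i
      · rw [e, Function.update_self, Function.update_self]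
      · rw [Function.update_of_ne e, Function.update_of_ne e]
    have h1 := h.decd hφ (Function.update v i c)
    simp only [e] at h1
    rcases h1 with h1 | h1
    · exact absurd h1 (hcn c hcK)
    · exact h1
  have hM : Nonempty M := ⟨w 0 0⟩
  have hb : ∃ b : ℕ → M, ∀ᶠ m in atTop, Sat S (Function.update (fun j => w m (v j)) i (b m)) φ := by
    classical
    refine ⟨fun m => if h : ∃ a, Sat S (Function.update (fun j => w m (v j)) i a) φ
      then h.choose else w 0 0, ?_⟩
    filter_upwards [hex] with m hm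
    rw [dif_pos hm]
    exact hm.choose_spec
  obtain ⟨b, hb⟩ := hb
  let v' : ℕ → ℕ := fun j => if j = i then K else if j ≤ code φ then v j else 0
  have hv' : ∀ j, v' j < K + 1 := by
    intro j
    simp only [v']
    split_ifs with h1 h2
    · omega
    · have := hK j h2; omega
    · omega
  have hok : Ok L (K + 1) (rn v' φ) := by
    refine ⟨wf_rn hφ _, fun x hx => ?_⟩
    obtain ⟨j, _, hj⟩ := free_rn v' φ x hx
    rw [hj]; exact hv' j
  have hsat : ∀ (m : ℕ) (a : M), Sat S (Function.update (w m) K a) (rn v' φ) ↔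
      Sat S (Function.update (fun j => w m (v j)) i a) φ := by
    intro m a
    rw [sat_rn]
    apply sat_congr
    intro j hj
    have hj' := free_le_code φ j hj
    by_cases e : j = i
    · simp only [v', e, if_true, Function.update_self]
    · simp only [v', if_neg e, if_pos hj']
      rw [Function.update_of_ne e, Function.update_of_ne (by have := hK j hj'; omega)]
  obtain ⟨c, hc'⟩ := h.gen K id (fun N => le_rfl) b (by
    intro c hcK
    filter_upwards [hb, hne c hcK] with m h1 h2 e
    simp only [id] at e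
    rw [e] at h1
    exact h2 h1)
  refine ⟨c, ?_⟩
  have h1 := hc' (rn v' φ) hok (by
    filter_upwards [hb] with m hm
    exact (hsat m (b m)).2 hm)
  filter_upwards [h1] with m hm
  exact (hsat m (w m c)).1 hm

/-! ### The model -/

open Classical in
/-- the model with domain `ℕ` -/
noncomputable def Nst (S : Str M) (w : ℕ → ℕ → M) : Str ℕ where
  rel := fun e a => ∀ᶠ m in atTop, S.rel e (a.map (w m))
  fn := fun e a => if h : ∃ j, ∀ᶠ m in atTop, S.fn e (a.map (w m)) = w m j then h.choose else 0

theorem Dat.inj (h : Dat L S D w) {i j : ℕ} (hij : ∃ᶠ m in atTop, w m i = w m j) : i = j := by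
  by_contra e
  apply hij
  filter_upwards [Filter.eventually_gt_atTop (i + j)] with m hm
  exact h.dist i j e m (by omega) (by omega)

/-- the truth lemma -/
theorem Dat.truth (h : Dat L S D w) (φ : Fm) : ∀ (v : ℕ → ℕ), WF L φ →
    (Sat (Nst S w) v φ ↔ ∀ᶠ m in atTop, Sat S (fun i => w m (v i)) φ) := by
  induction φ with
  | eq i j =>
    intro v _
    simp only [Sat]
    constructor
    · intro e; rw [e]; exact Filter.Eventually.of_forall fun m => rfl
    · intro e; exact h.inj e.frequently
  | rel e a =>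
    intro v _
    simp only [Sat, Nst, List.map_map]
    rfl
  | fn e a j =>
    intro v hwf
    have hx : ∃ b, ∀ᶠ m in atTop, S.fn e ((a.map v).map (w m)) = w m b := by
      -- apply the Henkin property to the formula `f(a) = x_k` with `k` new
      obtain ⟨k, hk⟩ : ∃ k, ∀ x ∈ a, x < k := by
        refine ⟨Encodable.encode a + 1, fun x hx => ?_⟩
        have := le_encode_list a x hx
        omega
      have hm : ∀ (m : ℕ) (b : M), a.map (Function.update (fun j => w m (v j)) k b) =
          (a.map v).map (w m) := by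
        intro m b
        rw [List.map_map]
        apply List.map_congr_left
        intro x hx
        have := hk x hx
        rw [Function.update_of_ne (by omega)]
        rfl
      have h1 := h.henkin (φ := .fn e a k) hwf v k (by
        refine Filter.Eventually.of_forall fun m => ⟨S.fn e ((a.map v).map (w m)), ?_⟩
        rw [Sat, hm, Function.update_self])
      obtain ⟨c, hc⟩ := h1
      refine ⟨c, ?_⟩
      filter_upwards [hc] with m hm'
      rw [Sat, hm, Function.update_self] at hm'
      exact hm'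
    have hN : (Nst S w).fn e (a.map v) = hx.choose := by
      simp only [Nst]
      rw [dif_pos hx]
    simp only [Sat]
    rw [hN]
    have hs := hx.choose_spec
    generalize hx.choose = b at hs
    have e1 : ∀ m, a.map (fun i => w m (v i)) = (a.map v).map (w m) := by
      intro m; rw [List.map_map]; rfl
    simp only [e1]
    constructor
    · intro e; rw [← e]; exact hs
    · intro hs'
      apply h.inj
      apply Filter.Eventually.frequently
      filter_upwards [hs, hs'] with m h1 h2
      rw [← h1, h2]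
  | neg φ ih =>
    intro v hwf
    rw [Sat, ih v hwf]
    simp only [Sat]
    rcases h.decd (φ := φ) hwf v with h1 | h1
    · constructor
      · intro h2; exact absurd h1 h2
      · intro h2
        obtain ⟨m, h3, h4⟩ := (h1.and h2).exists
        exact absurd h3 h4
    · constructor
      · intro _; exact h1
      · intro _ h2
        obtain ⟨m, h3, h4⟩ := (h1.and h2).exists
        exact h3 h4
  | and φ ψ ih ih' =>
    intro v hwf
    rw [Sat, ih v hwf.1, ih' v hwf.2]
    simp only [Sat]
    exact Filter.eventually_and.symm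
  | ex i φ ih =>
    intro v hwf
    have e : ∀ (c m : ℕ), (fun j => w m (Function.update v i c j)) =
        Function.update (fun j => w m (v j)) i (w m c) := by
      intro c m
      funext j
      by_cases e : j = i
      · rw [e, Function.update_self, Function.update_self]
      · rw [Function.update_of_ne e, Function.update_of_ne e]
    simp only [Sat]
    constructor
    · rintro ⟨c, hc⟩
      rw [ih _ hwf] at hc
      simp only [e] at hc
      filter_upwards [hc] with m hm
      exact ⟨_, hm⟩
    · intro hex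
      obtain ⟨c, hc⟩ := h.henkin (φ := φ) hwf v i hex
      refine ⟨c, ?_⟩
      rw [ih _ hwf]
      simp only [e]
      exact hc

end

end Pool.Agent.Helper344.SB
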