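import Mathlib
import Pool.Agent.Helper344.SBModel3

set_option autoImplicit false

namespace Pool.Agent.Helper344.SB

open Pool.Agent.Helper344.Blum
open Nat.Partrec (Code)
open Filter

section
variable {L : Lang} {M : Type} {S : Str M} {D : ℕ → Bool} {w : ℕ → ℕ → M}

theorem Dat.th (h : Dat L S D w) : Th L (Nst S w) = Th L S := by
  ext φ
  constructor
  · rintro ⟨h1, h2, h3⟩
    refine ⟨h1, h2, fun v => ?_⟩
    obtain ⟨m, hm⟩ := ((h.truth φ id h1).1 (h3 id)).exists
    refine (sat_congr S φ _ _ fun i hi => ?_).1 hm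
    rw [h2] at hi; exact absurd hi (by simp)
  · rintro ⟨h1, h2, h3⟩
    refine ⟨h1, h2, fun v => ?_⟩
    rw [h.truth φ v h1]
    exact Filter.Eventually.of_forall fun m => h3 _

/-- saturation for one variable -/
theorem Dat.sat1 (h : Dat L S D w) (n : ℕ) (a : ℕ → ℕ) (p : Set Fm)
    (hp : ∀ φ ∈ p, Ok L (n + 1) φ)
    (hfin : ∀ l : List Fm, (∀ φ ∈ l, φ ∈ p) →
      ∃ c, ∀ φ ∈ l, Sat (Nst S w) (Function.update a n c) φ) :
    ∃ c, ∀ φ ∈ p, Sat (Nst S w) (Function.update a n c) φ := by
  classical
  by_contra hcon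
  push Not at hcon
  obtain ⟨K, hK⟩ : ∃ K, ∀ j < n, a j < K := by
    refine ⟨(Finset.range n).sum a + 1, fun j hj => ?_⟩
    have : a j ≤ (Finset.range n).sum a :=
      Finset.single_le_sum (f := a) (fun j _ => Nat.zero_le _) (Finset.mem_range.2 hj)
    omega
  let v' : ℕ → ℕ := fun j => if j = n then K else if j < n then a j else 0
  have hv' : ∀ j, v' j < K + 1 := by
    intro j
    simp only [v']
    split_ifs with h1 h2
    · omega
    · have := hK j h2; omega
    · omega
  have hok : ∀ φ, WF L φ → Ok L (K + 1) (rn v' φ) := by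
    intro φ hφ
    refine ⟨wf_rn hφ _, fun x hx => ?_⟩
    obtain ⟨j, _, hj⟩ := free_rn v' φ x hx
    rw [hj]; exact hv' j
  have hF : ∀ φ, Ok L (n + 1) φ → ∀ m c, Sat S (Function.update (w m) K (w m c)) (rn v' φ) ↔
      Sat S (fun j => w m (Function.update a n c j)) φ := by
    intro φ hφ m c
    rw [sat_rn]
    apply sat_congr
    intro j hj
    have hj' := hφ.2 j hj
    by_cases e : j = n
    · simp only [v', e, if_true, Function.update_self]
    · have hjn : j < n := by omega
      simp only [v', if_neg e, if_pos hjn]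
      rw [Function.update_of_ne e, Function.update_of_ne (by have := hK j hjn; omega)]
  have hfin' : ∀ N, ∃ c, ∀ t < N, dec t ∈ p → Sat (Nst S w) (Function.update a n c) (dec t) := by
    intro N
    obtain ⟨c, hc⟩ := hfin (((List.range N).map dec).filter (fun φ => decide (φ ∈ p))) (by
      intro φ hφ
      rw [List.mem_filter] at hφ
      simpa using hφ.2)
    refine ⟨c, fun t ht htp => hc _ ?_⟩
    rw [List.mem_filter]
    exact ⟨List.mem_map.2 ⟨t, List.mem_range.2 ht, rfl⟩, by simpa using htp⟩
  choose c hc using hfin'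
  have hr : ∀ N, ∃ r, N ≤ r ∧ c N < r ∧ ∀ t < N, dec t ∈ p →
      Sat S (fun j => w r (Function.update a n (c N) j)) (dec t) := by
    intro N
    have h1 : ∀ᶠ r in atTop, ∀ t ∈ Finset.range N, dec t ∈ p →
        Sat S (fun j => w r (Function.update a n (c N) j)) (dec t) := by
      rw [Filter.eventually_all_finset]
      intro t ht
      by_cases htp : dec t ∈ p
      · have h2 := (h.truth (dec t) (Function.update a n (c N)) (hp _ htp).1).1
          (hc N t (Finset.mem_range.1 ht) htp)
        filter_upwards [h2] with r hr _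
        exact hr
      · exact Filter.Eventually.of_forall fun r h => absurd h htp
    obtain ⟨r, ⟨h2, h3⟩, h4⟩ := ((h1.and (Filter.eventually_ge_atTop N)).and
      (Filter.eventually_gt_atTop (c N))).exists
    exact ⟨r, h3, h4, fun t ht => h2 t (Finset.mem_range.2 ht)⟩
  choose r hr1 hr2 hr3 using hr
  obtain ⟨c', hc'⟩ := h.gen K r hr1 (fun N => w (r N) (c N)) (by
    intro i hi
    obtain ⟨φ, hφ, hφ'⟩ := hcon i
    filter_upwards [Filter.eventually_gt_atTop (code φ + i)] with N hN
    have h1 := hc N (code φ) (by omega) (by rw [dec_code]; exact hφ)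
    rw [dec_code] at h1
    have h2 : c N ≠ i := by
      intro e
      rw [e] at h1
      exact hφ' h1
    have := hr1 N
    exact h.dist (c N) i h2 (r N) (hr2 N) (by omega))
  obtain ⟨φ, hφ, hφ'⟩ := hcon c'
  apply hφ'
  rw [h.truth φ _ (hp φ hφ).1]
  have h1 := hc' (rn v' φ) (hok φ (hp φ hφ).1) (by
    filter_upwards [Filter.eventually_gt_atTop (code φ)] with N hN
    rw [hF φ (hp φ hφ)]
    have := hr3 N (code φ) hN
    rw [dec_code] at this
    exact this hφ)
  filter_upwards [h1] with m hm
  exact (hF φ (hp φ hφ) m c').1 hm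

def conjL (l : List Fm) : Fm := l.foldr Fm.and top

theorem sat_conjL {M : Type} (S : Str M) (l : List Fm) (v : ℕ → M) :
    Sat S v (conjL l) ↔ ∀ φ ∈ l, Sat S v φ := by
  induction l with
  | nil => simpa [conjL] using sat_top S v
  | cons φ l ih =>
    show Sat S v φ ∧ Sat S v (conjL l) ↔ _
    rw [ih]
    simp

theorem wf_conjL (L : Lang) (l : List Fm) (h : ∀ φ ∈ l, WF L φ) : WF L (conjL l) := by
  induction l with
  | nil => exact wf_top L
  | cons φ l ih =>
    exact ⟨h φ (by simp), ih fun ψ hψ => h ψ (by simp [hψ])⟩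

theorem free_conjL (l : List Fm) (A : Set ℕ) (h : ∀ φ ∈ l, free φ ⊆ A) :
    free (conjL l) ⊆ A := by
  induction l with
  | nil =>
    show free top ⊆ A
    rw [free_top]; exact Set.empty_subset _
  | cons φ l ih =>
    show free φ ∪ free (conjL l) ⊆ A
    exact Set.union_subset (h φ (by simp)) (ih fun ψ hψ => h ψ (by simp [hψ]))

theorem Dat.saturated (h : Dat L S D w) : Saturated L (Nst S w) := by
  intro n a m
  induction m generalizing n a with
  | zero =>
    intro p hp
    refine ⟨a, fun _ _ => rfl, fun φ hφ => ?_⟩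
    obtain ⟨v, hv, hs⟩ := hp.2.2 [φ] (by simpa using hφ)
    refine (sat_congr _ φ _ _ fun i hi => ?_).1 (hs φ (by simp))
    exact hv i ((hp.1 φ hφ).2 hi)
  | succ m ih =>
    intro p hp
    obtain ⟨c, hc⟩ := h.sat1 n a {φ | φ ∈ p ∧ ∀ i ∈ free φ, i < n + 1}
      (fun φ hφ => ⟨(hp.1 φ hφ.1).1, hφ.2⟩) (by
        intro l hl
        obtain ⟨v, hv, hs⟩ := hp.2.2 l (fun φ hφ => (hl φ hφ).1)
        refine ⟨v n, fun φ hφ => ?_⟩
        refine (sat_congr _ φ _ _ fun i hi => ?_).1 (hs φ hφ)
        have := (hl φ hφ).2 i hi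
        by_cases e : i = n
        · rw [e, Function.update_self]
        · rw [Function.update_of_ne e]; exact hv i (by omega))
    have harr : n + 1 + m = n + (m + 1) := by omega
    have htype : IsTypeOver L (Nst S w) (n + 1) (Function.update a n c) m p := by
      refine ⟨?_, ?_, ?_⟩
      · rw [harr]; exact hp.1
      · rw [harr]; exact hp.2.1
      · intro l hl
        have hwf : WF L (exR (n + 1) m (conjL l)) := by
          rw [wf_exR]; exact wf_conjL L l fun φ hφ => (hp.1 φ (hl φ hφ)).1
        have hfr : free (exR (n + 1) m (conjL l)) ⊆ {i | i < n + 1} := by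
          rw [free_exR]
          rintro i ⟨h1, h2⟩
          have h3 : free (conjL l) ⊆ {i | i < n + (m + 1)} :=
            free_conjL l _ fun φ hφ => (hp.1 φ (hl φ hφ)).2
          have h4 : i < n + (m + 1) := h3 h1
          show i < n + 1
          omega
        have hmem : exR (n + 1) m (conjL l) ∈ p := by
          rcases hp.2.1 _ hwf (hfr.trans fun i (hi : i < n + 1) => by
            show i < n + (m + 1); omega) with h1 | h1
          · exact h1
          · exfalso
            obtain ⟨v, _, hs⟩ := hp.2.2 (Fm.neg (exR (n + 1) m (conjL l)) :: l) (by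
              intro φ hφ
              rcases List.mem_cons.1 hφ with h2 | h2
              · rw [h2]; exact h1
              · exact hl φ h2)
            have h2 := hs _ (List.mem_cons_self)
            apply h2
            rw [sat_exR]
            refine ⟨v, fun _ _ => rfl, ?_⟩
            rw [sat_conjL]
            exact fun φ hφ => hs φ (List.mem_cons_of_mem _ hφ)
        have h1 := hc _ ⟨hmem, hfr⟩
        rw [sat_exR] at h1
        obtain ⟨v, h2, h3⟩ := h1
        rw [sat_conjL] at h3
        exact ⟨v, fun i hi => h2 i (by omega), h3⟩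
    obtain ⟨v, hv, hs⟩ := ih (n + 1) (Function.update a n c) p htype
    refine ⟨v, fun i hi => ?_, hs⟩
    rw [hv i (by omega), Function.update_of_ne (by omega)]

end

end Pool.Agent.Helper344.SB
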