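import Mathlib
import Pool.Agent.Helper344.SBModel4

set_option autoImplicit false

namespace Pool.Agent.Helper344.SB

open Pool.Agent.Helper344.Blum
open Nat.Partrec (Code)
open Filter

/-! ### Computability of the formula operations -/

section
variable {γ : Type} [Primcodable γ]

theorem cMulC {m : γ → ℕ} (hm : Computable m) (k : ℕ) : Computable (fun g => k * m g) := by
  have := Primrec.nat_mul.to_comp.comp (Computable.const k) hm
  exact this

theorem cAddC {m : γ → ℕ} (hm : Computable m) (k : ℕ) : Computable (fun g => m g + k) := by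
  have := Primrec.nat_add.to_comp.comp hm (Computable.const k)
  exact this

theorem cAdd {m n : γ → ℕ} (hm : Computable m) (hn : Computable n) :
    Computable (fun g => m g + n g) := by
  have := Primrec.nat_add.to_comp.comp hm hn
  exact this

theorem cfEq {i j : γ → ℕ} (hi : Computable i) (hj : Computable j) :
    Computable (fun g => code (.eq (i g) (j g))) := by
  have := cMulC (cPair hi hj) 6
  exact this

theorem cfNeg {φ : γ → Fm} (h : Computable (fun g => code (φ g))) :
    Computable (fun g => code (.neg (φ g))) := by
  have := cAddC (cMulC h 6) 3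
  exact this

theorem cfAnd {φ ψ : γ → Fm} (h : Computable (fun g => code (φ g)))
    (h' : Computable (fun g => code (ψ g))) : Computable (fun g => code (.and (φ g) (ψ g))) := by
  have := cAddC (cMulC (cPair h h') 6) 4
  exact this

theorem cfEx {i : γ → ℕ} {φ : γ → Fm} (hi : Computable i) (h : Computable (fun g => code (φ g))) :
    Computable (fun g => code (.ex (i g) (φ g))) := by
  have := cAddC (cMulC (cPair hi h) 6) 5
  exact this

theorem code_andN (k : ℕ) (f : ℕ → Fm) : code (andN k f) =
    Nat.rec (motive := fun _ => ℕ) (code top) (fun i c => 6 * Nat.pair c (code (f i)) + 4) k := by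
  induction k with
  | zero => rfl
  | succ k ih => rw [andN_succ, code, ih]

theorem cfAndN {k : γ → ℕ} {f : γ → ℕ → Fm} (hk : Computable k)
    (hf : Computable (fun p : γ × ℕ => code (f p.1 p.2))) :
    Computable (fun g => code (andN (k g) (f g))) := by
  have h1 : Computable₂ (fun (g : γ) (p : ℕ × ℕ) => 6 * Nat.pair p.2 (code (f g p.1)) + 4) := by
    have h2 : Computable (fun q : γ × (ℕ × ℕ) => code (f q.1 q.2.1)) := by
      have := hf.comp ((Computable.fst (α := γ) (β := ℕ × ℕ)).pair
        (Computable.fst.comp Computable.snd))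
      exact this
    have := cAddC (cMulC (cPair (Computable.snd.comp (Computable.snd (α := γ) (β := ℕ × ℕ))) h2) 6) 4
    exact this
  have := Computable.nat_rec hk (Computable.const (code top)) h1
  refine this.of_eq fun g => ?_
  rw [code_andN]

theorem code_exR (B k : ℕ) (ψ : Fm) : code (exR B k ψ) =
    Nat.rec (motive := fun _ => ℕ) (code ψ) (fun i c => 6 * Nat.pair (B + i) c + 5) k := by
  induction k with
  | zero => rfl
  | succ k ih => rw [exR_succ, code, ih]

theorem cfExR {B k : γ → ℕ} {ψ : γ → Fm} (hB : Computable B) (hk : Computable k)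
    (hψ : Computable (fun g => code (ψ g))) :
    Computable (fun g => code (exR (B g) (k g) (ψ g))) := by
  have h1 : Computable₂ (fun (g : γ) (p : ℕ × ℕ) => 6 * Nat.pair (B g + p.1) p.2 + 5) := by
    have a1 : Computable (fun q : γ × (ℕ × ℕ) => B q.1 + q.2.1) :=
      cAdd (hB.comp Computable.fst) (Computable.fst.comp Computable.snd)
    have := cAddC (cMulC (cPair a1 (Computable.snd.comp Computable.snd)) 6) 5
    exact this
  have := Computable.nat_rec hk hψ h1
  refine this.of_eq fun g => ?_
  rw [code_exR]

theorem cfRen {B k : γ → ℕ} {v : γ → ℕ → ℕ} {φ : γ → Fm} (hB : Computable B) (hk : Computable k)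
    (hv : Computable (fun p : γ × ℕ => v p.1 p.2)) (hφ : Computable (fun g => code (φ g))) :
    Computable (fun g => code (ren (B g) (k g) (v g) (φ g))) := by
  have a1 : Computable (fun p : γ × ℕ => B p.1 + p.2) :=
    cAdd (hB.comp Computable.fst) Computable.snd
  have h1 : Computable (fun g => code (andN (k g) (fun i => .eq (B g + i) (v g i)))) :=
    cfAndN (f := fun g i => .eq (B g + i) (v g i)) hk (cfEq a1 hv)
  have h2 : Computable (fun g => code (andN (k g) (fun i => .eq i (B g + i)))) :=
    cfAndN (f := fun g i => .eq i (B g + i)) hk (cfEq Computable.snd a1)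
  have h3 := cfExR (Computable.const 0) hk (cfAnd h2 hφ)
  have := cfExR hB hk (cfAnd h1 h3)
  exact this

theorem cfDs {m n : γ → ℕ} (hm : Computable m) (hn : Computable n) :
    Computable (fun g => code (dsF (m g) (n g))) :=
  cfAndN (f := fun g i => .neg (.eq (m g) i)) hn
    (cfNeg (cfEq (hm.comp Computable.fst) Computable.snd))

end

/-! ### Decidability from the theory -/

section
variable {L : Lang} {M : Type} {S : Str M} {A : ℕ → Bool}

/-- `A` decides the theory of `S` -/
structure DecT (L : Lang) {M : Type} (S : Str M) (A : ℕ → Bool) : Prop where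
  comp : Computable A
  iff : ∀ φ, A (code φ) = true ↔ φ ∈ Th L S

theorem DecT.ok [Nonempty M] (h : DecT L S A) (n : ℕ) (φ : Fm) : Ok L n φ ↔
    A (code (exR 0 n (.neg (.and φ (.neg φ))))) = true := by
  rw [h.iff]
  constructor
  · intro hφ
    refine ⟨?_, ?_, ?_⟩
    · rw [wf_exR]; exact ⟨hφ.1, hφ.1⟩
    · rw [free_exR]
      ext i
      simp only [Set.mem_ofPred_eq, Set.mem_empty_iff_false, iff_false]
      rintro ⟨h1, h2⟩
      have h3 : i ∈ free φ := by
        rcases h1 with h1 | h1
        · exact h1
        · exact h1
      have := hφ.2 i h3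
      omega
    · intro v
      rw [sat_exR]
      refine ⟨v, fun _ _ => rfl, ?_⟩
      rintro ⟨h1, h2⟩
      exact h2 h1
  · rintro ⟨h1, h2, _⟩
    rw [wf_exR] at h1
    refine ⟨h1.1, fun i hi => ?_⟩
    rw [free_exR] at h2
    by_contra hlt
    have : i ∈ (∅ : Set ℕ) := by
      rw [← h2]
      exact ⟨Or.inl hi, by omega⟩
    exact this

open Classical in
theorem DecT.cOk [Nonempty M] (h : DecT L S A) {γ : Type} [Primcodable γ] {n t : γ → ℕ}
    (hn : Computable n) (ht : Computable t) :
    Computable (fun g => decide (Ok L (n g) (dec (t g)))) := by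
  have ht' : Computable (fun g => code (dec (t g))) := by
    refine ht.of_eq fun g => ?_
    rw [code_dec]
  have h1 := h.comp.comp (cfExR (Computable.const 0) hn (cfNeg (cfAnd ht' (cfNeg ht'))))
  refine h1.of_eq fun g => ?_
  rw [Bool.eq_iff_iff, decide_eq_true_eq]
  exact (h.ok (n g) (dec (t g))).symm

theorem DecT.cLit [Nonempty M] (h : DecT L S A) {γ : Type} [Primcodable γ] {n t : γ → ℕ}
    {b : γ → Bool} (hn : Computable n) (ht : Computable t) (hb : Computable b) :
    Computable (fun g => code (lit L (n g) (t g) (b g))) := by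
  classical
  have ht' : Computable (fun g => code (dec (t g))) := by
    refine ht.of_eq fun g => ?_
    rw [code_dec]
  have htop : Computable (fun _ : γ => code top) := Computable.const _
  have hbt := cEq hb (Computable.const true)
  have h1 := cIte hbt ht' (cfNeg ht')
  have h2 := cIte hbt (cfNeg htop) htop
  have h3 := cIte (h.cOk hn ht) h1 h2
  refine h3.of_eq fun g => ?_
  rw [lit]
  split_ifs <;> rfl

theorem DecT.cDl [Nonempty M] (h : DecT L S A) {γ : Type} [Primcodable γ] {n : γ → ℕ}
    {ρ : γ → List Bool} (hn : Computable n) (hρ : Computable ρ) :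
    Computable (fun g => code (dl L (n g) (ρ g))) :=
  cfAndN (f := fun g t => lit L (n g) t (((ρ g)[t]?).getD false)) (cLen hρ)
    (h.cLit (hn.comp Computable.fst) Computable.snd
      (cGetD Computable.snd (hρ.comp Computable.fst)))

theorem DecT.cChk [Nonempty M] (h : DecT L S A) {γ : Type} [Primcodable γ] {m : γ → ℕ}
    {ρ : γ → List Bool} (hm : Computable m) (hρ : Computable ρ) :
    Computable (fun g => code (chk L (m g) (ρ g))) := by
  have := cfEx hm (cfAnd (cfDs hm hm) (h.cDl (cSucc hm) hρ))
  exact this

theorem DecT.ty0 [Nonempty M] (h : DecT L S A) : Ty L S 0 A := by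
  intro N
  obtain ⟨x⟩ := (inferInstance : Nonempty M)
  refine ⟨fun _ => x, fun i hi => absurd hi (Nat.not_lt_zero _), fun t _ => ?_⟩
  have h1 := h.iff (dec t)
  rw [code_dec] at h1
  rw [h1]
  constructor
  · rintro ⟨h2, h3, h4⟩
    exact ⟨⟨h2, fun i hi => by rw [h3] at hi; exact absurd hi (by simp)⟩, h4 _⟩
  · rintro ⟨h2, h3⟩
    have hf : free (dec t) = ∅ := by
      ext i
      simp only [Set.mem_empty_iff_false, iff_false]
      intro hi
      exact Nat.not_lt_zero _ (h2.2 i hi)
    refine ⟨h2.1, hf, fun v => ?_⟩
    refine (sat_congr S _ _ _ fun i hi => ?_).1 h3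
    rw [hf] at hi; exact absurd hi (by simp)

/-! ### Types are computable -/

theorem Ty.comp {n : ℕ} {q : ℕ → Bool} (hq : Ty L S n q)
    (htypes : ∀ (n : ℕ) (p : Set Fm), IsType L S n p → CompSet p) : Computable q := by
  have h1 : IsType L S n {φ | q (code φ) = true} := by
    refine ⟨fun φ hφ => ?_, fun φ hw hf => ?_, fun l hl => ?_⟩
    · have := hq.ok hφ
      exact ⟨this.1, this.2⟩
    · obtain ⟨v, _, _, h3⟩ := hq.real (code φ + code (.neg φ) + 1)
      have hok : Ok L n φ := ⟨hw, hf⟩
      have hok' : Ok L n (.neg φ) := ⟨hw, hf⟩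
      by_cases hs : Sat S v φ
      · left; exact (h3 φ (by omega) hok).2 hs
      · right; exact (h3 (.neg φ) (by omega) hok').2 hs
    · have hmax : ∃ N, ∀ φ ∈ l, code φ < N := by
        refine ⟨(l.map code).sum + 1, fun φ hφ => ?_⟩
        have := List.single_le_sum (l := l.map code) (fun x _ => Nat.zero_le x) (code φ)
          (List.mem_map.2 ⟨φ, hφ, rfl⟩)
        omega
      obtain ⟨N, hN⟩ := hmax
      obtain ⟨v, _, _, h3⟩ := hq.real N
      exact ⟨v, fun φ hφ => (h3 φ (hN φ hφ) (hq.ok (hl φ hφ))).1 (hl φ hφ)⟩
  obtain ⟨B, hB, hB'⟩ := htypes n _ h1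
  have : B = q := by
    funext t
    obtain ⟨φ, rfl⟩ := code_surjective t
    rw [Bool.eq_iff_iff]
    exact hB' φ
  rw [← this]; exact hB

end

/-! ### The tree of types -/

/-- the position of the first `true` -/
def fst1 (σ : List Bool) : Option ℕ :=
  (List.range σ.length).findSome? (fun i => bif (σ[i]?).getD false then some i else none)

theorem fst1_none (X : ℕ → Bool) (N : ℕ) : fst1 (restr X N) = none ↔ ∀ i < N, X i = false := by
  rw [fst1, List.findSome?_eq_none_iff, restr_length]
  simp only [List.mem_range]
  refine forall_congr' fun i => ?_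
  refine forall_congr' fun hi => ?_
  rw [restr_getD X hi]
  cases X i <;> simp

theorem findSome_range_least {α : Type} (f : ℕ → Option α) : ∀ (N : ℕ) (n : ℕ), n < N →
    (f n).isSome → (∀ i < n, f i = none) → (List.range N).findSome? f = f n := by
  intro N
  induction N with
  | zero => intro n hn; exact absurd hn (Nat.not_lt_zero _)
  | succ N ih =>
    intro n hn hs hnone
    rw [List.range_succ, List.findSome?_append]
    rcases Nat.lt_succ_iff_lt_or_eq.1 hn with h | h
    · rw [ih n h hs hnone]
      obtain ⟨y, hy⟩ := Option.isSome_iff_exists.1 hs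
      rw [hy]; rfl
    · subst h
      have : (List.range n).findSome? f = none := by
        rw [List.findSome?_eq_none_iff]
        intro i hi
        exact hnone i (List.mem_range.1 hi)
      rw [this]
      simp

theorem fst1_some {X : ℕ → Bool} {N n : ℕ} (hn : n < N) (h1 : X n = true)
    (h2 : ∀ i < n, X i = false) : fst1 (restr X N) = some n := by
  rw [fst1, restr_length, findSome_range_least _ N n hn]
  · rw [restr_getD X hn, h1]; rfl
  · rw [restr_getD X hn, h1]; rfl
  · intro i hi
    rw [restr_getD X (by omega), h2 i hi]; rfl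

/-- the string after position `n` -/
def aft (σ : List Bool) (n : ℕ) : List Bool :=
  (List.range (σ.length - (n + 1))).map (fun t => (σ[n + 1 + t]?).getD false)

theorem aft_restr (X : ℕ → Bool) (N n : ℕ) :
    aft (restr X N) n = restr (fun t => X (n + 1 + t)) (N - (n + 1)) := by
  rw [aft, restr_length]
  apply List.map_congr_left
  intro t ht
  have := List.mem_range.1 ht
  exact restr_getD X (by omega)

def diF (n : ℕ) : Fm := andN n (fun m => dsF m m)

/-- the tree of the types -/
noncomputable def pT (L : Lang) (A : ℕ → Bool) (σ : List Bool) : Bool :=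
  ((fst1 σ).map (fun n => A (code (exR 0 n (.and (diF n) (dl L n (aft σ n))))))).getD true

section
variable {L : Lang} {M : Type} {S : Str M} {A : ℕ → Bool}

theorem pT_none {X : ℕ → Bool} {N : ℕ} (h : ∀ i < N, X i = false) : pT L A (restr X N) = true := by
  rw [pT, (fst1_none X N).2 h]; rfl

theorem pT_some [Nonempty M] (hA : DecT L S A) {X : ℕ → Bool} {N n : ℕ} (hn : n < N)
    (h1 : X n = true) (h2 : ∀ i < n, X i = false) : pT L A (restr X N) = true ↔
    ∃ v : ℕ → M, (∀ i < n, ∀ j < i, v i ≠ v j) ∧
      ∀ t < N - (n + 1), (X (n + 1 + t) = true ↔ Ok L n (dec t) ∧ Sat S v (dec t)) := by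
  rw [pT, fst1_some hn h1 h2, Option.map_some, Option.getD_some, hA.iff, aft_restr]
  have hsat : ∀ v : ℕ → M, Sat S v (.and (diF n) (dl L n
      (restr (fun t => X (n + 1 + t)) (N - (n + 1))))) ↔ (∀ i < n, ∀ j < i, v i ≠ v j) ∧
      ∀ t < N - (n + 1), (X (n + 1 + t) = true ↔ Ok L n (dec t) ∧ Sat S v (dec t)) := by
    intro v
    rw [Sat, sat_dl_restr, diF, sat_andN]
    simp only [sat_dsF]
  have hwf : WF L (.and (diF n) (dl L n (restr (fun t => X (n + 1 + t)) (N - (n + 1))))) := by
    refine ⟨?_, (ok_dl L n _).1⟩
    rw [diF, wf_andN]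
    intro i _
    exact (ok_dsF L i i (i + 1) (by omega) (by omega)).1
  have hfr : ∀ i ∈ free (.and (diF n) (dl L n (restr (fun t => X (n + 1 + t)) (N - (n + 1))))),
      i < n := by
    intro i hi
    rcases hi with hi | hi
    · have : free (diF n) ⊆ {i | i < n} := by
        apply free_andN
        intro j hj
        exact (ok_dsF L j j n hj (by omega)).2
      exact this hi
    · exact (ok_dl L n _).2 i hi
  constructor
  · rintro ⟨_, _, h3⟩
    obtain ⟨x⟩ := (inferInstance : Nonempty M)
    obtain ⟨w', _, h4⟩ := (sat_exR S 0 n _ (fun _ => x)).1 (h3 _)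
    exact ⟨w', (hsat w').1 h4⟩
  · rintro ⟨v, hv⟩
    refine ⟨?_, ?_, fun u => ?_⟩
    · rw [wf_exR]; exact hwf
    · rw [free_exR]
      ext i
      simp only [Set.mem_ofPred_eq, Set.mem_empty_iff_false, iff_false]
      rintro ⟨h3, h4⟩
      have := hfr i h3
      omega
    · rw [sat_exR]
      refine ⟨fun i => if i < n then v i else u i, fun i hi => ?_, ?_⟩
      · show (if i < n then v i else u i) = u i
        rw [if_neg (by omega)]
      · refine (sat_congr S _ _ _ fun i hi => ?_).1 ((hsat v).2 hv)
        show v i = if i < n then v i else u i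
        rw [if_pos (hfr i hi)]

/-- infinite paths with a first `true` are types -/
theorem pT_path [Nonempty M] (hA : DecT L S A) {X : ℕ → Bool} (hX : X ∈ Paths (pT L A)) {n : ℕ}
    (h1 : X n = true) (h2 : ∀ i < n, X i = false) : Ty L S n (fun t => X (n + 1 + t)) := by
  intro N
  have h3 := hX (n + 1 + N)
  rw [pT_some hA (by omega) h1 h2] at h3
  obtain ⟨v, hv, hv'⟩ := h3
  exact ⟨v, hv, fun t ht => hv' t (by omega)⟩

theorem encP_path [Nonempty M] (hA : DecT L S A) {n : ℕ} {q : ℕ → Bool} (hq : Ty L S n q) :
    encP n q ∈ Paths (pT L A) := by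
  intro N
  have e1 : ∀ i < n, encP n q i = false := by
    intro i hi; rw [encP, if_pos hi]
  have e2 : encP n q n = true := by
    rw [encP, if_neg (by omega), if_pos rfl]
  have e3 : ∀ t, encP n q (n + 1 + t) = q t := by
    intro t
    rw [encP, if_neg (by omega), if_neg (by omega)]
    congr 1; omega
  rcases Nat.lt_or_ge n N with h | h
  · rw [pT_some hA h e2 e1]
    obtain ⟨v, hv, hv'⟩ := hq (N - (n + 1))
    exact ⟨v, hv, fun t ht => by rw [e3]; exact hv' t ht⟩
  · exact pT_none fun i hi => e1 i (by omega)

theorem zero_path : (fun _ => false : ℕ → Bool) ∈ Paths (pT L A) := fun _ => pT_none fun _ _ => rfl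

theorem cFst1 {γ : Type} [Primcodable γ] {σ : γ → List Bool} (hσ : Computable σ) :
    Computable (fun g => fst1 (σ g)) := by
  have h1 : Computable₂ (fun (g : γ) (i : ℕ) =>
      bif ((σ g)[i]?).getD false then some i else none) := by
    have := Computable.cond (cGetD (Computable.snd (α := γ) (β := ℕ)) (hσ.comp Computable.fst))
      (Computable.option_some.comp Computable.snd) (Computable.const none)
    exact this
  have := CL.list_findSome? (cRange (cLen hσ)) h1
  exact this

theorem cAft {γ : Type} [Primcodable γ] {σ : γ → List Bool} {n : γ → ℕ} (hσ : Computable σ)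
    (hn : Computable n) : Computable (fun g => aft (σ g) (n g)) := by
  have h1 : Computable₂ (fun (g : γ) (t : ℕ) => ((σ g)[n g + 1 + t]?).getD false) := by
    have := cGetD (cAdd (cSucc (hn.comp (Computable.fst (α := γ) (β := ℕ)))) Computable.snd)
      (hσ.comp Computable.fst)
    exact this
  have := CL.list_map (cRange (cSub (cLen hσ) (cSucc hn))) h1
  exact this

theorem comp_pT [Nonempty M] (hA : DecT L S A) : Computable (pT L A) := by
  have h1 : Computable₂ (fun (σ : List Bool) (n : ℕ) =>
      A (code (exR 0 n (.and (diF n) (dl L n (aft σ n)))))) := by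
    have hn : Computable (fun p : List Bool × ℕ => p.2) := Computable.snd
    have hd : Computable (fun p : List Bool × ℕ => code (diF p.2)) :=
      cfAndN (f := fun _ m => dsF m m) hn (cfDs Computable.snd Computable.snd)
    have hl := hA.cDl hn (cAft (Computable.fst (α := List Bool) (β := ℕ)) hn)
    have := hA.comp.comp (cfExR (Computable.const 0) hn (cfAnd hd hl))
    exact this
  have := Computable.option_getD (Computable.option_map (cFst1 (Computable.id (α := List Bool))) h1)
    (Computable.const true)
  exact this

theorem pT_good [Infinite M] (hA : DecT L S A)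
    (htypes : ∀ (n : ℕ) (p : Set Fm), IsType L S n p → CompSet p) : Good (pT L A) where
  comp := comp_pT hA
  nil := pT_none (X := emp) (N := 0) fun i hi => absurd hi (Nat.not_lt_zero _)
  pre := by
    intro σ b h
    have e : σ ++ [b] = restr (ext (σ ++ [b])) (σ.length + 1) := by
      have := restr_ext (σ ++ [b])
      rw [List.length_append] at this
      exact this.symm
    have e' : σ = restr (ext (σ ++ [b])) σ.length := by
      apply eq_restr_of_prefix (n := σ.length + 1)
      rw [← e]
      exact List.prefix_append _ _
    rw [e] at h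
    rw [e']
    generalize ext (σ ++ [b]) = X at h
    generalize σ.length = N at h
    by_cases hz : ∀ i < N, X i = false
    · exact pT_none hz
    · push Not at hz
      have hex : ∃ n, X n = true := by
        obtain ⟨i, _, hi⟩ := hz
        exact ⟨i, by simpa using hi⟩
      have hn := Nat.find_spec hex
      have hn' : ∀ i < Nat.find hex, X i = false := fun i hi => by
        simpa using Nat.find_min hex hi
      have hlt : Nat.find hex < N := by
        obtain ⟨i, hi, hi'⟩ := hz
        exact lt_of_le_of_lt (Nat.find_min' hex (by simpa using hi')) hi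
      rw [pT_some hA (by omega) hn hn'] at h
      rw [pT_some hA hlt hn hn']
      obtain ⟨v, hv, hv'⟩ := h
      exact ⟨v, hv, fun t ht => hv' t (by omega)⟩
  prn := by
    classical
    intro σ h
    obtain ⟨X, hX⟩ := exists_restr σ
    have key : ∀ b : Bool, σ ++ [b] = restr (fun n => if n = σ.length then b else X n)
        (σ.length + 1) := by
      intro b
      rw [restr_succ]
      congr 1
      · conv_lhs => rw [hX]
        apply restr_congr
        intro i hi
        rw [if_neg (by omega)]
      · simp
    rw [hX] at h
    generalize σ.length = N at h key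
    by_cases hz : ∀ i < N, X i = false
    · refine ⟨false, ?_⟩
      rw [key]
      apply pT_none
      intro i hi
      split_ifs with h1
      · rfl
      · exact hz i (by omega)
    · push Not at hz
      have hex : ∃ n, X n = true := by
        obtain ⟨i, _, hi⟩ := hz
        exact ⟨i, by simpa using hi⟩
      have hn := Nat.find_spec hex
      have hn' : ∀ i < Nat.find hex, X i = false := fun i hi => by
        simpa using Nat.find_min hex hi
      have hlt : Nat.find hex < N := by
        obtain ⟨i, hi, hi'⟩ := hz
        exact lt_of_le_of_lt (Nat.find_min' hex (by simpa using hi')) hi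
      rw [pT_some hA hlt hn hn'] at h
      obtain ⟨v, hv, hv'⟩ := h
      generalize Nat.find hex = n at hn hn' hlt hv hv'
      refine ⟨decide (Ok L n (dec (N - (n + 1))) ∧ Sat S v (dec (N - (n + 1)))), ?_⟩
      rw [key, pT_some hA (by omega : n < N + 1)]
      · refine ⟨v, hv, fun t ht => ?_⟩
        by_cases e : t = N - (n + 1)
        · have e2 : n + 1 + t = N := by omega
          rw [if_pos e2, e]
          simp
        · rw [if_neg (by omega)]
          exact hv' t (by omega)
      · rw [if_neg (by omega)]; exact hn
      · intro i hi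
        rw [if_neg (by omega)]; exact hn' i hi
  mem := by
    intro q hq
    by_cases hz : ∀ i, q i = false
    · have : q = fun _ => false := funext hz
      rw [this]; exact Computable.const false
    · push Not at hz
      have hex : ∃ n, q n = true := by
        obtain ⟨i, hi⟩ := hz
        exact ⟨i, by simpa using hi⟩
      have hn := Nat.find_spec hex
      have hn' : ∀ i < Nat.find hex, q i = false := fun i hi => by
        simpa using Nat.find_min hex hi
      have h1 := (pT_path hA hq hn hn').comp htypes
      generalize Nat.find hex = n at hn hn' h1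
      have hid : Computable (fun t : ℕ => t) := Computable.id
      have h2 := cIte (cLt hid (Computable.const n)) (Computable.const false)
        (cIte (cEq hid (Computable.const n)) (Computable.const true)
          (h1.comp (cSub hid (Computable.const (n + 1)))))
      refine h2.of_eq fun t => ?_
      split_ifs with e1 e2
      · exact (hn' t e1).symm
      · rw [e2]; exact hn.symm
      · congr 1; omega

end

end Pool.Agent.Helper344.SB
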