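import Mathlib
import Pool.Agent.Helper344.SBModel5

set_option autoImplicit false

namespace Pool.Agent.Helper344.SB

open Pool.Agent.Helper344.Blum
open Nat.Partrec (Code)
open Filter

section
variable {L : Lang} {M : Type} {S : Str M} {A : ℕ → Bool}

theorem gr_congr (m : ℕ) {D D' E E' : ℕ → Bool} (n : ℕ)
    (hD : ∀ ρ : List Bool, ρ.length ≤ n → D (code (chk L m ρ)) = D' (code (chk L m ρ)))
    (hE : ∀ t < n, E (m + 2 + t) = E' (m + 2 + t)) : gr L m D E n = gr L m D' E' n := by
  induction n with
  | zero => rfl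
  | succ n ih =>
    rw [gr_succ, gr_succ, ih (fun ρ hρ => hD ρ (by omega)) (fun t ht => hE t (by omega)),
      hE n (Nat.lt_succ_self n), hD _ (by rw [List.length_append, gr_length]; rfl)]

/-- a bound for the codes of the test formulas -/
noncomputable def mx (L : Lang) (m j : ℕ) : ℕ :=
  (allStr j).foldl (fun s ρ => max s (code (chk L m ρ) + 1)) 0

noncomputable def bd (L : Lang) (m n : ℕ) : ℕ := maxB (fun p : ℕ × ℕ => mx L p.1 p.2) m (n + 1)

theorem lt_bd (m n : ℕ) (ρ : List Bool) (h : ρ.length ≤ n) : code (chk L m ρ) < bd L m n := by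
  have h1 := (le_foldl_max (fun ρ => code (chk L m ρ) + 1) (allStr ρ.length) 0).2 ρ
    ((mem_allStr _ _).2 rfl)
  have h2 : mx L m ρ.length ≤ bd L m n :=
    le_maxB (fun p : ℕ × ℕ => mx L p.1 p.2) m (by omega : ρ.length < n + 1)
  exact lt_of_lt_of_le h1 h2

/-- the lengths of the tables -/
noncomputable def bt (L : Lang) (m n j : ℕ) : ℕ :=
  Nat.rec (motive := fun _ => ℕ) n (fun j b => bd L (m - 1 - j) b) j

theorem bt_succ (m n j : ℕ) : bt L m n (j + 1) = bd L (m - 1 - j) (bt L m n j) := rfl

/-- the tables -/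
noncomputable def tbl (L : Lang) (T : ℕ → Bool) (E : ℕ → ℕ → Bool) (a : ℕ × ℕ) (i : ℕ) :
    List Bool :=
  Nat.rec (motive := fun _ => List Bool) (restr T (bt L a.1 a.2 a.1))
    (fun i τ => gr L i (ext τ) (ext ((List.range (i + 2 + bt L a.1 a.2 (a.1 - i - 1))).map (E i)))
      (bt L a.1 a.2 (a.1 - i - 1))) i

theorem tbl_eq (T : ℕ → Bool) (E : ℕ → ℕ → Bool) (m n : ℕ) : ∀ i ≤ m,
    tbl L T E (m, n) i = restr (DD L T E i) (bt L m n (m - i)) := by
  intro i
  induction i with
  | zero => intro _; rfl
  | succ i ih =>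
    intro hi
    have e : m - (i + 1) = m - i - 1 := by omega
    have e1 : m - i = m - i - 1 + 1 := by omega
    have e2 : m - 1 - (m - i - 1) = i := by omega
    have hb : bt L m n (m - i) = bd L i (bt L m n (m - i - 1)) := by
      rw [e1, bt_succ, ← e1, e2]
    show gr L i (ext (tbl L T E (m, n) i))
      (ext (restr (E i) (i + 2 + bt L m n (m - i - 1)))) (bt L m n (m - i - 1)) = _
    rw [ih (by omega), e, DD_succ, restr_nextD]
    apply gr_congr
    · intro ρ hρ
      have h1 := lt_bd (L := L) i _ ρ hρ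
      rw [← hb] at h1
      exact restr_getD _ h1
    · intro t ht
      exact restr_getD _ (by omega)

theorem DD_eq_tbl (T : ℕ → Bool) (E : ℕ → ℕ → Bool) (m t : ℕ) :
    DD L T E m t = ((tbl L T E (m, t + 1) m)[t]?).getD false := by
  rw [tbl_eq T E m (t + 1) m le_rfl, Nat.sub_self]
  exact (restr_getD _ (Nat.lt_succ_self t)).symm

section
variable [Nonempty M] (hA : DecT L S A)
include hA

theorem cBd {γ : Type} [Primcodable γ] {m n : γ → ℕ} (hm : Computable m) (hn : Computable n) :
    Computable (fun g => bd L (m g) (n g)) := by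
  have h0 : Computable (fun p : ℕ × ℕ => mx L p.1 p.2) := by
    have h1 : Computable₂ (fun (p : ℕ × ℕ) (q : ℕ × List Bool) =>
        max q.1 (code (chk L p.1 q.2) + 1)) := by
      have a1 : Computable (fun r : (ℕ × ℕ) × (ℕ × List Bool) => code (chk L r.1.1 r.2.2)) :=
        hA.cChk (Computable.fst.comp Computable.fst) (Computable.snd.comp Computable.snd)
      have := cMax (Computable.fst.comp (Computable.snd (α := ℕ × ℕ) (β := ℕ × List Bool)))
        (cSucc a1)
      exact this
    have h2 : Computable (fun p : ℕ × ℕ => allStr p.2) := comp_allStr.comp Computable.snd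
    have := CL.list_foldl h2 (Computable.const 0) h1
    exact this
  have h1 : Computable₂ (fun (g : γ) (p : ℕ × ℕ) => max p.2 (mx L (m g) p.1)) := by
    have a1 : Computable (fun r : γ × (ℕ × ℕ) => mx L (m r.1) r.2.1) := by
      have := h0.comp ((hm.comp (Computable.fst (α := γ) (β := ℕ × ℕ))).pair
        (Computable.fst.comp Computable.snd))
      exact this
    have := cMax (Computable.snd.comp (Computable.snd (α := γ) (β := ℕ × ℕ))) a1
    exact this
  have := Computable.nat_rec (cSucc hn) (Computable.const (0 : ℕ)) h1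
  exact this

theorem cBt {γ : Type} [Primcodable γ] {m n j : γ → ℕ} (hm : Computable m) (hn : Computable n)
    (hj : Computable j) : Computable (fun g => bt L (m g) (n g) (j g)) := by
  have h1 : Computable₂ (fun (g : γ) (p : ℕ × ℕ) => bd L (m g - 1 - p.1) p.2) := by
    have a1 : Computable (fun r : γ × (ℕ × ℕ) => m r.1 - 1 - r.2.1) :=
      cSub (cSub (hm.comp Computable.fst) (Computable.const 1)) (Computable.fst.comp Computable.snd)
    have := cBd hA a1 (Computable.snd.comp (Computable.snd (α := γ) (β := ℕ × ℕ)))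
    exact this
  have := Computable.nat_rec hj hn h1
  exact this

theorem cGr {γ : Type} [Primcodable γ] {m n : γ → ℕ} {τ e : γ → List Bool} (hm : Computable m)
    (hn : Computable n) (hτ : Computable τ) (he : Computable e) :
    Computable (fun g => gr L (m g) (ext (τ g)) (ext (e g)) (n g)) := by
  have h1 : Computable₂ (fun (g : γ) (p : ℕ × List Bool) => p.2 ++
      [if ext (τ g) (code (chk L (m g) (p.2 ++ [ext (e g) (m g + 2 + p.1)]))) = true
        then ext (e g) (m g + 2 + p.1) else !ext (e g) (m g + 2 + p.1)]) := by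
    have f : Computable (fun q : γ × (ℕ × List Bool) => q.1) := Computable.fst
    have a1 : Computable (fun q : γ × (ℕ × List Bool) => q.2.1) :=
      Computable.fst.comp Computable.snd
    have a2 : Computable (fun q : γ × (ℕ × List Bool) => q.2.2) :=
      Computable.snd.comp Computable.snd
    have b : Computable (fun q : γ × (ℕ × List Bool) => ext (e q.1) (m q.1 + 2 + q.2.1)) := by
      have := cGetD (cAdd (cAddC (hm.comp f) 2) a1) (he.comp f)
      exact this
    have c : Computable (fun q : γ × (ℕ × List Bool) =>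
        code (chk L (m q.1) (q.2.2 ++ [ext (e q.1) (m q.1 + 2 + q.2.1)]))) :=
      hA.cChk (hm.comp f) (cApp1 a2 b)
    have d : Computable (fun q : γ × (ℕ × List Bool) => ext (τ q.1)
        (code (chk L (m q.1) (q.2.2 ++ [ext (e q.1) (m q.1 + 2 + q.2.1)])))) := by
      have := cGetD c (hτ.comp f)
      exact this
    have := cApp1 a2 (cIte (cEq d (Computable.const true)) b (cNot b))
    exact this
  have := Computable.nat_rec hn (Computable.const ([] : List Bool)) h1
  exact this

theorem tt_DD (E : (ℕ → Bool) → ℕ → ℕ → Bool) (hE : TT (fun X (p : ℕ × ℕ) => E X p.1 p.2)) :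
    TT (fun X (p : ℕ × ℕ) => DD L A (E X) p.1 p.2) := by
  have f1 : Computable (fun a : ℕ × ℕ => a.1) := Computable.fst
  have f2 : Computable (fun a : ℕ × ℕ => a.2) := Computable.snd
  have hB : TT (fun (_ : ℕ → Bool) (a : ℕ × ℕ) => restr A (bt L a.1 a.2 a.1)) := by
    apply TT.const
    have h2 : Computable₂ (fun (_ : ℕ × ℕ) (i : ℕ) => A i) := hA.comp.comp Computable.snd
    have := CL.list_map (cRange (cBt hA f1 f2 f1)) h2
    exact this
  have hn' : Computable (fun p : (ℕ × ℕ) × ℕ => bt L p.1.1 p.1.2 (p.1.1 - p.2 - 1)) := by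
    have g1 : Computable (fun p : (ℕ × ℕ) × ℕ => p.1.1) := Computable.fst.comp Computable.fst
    have g2 : Computable (fun p : (ℕ × ℕ) × ℕ => p.1.2) := Computable.snd.comp Computable.fst
    have := cBt hA g1 g2 (cSub (cSub g1 Computable.snd) (Computable.const 1))
    exact this
  have hK : TT (fun X (p : (ℕ × ℕ) × ℕ) =>
      (List.range (p.2 + 2 + bt L p.1.1 p.1.2 (p.1.1 - p.2 - 1))).map (fun l => E X p.2 l)) := by
    have h1 : TT (fun X (q : ((ℕ × ℕ) × ℕ) × ℕ) => E X q.1.2 q.2) := by
      have := hE.comp_arg (β := ((ℕ × ℕ) × ℕ) × ℕ) (f := fun q => (q.1.2, q.2))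
        ((Computable.snd.comp Computable.fst).pair Computable.snd)
      exact this
    have h2 : Computable (fun p : (ℕ × ℕ) × ℕ => p.2 + 2 + bt L p.1.1 p.1.2 (p.1.1 - p.2 - 1)) :=
      cAdd (cAddC Computable.snd 2) hn'
    have := h1.tab h2
    exact this
  have hs : Computable₂ (fun (a : ℕ × ℕ) (q : ℕ × List Bool × List Bool) =>
      gr L q.1 (ext q.2.1) (ext q.2.2) (bt L a.1 a.2 (a.1 - q.1 - 1))) := by
    have g0 : Computable (fun r : (ℕ × ℕ) × (ℕ × List Bool × List Bool) => (r.1, r.2.1)) :=
      Computable.fst.pair (Computable.fst.comp Computable.snd)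
    have g1 : Computable (fun r : (ℕ × ℕ) × (ℕ × List Bool × List Bool) => r.2.1) :=
      Computable.fst.comp Computable.snd
    have g2 : Computable (fun r : (ℕ × ℕ) × (ℕ × List Bool × List Bool) => r.2.2.1) :=
      Computable.fst.comp (Computable.snd.comp Computable.snd)
    have g3 : Computable (fun r : (ℕ × ℕ) × (ℕ × List Bool × List Bool) => r.2.2.2) :=
      Computable.snd.comp (Computable.snd.comp Computable.snd)
    have g4 : Computable (fun r : (ℕ × ℕ) × (ℕ × List Bool × List Bool) =>
        bt L r.1.1 r.1.2 (r.1.1 - r.2.1 - 1)) := by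
      have := hn'.comp g0
      exact this
    have := cGr hA g1 g4 g2 g3
    exact this
  have hrec := TT.nat_rec (f := fun a : ℕ × ℕ => a.1) f1 hB hK hs
  -- now the value
  have hq : Computable (fun p : ℕ × ℕ => (p.1, p.2 + 1)) := f1.pair (cSucc f2)
  have h5 := hrec.comp_arg hq
  have h6 : Computable₂ (fun (p : ℕ × ℕ) (l : List Bool) => (l[p.2]?).getD false) := by
    have := cGetD (Computable.snd.comp (Computable.fst (α := ℕ × ℕ) (β := List Bool)))
      Computable.snd
    exact this
  have h7 := h5.map h6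
  have e : (fun X (p : ℕ × ℕ) => DD L A (E X) p.1 p.2) = fun X (p : ℕ × ℕ) =>
      ((tbl L A (E X) (p.1, p.2 + 1) p.1)[p.2]?).getD false := by
    funext X p
    exact DD_eq_tbl A (E X) p.1 p.2
  rw [e]
  exact h7

end

/-! ### The elementary diagram -/

/-- the renamed formula of a code of a formula with parameters -/
noncomputable def rc (x : ℕ) : ℕ :=
  code (ren (x.unpair.1 + 1 + maxB (fun p : List ℕ × ℕ => (p.1[p.2]?).getD 0)
      (Denumerable.ofNat (List ℕ) x.unpair.2) (x.unpair.1 + 1) + 1) (x.unpair.1 + 1)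
    (fun i => ((Denumerable.ofNat (List ℕ) x.unpair.2)[i]?).getD 0) (dec x.unpair.1))

theorem cGetN {γ : Type} [Primcodable γ] {n : γ → ℕ} {l : γ → List ℕ}
    (hn : Computable n) (hl : Computable l) : Computable (fun g => ((l g)[n g]?).getD 0) := by
  have := Computable.option_getD (Computable.list_getElem?.comp hl hn) (Computable.const 0)
  exact this

theorem comp_rc : Computable rc := by
  have u1 : Computable (fun x : ℕ => x.unpair.1) := cUnp1 Computable.id
  have u2 : Computable (fun x : ℕ => x.unpair.2) := cUnp2 Computable.id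
  have ha : Computable (fun x : ℕ => Denumerable.ofNat (List ℕ) x.unpair.2) := by
    have := (Computable.ofNat (List ℕ)).comp u2
    exact this
  have hv : Computable (fun p : ℕ × ℕ => ((Denumerable.ofNat (List ℕ) p.1.unpair.2)[p.2]?).getD 0) :=
    cGetN Computable.snd (ha.comp Computable.fst)
  have hg : Computable (fun p : List ℕ × ℕ => (p.1[p.2]?).getD 0) :=
    cGetN Computable.snd Computable.fst
  have hm : Computable (fun x : ℕ => maxB (fun p : List ℕ × ℕ => (p.1[p.2]?).getD 0)
      (Denumerable.ofNat (List ℕ) x.unpair.2) (x.unpair.1 + 1)) := by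
    have h1 : Computable (fun q : List ℕ × ℕ => maxB (fun p : List ℕ × ℕ => (p.1[p.2]?).getD 0)
        q.1 q.2) := by
      have h2 : Computable₂ (fun (q : List ℕ × ℕ) (p : ℕ × ℕ) => max p.2 ((q.1[p.1]?).getD 0)) := by
        have a1 : Computable (fun r : (List ℕ × ℕ) × (ℕ × ℕ) => (r.1.1[r.2.1]?).getD 0) :=
          cGetN (Computable.fst.comp Computable.snd) (Computable.fst.comp Computable.fst)
        have := cMax (Computable.snd.comp (Computable.snd (α := List ℕ × ℕ) (β := ℕ × ℕ))) a1
        exact this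
      have := Computable.nat_rec (Computable.snd (α := List ℕ) (β := ℕ)) (Computable.const (0 : ℕ)) h2
      exact this
    have := h1.comp (ha.pair (cSucc u1))
    exact this
  have hφ : Computable (fun x : ℕ => code (dec x.unpair.1)) := by
    refine u1.of_eq fun x => ?_
    rw [code_dec]
  have hB : Computable (fun x : ℕ => x.unpair.1 + 1 + maxB (fun p : List ℕ × ℕ =>
      (p.1[p.2]?).getD 0) (Denumerable.ofNat (List ℕ) x.unpair.2) (x.unpair.1 + 1) + 1) :=
    cSucc (cAdd (cSucc u1) hm)
  have := cfRen (v := fun (x : ℕ) (i : ℕ) => ((Denumerable.ofNat (List ℕ) x.unpair.2)[i]?).getD 0)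
    (φ := fun x : ℕ => dec x.unpair.1) hB (cSucc u1) hv hφ
  exact this

theorem Dat.diagram {D : ℕ → Bool} {w : ℕ → ℕ → M} (h : Dat L S D w) (φ : Fm) (a : List ℕ)
    (hφ : WF L φ) : D (rc (Nat.pair (code φ) (Encodable.encode a))) = true ↔
      Sat (Nst S w) (fun i => a.getD i 0) φ := by
  have hk : ∀ i ∈ free φ, i < code φ + 1 := fun i hi => Nat.lt_succ_of_le (free_le_code φ i hi)
  rw [h.truth φ _ hφ, rc]
  simp only [Nat.unpair_pair, Denumerable.ofNat_encode, dec_code]
  generalize hB : code φ + 1 + maxB (fun p : List ℕ × ℕ => (p.1[p.2]?).getD 0) a (code φ + 1) + 1 = B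
  have hv : ∀ i < code φ + 1, (a[i]?).getD 0 < B := by
    intro i hi
    have := le_maxB (fun p : List ℕ × ℕ => (p.1[p.2]?).getD 0) a hi
    simp only at this
    omega
  rw [← h.ev_iff (φ := ren B (code φ + 1) (fun i => (a[i]?).getD 0) φ) (wf_ren hφ _ _ _)]
  have e : ∀ m, Sat S (w m) (ren B (code φ + 1) (fun i => (a[i]?).getD 0) φ) ↔
      Sat S (fun i => w m (a.getD i 0)) φ := by
    intro m
    rw [sat_ren S hk (by omega) hv]
    simp only [List.getD_eq_getElem?_getD]
  simp only [e]

end

/-! ### The model-theoretic part -/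

theorem countable_computable {β : Type} [Primcodable β] : Countable {f : ℕ → β // Computable f} := by
  have h : ∀ f : {f : ℕ → β // Computable f}, ∃ c : Code, ∀ n, Code.eval c n =
      Part.some (Encodable.encode (f.1 n)) := by
    intro f
    have h1 : Computable (fun n => Encodable.encode (f.1 n)) := Computable.encode.comp f.2
    obtain ⟨c, hc⟩ := Code.exists_code.1 (Partrec.nat_iff.1 h1.partrec)
    exact ⟨c, fun n => by rw [hc]; rfl⟩
  choose c hc using h
  have hinj : Function.Injective c := by
    intro f g hfg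
    apply Subtype.ext
    funext n
    have h1 := hc f n
    rw [hfg, hc g n] at h1
    exact (Encodable.encode_injective (Part.some_inj.1 h1)).symm
  exact hinj.countable

theorem model_part (L : Lang) (M : Type) [Infinite M] (S : Str M) (hT : CompSet (Th L S))
    (htypes : ∀ (n : ℕ) (p : Set Fm), IsType L S n p → CompSet p) :
    ∃ (tr : List Bool → Bool) (F : ℕ → List (ℕ → Bool) → (ℕ → Bool)), Good tr ∧
      (∀ k s, F k s ∈ Paths tr) ∧
      ∀ (X : ℕ → Bool) (pos : ℕ → ℕ → ℕ), Computable₂ pos →
        (∀ k N, ∃ m, N ≤ m ∧ (fun l => X (pos m l)) =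
          F k ((List.range m).map (fun i l => X (pos i l)))) →
        ∃ N : Str ℕ, Th L N = Th L S ∧ Saturated L N ∧ DiagramDec L N X := by
  obtain ⟨A, hAc, hAi⟩ := hT
  have hA : DecT L S A := ⟨hAc, hAi⟩
  -- enumerate the types
  have hct : Set.Countable {p : ℕ × (ℕ → Bool) | Ty L S (p.1 + 1) p.2} := by
    have : Countable {f : ℕ → Bool // Computable f} := countable_computable
    let g : {p : ℕ × (ℕ → Bool) | Ty L S (p.1 + 1) p.2} → ℕ × {f : ℕ → Bool // Computable f} :=
      fun p => (p.1.1, ⟨p.1.2, Ty.comp p.2 htypes⟩)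
    have hg : Function.Injective g := by
      rintro ⟨⟨n, q⟩, h⟩ ⟨⟨n', q'⟩, h'⟩ e
      simp only [g, Prod.mk.injEq, Subtype.mk.injEq] at e
      obtain ⟨e1, e2⟩ := e
      subst e1 e2
      rfl
    exact hg.countable
  obtain ⟨f, hf⟩ := Set.countable_iff_exists_subset_range.1 hct
  refine ⟨pT L A, fun k => stratF L S A (f k).1 (f k).2, pT_good hA htypes, ?_, ?_⟩
  · intro k s
    beta_reduce
    rw [stratF]
    split_ifs with h
    · exact encP_path hA h.choose_spec.1
    · exact zero_path
  · intro X pos hpos hstrat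
    have hE : ∀ n q, Ty L S (n + 1) q → ∃ m, n ≤ m ∧ (fun i l => X (pos i l)) m =
        stratF L S A n q ((List.range m).map (fun i l => X (pos i l))) := by
      intro n q hq
      obtain ⟨k, hk⟩ := hf (show (n, q) ∈ {p : ℕ × (ℕ → Bool) | Ty L S (p.1 + 1) p.2} from hq)
      obtain ⟨m, hm, hm'⟩ := hstrat k n
      beta_reduce at hm'
      rw [hk] at hm'
      exact ⟨m, hm, hm'⟩
    obtain ⟨w, hw⟩ := exists_dat hA.ty0 (fun i l => X (pos i l)) hE
    refine ⟨Nst S w, hw.th, hw.saturated, fun x => Dinf L A (fun i l => X (pos i l)) (rc x), ?_,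
      fun φ a hφ => hw.diagram φ a hφ⟩
    have h1 : TT (fun X (p : ℕ × ℕ) => X (pos p.1 p.2)) := TT.query hpos
    have h2 := tt_DD hA (fun X i l => X (pos i l)) h1
    have h3 : Computable (fun x : ℕ => (rc x + 1, rc x)) := (cSucc comp_rc).pair comp_rc
    have h4 := h2.comp_arg h3
    have h5 : Computable₂ (fun (_ : ℕ) (b : Bool) => b.toNat) := by
      have hN : Computable Bool.toNat := (Primrec.dom_finite _).to_comp
      have := hN.comp (Computable.snd (α := ℕ) (β := Bool))
      exact this
    have h6 := (h4.map h5).reduces X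
    exact h6

end Pool.Agent.Helper344.SB
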