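import Mathlib
import Pool.Agent.Helper344.SBDefs

set_option autoImplicit false

namespace Pool.Agent.Helper344.SB.PAA

open Nat.Partrec (Code)
open Pool.Agent.Helper344.SB


/-! ### polynomial terms -/

inductive PT (γ : Type) : Type
  | var (k : γ) : PT γ
  | zero : PT γ
  | succ (a : PT γ) : PT γ
  | add (a b : PT γ) : PT γ
  | mul (a b : PT γ) : PT γ

namespace PT

def ev {γ : Type} (v : γ → ℕ) : PT γ → ℕ
  | .var k => v k
  | .zero => 0
  | .succ a => ev v a + 1
  | .add a b => ev v a + ev v b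
  | .mul a b => ev v a * ev v b

def map {γ δ : Type} (h : γ → δ) : PT γ → PT δ
  | .var k => .var (h k)
  | .zero => .zero
  | .succ a => .succ (map h a)
  | .add a b => .add (map h a) (map h b)
  | .mul a b => .mul (map h a) (map h b)

def vars {γ : Type} : PT γ → Set γ
  | .var k => {k}
  | .zero => ∅
  | .succ a => vars a
  | .add a b => vars a ∪ vars b
  | .mul a b => vars a ∪ vars b

def lt (m : ℕ) : PT ℕ → Prop
  | .var k => k < m
  | .zero => True
  | .succ a => lt m a
  | .add a b => lt m a ∧ lt m b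
  | .mul a b => lt m a ∧ lt m b

def evM {M : Type} (S : Str M) (v : ℕ → M) : PT ℕ → M
  | .var k => v k
  | .zero => S.fn 0 []
  | .succ a => S.fn 1 [evM S v a]
  | .add a b => S.fn 2 [evM S v a, evM S v b]
  | .mul a b => S.fn 3 [evM S v a, evM S v b]

def cst {γ : Type} : ℕ → PT γ
  | 0 => .zero
  | n + 1 => .succ (cst n)

theorem ev_cst {γ : Type} (v : γ → ℕ) (n : ℕ) : (cst n : PT γ).ev v = n := by
  induction n with
  | zero => rfl
  | succ n ih => simp only [cst, ev, ih]

theorem ev_map {γ δ : Type} (h : γ → δ) (t : δ → ℕ) (τ : PT γ) : (τ.map h).ev t = τ.ev (t ∘ h) := by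
  induction τ with
  | var k => rfl
  | zero => rfl
  | succ a ih => simp only [map, ev, ih]
  | add a b iha ihb => simp only [map, ev, iha, ihb]
  | mul a b iha ihb => simp only [map, ev, iha, ihb]

theorem ev_congr {γ : Type} {v w : γ → ℕ} (τ : PT γ) (h : ∀ i ∈ τ.vars, v i = w i) :
    τ.ev v = τ.ev w := by
  induction τ with
  | var k => exact h k rfl
  | zero => rfl
  | succ a ih => simp only [ev]; rw [ih h]
  | add a b iha ihb =>
    simp only [ev]
    rw [iha (fun i hi => h i (Or.inl hi)), ihb (fun i hi => h i (Or.inr hi))]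
  | mul a b iha ihb =>
    simp only [ev]
    rw [iha (fun i hi => h i (Or.inl hi)), ihb (fun i hi => h i (Or.inr hi))]

theorem vars_finite {γ : Type} (τ : PT γ) : τ.vars.Finite := by
  induction τ with
  | var k => exact Set.finite_singleton k
  | zero => exact Set.finite_empty
  | succ a ih => exact ih
  | add a b iha ihb => exact iha.union ihb
  | mul a b iha ihb => exact iha.union ihb

theorem lt_mono {m m' : ℕ} (hm : m ≤ m') : ∀ {τ : PT ℕ}, τ.lt m → τ.lt m'
  | .var k, h => lt_of_lt_of_le h hm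
  | .zero, _ => trivial
  | .succ a, h => lt_mono (τ := a) hm h
  | .add a b, h => ⟨lt_mono (τ := a) hm h.1, lt_mono (τ := b) hm h.2⟩
  | .mul a b, h => ⟨lt_mono (τ := a) hm h.1, lt_mono (τ := b) hm h.2⟩

theorem exists_lt (τ : PT ℕ) : ∃ m, τ.lt m := by
  induction τ with
  | var k => exact ⟨k + 1, Nat.lt_succ_self k⟩
  | zero => exact ⟨0, trivial⟩
  | succ a ih => exact ih
  | add a b iha ihb =>
    obtain ⟨m, hm⟩ := iha
    obtain ⟨m', hm'⟩ := ihb
    exact ⟨max m m', lt_mono (le_max_left _ _) hm, lt_mono (le_max_right _ _) hm'⟩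
  | mul a b iha ihb =>
    obtain ⟨m, hm⟩ := iha
    obtain ⟨m', hm'⟩ := ihb
    exact ⟨max m m', lt_mono (le_max_left _ _) hm, lt_mono (le_max_right _ _) hm'⟩

theorem evM_congr {M : Type} (S : Str M) {v w : ℕ → M} {m : ℕ} (h : ∀ i < m, v i = w i)
    {τ : PT ℕ} (hτ : τ.lt m) : τ.evM S v = τ.evM S w := by
  induction τ with
  | var k => exact h k hτ
  | zero => rfl
  | succ a ih => simp only [evM]; rw [ih hτ]
  | add a b iha ihb => simp only [evM]; rw [iha hτ.1, ihb hτ.2]
  | mul a b iha ihb => simp only [evM]; rw [iha hτ.1, ihb hτ.2]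

end PT

theorem poly_terms {α : Type} {f : (α → ℕ) → ℤ} (hf : IsPoly f) :
    ∃ P Q : PT α, ∀ v, f v = (P.ev v : ℤ) - (Q.ev v : ℤ) := by
  induction hf with
  | proj i => exact ⟨.var i, .zero, fun v => by simp [PT.ev]⟩
  | const n =>
    refine ⟨PT.cst n.toNat, PT.cst (-n).toNat, fun v => ?_⟩
    rw [PT.ev_cst, PT.ev_cst]
    show n = _
    omega
  | sub _ _ ihf ihg =>
    obtain ⟨P, Q, h⟩ := ihf
    obtain ⟨P', Q', h'⟩ := ihg
    refine ⟨.add P Q', .add Q P', fun v => ?_⟩
    simp only [PT.ev]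
    rw [h, h']
    push_cast
    ring
  | mul _ _ ihf ihg =>
    obtain ⟨P, Q, h⟩ := ihf
    obtain ⟨P', Q', h'⟩ := ihg
    refine ⟨.add (.mul P P') (.mul Q Q'), .add (.mul P Q') (.mul Q P'), fun v => ?_⟩
    simp only [PT.ev]
    rw [h, h']
    push_cast
    ring

theorem dioph_terms {p : ℕ → Prop} (h : Dioph {v : Unit → ℕ | p (v ())}) :
    ∃ P Q : PT ℕ, ∀ e, p e ↔ ∃ t : ℕ → ℕ, t 0 = e ∧ P.ev t = Q.ev t := by
  classical
  obtain ⟨β, q, hq⟩ := h
  obtain ⟨P, Q, hPQ⟩ := poly_terms q.isPoly
  have hF : (P.vars ∪ Q.vars).Finite := P.vars_finite.union Q.vars_finite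
  obtain ⟨g, hg⟩ := Set.countable_iff_exists_injOn.mp hF.countable
  let h : Unit ⊕ β → ℕ := Sum.elim (fun _ => 0) (fun b => g (Sum.inr b) + 1)
  refine ⟨P.map h, Q.map h, fun e => ?_⟩
  have hq' : p e ↔ ∃ t : β → ℕ, q (Sum.elim (fun _ : Unit => e) t) = 0 := hq (fun _ => e)
  rw [hq']
  have hkey : ∀ t : β → ℕ, q (Sum.elim (fun _ : Unit => e) t) = 0 ↔
      P.ev (Sum.elim (fun _ : Unit => e) t) = Q.ev (Sum.elim (fun _ : Unit => e) t) := by
    intro t
    have h1 : q (Sum.elim (fun _ : Unit => e) t) = (P.ev (Sum.elim (fun _ : Unit => e) t) : ℤ)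
      - (Q.ev (Sum.elim (fun _ : Unit => e) t) : ℤ) := hPQ _
    rw [h1, sub_eq_zero]
    exact Nat.cast_inj
  constructor
  · rintro ⟨t, ht⟩
    rw [hkey] at ht
    let t' : ℕ → ℕ := fun k => match k with
      | 0 => e
      | k + 1 => if hk : ∃ b, Sum.inr b ∈ P.vars ∪ Q.vars ∧ g (Sum.inr b) = k then t hk.choose else 0
    refine ⟨t', rfl, ?_⟩
    have hcong : ∀ i ∈ P.vars ∪ Q.vars, (t' ∘ h) i = Sum.elim (fun _ : Unit => e) t i := by
      rintro (_ | b) hi
      · rfl
      · have hk : ∃ b', Sum.inr b' ∈ P.vars ∪ Q.vars ∧ g (Sum.inr b') = g (Sum.inr b) := ⟨b, hi, rfl⟩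
        show (if hk : ∃ b', Sum.inr b' ∈ P.vars ∪ Q.vars ∧ g (Sum.inr b') = g (Sum.inr b)
          then t hk.choose else 0) = t b
        rw [dif_pos hk]
        have h2 := hk.choose_spec
        have h3 : (Sum.inr hk.choose : Unit ⊕ β) = Sum.inr b := hg h2.1 hi h2.2
        rw [Sum.inr.inj h3]
    rw [PT.ev_map, PT.ev_map, PT.ev_congr P (fun i hi => hcong i (Or.inl hi)),
      PT.ev_congr Q (fun i hi => hcong i (Or.inr hi))]
    exact ht
  · rintro ⟨t', ht0, ht⟩
    refine ⟨fun b => t' (h (Sum.inr b)), ?_⟩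
    rw [hkey]
    have hfun : Sum.elim (fun _ : Unit => e) (fun b => t' (h (Sum.inr b))) = t' ∘ h := by
      funext i
      rcases i with _ | b
      · exact ht0.symm
      · rfl
    rw [hfun, ← PT.ev_map, ← PT.ev_map]
    exact ht

/-! ### formulas -/

def TF : PT ℕ → ℕ → ℕ → Fm
  | .var i, j, _ => .eq i j
  | .zero, j, _ => .fn 0 [] j
  | .succ a, j, m => .ex m (.and (TF a m (m + 1)) (.fn 1 [m] j))
  | .add a b, j, m => .ex m (.ex (m + 1)
      (.and (TF a m (m + 2)) (.and (TF b (m + 1) (m + 2)) (.fn 2 [m, m + 1] j))))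
  | .mul a b, j, m => .ex m (.ex (m + 1)
      (.and (TF a m (m + 2)) (.and (TF b (m + 1) (m + 2)) (.fn 3 [m, m + 1] j))))

theorem sat_TF {M : Type} (S : Str M) (τ : PT ℕ) : ∀ (j m : ℕ) (v : ℕ → M), τ.lt m → j < m →
    (Sat S v (TF τ j m) ↔ τ.evM S v = v j) := by
  induction τ with
  | var k => intro j m v _ _; exact Iff.rfl
  | zero => intro j m v _ _; exact Iff.rfl
  | succ a ih =>
    intro j m v ha hj
    have key : ∀ x : M, (Sat S (Function.update v m x) (TF a m (m + 1)) ↔ a.evM S v = x) := by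
      intro x
      rw [ih m (m + 1) _ (PT.lt_mono (Nat.le_succ m) ha) (Nat.lt_succ_self m)]
      rw [Function.update_self]
      rw [PT.evM_congr S (v := Function.update v m x) (w := v) (m := m) (τ := a)
        (fun i hi => Function.update_of_ne hi.ne _ _) ha]
    show (∃ x, Sat S (Function.update v m x) (TF a m (m + 1)) ∧
      S.fn 1 [Function.update v m x m] = Function.update v m x j) ↔ S.fn 1 [a.evM S v] = v j
    constructor
    · rintro ⟨x, h1, h2⟩
      rw [key] at h1
      rw [Function.update_self, Function.update_of_ne hj.ne] at h2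
      rw [h1]; exact h2
    · intro h
      refine ⟨a.evM S v, (key _).mpr rfl, ?_⟩
      rw [Function.update_self, Function.update_of_ne hj.ne]
      exact h
  | add a b iha ihb =>
    intro j m v hab hj
    have key : ∀ x y : M, (Sat S (Function.update (Function.update v m x) (m + 1) y) (TF a m (m + 2))
        ↔ a.evM S v = x) ∧
        (Sat S (Function.update (Function.update v m x) (m + 1) y) (TF b (m + 1) (m + 2))
        ↔ b.evM S v = y) := by
      intro x y
      have hag : ∀ i < m, Function.update (Function.update v m x) (m + 1) y i = v i := by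
        intro i hi
        rw [Function.update_of_ne (by omega), Function.update_of_ne (by omega)]
      constructor
      · rw [iha m (m + 2) _ (PT.lt_mono (by omega) hab.1) (by omega),
          PT.evM_congr S hag hab.1, Function.update_of_ne (by omega), Function.update_self]
      · rw [ihb (m + 1) (m + 2) _ (PT.lt_mono (by omega) hab.2) (by omega),
          PT.evM_congr S hag hab.2, Function.update_self]
    show (∃ x, ∃ y, Sat S (Function.update (Function.update v m x) (m + 1) y) (TF a m (m + 2)) ∧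
      Sat S (Function.update (Function.update v m x) (m + 1) y) (TF b (m + 1) (m + 2)) ∧
      S.fn 2 [Function.update (Function.update v m x) (m + 1) y m,
        Function.update (Function.update v m x) (m + 1) y (m + 1)] =
        Function.update (Function.update v m x) (m + 1) y j) ↔
      S.fn 2 [a.evM S v, b.evM S v] = v j
    have e1 : ∀ x y : M, Function.update (Function.update v m x) (m + 1) y m = x := by
      intro x y; rw [Function.update_of_ne (by omega), Function.update_self]
    have e2 : ∀ x y : M, Function.update (Function.update v m x) (m + 1) y (m + 1) = y := by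
      intro x y; rw [Function.update_self]
    have e3 : ∀ x y : M, Function.update (Function.update v m x) (m + 1) y j = v j := by
      intro x y; rw [Function.update_of_ne (by omega), Function.update_of_ne (by omega)]
    constructor
    · rintro ⟨x, y, h1, h2, h3⟩
      rw [(key x y).1] at h1
      rw [(key x y).2] at h2
      rw [e1, e2, e3] at h3
      rw [h1, h2]; exact h3
    · intro h
      refine ⟨a.evM S v, b.evM S v, (key _ _).1.mpr rfl, (key _ _).2.mpr rfl, ?_⟩
      rw [e1, e2, e3]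
      exact h
  | mul a b iha ihb =>
    intro j m v hab hj
    have key : ∀ x y : M, (Sat S (Function.update (Function.update v m x) (m + 1) y) (TF a m (m + 2))
        ↔ a.evM S v = x) ∧
        (Sat S (Function.update (Function.update v m x) (m + 1) y) (TF b (m + 1) (m + 2))
        ↔ b.evM S v = y) := by
      intro x y
      have hag : ∀ i < m, Function.update (Function.update v m x) (m + 1) y i = v i := by
        intro i hi
        rw [Function.update_of_ne (by omega), Function.update_of_ne (by omega)]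
      constructor
      · rw [iha m (m + 2) _ (PT.lt_mono (by omega) hab.1) (by omega),
          PT.evM_congr S hag hab.1, Function.update_of_ne (by omega), Function.update_self]
      · rw [ihb (m + 1) (m + 2) _ (PT.lt_mono (by omega) hab.2) (by omega),
          PT.evM_congr S hag hab.2, Function.update_self]
    show (∃ x, ∃ y, Sat S (Function.update (Function.update v m x) (m + 1) y) (TF a m (m + 2)) ∧
      Sat S (Function.update (Function.update v m x) (m + 1) y) (TF b (m + 1) (m + 2)) ∧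
      S.fn 3 [Function.update (Function.update v m x) (m + 1) y m,
        Function.update (Function.update v m x) (m + 1) y (m + 1)] =
        Function.update (Function.update v m x) (m + 1) y j) ↔
      S.fn 3 [a.evM S v, b.evM S v] = v j
    have e1 : ∀ x y : M, Function.update (Function.update v m x) (m + 1) y m = x := by
      intro x y; rw [Function.update_of_ne (by omega), Function.update_self]
    have e2 : ∀ x y : M, Function.update (Function.update v m x) (m + 1) y (m + 1) = y := by
      intro x y; rw [Function.update_self]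
    have e3 : ∀ x y : M, Function.update (Function.update v m x) (m + 1) y j = v j := by
      intro x y; rw [Function.update_of_ne (by omega), Function.update_of_ne (by omega)]
    constructor
    · rintro ⟨x, y, h1, h2, h3⟩
      rw [(key x y).1] at h1
      rw [(key x y).2] at h2
      rw [e1, e2, e3] at h3
      rw [h1, h2]; exact h3
    · intro h
      refine ⟨a.evM S v, b.evM S v, (key _ _).1.mpr rfl, (key _ _).2.mpr rfl, ?_⟩
      rw [e1, e2, e3]
      exact h

theorem wf_TF (τ : PT ℕ) : ∀ j m, WF LPA (TF τ j m) := by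
  induction τ with
  | var k => intro j m; trivial
  | zero => intro j m; rfl
  | succ a ih => intro j m; exact ⟨ih _ _, rfl⟩
  | add a b iha ihb => intro j m; exact ⟨iha _ _, ihb _ _, rfl⟩
  | mul a b iha ihb => intro j m; exact ⟨iha _ _, ihb _ _, rfl⟩

/-- `x_a ≤ x_y`, with auxiliary variable `m` -/
def leF (a y m : ℕ) : Fm := .ex m (.fn 2 [m, a] y)

def leM {M : Type} (S : Str M) (x y : M) : Prop := ∃ z, S.fn 2 [z, x] = y

theorem sat_leF {M : Type} (S : Str M) (a y m : ℕ) (ha : a ≠ m) (hy : y ≠ m) (v : ℕ → M) :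
    Sat S v (leF a y m) ↔ leM S (v a) (v y) := by
  show (∃ z, S.fn 2 [Function.update v m z m, Function.update v m z a] = Function.update v m z y) ↔ _
  simp only [Function.update_self, Function.update_of_ne ha, Function.update_of_ne hy]
  exact Iff.rfl

def EQF (P Q : PT ℕ) (j : ℕ) : Fm := .ex j (.and (TF P j (j + 1)) (TF Q j (j + 1)))

theorem sat_EQF {M : Type} (S : Str M) (P Q : PT ℕ) (j : ℕ) (hP : P.lt j) (hQ : Q.lt j)
    (v : ℕ → M) : Sat S v (EQF P Q j) ↔ P.evM S v = Q.evM S v := by
  have key : ∀ (τ : PT ℕ), τ.lt j → ∀ x : M,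
      (Sat S (Function.update v j x) (TF τ j (j + 1)) ↔ τ.evM S v = x) := by
    intro τ hτ x
    rw [sat_TF S τ j (j + 1) _ (PT.lt_mono (Nat.le_succ j) hτ) (Nat.lt_succ_self j),
      Function.update_self,
      PT.evM_congr S (v := Function.update v j x) (w := v) (m := j)
        (fun i hi => Function.update_of_ne hi.ne _ _) hτ]
  show (∃ x, Sat S (Function.update v j x) (TF P j (j + 1)) ∧
    Sat S (Function.update v j x) (TF Q j (j + 1))) ↔ _
  constructor
  · rintro ⟨x, h1, h2⟩
    rw [key P hP] at h1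
    rw [key Q hQ] at h2
    rw [h1, h2]
  · intro h
    exact ⟨P.evM S v, (key P hP _).mpr rfl, (key Q hQ _).mpr h.symm⟩

def exsB (y : ℕ) : ℕ → Fm → Fm
  | 0, φ => φ
  | k + 1, φ => .ex (k + 1) (.and (leF (k + 1) y (y + 1)) (exsB y k φ))

def upd {M : Type} (k : ℕ) (v t : ℕ → M) : ℕ → M := fun i => if 1 ≤ i ∧ i ≤ k then t i else v i

theorem sat_exsB {M : Type} (S : Str M) (y : ℕ) (φ : Fm) : ∀ k < y, ∀ v : ℕ → M,
    (Sat S v (exsB y k φ) ↔ ∃ t : ℕ → M, (∀ i, 1 ≤ i → i ≤ k → leM S (t i) (v y)) ∧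
      Sat S (upd k v t) φ) := by
  intro k
  induction k with
  | zero =>
    intro _ v
    have h0 : ∀ t : ℕ → M, upd 0 v t = v := by
      intro t
      funext i
      unfold upd
      rw [if_neg (by omega)]
    constructor
    · intro h
      exact ⟨v, fun i h1 h2 => by omega, by rw [h0]; exact h⟩
    · rintro ⟨t, -, h⟩
      rw [h0] at h
      exact h
  | succ k ih =>
    intro hk v
    have hstep : Sat S v (exsB y (k + 1) φ) ↔ ∃ a, leM S a (v y) ∧
        Sat S (Function.update v (k + 1) a) (exsB y k φ) := by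
      show (∃ a, Sat S (Function.update v (k + 1) a) (leF (k + 1) y (y + 1)) ∧
        Sat S (Function.update v (k + 1) a) (exsB y k φ)) ↔ _
      have : ∀ a, (Sat S (Function.update v (k + 1) a) (leF (k + 1) y (y + 1)) ↔ leM S a (v y)) := by
        intro a
        rw [sat_leF S (k + 1) y (y + 1) (by omega) (by omega), Function.update_self,
          Function.update_of_ne (by omega)]
      simp only [this]
    rw [hstep]
    constructor
    · rintro ⟨a, ha, h⟩
      rw [ih (by omega)] at h
      obtain ⟨t, ht, h⟩ := h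
      refine ⟨Function.update t (k + 1) a, ?_, ?_⟩
      · intro i h1 h2
        by_cases hi : i = k + 1
        · rw [hi, Function.update_self]; exact ha
        · rw [Function.update_of_ne hi]
          have := ht i h1 (by omega)
          rwa [Function.update_of_ne (by omega)] at this
      · have : upd (k + 1) v (Function.update t (k + 1) a) =
            upd k (Function.update v (k + 1) a) t := by
          funext i
          unfold upd
          by_cases hi : i = k + 1
          · rw [if_pos (by omega), if_neg (by omega), hi, Function.update_self, Function.update_self]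
          · rw [Function.update_of_ne hi, Function.update_of_ne hi]
            by_cases h1 : 1 ≤ i ∧ i ≤ k
            · rw [if_pos h1, if_pos (by omega)]
            · rw [if_neg h1, if_neg (by omega)]
        rw [this]
        exact h
    · rintro ⟨t, ht, h⟩
      refine ⟨t (k + 1), ht (k + 1) (by omega) le_rfl, ?_⟩
      rw [ih (by omega)]
      refine ⟨t, ?_, ?_⟩
      · intro i h1 h2
        rw [Function.update_of_ne (by omega)]
        exact ht i h1 (by omega)
      · have : upd k (Function.update v (k + 1) (t (k + 1))) t = upd (k + 1) v t := by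
          funext i
          unfold upd
          by_cases hi : i = k + 1
          · rw [if_neg (by omega), if_pos (by omega), hi, Function.update_self]
          · rw [Function.update_of_ne hi]
            by_cases h1 : 1 ≤ i ∧ i ≤ k
            · rw [if_pos h1, if_pos (by omega)]
            · rw [if_neg h1, if_neg (by omega)]
        rw [this]
        exact h

theorem wf_exsB (y : ℕ) {φ : Fm} (h : WF LPA φ) : ∀ k, WF LPA (exsB y k φ) := by
  intro k
  induction k with
  | zero => exact h
  | succ k ih => exact ⟨rfl, ih⟩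

/-- the bounded existential formula -/
def alphaF (P Q : PT ℕ) (K : ℕ) : Fm := exsB (K + 1) K (EQF P Q (K + 2))

def comb {M : Type} (x : M) (t : ℕ → M) : ℕ → M := fun i => if i = 0 then x else t i

def AlphaM {M : Type} (S : Str M) (P Q : PT ℕ) (K : ℕ) (x y : M) : Prop :=
  ∃ t : ℕ → M, (∀ i, 1 ≤ i → i ≤ K → leM S (t i) y) ∧ P.evM S (comb x t) = Q.evM S (comb x t)

theorem sat_alphaF {M : Type} (S : Str M) (P Q : PT ℕ) (K : ℕ) (hP : P.lt (K + 1))
    (hQ : Q.lt (K + 1)) (v : ℕ → M) :
    Sat S v (alphaF P Q K) ↔ AlphaM S P Q K (v 0) (v (K + 1)) := by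
  unfold alphaF AlphaM
  rw [sat_exsB S (K + 1) _ K (Nat.lt_succ_self K)]
  have key : ∀ t : ℕ → M, (Sat S (upd K v t) (EQF P Q (K + 2)) ↔
      P.evM S (comb (v 0) t) = Q.evM S (comb (v 0) t)) := by
    intro t
    rw [sat_EQF S P Q (K + 2) (PT.lt_mono (by omega) hP) (PT.lt_mono (by omega) hQ)]
    have hag : ∀ i < K + 1, upd K v t i = comb (v 0) t i := by
      intro i hi
      unfold upd comb
      by_cases h0 : i = 0
      · rw [if_neg (by omega), if_pos h0, h0]
      · rw [if_pos (by omega), if_neg h0]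
    rw [PT.evM_congr S hag hP, PT.evM_congr S hag hQ]
  simp only [key]

theorem wf_alphaF (P Q : PT ℕ) (K : ℕ) : WF LPA (alphaF P Q K) :=
  wf_exsB _ (φ := EQF P Q (K + 2)) ⟨wf_TF _ _ _, wf_TF _ _ _⟩ _

def psiF (PA QA PB QB : PT ℕ) (K : ℕ) : Fm :=
  .ex (K + 1) (.and (alphaF PA QA K) (.neg (alphaF PB QB K)))

theorem sat_psiF {M : Type} (S : Str M) (PA QA PB QB : PT ℕ) (K : ℕ) (h1 : PA.lt (K + 1))
    (h2 : QA.lt (K + 1)) (h3 : PB.lt (K + 1)) (h4 : QB.lt (K + 1)) (v : ℕ → M) :
    Sat S v (psiF PA QA PB QB K) ↔ ∃ y, AlphaM S PA QA K (v 0) y ∧ ¬ AlphaM S PB QB K (v 0) y := by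
  show (∃ y, Sat S (Function.update v (K + 1) y) (alphaF PA QA K) ∧
    ¬ Sat S (Function.update v (K + 1) y) (alphaF PB QB K)) ↔ _
  simp only [sat_alphaF S PA QA K h1 h2, sat_alphaF S PB QB K h3 h4, Function.update_self,
    Function.update_of_ne (Nat.succ_ne_zero K).symm]

/-! ### numerals -/

def num {M : Type} (S : Str M) : ℕ → M
  | 0 => S.fn 0 []
  | n + 1 => S.fn 1 [num S n]

def EF : ℕ → Fm
  | 0 => .fn 0 [] 0
  | e + 1 => .ex 1 (.and (.ex 0 (.and (EF e) (.eq 0 1))) (.fn 1 [1] 0))

theorem sat_EF {M : Type} (S : Str M) : ∀ (e : ℕ) (v : ℕ → M), Sat S v (EF e) ↔ v 0 = num S e := by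
  intro e
  induction e with
  | zero => intro v; exact eq_comm
  | succ e ih =>
    intro v
    show (∃ a, (∃ b, Sat S (Function.update (Function.update v 1 a) 0 b) (EF e) ∧
      Function.update (Function.update v 1 a) 0 b 0 = Function.update (Function.update v 1 a) 0 b 1) ∧
      S.fn 1 [Function.update v 1 a 1] = Function.update v 1 a 0) ↔ v 0 = S.fn 1 [num S e]
    have e0 : ∀ a, Function.update v 1 a 0 = v 0 := fun a => Function.update_of_ne (by norm_num) _ _
    have e1 : ∀ a, Function.update v 1 a 1 = a := fun a => Function.update_self _ _ _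
    have e2 : ∀ a b, Function.update (Function.update v 1 a) 0 b 1 = a := fun a b => by
      rw [Function.update_of_ne (by norm_num), e1]
    simp only [ih, Function.update_self, e0, e2]
    constructor
    · rintro ⟨a, ⟨b, h1, h2⟩, h3⟩
      rw [← h3, ← h2, h1]
    · intro h
      exact ⟨num S e, ⟨num S e, rfl, rfl⟩, h.symm⟩

theorem wf_EF : ∀ e, WF LPA (EF e)
  | 0 => rfl
  | e + 1 => ⟨⟨wf_EF e, trivial⟩, rfl⟩

theorem free_EF (e : ℕ) : free (EF e) ⊆ {0} := by
  intro i hi
  cases e with
  | zero =>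
    rcases hi with h | h
    · simp at h
    · exact h
  | succ e =>
    obtain ⟨h1, h2⟩ := hi
    rcases h1 with ⟨h3, h4⟩ | h3
    · rcases h3 with h3 | h3
      · have h5 : i ∈ free (EF e) := h3
        exact absurd (free_EF e h5) h4
      · rcases h3 with h3 | h3
        · exact h3
        · exact absurd h3 h2
    · rcases h3 with h3 | h3
      · simp only [List.mem_singleton] at h3
        exact absurd h3 h2
      · exact h3

theorem free_bdd (φ : Fm) : ∃ m, ∀ i ∈ free φ, i < m := by
  induction φ with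
  | eq i j =>
    refine ⟨max i j + 1, ?_⟩
    rintro x (h | h)
    · rw [h]; omega
    · rw [h]; omega
  | rel e a =>
    refine ⟨a.toFinset.sup id + 1, ?_⟩
    intro x hx
    have : x ≤ a.toFinset.sup id := Finset.le_sup (f := id) (List.mem_toFinset.mpr hx)
    omega
  | fn e a j =>
    refine ⟨max (a.toFinset.sup id) j + 1, ?_⟩
    rintro x (hx | hx)
    · have : x ≤ a.toFinset.sup id := Finset.le_sup (f := id) (List.mem_toFinset.mpr hx)
      omega
    · rw [hx]; omega
  | neg φ ih => exact ih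
  | and φ ψ ih1 ih2 =>
    obtain ⟨m, hm⟩ := ih1
    obtain ⟨m', hm'⟩ := ih2
    refine ⟨max m m', ?_⟩
    rintro x (hx | hx)
    · have := hm x hx; omega
    · have := hm' x hx; omega
  | ex i φ ih =>
    obtain ⟨m, hm⟩ := ih
    exact ⟨m, fun x hx => hm x hx.1⟩

/-- closure -/
def clo : ℕ → Fm → Fm
  | 0, φ => φ
  | k + 1, φ => .ex k (clo k φ)

theorem free_clo (φ : Fm) : ∀ k, ∀ i ∈ free (clo k φ), i ∈ free φ ∧ k ≤ i := by
  intro k
  induction k with
  | zero => intro i hi; exact ⟨hi, Nat.zero_le _⟩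
  | succ k ih =>
    rintro i ⟨hi, hik⟩
    obtain ⟨h1, h2⟩ := ih i hi
    refine ⟨h1, ?_⟩
    have : i ≠ k := hik
    omega

theorem wf_clo {φ : Fm} (h : WF LPA φ) : ∀ k, WF LPA (clo k φ) := by
  intro k
  induction k with
  | zero => exact h
  | succ k ih => exact ih

theorem sat_clo {M : Type} (S : Str M) {φ : Fm} (h : ∀ v, Sat S v φ) : ∀ k v, Sat S v (clo k φ) := by
  intro k
  induction k with
  | zero => exact h
  | succ k ih => intro v; exact ⟨v 0, ih _⟩

theorem not_sat_clo {M : Type} (S : Str M) {φ : Fm} (h : ∀ v, ¬ Sat S v φ) :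
    ∀ k v, ¬ Sat S v (clo k φ) := by
  intro k
  induction k with
  | zero => exact h
  | succ k ih =>
    rintro v ⟨m, hm⟩
    exact ih _ hm

/-! ### arithmetic in a model -/

section model

variable {M : Type} {S : Str M} (hS : IsPA S)

include hS

theorem num_inj : ∀ {a b : ℕ}, num S a = num S b → a = b
  | 0, 0, _ => rfl
  | 0, b + 1, h => absurd h.symm (hS.1 _)
  | a + 1, 0, h => absurd h (hS.1 _)
  | a + 1, b + 1, h => by rw [num_inj (hS.2.1 _ _ h)]

theorem add_num (a b : ℕ) : S.fn 2 [num S a, num S b] = num S (a + b) := by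
  induction b with
  | zero => exact hS.2.2.1 _
  | succ b ih =>
    show S.fn 2 [num S a, S.fn 1 [num S b]] = _
    rw [hS.2.2.2.1, ih]
    rfl

theorem mul_num (a b : ℕ) : S.fn 3 [num S a, num S b] = num S (a * b) := by
  induction b with
  | zero => exact hS.2.2.2.2.1 _
  | succ b ih =>
    show S.fn 3 [num S a, S.fn 1 [num S b]] = _
    rw [hS.2.2.2.2.2.1, ih, add_num hS]
    rfl

theorem evM_num (t : ℕ → ℕ) (τ : PT ℕ) : τ.evM S (fun i => num S (t i)) = num S (τ.ev t) := by
  induction τ with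
  | var k => rfl
  | zero => rfl
  | succ a ih => simp only [PT.evM, PT.ev]; rw [ih]; rfl
  | add a b iha ihb => simp only [PT.evM, PT.ev]; rw [iha, ihb, add_num hS]
  | mul a b iha ihb => simp only [PT.evM, PT.ev]; rw [iha, ihb, mul_num hS]

theorem zero_or_succ (a : M) : a = S.fn 0 [] ∨ ∃ b, a = S.fn 1 [b] := by
  let φ : Fm := .neg (.and (.neg (.fn 0 [] 0)) (.neg (.ex 1 (.fn 1 [1] 0))))
  have hφ : ∀ v : ℕ → M, (Sat S v φ ↔ (v 0 = S.fn 0 [] ∨ ∃ b, v 0 = S.fn 1 [b])) := by
    intro v
    show (¬ (¬ (S.fn 0 [] = v 0) ∧ ¬ (∃ b, S.fn 1 [Function.update v 1 b 1] =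
      Function.update v 1 b 0))) ↔ _
    have e0 : ∀ a, Function.update v 1 a 0 = v 0 := fun a => Function.update_of_ne (by norm_num) _ _
    simp only [Function.update_self, e0]
    rw [not_and_or, not_not, not_not]
    constructor
    · rintro (h | ⟨b, h⟩)
      · exact Or.inl h.symm
      · exact Or.inr ⟨b, h.symm⟩
    · rintro (h | ⟨b, h⟩)
      · exact Or.inl h.symm
      · exact Or.inr ⟨b, h.symm⟩
  have hwf : WF LPA φ := ⟨rfl, rfl⟩
  have h := hS.2.2.2.2.2.2 φ 0 (fun _ => a) hwf (by
    rw [hφ]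
    left
    rw [Function.update_self]) (by
    intro x _
    rw [hφ]
    right
    exact ⟨x, by rw [Function.update_self]⟩) a
  rw [hφ, Function.update_self] at h
  exact h

theorem add_eq_num : ∀ (n : ℕ) (z t : M), S.fn 2 [z, t] = num S n → ∃ k ≤ n, t = num S k := by
  intro n
  induction n with
  | zero =>
    intro z t h
    rcases zero_or_succ hS t with ht | ⟨t', ht⟩
    · exact ⟨0, le_rfl, ht⟩
    · rw [ht, hS.2.2.2.1] at h
      exact absurd h (hS.1 _)
  | succ n ih =>
    intro z t h
    rcases zero_or_succ hS t with ht | ⟨t', ht⟩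
    · exact ⟨0, Nat.zero_le _, ht⟩
    · rw [ht, hS.2.2.2.1] at h
      obtain ⟨k, hk, hk'⟩ := ih z t' (hS.2.1 _ _ h)
      exact ⟨k + 1, by omega, by rw [ht, hk']; rfl⟩

theorem succ_add_num (w : M) (n : ℕ) :
    S.fn 2 [S.fn 1 [w], num S n] = S.fn 2 [w, num S (n + 1)] := by
  induction n with
  | zero =>
    show S.fn 2 [S.fn 1 [w], S.fn 0 []] = S.fn 2 [w, S.fn 1 [S.fn 0 []]]
    rw [hS.2.2.1, hS.2.2.2.1, hS.2.2.1]
  | succ n ih =>
    show S.fn 2 [S.fn 1 [w], S.fn 1 [num S n]] = S.fn 2 [w, S.fn 1 [num S (n + 1)]]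
    rw [hS.2.2.2.1, hS.2.2.2.1, ih]

theorem num_or_le (n : ℕ) (y : M) : (∃ k ≤ n, y = num S k) ∨ leM S (num S n) y := by
  induction n with
  | zero => right; exact ⟨y, hS.2.2.1 _⟩
  | succ n ih =>
    rcases ih with ⟨k, hk, hk'⟩ | ⟨w, hw⟩
    · left; exact ⟨k, by omega, hk'⟩
    · rcases zero_or_succ hS w with h | ⟨w', h⟩
      · left
        refine ⟨n, by omega, ?_⟩
        rw [← hw, h]
        have := add_num hS 0 n
        rw [zero_add] at this
        exact this
      · right
        refine ⟨w', ?_⟩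
        rw [← succ_add_num hS, ← h, hw]

theorem add_assoc_num (w z : M) (t : ℕ) :
    S.fn 2 [w, S.fn 2 [z, num S t]] = S.fn 2 [S.fn 2 [w, z], num S t] := by
  induction t with
  | zero =>
    show S.fn 2 [w, S.fn 2 [z, S.fn 0 []]] = S.fn 2 [S.fn 2 [w, z], S.fn 0 []]
    rw [hS.2.2.1, hS.2.2.1]
  | succ t ih =>
    show S.fn 2 [w, S.fn 2 [z, S.fn 1 [num S t]]] = S.fn 2 [S.fn 2 [w, z], S.fn 1 [num S t]]
    rw [hS.2.2.2.1, hS.2.2.2.1, hS.2.2.2.1, ih]

theorem le_num {a b : ℕ} (h : a ≤ b) : leM S (num S a) (num S b) :=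
  ⟨num S (b - a), by rw [add_num hS]; congr 1; omega⟩

theorem le_trans_num {a b : ℕ} (h : a ≤ b) {y : M} (hy : leM S (num S b) y) :
    leM S (num S a) y := by
  obtain ⟨w, hw⟩ := hy
  refine ⟨S.fn 2 [w, num S (b - a)], ?_⟩
  rw [← add_assoc_num hS, add_num hS, ← hw]
  congr 3
  congr 1
  omega

/-- bounded witnesses give a true instance -/
theorem true_of_alpha {P Q : PT ℕ} {K : ℕ} (hP : P.lt (K + 1)) (hQ : Q.lt (K + 1)) {e n : ℕ}
    (h : AlphaM S P Q K (num S e) (num S n)) : ∃ t : ℕ → ℕ, t 0 = e ∧ P.ev t = Q.ev t := by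
  obtain ⟨t, ht, heq⟩ := h
  have hk : ∀ i, ∃ k : ℕ, 1 ≤ i → i ≤ K → t i = num S k := by
    intro i
    by_cases h1 : 1 ≤ i ∧ i ≤ K
    · obtain ⟨z, hz⟩ := ht i h1.1 h1.2
      obtain ⟨k, -, hk⟩ := add_eq_num hS n z (t i) hz
      exact ⟨k, fun _ _ => hk⟩
    · exact ⟨0, fun h2 h3 => absurd ⟨h2, h3⟩ h1⟩
  choose k hk using hk
  let s : ℕ → ℕ := fun i => if i = 0 then e else k i
  refine ⟨s, rfl, ?_⟩
  have hag : ∀ i < K + 1, comb (num S e) t i = num S (s i) := by
    intro i hi
    unfold comb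
    by_cases h0 : i = 0
    · rw [if_pos h0]; simp only [s, if_pos h0]
    · rw [if_neg h0]; simp only [s, if_neg h0]
      exact hk i (by omega) (by omega)
  rw [PT.evM_congr S hag hP, PT.evM_congr S hag hQ, evM_num hS, evM_num hS] at heq
  exact num_inj hS heq

/-- true witnesses give bounded witnesses -/
theorem alpha_of_true {P Q : PT ℕ} {K : ℕ} (hP : P.lt (K + 1)) (hQ : Q.lt (K + 1)) {e : ℕ}
    {t : ℕ → ℕ} (h0 : t 0 = e) (heq : P.ev t = Q.ev t) {y : M}
    (hy : ∀ i, 1 ≤ i → i ≤ K → leM S (num S (t i)) y) : AlphaM S P Q K (num S e) y := by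
  refine ⟨fun i => num S (t i), hy, ?_⟩
  have hag : ∀ i < K + 1, comb (num S e) (fun i => num S (t i)) i = num S (t i) := by
    intro i hi
    unfold comb
    by_cases h1 : i = 0
    · rw [if_pos h1, h1, h0]
    · rw [if_neg h1]
  rw [PT.evM_congr S hag hP, PT.evM_congr S hag hQ, evM_num hS, evM_num hS, heq]

end model

theorem exists_bound (t : ℕ → ℕ) (K : ℕ) : ∃ Y, ∀ i ≤ K, t i ≤ Y :=
  ⟨(Finset.range (K + 1)).sup t, fun i hi => Finset.le_sup (f := t) (Finset.mem_range.mpr (by omega))⟩

theorem re_eval (c : ℕ) : REPred (fun e : ℕ => c ∈ Code.eval (Denumerable.ofNat Code e) e) := by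
  have h1 : Partrec (fun e : ℕ => Code.eval (Denumerable.ofNat Code e) e) :=
    Code.eval_part.comp (Computable.ofNat Code) Computable.id
  have h2 : Computable (fun y : ℕ => if y = c then some () else none) := by
    apply Primrec.to_comp
    exact Primrec.ite (Primrec.eq.comp Primrec.id (Primrec.const c)) (Primrec.const _)
      (Primrec.const _)
  have h3 : Partrec (fun e : ℕ => (Code.eval (Denumerable.ofNat Code e) e).bind
      (fun y => ((if y = c then some () else none : Option Unit) : Part Unit))) :=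
    h1.bind (Computable.ofOption (h2.comp Computable.snd))
  refine (Partrec.dom_re h3).of_eq (fun e => ?_)
  rw [Part.dom_iff_mem]
  constructor
  · rintro ⟨x, hx⟩
    obtain ⟨y, hy, hxy⟩ := Part.mem_bind_iff.mp hx
    by_cases hc : y = c
    · rw [← hc]; exact hy
    · rw [if_neg hc] at hxy
      simp at hxy
  · intro h
    refine ⟨(), Part.mem_bind_iff.mpr ⟨c, h, ?_⟩⟩
    rw [if_pos rfl]
    simp

theorem primrec_ex {f : ℕ → Fm} (hf : Primrec (fun e => code (f e))) (i : ℕ) :
    Primrec (fun e => code (.ex i (f e))) := by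
  show Primrec (fun e => 6 * Nat.pair i (code (f e)) + 5)
  exact Primrec.nat_add.comp (Primrec.nat_mul.comp (Primrec.const 6)
    (Primrec₂.natPair.comp (Primrec.const i) hf)) (Primrec.const 5)

theorem primrec_and {f g : ℕ → Fm} (hf : Primrec (fun e => code (f e)))
    (hg : Primrec (fun e => code (g e))) : Primrec (fun e => code (.and (f e) (g e))) := by
  show Primrec (fun e => 6 * Nat.pair (code (f e)) (code (g e)) + 4)
  exact Primrec.nat_add.comp (Primrec.nat_mul.comp (Primrec.const 6)
    (Primrec₂.natPair.comp hf hg)) (Primrec.const 4)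

theorem primrec_EF : Primrec (fun e => code (EF e)) := by
  have hF : Primrec (fun n : ℕ => 6 * Nat.pair 1 (6 * Nat.pair (6 * Nat.pair 0
      (6 * Nat.pair n (code (.eq 0 1)) + 4) + 5) (code (.fn 1 [1] 0)) + 4) + 5) := by
    refine Primrec.nat_add.comp (Primrec.nat_mul.comp (Primrec.const 6)
      (Primrec₂.natPair.comp (Primrec.const 1) ?_)) (Primrec.const 5)
    refine Primrec.nat_add.comp (Primrec.nat_mul.comp (Primrec.const 6)
      (Primrec₂.natPair.comp ?_ (Primrec.const _))) (Primrec.const 4)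
    refine Primrec.nat_add.comp (Primrec.nat_mul.comp (Primrec.const 6)
      (Primrec₂.natPair.comp (Primrec.const 0) ?_)) (Primrec.const 5)
    exact Primrec.nat_add.comp (Primrec.nat_mul.comp (Primrec.const 6)
      (Primrec₂.natPair.comp Primrec.id (Primrec.const _))) (Primrec.const 4)
  refine (Primrec.nat_rec₁ (code (EF 0)) (f := fun _ n => 6 * Nat.pair 1 (6 * Nat.pair (6 * Nat.pair 0
      (6 * Nat.pair n (code (.eq 0 1)) + 4) + 5) (code (.fn 1 [1] 0)) + 4) + 5)
      (hF.comp Primrec.snd)).of_eq (fun e => ?_)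
  induction e with
  | zero => rfl
  | succ e ih =>
    simp only at ih ⊢
    rw [ih]
    rfl

theorem primrec_clo {f : ℕ → Fm} (hf : Primrec (fun e => code (f e))) :
    ∀ k, Primrec (fun e => code (clo k (f e))) := by
  intro k
  induction k with
  | zero => exact hf
  | succ k ih => exact primrec_ex ih k

/-- TARGET. The hypothesis `hd` is the DPRM theorem (proved elsewhere by a teammate). -/
theorem pa_separation
    (hd : ∀ p : ℕ → Prop, REPred p → Dioph {v : Unit → ℕ | p (v ())}) :
    ∃ θ : ℕ → Fm, Computable (fun e => code (θ e)) ∧ (∀ e, WF LPA (θ e) ∧ free (θ e) = ∅) ∧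
      ∀ (M : Type) (S : Str M), IsPA S → ∀ e : ℕ,
        (0 ∈ Code.eval (Denumerable.ofNat Code e) e → ∀ v, Sat S v (θ e)) ∧
        (1 ∈ Code.eval (Denumerable.ofNat Code e) e → ∀ v, ¬ Sat S v (θ e)) := by
  obtain ⟨PA, QA, hA⟩ := dioph_terms (hd _ (re_eval 0))
  obtain ⟨PB, QB, hB⟩ := dioph_terms (hd _ (re_eval 1))
  obtain ⟨K, k1, k2, k3, k4⟩ : ∃ K, PA.lt (K + 1) ∧ QA.lt (K + 1) ∧ PB.lt (K + 1) ∧ QB.lt (K + 1) := by
    obtain ⟨m1, h1⟩ := PA.exists_lt
    obtain ⟨m2, h2⟩ := QA.exists_lt
    obtain ⟨m3, h3⟩ := PB.exists_lt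
    obtain ⟨m4, h4⟩ := QB.exists_lt
    exact ⟨m1 + m2 + m3 + m4, PT.lt_mono (by omega) h1, PT.lt_mono (by omega) h2,
      PT.lt_mono (by omega) h3, PT.lt_mono (by omega) h4⟩
  obtain ⟨m, hm⟩ := free_bdd (psiF PA QA PB QB K)
  have hwfχ : ∀ e, WF LPA (.ex 0 (.and (EF e) (psiF PA QA PB QB K))) := fun e =>
    ⟨wf_EF e, wf_alphaF _ _ _, wf_alphaF _ _ _⟩
  have hsatχ : ∀ (M : Type) (S : Str M) (e : ℕ) (v : ℕ → M),
      (Sat S v (.ex 0 (.and (EF e) (psiF PA QA PB QB K))) ↔
        ∃ y, AlphaM S PA QA K (num S e) y ∧ ¬ AlphaM S PB QB K (num S e) y) := by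
    intro M S e v
    show (∃ x, Sat S (Function.update v 0 x) (EF e) ∧
      Sat S (Function.update v 0 x) (psiF PA QA PB QB K)) ↔ _
    simp only [sat_EF, sat_psiF S PA QA PB QB K k1 k2 k3 k4, Function.update_self]
    constructor
    · rintro ⟨x, rfl, h⟩; exact h
    · intro h; exact ⟨_, rfl, h⟩
  refine ⟨fun e => clo m (.ex 0 (.and (EF e) (psiF PA QA PB QB K))), ?_, ?_, ?_⟩
  · exact (primrec_clo (primrec_ex (primrec_and primrec_EF (Primrec.const _)) 0) m).to_comp
  · intro e
    refine ⟨wf_clo (hwfχ e) m, ?_⟩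
    rw [Set.eq_empty_iff_forall_notMem]
    intro i hi
    obtain ⟨⟨h1, h2⟩, h3⟩ := free_clo _ m i hi
    rcases h1 with h1 | h1
    · exact h2 (free_EF e h1)
    · have := hm i h1
      omega
  · intro M S hS e
    constructor
    · intro he
      have heB : ¬ (1 ∈ Code.eval (Denumerable.ofNat Code e) e) := fun h =>
        absurd (Part.mem_unique he h) (by norm_num)
      apply sat_clo
      intro v
      rw [hsatχ]
      obtain ⟨t, ht0, ht⟩ := (hA e).mp he
      obtain ⟨Y, hY⟩ := exists_bound t K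
      refine ⟨num S Y, alpha_of_true hS k1 k2 ht0 ht (fun i _ hi => le_num hS (hY i hi)), ?_⟩
      intro hB'
      exact heB ((hB e).mpr (true_of_alpha hS k3 k4 hB'))
    · intro he
      have heA : ¬ (0 ∈ Code.eval (Denumerable.ofNat Code e) e) := fun h =>
        absurd (Part.mem_unique he h) (by norm_num)
      apply not_sat_clo
      intro v
      rw [hsatχ]
      rintro ⟨y, hy1, hy2⟩
      obtain ⟨t, ht0, ht⟩ := (hB e).mp he
      obtain ⟨Y, hY⟩ := exists_bound t K
      rcases num_or_le hS Y y with ⟨k, -, rfl⟩ | hle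
      · exact heA ((hA e).mpr (true_of_alpha hS k1 k2 hy1))
      · exact hy2 (alpha_of_true hS k3 k4 ht0 ht (fun i _ hi => le_trans_num hS (hY i hi) hle))

end Pool.Agent.Helper344.SB.PAA
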