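import Mathlib
import Pool.Agent.Helper344.SBModel6
import Pool.Agent.Helper344.SBHigh
import Pool.Agent.Helper344.SBPA
import Pool.Agent.Helper344.DPRM

set_option autoImplicit false

namespace Pool.Agent.Helper344.SB

open Pool.Agent.Helper344.Blum
open Nat.Partrec (Code)

/-- the computable complete theories of infinite structures all of whose types are computable -/
def Idx : Type := {p : Lang × Set Fm // ∃ (M : Type) (_ : Infinite M) (S : Str M),
  Th p.1 S = p.2 ∧ CompSet (Th p.1 S) ∧ ∀ (n : ℕ) (q : Set Fm), IsType p.1 S n q → CompSet q}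

theorem countable_lang : Countable Lang := by
  have h : Countable {f : ℕ → Option ℕ // Computable f} := countable_computable
  let g : Lang → {f : ℕ → Option ℕ // Computable f} × {f : ℕ → Option ℕ // Computable f} :=
    fun L => (⟨L.rel, L.comp_rel⟩, ⟨L.fn, L.comp_fn⟩)
  have hg : Function.Injective g := by
    rintro ⟨r, f, hr, hf⟩ ⟨r', f', hr', hf'⟩ e
    simp only [g, Prod.mk.injEq, Subtype.mk.injEq] at e
    obtain ⟨e1, e2⟩ := e
    subst e1 e2
    rfl
  exact hg.countable

theorem countable_idx : Countable Idx := by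
  have h1 : Countable Lang := countable_lang
  have h2 : Countable {f : ℕ → Bool // Computable f} := countable_computable
  have h3 : ∀ i : Idx, ∃ A : ℕ → Bool, Computable A ∧ ∀ φ, A (code φ) = true ↔ φ ∈ i.1.2 := by
    rintro ⟨⟨L, T⟩, M, _, S, hTS, ⟨A, hA, hA'⟩, _⟩
    exact ⟨A, hA, fun φ => by rw [← hTS]; exact hA' φ⟩
  choose A hA hA' using h3
  let g : Idx → Lang × {f : ℕ → Bool // Computable f} := fun i => (i.1.1, ⟨A i, hA i⟩)
  have hg : Function.Injective g := by
    intro i j e
    simp only [g, Prod.mk.injEq, Subtype.mk.injEq] at e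
    apply Subtype.ext
    apply Prod.ext e.1
    ext φ
    rw [← hA' i, ← hA' j, e.2]
  exact hg.countable

theorem not_pa {X : ℕ → Bool} (h : ∀ g, Reduces g X → ¬ Sep g) : ¬ PADegree X := by
  rintro ⟨M, S, hS, A, ⟨F, hF, hFA⟩, hA⟩
  obtain ⟨θ, hθc, hθ, hsep⟩ := PAA.pa_separation (fun p hp => DP.dprm hp)
  apply h (fun e => (A (code (θ e))).toNat)
  · exact ⟨fun X x => F X (code (θ x)), IsFunctional.comp_arg hF hθc, fun n => hFA _⟩
  · intro e
    obtain ⟨h1, h2⟩ := hsep M S hS e
    constructor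
    · intro h0
      have : A (code (θ e)) = true := (hA _).2 ⟨(hθ e).1, (hθ e).2, h1 h0⟩
      show (A (code (θ e))).toNat = 1
      rw [this]; rfl
    · intro h0
      have : A (code (θ e)) = false := by
        by_contra hne
        have h3 : A (code (θ e)) = true := by simpa using hne
        exact h2 h0 (fun _ => S.fn 0 []) (((hA _).1 h3).2.2 _)
      show (A (code (θ e))).toNat = 0
      rw [this]; rfl

theorem main_theorem : ∃ X : ℕ → Bool, SaturatedBounding X ∧ ¬ High X ∧ ¬ PADegree X := by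
  have hc : Countable Idx := countable_idx
  have hm : ∀ i : Idx, ∃ (tr : List Bool → Bool) (F : ℕ → List (ℕ → Bool) → (ℕ → Bool)),
      Good tr ∧ (∀ k s, F k s ∈ Paths tr) ∧
      ∀ (X : ℕ → Bool) (pos : ℕ → ℕ → ℕ), Computable₂ pos →
        (∀ k N, ∃ m, N ≤ m ∧ (fun l => X (pos m l)) =
          F k ((List.range m).map (fun i l => X (pos i l)))) →
        ∃ N : Str ℕ, Th i.1.1 N = i.1.2 ∧ Saturated i.1.1 N ∧ DiagramDec i.1.1 N X := by
    rintro ⟨⟨L, T⟩, M, hM, S, hTS, hT, htypes⟩
    obtain ⟨tr, F, h1, h2, h3⟩ := model_part L M S hT htypes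
    refine ⟨tr, F, h1, h2, fun X pos hpos hs => ?_⟩
    obtain ⟨N, hN⟩ := h3 X pos hpos hs
    exact ⟨N, hN.1.trans hTS, hN.2⟩
  choose tr F hgood hF hN using hm
  obtain ⟨X, h1, h2, h3⟩ := forcing tr hgood F hF
  refine ⟨X, ?_, HighA.not_high_of_dominated X h2, not_pa h3⟩
  intro L M hM S hT htypes
  obtain ⟨pos, hpos, _, hstrat⟩ := h1 ⟨(L, Th L S), M, hM, S, rfl, hT, htypes⟩
  exact hN _ X pos hpos hstrat

end Pool.Agent.Helper344.SB
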